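import Pool.Agent.OID.Stmts3

/-!
# Project OID, module AD: generic `p`-adic units (helper63)
-/

namespace OID

open Polynomial

namespace AD

section loc

variable {p : ℕ} [hp : Fact p.Prime]

theorem toZMod_zero_iff (a : ℤ_[p]) : PadicInt.toZMod a = 0 ↔ ‖a‖ < 1 := by
  rw [← RingHom.mem_ker, PadicInt.ker_toZMod, IsLocalRing.mem_maximalIdeal, PadicInt.mem_nonunits]

/-- integral polynomials with a unit coefficient -/
def Ok (f : ℚ_[p][X]) : Prop := (∀ n, ‖f.coeff n‖ ≤ 1) ∧ ∃ n, ‖f.coeff n‖ = 1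

theorem bad (f : ℚ_[p][X]) (hf : Ok f) : ∃ S : Finset (ZMod p), S.card ≤ f.natDegree ∧
    ∀ t : ℤ_[p], PadicInt.toZMod t ∉ S → ‖f.eval (t : ℚ_[p])‖ = 1 := by
  classical
  obtain ⟨G, hG⟩ : ∃ G : ℤ_[p][X], G.map (PadicInt.Coe.ringHom (p := p)) = f := by
    rw [← mem_lifts, lifts_iff_coeff_lifts]
    exact fun n => ⟨⟨f.coeff n, hf.1 n⟩, rfl⟩
  have hinj : Function.Injective (PadicInt.Coe.ringHom (p := p)) := fun a b h => PadicInt.ext h
  have hcoeff : ∀ n, ((G.coeff n : ℤ_[p]) : ℚ_[p]) = f.coeff n := fun n => by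
    rw [← hG, coeff_map]
    rfl
  set H : (ZMod p)[X] := G.map PadicInt.toZMod with hH
  have hne : H ≠ 0 := by
    obtain ⟨n, hn⟩ := hf.2
    intro h0
    have h1 : H.coeff n = 0 := by rw [h0, coeff_zero]
    rw [hH, coeff_map, toZMod_zero_iff, PadicInt.norm_def, hcoeff n, hn] at h1
    exact lt_irrefl _ h1
  refine ⟨H.roots.toFinset, ?_, fun t ht => ?_⟩
  · calc H.roots.toFinset.card ≤ H.roots.card := Multiset.toFinset_card_le _
      _ ≤ H.natDegree := card_roots' _
      _ ≤ G.natDegree := natDegree_map_le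
      _ = f.natDegree := by rw [← hG, natDegree_map_eq_of_injective hinj]
  · rw [Multiset.mem_toFinset, mem_roots hne, IsRoot.def, hH, eval_map, eval₂_at_apply,
      toZMod_zero_iff, not_lt] at ht
    have h2 : f.eval (t : ℚ_[p]) = ((G.eval t : ℤ_[p]) : ℚ_[p]) := by
      rw [← hG, eval_map]
      exact eval₂_at_apply (PadicInt.Coe.ringHom (p := p)) t
    rw [h2, ← PadicInt.norm_def]
    exact le_antisymm (PadicInt.norm_le_one _) ht

theorem point (Z : Set ℚ_[p]) (hZ : Z.Countable) (S : Finset (ZMod p)) (hS : S.card + 1 < p) :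
    ∃ t : ℤ_[p], ‖(t : ℚ_[p])‖ = 1 ∧ (t : ℚ_[p]) ∉ Z ∧ PadicInt.toZMod t ∉ S := by
  classical
  have : NeZero p := ⟨hp.out.ne_zero⟩
  obtain ⟨c, hc⟩ : ∃ c : ZMod p, c ∉ insert 0 S := by
    by_contra hcon
    push Not at hcon
    have h1 : (insert (0 : ZMod p) S).card = p := by
      rw [Finset.eq_univ_iff_forall.2 hcon, Finset.card_univ, ZMod.card]
    have h2 := Finset.card_insert_le (0 : ZMod p) S
    omega
  rw [Finset.mem_insert, not_or] at hc
  obtain ⟨c0, rfl⟩ := ZMod.ringHom_surjective (PadicInt.toZMod (p := p)) c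
  have hc0 : ‖c0‖ = 1 := by
    have := hc.1
    rw [toZMod_zero_iff, not_lt] at this
    exact le_antisymm (PadicInt.norm_le_one _) this
  have hd : Dense Zᶜ := hZ.dense_compl ℚ_[p]
  obtain ⟨t, ht1, ht2⟩ := hd.exists_mem_open (U := Metric.ball (c0 : ℚ_[p]) 1) Metric.isOpen_ball
    ⟨c0, Metric.mem_ball_self one_pos⟩
  rw [Metric.mem_ball, dist_eq_norm] at ht2
  have hle : ‖t‖ ≤ 1 := by
    have h3 : t = (t - c0) + c0 := by ring
    rw [h3]
    refine (Padic.nonarchimedean _ _).trans (max_le ht2.le ?_)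
    exact PadicInt.norm_le_one c0
  have hz : PadicInt.toZMod (⟨t, hle⟩ : ℤ_[p]) = PadicInt.toZMod c0 := by
    rw [← sub_eq_zero, ← map_sub, toZMod_zero_iff, PadicInt.norm_def]
    exact ht2
  refine ⟨⟨t, hle⟩, ?_, ht1, by rw [hz]; exact hc.2⟩
  have h4 := hc.1
  rw [← hz, toZMod_zero_iff, not_lt] at h4
  exact le_antisymm hle h4

end loc

/-- the `p`-component of the elements of `A` -/
noncomputable def pr (A : Subalgebra ℚ F) (p : Nat.Primes) : A →+* ℚ_[(p : ℕ)] :=
  ((Pi.evalRingHom (fun p : Nat.Primes => ℚ_[(p : ℕ)]) p).comp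
    (RingHom.snd ℝ* (∀ p : Nat.Primes, ℚ_[(p : ℕ)]))).comp (algebraMap A F)

theorem pr_apply (A : Subalgebra ℚ F) (p : Nat.Primes) (a : A) : pr A p a = (a : F).2 p := rfl

theorem aeval_snd (A : Subalgebra ℚ F) (p : Nat.Primes) (g : A[X]) (z : F) :
    (aeval z g).2 p = (g.map (pr A p)).eval (z.2 p) := by
  rw [aeval_def, eval_map]
  exact hom_eval₂ g (algebraMap A F) ((Pi.evalRingHom (fun p : Nat.Primes => ℚ_[(p : ℕ)]) p).comp
    (RingHom.snd ℝ* (∀ p : Nat.Primes, ℚ_[(p : ℕ)]))) z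

theorem map_ne (A : Subalgebra ℚ F) (hA : Nz A) (p : Nat.Primes) (g : A[X]) (hg : g ≠ 0) :
    g.map (pr A p) ≠ 0 := by
  intro h0
  apply hg
  refine Polynomial.ext fun n => ?_
  rw [coeff_zero]
  by_contra hne
  have h1 : (g.coeff n : F).2 p ≠ 0 :=
    (hA _ (g.coeff n).2 fun h => hne (by simpa using h)).1 p
  apply h1
  rw [← pr_apply, ← coeff_map, h0, coeff_zero]

end AD

open AD in
theorem t_AD : S_AD := by
  classical
  intro A hcount hA
  have : Countable A := hcount.to_subtype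
  have hcp : Countable A[X] := by
    rw [← Cardinal.mk_le_aleph0_iff]
    exact cardinalMk_le_max.trans (max_le (Cardinal.mk_le_aleph0_iff.2 inferInstance) le_rfl)
  obtain ⟨e, he⟩ := exists_surjective_nat A[X]
  let s : ℕ → ℕ := fun i => ∑ j ∈ Finset.range (i + 1), ((e j).natDegree + 1)
  have hs : ∀ i, i + 1 ≤ s i := by
    intro i
    calc i + 1 = ∑ j ∈ Finset.range (i + 1), 1 := by simp
      _ ≤ s i := Finset.sum_le_sum fun j _ => by omega
  -- the choice for one prime
  have hex : ∀ p : Nat.Primes, ∃ t : ℤ_[(p : ℕ)], ‖(t : ℚ_[(p : ℕ)])‖ = 1 ∧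
      (∀ g : A[X], g ≠ 0 → (g.map (pr A p)).eval (t : ℚ_[(p : ℕ)]) ≠ 0) ∧
      ∀ i, s i + 1 < p → Ok ((e i).map (pr A p)) →
        ‖((e i).map (pr A p)).eval (t : ℚ_[(p : ℕ)])‖ = 1 := by
    intro p
    have hb : ∀ i, ∃ S : Finset (ZMod p), S.card ≤ (e i).natDegree ∧
        (Ok ((e i).map (pr A p)) → ∀ t : ℤ_[(p : ℕ)], PadicInt.toZMod t ∉ S →
          ‖((e i).map (pr A p)).eval (t : ℚ_[(p : ℕ)])‖ = 1) := by
      intro i
      by_cases hok : Ok ((e i).map (pr A p))
      · obtain ⟨S, hS1, hS2⟩ := bad _ hok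
        exact ⟨S, hS1.trans natDegree_map_le, fun _ => hS2⟩
      · exact ⟨∅, by simp, fun h => absurd h hok⟩
    choose S hS1 hS2 using hb
    let I : Finset ℕ := (Finset.range p).filter fun i => s i + 1 < p
    have hI : ∀ i, s i + 1 < (p : ℕ) → i ∈ I := fun i hi => by
      have := hs i
      exact Finset.mem_filter.2 ⟨Finset.mem_range.2 (by omega), hi⟩
    have hcard : (I.biUnion S).card + 1 < p := by
      rcases I.eq_empty_or_nonempty with h0 | h0
      · rw [h0, Finset.biUnion_empty, Finset.card_empty]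
        exact lt_of_lt_of_le one_lt_two p.2.two_le
      · have hmem := Finset.max'_mem I h0
        have hlt := (Finset.mem_filter.1 hmem).2
        have hle : (I.biUnion S).card ≤ s (I.max' h0) := by
          refine Finset.card_biUnion_le.trans ?_
          calc ∑ i ∈ I, (S i).card ≤ ∑ i ∈ I, ((e i).natDegree + 1) :=
                Finset.sum_le_sum fun i _ => (hS1 i).trans (Nat.le_succ _)
            _ ≤ s (I.max' h0) := by
                refine Finset.sum_le_sum_of_subset fun i hi => ?_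
                rw [Finset.mem_range]
                have := Finset.le_max' I i hi
                omega
        omega
    have hZ : (⋃ g : {g : A[X] // g ≠ 0},
        {x : ℚ_[(p : ℕ)] | (g.1.map (pr A p)).eval x = 0}).Countable := by
      refine Set.countable_iUnion fun g => ?_
      have h1 : {x : ℚ_[(p : ℕ)] | (g.1.map (pr A p)).eval x = 0} ⊆
          ((g.1.map (pr A p)).roots.toFinset : Set ℚ_[(p : ℕ)]) := by
        intro x hx
        rw [Finset.mem_coe, Multiset.mem_toFinset, mem_roots (map_ne A hA p g.1 g.2)]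
        exact hx
      exact (Finset.countable_toSet _).mono h1
    obtain ⟨t, ht1, ht2, ht3⟩ := point _ hZ (I.biUnion S) hcard
    refine ⟨t, ht1, fun g hg h0 => ht2 (Set.mem_iUnion.2 ⟨⟨g, hg⟩, h0⟩), fun i hi hok => ?_⟩
    exact hS2 i hok t fun hmem => ht3 (Finset.mem_biUnion.2 ⟨i, hI i hi, hmem⟩)
  choose t ht1 ht2 ht3 using hex
  refine ⟨fun p => (t p : ℚ_[(p : ℕ)]), ht1, fun g hg x => ⟨fun p => ?_, ?_⟩⟩
  · rw [aeval_snd]
    exact ht2 p g hg
  · obtain ⟨i, rfl⟩ := he g
    have hfin : ({p : Nat.Primes | (p : ℕ) ≤ s i + 1} ∪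
        ⋃ n ∈ (e i).support, {p : Nat.Primes | ‖((e i).coeff n : F).2 p‖ ≠ 1}).Finite := by
      refine Set.Finite.union ?_ ?_
      · exact (Set.finite_Iic (s i + 1)).preimage Subtype.val_injective.injOn
      · refine Set.Finite.biUnion (Finset.finite_toSet _) fun n hn => ?_
        refine (hA _ ((e i).coeff n).2 fun h => ?_).2
        exact (mem_support_iff.1 (Finset.mem_coe.1 hn)) (by simpa using h)
    refine hfin.subset fun p hp => ?_
    by_contra hcon
    rw [Set.mem_union, not_or] at hcon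
    obtain ⟨h1, h2⟩ := hcon
    rw [Set.mem_ofPred_eq, not_le] at h1
    have h3 : ∀ n ∈ (e i).support, ‖((e i).coeff n : F).2 p‖ = 1 := by
      intro n hn
      by_contra h4
      exact h2 (Set.mem_biUnion hn h4)
    apply hp
    rw [aeval_snd]
    refine ht3 p i h1 ⟨fun n => ?_, ?_⟩
    · rw [coeff_map, pr_apply]
      by_cases hn : n ∈ (e i).support
      · exact (h3 n hn).le
      · rw [notMem_support_iff.1 hn]
        simp
    · obtain ⟨n, hn⟩ := nonempty_support_iff.2 hg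
      exact ⟨n, by rw [coeff_map, pr_apply]; exact h3 n hn⟩

end OID
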