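import Pool.Agent.OID.Stmts3

/-!
# OID, module ALG: the order of the ring
-/

set_option autoImplicit false

namespace OID

open Polynomial

namespace ALG

section

variable {M : Type} [CommRing M] [LinearOrder M] [IsStrictOrderedRing M]

/-- The values of the polynomial over the hyperreals at the elements of the ring. -/
theorem eval_e (e : M →+* ℝ*) (g : M[X]) (x : M) : (g.map e).eval (e x) = e (g.eval x) := by
  rw [eval_map, eval₂_at_apply]

/-- No root between two elements in the same position. -/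
theorem no_root (e : M →+* ℝ*) (he : StrictMono e) (disc : ∀ x : M, 0 < x → 1 ≤ x)
    (g : M[X]) (R : Finset ℝ*) (fl : ℝ* → M)
    (hfl : ∀ α ∈ R, e (fl α) ≤ α ∧ α < e (fl α) + 1)
    (hR : ∀ α, (g.map e).eval α = 0 → α ∈ R) (B : Finset M)
    (hB1 : ∀ α ∈ R, fl α ∈ B) (hB2 : ∀ α ∈ R, fl α + 1 ∈ B) (x y : M) (hxy : x < y)
    (hs : ∀ b ∈ B, (x < b ↔ y < b) ∧ (b < x ↔ b < y)) (α : ℝ*) (h1 : e x ≤ α) (h2 : α ≤ e y) :
    (g.map e).eval α ≠ 0 := by
  intro h0
  have hα := hR α h0
  obtain ⟨h3, h4⟩ := hfl α hα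
  have h5 : fl α ≤ y := he.le_iff_le.1 (h3.trans h2)
  have h6 : x < fl α + 1 := by
    apply he.lt_iff_lt.1
    rw [map_add, map_one]
    exact lt_of_le_of_lt h1 h4
  have h7 : y < fl α + 1 := (hs _ (hB2 α hα)).1.1 h6
  have h8 : fl α ≤ x := by
    by_contra h
    exact absurd ((hs _ (hB1 α hα)).1.1 (not_le.1 h)) (not_lt.2 h5)
  have h9 := disc (y - x) (sub_pos.2 hxy)
  linarith

theorem sign_same (hI : S_IVT) (e : M →+* ℝ*) (he : StrictMono e)
    (g : M[X]) (x y : M) (hxy : x < y)
    (hn : ∀ α : ℝ*, e x ≤ α → α ≤ e y → (g.map e).eval α ≠ 0) :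
    (0 ≤ g.eval x ↔ 0 ≤ g.eval y) := by
  have hle : e x ≤ e y := (he hxy).le
  have e0 : ∀ z : M, (g.map e).eval (e z) = e (g.eval z) := eval_e e g
  constructor
  · intro h
    by_contra h'
    rw [not_le] at h'
    obtain ⟨c, h1, h2, h3⟩ := hI (-(g.map e)) (e x) (e y) hle
      (by
        rw [eval_neg, e0, neg_nonpos, ← map_zero e]
        exact he.monotone h)
      (by
        rw [eval_neg, e0, neg_nonneg, ← map_zero e]
        exact he.monotone h'.le)
    apply hn c h1 h2
    rwa [eval_neg, neg_eq_zero] at h3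
  · intro h
    by_contra h'
    rw [not_le] at h'
    obtain ⟨c, h1, h2, h3⟩ := hI (g.map e) (e x) (e y) hle
      (by
        rw [e0, ← map_zero e]
        exact he.monotone h'.le)
      (by
        rw [e0, ← map_zero e]
        exact he.monotone h)
    exact hn c h1 h2 h3

theorem roots (hI : S_IVT) (e : M →+* ℝ*) (he : StrictMono e) (disc : ∀ x : M, 0 < x → 1 ≤ x)
    (hr : ∀ g : M[X], g ≠ 0 → ∀ α, (g.map e).eval α = 0 → ∃ x, e x ≤ α ∧ α < e x + 1)
    (g : M[X]) : ∃ B : Finset M, ∀ x y : M,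
      (∀ b ∈ B, (x < b ↔ y < b) ∧ (b < x ↔ b < y)) → (0 ≤ g.eval x ↔ 0 ≤ g.eval y) := by
  classical
  by_cases hg : g = 0
  · refine ⟨∅, fun x y _ => ?_⟩
    rw [hg, eval_zero, eval_zero]
  · have hg' : g.map e ≠ 0 := by
      rw [Ne, Polynomial.map_eq_zero_iff he.injective]
      exact hg
    let R : Finset ℝ* := (g.map e).roots.toFinset
    have hRm : ∀ α, α ∈ R ↔ (g.map e).eval α = 0 := by
      intro α
      simp only [R, Multiset.mem_toFinset]
      rw [mem_roots hg']
      exact Iff.rfl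
    have hch : ∀ α : ℝ*, ∃ x : M, α ∈ R → e x ≤ α ∧ α < e x + 1 := by
      intro α
      by_cases h : α ∈ R
      · obtain ⟨x, hx⟩ := hr g hg α ((hRm α).1 h)
        exact ⟨x, fun _ => hx⟩
      · exact ⟨0, fun h' => absurd h' h⟩
    choose fl hfl using hch
    refine ⟨R.image fl ∪ R.image fun α => fl α + 1, fun x y hs => ?_⟩
    have hB1 : ∀ α ∈ R, fl α ∈ R.image fl ∪ R.image fun α => fl α + 1 := fun α hα =>
      Finset.mem_union_left _ (Finset.mem_image_of_mem fl hα)
    have hB2 : ∀ α ∈ R, fl α + 1 ∈ R.image fl ∪ R.image fun α => fl α + 1 := fun α hα =>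
      Finset.mem_union_right _ (Finset.mem_image_of_mem (fun α => fl α + 1) hα)
    rcases lt_trichotomy x y with h | h | h
    · exact sign_same hI e he g x y h fun α h1 h2 =>
        no_root e he disc g R fl hfl (fun α h => (hRm α).2 h) _ hB1 hB2 x y h hs α h1 h2
    · rw [h]
    · exact (sign_same hI e he g y x h fun α h1 h2 =>
        no_root e he disc g R fl hfl (fun α h => (hRm α).2 h) _ hB1 hB2 y x h
          (fun b hb => ⟨(hs b hb).1.symm, (hs b hb).2.symm⟩) α h1 h2).symm

theorem unit_one (disc : ∀ x : M, 0 < x → 1 ≤ x) (u : M) (hu : IsUnit u) (h0 : 0 ≤ u) : u = 1 := by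
  obtain ⟨w, hw⟩ := hu.exists_right_inv
  have hu0 : 0 < u := by
    rcases h0.eq_or_lt with h | h
    · rw [← h, zero_mul] at hw
      exact absurd hw zero_ne_one
    · exact h
  have hw0 : 0 < w := by
    by_contra h
    have := mul_nonpos_of_nonneg_of_nonpos h0 (not_lt.1 h)
    rw [hw] at this
    exact absurd this (not_le.2 zero_lt_one)
  have h1 := disc u hu0
  have h2 := disc w hw0
  apply le_antisymm _ h1
  calc u = u * 1 := (mul_one u).symm
    _ ≤ u * w := mul_le_mul_of_nonneg_left h2 h0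
    _ = 1 := hw

theorem irr_of_isPr (disc : ∀ x : M, 0 < x → 1 ≤ x) (y : M) (hy : IsPr y) : Irreducible y := by
  have hy0 : 0 < y := lt_trans zero_lt_one hy.1
  rw [irreducible_iff]
  refine ⟨fun hu => ?_, fun a b hab => ?_⟩
  · have h := unit_one disc y hu hy0.le
    exact absurd hy.1 (by rw [h]; exact lt_irrefl 1)
  · by_cases ha : 0 ≤ a
    · have hb : 0 ≤ b := by
        by_contra hb
        have := mul_nonpos_of_nonneg_of_nonpos ha (not_le.1 hb).le
        rw [← hab] at this
        exact absurd hy0 (not_lt.2 this)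
      rcases hy.2 a b ha hb hab.symm with h | h
      · left
        rw [h]
        exact isUnit_one
      · right
        rw [h]
        exact isUnit_one
    · rw [not_le] at ha
      have hb : b ≤ 0 := by
        by_contra hb
        have := mul_neg_of_neg_of_pos ha (not_le.1 hb)
        rw [← hab] at this
        exact absurd hy0 (not_lt.2 this.le)
      rcases hy.2 (-a) (-b) (by linarith) (by linarith) (by rw [neg_mul_neg]; exact hab.symm)
        with h | h
      · left
        rw [← neg_neg a, h]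
        exact isUnit_one.neg
      · right
        rw [← neg_neg b, h]
        exact isUnit_one.neg

/-- The last part. -/
theorem main (hI : S_IVT) (e : M →+* ℝ*) (he : StrictMono e) (disc : ∀ x : M, 0 < x → 1 ≤ x)
    (hdom : IsDomain M) (hpid : IsPrincipalIdealRing M)
    (hr : ∀ g : M[X], g ≠ 0 → ∀ α, (g.map e).eval α = 0 → ∃ x, e x ≤ α ∧ α < e x + 1)
    (P : M) (hq : ∀ q : M, Prime q → |e q| ≤ Om) (hP : Prime P) (heP : e P = Om)
    (hb : ∀ x, ∃ k : ℕ, |e x| < Om ^ k) :
    Alg M ∧ (∀ n : ℕ, (n : M) < P) ∧ IsPr P ∧ (∀ y, IsPr y → y ≤ P) ∧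
      ∀ x : M, ∃ k : ℕ, x < P ^ k := by
  have hn : ∀ n : ℕ, (n : M) < P := by
    intro n
    apply he.lt_iff_lt.1
    rw [map_natCast, heP]
    exact_mod_cast Hyperreal.coe_lt_omega (n : ℝ)
  refine ⟨⟨disc, hpid, roots hI e he disc hr⟩, hn, ⟨?_, ?_⟩, ?_, ?_⟩
  · have := hn 1
    rwa [Nat.cast_one] at this
  · intro u v hu hv huv
    rcases hP.irreducible.isUnit_or_isUnit huv.symm with h | h
    · exact Or.inl (unit_one disc u h hu)
    · exact Or.inr (unit_one disc v h hv)
  · intro y hy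
    have h1 : Prime y := (irr_of_isPr disc y hy).prime
    apply he.le_iff_le.1
    rw [heP]
    exact (le_abs_self _).trans (hq y h1)
  · intro x
    obtain ⟨k, hk⟩ := hb x
    refine ⟨k, he.lt_iff_lt.1 ?_⟩
    rw [map_pow, heP]
    exact lt_of_le_of_lt (le_abs_self _) hk

end

end ALG

/-- ALG: the order. -/
theorem t_ALG : M_ALG := by
  intro hI hR
  obtain ⟨M, iR, e, P, hinj, hdisc, hdom, hpid, hr, hq, hP, heP, hb, hp⟩ := hR
  let iL : LinearOrder M := LinearOrder.lift' e hinj
  have hle : ∀ x y : M, e x ≤ e y ↔ x ≤ y := fun x y => Iff.rfl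
  have hlt : ∀ x y : M, e x < e y ↔ x < y := fun x y => Iff.rfl
  have iS : IsStrictOrderedRing M :=
    Function.Injective.isStrictOrderedRing e (map_zero e) (map_one e) (map_add e) (map_mul e)
      (fun {x y} => hle x y) (fun {x y} => hlt x y)
  have he : StrictMono e := fun x y h => (hlt x y).2 h
  have disc : ∀ x : M, 0 < x → 1 ≤ x := by
    intro x hx
    refine (hle 1 x).1 ?_
    rw [map_one]
    apply hdisc
    have := he hx
    rwa [map_zero] at this
  obtain ⟨h1, h2, h3, h4, h5⟩ := ALG.main hI e he disc hdom hpid hr P hq hP heP hb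
  exact ⟨M, iR, iL, iS, h1, ⟨e, he⟩, hp, P, h2, h3, h4, h5⟩

end OID
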