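import Pool.Agent.OID.Stmts3

/-!
# Module BASE: the first ring
-/

namespace OID

open Polynomial

namespace BASE

theorem coe_rat (r : ℚ) : ((r : ℝ) : ℝ*) = (r : ℝ*) :=
  map_ratCast (Hyperreal.coeRingHom : ℝ →+* ℝ*) r

theorem rat_lt_Om (r : ℚ) : (r : ℝ*) < Om := by
  rw [← coe_rat]
  exact Hyperreal.coe_lt_omega _

theorem Om_pos : 0 < Om := Hyperreal.omega_pos

theorem one_lt_Om : 1 < Om := by
  have h := rat_lt_Om 1
  rwa [Rat.cast_one] at h

theorem two_lt_Om : 2 < Om := by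
  have h := rat_lt_Om 2
  rwa [Rat.cast_ofNat] at h

theorem abs_rat_lt_Om (r : ℚ) : |algebraMap ℚ ℝ* r| < Om := by
  rw [eq_ratCast, ← Rat.cast_abs]
  exact rat_lt_Om _

theorem bound (g : ℚ[X]) : ∃ k : ℕ, |aeval Om g| < Om ^ k := by
  refine Polynomial.induction_on' g ?_ ?_
  · rintro p q ⟨k, hk⟩ ⟨l, hl⟩
    refine ⟨max k l + 1, ?_⟩
    rw [map_add]
    have h1 : Om ^ k ≤ Om ^ max k l := pow_le_pow_right₀ one_lt_Om.le (le_max_left _ _)
    have h2 : Om ^ l ≤ Om ^ max k l := pow_le_pow_right₀ one_lt_Om.le (le_max_right _ _)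
    have h3 : 0 < Om ^ max k l := pow_pos Om_pos _
    have h4 : 2 * Om ^ max k l < Om * Om ^ max k l := mul_lt_mul_of_pos_right two_lt_Om h3
    calc |aeval Om p + aeval Om q| ≤ |aeval Om p| + |aeval Om q| := abs_add_le _ _
      _ < Om ^ k + Om ^ l := add_lt_add hk hl
      _ ≤ Om ^ max k l + Om ^ max k l := add_le_add h1 h2
      _ = 2 * Om ^ max k l := (two_mul _).symm
      _ < Om * Om ^ max k l := h4
      _ = Om ^ (max k l + 1) := (pow_succ' _ _).symm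
  · intro n a
    refine ⟨n + 1, ?_⟩
    rw [aeval_monomial, abs_mul, abs_of_pos (pow_pos Om_pos n), pow_succ']
    exact mul_lt_mul_of_pos_right (abs_rat_lt_Om a) (pow_pos Om_pos n)

theorem infin (n : ℕ) : ∀ g : ℚ[X], g.natDegree = n → g ≠ 0 →
    (∃ ε : ℚ, 0 < ε ∧ (ε : ℝ*) ≤ |aeval Om g|) ∧
      (1 ≤ n → ∀ N : ℕ, (N : ℝ*) < |aeval Om g|) := by
  induction n with
  | zero =>
    intro g hg h0
    refine ⟨?_, fun h => absurd h (by omega)⟩
    have h1 : g = C (g.coeff 0) := eq_C_of_natDegree_eq_zero hg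
    refine ⟨|g.coeff 0|, ?_, ?_⟩
    · refine abs_pos.2 fun h2 => h0 ?_
      rw [h1, h2, C_0]
    · have h2 : aeval Om g = ((g.coeff 0 : ℚ) : ℝ*) :=
        (congrArg (aeval Om) h1).trans ((aeval_C _ _).trans (eq_ratCast _ _))
      rw [Rat.cast_abs, h2]
  | succ n ih =>
    intro g hg h0
    have h1 : g.divX * X + C (g.coeff 0) = g := divX_mul_X_add g
    have h2 : g.divX.natDegree = n := by
      rw [natDegree_divX_eq_natDegree_tsub_one, hg]
      rfl
    have h3 : g.divX ≠ 0 := by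
      intro h
      rw [h, zero_mul, zero_add] at h1
      rw [← h1, natDegree_C] at hg
      omega
    obtain ⟨ε, hε, h4⟩ := (ih g.divX h2 h3).1
    have h5 : aeval Om g = aeval Om g.divX * Om + ((g.coeff 0 : ℚ) : ℝ*) := by
      have h6 := congrArg (aeval Om) h1
      rw [map_add, map_mul, aeval_X, aeval_C, eq_ratCast] at h6
      exact h6.symm
    have h7 : ∀ N : ℕ, (N : ℝ*) < |aeval Om g| := by
      intro N
      have h8 : (((N + |g.coeff 0|) / ε : ℚ) : ℝ*) < Om := rat_lt_Om _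
      rw [Rat.cast_div, Rat.cast_add, Rat.cast_natCast, Rat.cast_abs] at h8
      have hε' : (0 : ℝ*) < ε := Rat.cast_pos.2 hε
      rw [div_lt_iff₀ hε'] at h8
      have h9 : Om * (ε : ℝ*) ≤ |aeval Om g.divX * Om| := by
        rw [abs_mul, abs_of_pos Om_pos, mul_comm]
        exact mul_le_mul_of_nonneg_right h4 Om_pos.le
      have h10 : |aeval Om g.divX * Om| ≤ |aeval Om g| + |((g.coeff 0 : ℚ) : ℝ*)| := by
        have h11 : aeval Om g.divX * Om = aeval Om g - ((g.coeff 0 : ℚ) : ℝ*) := by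
          rw [h5]
          ring
        rw [h11]
        exact abs_sub _ _
      linarith
    refine ⟨⟨1, one_pos, ?_⟩, fun _ => h7⟩
    have h12 := h7 1
    rw [Nat.cast_one] at h12
    rw [Rat.cast_one]
    exact h12.le

theorem cnt_poly : Countable ℚ[X] := by
  have h : Cardinal.mk ℚ[X] ≤ Cardinal.aleph0 :=
    (Polynomial.cardinalMk_le_max (R := ℚ)).trans (max_le Cardinal.mk_le_aleph0 le_rfl)
  exact Cardinal.mk_le_aleph0_iff.1 h

theorem fin_rat (r : ℚ) (hr : r ≠ 0) :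
    {p : Nat.Primes | ‖(r : ℚ_[(p : ℕ)])‖ ≠ 1}.Finite := by
  have hnum : r.num ≠ 0 := Rat.num_ne_zero.2 hr
  have h1 : {p : Nat.Primes | ‖(r : ℚ_[(p : ℕ)])‖ ≠ 1} ⊆
      (fun p : Nat.Primes => (p : ℕ)) ⁻¹' (((r.num.natAbs * r.den).divisors : Finset ℕ) : Set ℕ) := by
    intro p hp
    by_contra hc
    apply hp
    have hne : r.num.natAbs * r.den ≠ 0 := mul_ne_zero (Int.natAbs_ne_zero.2 hnum) r.den_ne_zero
    have h2 : ¬ (p : ℕ) ∣ r.num.natAbs * r.den := by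
      intro h3
      exact hc (Finset.mem_coe.2 (Nat.mem_divisors.2 ⟨h3, hne⟩))
    have h3 : ‖((r.num : ℤ) : ℚ_[(p : ℕ)])‖ = 1 := by
      rw [Padic.norm_intCast_eq_one_iff, Int.isCoprime_iff_gcd_eq_one]
      have h4 : Nat.Coprime (p : ℕ) r.num.natAbs :=
        (Nat.Prime.coprime_iff_not_dvd p.2).2 fun h => h2 (h.mul_right _)
      exact h4.symm
    have h4 : ‖((r.den : ℕ) : ℚ_[(p : ℕ)])‖ = 1 := by
      rw [Padic.norm_natCast_eq_one_iff]
      exact (Nat.Prime.coprime_iff_not_dvd p.2).2 fun h => h2 (h.mul_left _)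
    rw [Rat.cast_def, norm_div, h3, h4, div_one]
  refine Set.Finite.subset (Set.Finite.preimage ?_ (Finset.finite_toSet _)) h1
  intro p _ q _ h
  exact Subtype.ext h

end BASE

open BASE in
theorem t_BASE : M_BASE := by
  intro hAD hRAT hCONV
  -- the ring of the rational numbers
  have hbot : ((⊥ : Subalgebra ℚ F) : Set F).Countable := by
    rw [Algebra.coe_bot]
    exact Set.countable_range _
  have hnzbot : Nz ((⊥ : Subalgebra ℚ F) : Set F) := by
    intro a ha h0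
    obtain ⟨r, rfl⟩ := Algebra.mem_bot.1 ha
    have hr : r ≠ 0 := by
      rintro rfl
      exact h0 (map_zero _)
    refine ⟨fun p => ?_, ?_⟩
    · rw [(hRAT.1 r).2 p]
      exact Rat.cast_ne_zero.2 hr
    · have e : {p : Nat.Primes | ‖(algebraMap ℚ F r).2 p‖ ≠ 1} =
          {p : Nat.Primes | ‖(r : ℚ_[(p : ℕ)])‖ ≠ 1} := by
        ext p
        show ‖(algebraMap ℚ F r).2 p‖ ≠ 1 ↔ ‖(r : ℚ_[(p : ℕ)])‖ ≠ 1
        rw [(hRAT.1 r).2 p]
      rw [e]
      exact fin_rat r hr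
  obtain ⟨y, hy1, hy⟩ := hAD ⊥ hbot hnzbot
  obtain ⟨P, hP⟩ : ∃ P : F, P = (Om, y) := ⟨_, rfl⟩
  obtain ⟨φ, hφ⟩ : ∃ φ : ℚ[X] →ₐ[ℚ] F, φ = aeval P := ⟨_, rfl⟩
  have hφ1 : ∀ g : ℚ[X], (φ g).1 = aeval Om g := by
    intro g
    have h1 := Polynomial.aeval_algHom_apply
      (AlgHom.fst ℚ ℝ* (∀ p : Nat.Primes, ℚ_[(p : ℕ)])) P g
    rw [hφ]
    have h2 : (AlgHom.fst ℚ ℝ* (∀ p : Nat.Primes, ℚ_[(p : ℕ)])) P = Om := by
      rw [hP]
      rfl
    rw [h2] at h1
    exact h1.symm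
  have hnz : ∀ g : ℚ[X], g ≠ 0 → (∀ p, (φ g).2 p ≠ 0) ∧ {p | ‖(φ g).2 p‖ ≠ 1}.Finite := by
    intro g hg
    have h1 : g.map (algebraMap ℚ (⊥ : Subalgebra ℚ F)) ≠ 0 := Polynomial.map_ne_zero hg
    have h2 := hy (g.map (algebraMap ℚ (⊥ : Subalgebra ℚ F))) h1 Om
    rw [Polynomial.aeval_map_algebraMap, ← hP, ← hφ] at h2
    exact h2
  have hne : ∀ g : ℚ[X], g ≠ 0 → φ g ≠ 0 := by
    intro g hg h
    have h1 := (hnz g hg).1 ⟨2, Nat.prime_two⟩
    rw [h] at h1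
    exact h1 rfl
  have hinj : Function.Injective φ := by
    rw [injective_iff_map_eq_zero]
    intro g h
    by_contra hg
    exact hne g hg h
  have hX : φ X = P := by rw [hφ, aeval_X]
  have hPm : P ∈ φ.range := ⟨X, hX⟩
  have hNz : Nz (φ.range : Set F) := by
    rintro _ ⟨g, rfl⟩ h0
    exact hnz g fun h => h0 (by rw [h]; exact map_zero φ)
  have hInf : ∀ a ∈ φ.range, Inf a.1 ∨ ∃ r : ℚ, a = algebraMap ℚ F r := by
    rintro _ ⟨g, rfl⟩
    show Inf (φ g).1 ∨ ∃ r : ℚ, φ g = algebraMap ℚ F r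
    rcases Nat.eq_zero_or_pos g.natDegree with h | h
    · right
      refine ⟨g.coeff 0, ?_⟩
      have h1 : g = C (g.coeff 0) := eq_C_of_natDegree_eq_zero h
      rw [hφ]
      exact (congrArg (aeval P) h1).trans (aeval_C _ _)
    · left
      intro n
      rw [hφ1]
      have h0 : g ≠ 0 := by
        rintro rfl
        rw [natDegree_zero] at h
        omega
      exact (infin g.natDegree g rfl h0).2 h n
  have e : ℚ[X] ≃ₐ[ℚ] φ.range := AlgEquiv.ofInjective φ hinj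
  have hUFM : UniqueFactorizationMonoid φ.range :=
    e.toMulEquiv.uniqueFactorizationMonoid inferInstance
  refine ⟨P, φ.range, ⟨by rw [hP], fun p => by rw [hP]; exact hy1 p⟩, ?_, hNz, hInf, ?_, ?_, ?_⟩
  · have := cnt_poly
    have h1 : (φ.range : Set F) = Set.range φ := rfl
    rw [h1]
    exact Set.countable_range _
  · exact hCONV.2.1 φ.range hNz hInf hUFM
  · rintro _ ⟨g, rfl⟩
    obtain ⟨k, hk⟩ := bound g
    refine ⟨k, ?_⟩
    show |(φ g).1| < Om ^ k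
    rw [hφ1]
    exact hk
  · refine ⟨hPm, ?_⟩
    have h1 : (AlgEquiv.ofInjective φ hinj) X = ⟨P, hPm⟩ := Subtype.ext hX
    rw [← h1]
    have h2 := MulEquiv.prime_iff (p := (X : ℚ[X])) (AlgEquiv.ofInjective φ hinj)
    first
      | exact h2.1 prime_X
      | exact h2.2 prime_X

end OID
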