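import Pool.Agent.OID.Stmts3

/-!
# Module CHART: two charts
-/

set_option autoImplicit false

namespace OID

open Polynomial

namespace CHART

/-- nonzero elements of a chart are units -/
theorem isUnit_of_mem {A : Subalgebra ℚ F} {y : F} {q : A[X]}
    (hy : ∀ g : A[X], g ≠ 0 → IsUnit (aeval y g)) (hq : q ≠ 0) {r : F} (hr : r ∈ chart A y q)
    (h0 : r ≠ 0) : IsUnit r := by
  obtain ⟨m, g, h⟩ := hr
  have h1 : IsUnit (aeval y q ^ m) := (hy q hq).pow m
  have h2 : g ≠ 0 := by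
    rintro rfl
    rw [map_zero] at h
    exact h0 ((h1.mul_right_eq_zero).1 h)
  have h3 : IsUnit (aeval y q ^ m * r) := by
    rw [h]
    exact hy g h2
  exact isUnit_of_mul_isUnit_right h3

theorem isDomain_of {S : Subalgebra ℚ F} (h : ∀ r ∈ S, r ≠ 0 → IsUnit r) : IsDomain S := by
  have h1 : NoZeroDivisors S := by
    refine ⟨?_⟩
    intro a b hab
    by_cases ha : a = 0
    · exact Or.inl ha
    · right
      have h2 : (a : F) ≠ 0 := fun h3 => ha (Subtype.ext h3)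
      have h3 : (a : F) * (b : F) = 0 := by
        have := congrArg (Subtype.val) hab
        exact this
      exact Subtype.ext (((h a a.2 h2).mul_right_eq_zero).1 h3)
  have h2 : Nontrivial S := inferInstance
  exact NoZeroDivisors.to_isDomain S

theorem le_chart (A : Subalgebra ℚ F) (y : F) (q : A[X]) : A ≤ chart A y q := by
  intro a ha
  refine ⟨0, C ⟨a, ha⟩, ?_⟩
  rw [pow_zero, one_mul, aeval_C]
  rfl

theorem mem_chart (A : Subalgebra ℚ F) (y : F) (q : A[X]) : y ∈ chart A y q :=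
  ⟨0, X, by rw [pow_zero, one_mul, aeval_X]⟩

theorem aeval_mem_of {A S : Subalgebra ℚ F} (h : A ≤ S) {y : F} (hy : y ∈ S) (g : A[X]) :
    aeval y g ∈ S := by
  induction g using Polynomial.induction_on' with
  | add p q hp hq =>
    rw [map_add]
    exact add_mem hp hq
  | monomial n a =>
    rw [aeval_monomial]
    exact mul_mem (h a.2) (pow_mem hy n)

end CHART

open CHART

theorem t_CHART : M_CHART := by
  intro hNAG hCHP A _ _ y z q c p₀ hy hz hq hp hc hyz h1 h2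
  have hc0 : c ≠ 0 := by
    rintro rfl
    exact hc (dvd_zero _)
  obtain ⟨⟨hpm, hpp⟩, hmult, hdiv⟩ := hCHP A z c p₀ hz hp hc
  obtain ⟨s₁, hs₁, he₁⟩ := h1
  obtain ⟨s₂, hs₂, he₂⟩ := h2
  have hAy := le_chart A y q
  have hAz := le_chart A z c
  have hqz : aeval y q ∈ chart A z c := aeval_mem_of hAz hyz q
  have hqy : aeval y q ∈ chart A y q := aeval_mem_of hAy (mem_chart A y q) q
  -- domains
  have hDz : IsDomain (chart A z c) := isDomain_of fun r hr => isUnit_of_mem hz hc0 hr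
  have hDR : IsDomain ↥(chart A y q ⊓ chart A z c) :=
    isDomain_of fun r hr => isUnit_of_mem hy hq.ne_zero hr.1
  -- primality in the second chart
  have hqp : Prime (⟨aeval y q, hqz⟩ : chart A z c) := by
    have h3 : Associated (⟨(p₀ : F), hpm⟩ : chart A z c) ⟨aeval y q, hqz⟩ :=
      associated_of_dvd_dvd ⟨⟨s₁, hs₁⟩, Subtype.ext he₁⟩ ⟨⟨s₂, hs₂⟩, Subtype.ext he₂⟩
    exact h3.prime hpp
  -- descent
  have hdesc : ∀ r ∈ chart A y q, ∀ s ∈ chart A z c, r = aeval y q * s →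
      s ∈ chart A y q ⊓ chart A z c := by
    rintro r ⟨m, g, h⟩ s hs hrs
    refine ⟨⟨m + 1, g, ?_⟩, hs⟩
    rw [← h, hrs]
    ring
  have hqR : Prime (⟨aeval y q, hqy, hqz⟩ : ↥(chart A y q ⊓ chart A z c)) := by
    refine ⟨?_, ?_, ?_⟩
    · intro h
      have h3 : aeval y q = 0 := congrArg Subtype.val h
      exact hqp.ne_zero (Subtype.ext h3)
    · intro h
      obtain ⟨u, hu⟩ := isUnit_iff_exists_inv.1 h
      apply hqp.not_isUnit
      rw [isUnit_iff_exists_inv]
      have hu' : aeval y q * (u : F) = 1 := congrArg Subtype.val hu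
      exact ⟨⟨(u : F), u.2.2⟩, Subtype.ext hu'⟩
    · rintro a b ⟨w, hw⟩
      have hw' : (a : F) * (b : F) = aeval y q * (w : F) := congrArg Subtype.val hw
      have h3 : (⟨aeval y q, hqz⟩ : chart A z c) ∣ ⟨(a : F), a.2.2⟩ * ⟨(b : F), b.2.2⟩ :=
        ⟨⟨(w : F), w.2.2⟩, Subtype.ext hw'⟩
      rcases hqp.dvd_or_dvd h3 with ⟨v, hv⟩ | ⟨v, hv⟩
      · left
        have hv' : (a : F) = aeval y q * (v : F) := congrArg Subtype.val hv
        exact ⟨⟨(v : F), hdesc _ a.2.1 _ v.2 hv'⟩, Subtype.ext hv'⟩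
      · right
        have hv' : (b : F) = aeval y q * (v : F) := congrArg Subtype.val hv
        exact ⟨⟨(v : F), hdesc _ b.2.1 _ v.2 hv'⟩, Subtype.ext hv'⟩
  have hAR : A ≤ chart A y q ⊓ chart A z c := le_inf hAy hAz
  have hyR : y ∈ chart A y q ⊓ chart A z c := ⟨mem_chart A y q, hyz⟩
  -- the homomorphism
  let i : A[X] →+* ↥(chart A y q ⊓ chart A z c) :=
    (aeval y : A[X] →ₐ[A] F).toRingHom.codRestrict (chart A y q ⊓ chart A z c)
      (fun g => aeval_mem_of hAR hyR g)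
  have hi : ∀ g, ((i g : ↥(chart A y q ⊓ chart A z c)) : F) = aeval y g := fun _ => rfl
  have hinj : Function.Injective i := by
    rw [injective_iff_map_eq_zero]
    intro g hg
    by_contra hg0
    have h3 : aeval y g = 0 := by
      rw [← hi, hg]
      rfl
    have h4 := hy g hg0
    rw [h3] at h4
    exact not_isUnit_zero h4
  have hiq : i q = ⟨aeval y q, hqy, hqz⟩ := rfl
  obtain ⟨hU, hP⟩ := hNAG A[X] ↥(chart A y q ⊓ chart A z c) i hinj q hq (by rw [hiq]; exact hqR)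
    (by
      rintro ⟨r, ⟨m, g, h⟩, hr⟩
      exact ⟨m, g, Subtype.ext h⟩)
    (by
      intro r hr
      have hr' : (r : F) ≠ 0 := fun h3 => hr (Subtype.ext h3)
      obtain ⟨m, hm⟩ := hmult r r.2.2 hr'
      refine ⟨m, ?_⟩
      rintro ⟨w, hw⟩
      have hw' : (r : F) = aeval y q ^ m * (w : F) := congrArg Subtype.val hw
      refine hm ⟨s₁ ^ m * (w : F), mul_mem (pow_mem hs₁ m) w.2.2, ?_⟩
      rw [hw', he₁]
      ring)
  refine ⟨hAR, hyR, hDR, hU, ⟨⟨hqy, hqz⟩, hqR⟩, ?_⟩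
  intro π hπ hπp
  have h3 : Prime (C π : A[X]) := prime_C_iff.2 hπ
  have h4 : i (C π) = ⟨(π : F), hAR π.2⟩ := by
    apply Subtype.ext
    rw [hi, aeval_C]
    rfl
  refine ⟨hAR π.2, ?_⟩
  rw [← h4]
  refine hP _ h3 ?_
  rintro ⟨w, hw⟩
  rw [h4] at hw
  have hw' : (π : F) = aeval y q * (w : F) := congrArg Subtype.val hw
  apply hπp
  refine hdiv π ⟨s₁ * (w : F), mul_mem hs₁ w.2.2, ?_⟩
  rw [hw', he₁]
  ring

end OID
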