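import Pool.Agent.OID.Stmts3

/-!
# Prime elements of `A` in a chart
-/

namespace OID

open Polynomial

namespace CHP

variable {A : Subalgebra ℚ F} {z : F} {c : A[X]}

theorem mem_chart {r : F} :
    r ∈ chart A z c ↔ ∃ (m : ℕ) (g : A[X]), aeval z c ^ m * r = aeval z g := Iff.rfl

theorem mem_of_aeval (g : A[X]) : aeval z g ∈ chart A z c :=
  ⟨0, g, by rw [pow_zero, one_mul]⟩

theorem aeval_inj (hu : ∀ g : A[X], g ≠ 0 → IsUnit (aeval z g)) {g g' : A[X]}
    (h : aeval z g = aeval z g') : g = g' := by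
  by_contra hne
  have h1 := hu (g - g') (sub_ne_zero.2 hne)
  have h2 : aeval z (g - g') = aeval z g - aeval z g' := map_sub (aeval z).toRingHom g g'
  rw [h2, h, sub_self] at h1
  exact not_isUnit_zero h1

variable [IsDomain A] {p₀ : A}

/-- divisibility by a power of `p₀` -/
theorem key (hu : ∀ g : A[X], g ≠ 0 → IsUnit (aeval z g)) (hp : Prime (C p₀ : A[X]))
    (hc : ¬ C p₀ ∣ c) {g : A[X]} {s : F} (hs : s ∈ chart A z c) {n : ℕ}
    (h : aeval z g = (p₀ : F) ^ n * s) : (C p₀ : A[X]) ^ n ∣ g := by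
  obtain ⟨m, g', hg'⟩ := hs
  have e1 : c ^ m * g = C p₀ ^ n * g' := by
    apply aeval_inj hu
    rw [map_mul, map_pow, h, map_mul, map_pow, aeval_C, ← hg']
    show _ = (p₀ : F) ^ n * _
    ring
  have hc' : ¬ (C p₀ : A[X]) ∣ c ^ m := fun h1 => hc (hp.dvd_of_dvd_pow h1)
  exact hp.pow_dvd_of_dvd_mul_left n hc' ⟨g', e1⟩

theorem key1 (hu : ∀ g : A[X], g ≠ 0 → IsUnit (aeval z g)) (hp : Prime (C p₀ : A[X]))
    (hc : ¬ C p₀ ∣ c) {g : A[X]} {s : F} (hs : s ∈ chart A z c)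
    (h : aeval z g = (p₀ : F) * s) : (C p₀ : A[X]) ∣ g := by
  have := key hu hp hc hs (n := 1) (by rwa [pow_one])
  rwa [pow_one] at this

/-- the converse -/
theorem conv (hu : ∀ g : A[X], g ≠ 0 → IsUnit (aeval z g)) (hc0 : c ≠ 0) {g : A[X]} {r : F}
    {m : ℕ} (hr : aeval z c ^ m * r = aeval z g) (h : (C p₀ : A[X]) ∣ g) :
    ∃ s ∈ chart A z c, r = (p₀ : F) * s := by
  obtain ⟨g1, rfl⟩ := h
  obtain ⟨v, hv⟩ := (hu c hc0).pow m
  refine ⟨↑v⁻¹ * aeval z g1, ⟨m, g1, ?_⟩, ?_⟩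
  · rw [← hv, ← mul_assoc, Units.mul_inv, one_mul]
  · have h1 : (v : F) * r = (v : F) * ((p₀ : F) * (↑v⁻¹ * aeval z g1)) := by
      rw [hv, hr, map_mul, aeval_C, ← hv]
      show (p₀ : F) * _ = _
      have : (v : F) * ((p₀ : F) * (↑v⁻¹ * aeval z g1)) =
          ((v : F) * ↑v⁻¹) * ((p₀ : F) * aeval z g1) := by ring
      rw [this, Units.mul_inv, one_mul]
    exact (Units.mul_right_inj v).1 h1

end CHP

open CHP in
theorem t_CHP : S_CHP := by
  intro A _ _ z c p₀ hu hp0 hc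
  have hp : Prime (C p₀ : A[X]) := prime_C_iff.2 hp0
  have hc0 : c ≠ 0 := by
    rintro rfl
    exact hc (dvd_zero _)
  have hmem : (p₀ : F) ∈ chart A z c := by
    have := mem_of_aeval (z := z) (c := c) (C p₀)
    rwa [aeval_C] at this
  refine ⟨⟨hmem, ?_, ?_, ?_⟩, ?_, ?_⟩
  · intro h
    apply hp0.ne_zero
    have h1 := congrArg Subtype.val h
    exact Subtype.ext h1
  · intro h
    obtain ⟨s, hs⟩ := isUnit_iff_exists_inv.1 h
    have h1 : (p₀ : F) * s = 1 := congrArg Subtype.val hs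
    have h2 := key1 hu hp hc (g := 1) s.2 (by rw [map_one, h1])
    exact hp.not_isUnit (isUnit_of_dvd_one h2)
  · rintro ⟨r, hr⟩ ⟨r', hr'⟩ ⟨s, hs⟩
    have h1 : r * r' = (p₀ : F) * s := congrArg Subtype.val hs
    obtain ⟨m, g, hg⟩ := id hr
    obtain ⟨m', g', hg'⟩ := id hr'
    have h2 : aeval z (g * g') = (p₀ : F) * (aeval z (c ^ (m + m')) * s) := by
      rw [map_mul, ← hg, ← hg', map_pow, pow_add]
      have : aeval z c ^ m * r * (aeval z c ^ m' * r') =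
        aeval z c ^ m * aeval z c ^ m' * (r * r') := by ring
      rw [this, h1]
      ring
    have h3 := key1 hu hp hc (mul_mem (mem_of_aeval _) s.2) h2
    rcases hp.dvd_or_dvd h3 with h4 | h4
    · left
      obtain ⟨s', hs', e⟩ := conv hu hc0 hg h4
      exact ⟨⟨s', hs'⟩, Subtype.ext e⟩
    · right
      obtain ⟨s', hs', e⟩ := conv hu hc0 hg' h4
      exact ⟨⟨s', hs'⟩, Subtype.ext e⟩
  · intro r hr hr0
    obtain ⟨k, g, hg⟩ := hr
    have hg0 : g ≠ 0 := by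
      rintro rfl
      rw [map_zero] at hg
      obtain ⟨v, hv⟩ := (hu c hc0).pow k
      rw [← hv] at hg
      exact hr0 ((Units.mul_right_eq_zero v).1 hg)
    obtain ⟨n, hn⟩ := FiniteMultiplicity.of_not_isUnit hp.not_isUnit hg0
    refine ⟨n + 1, ?_⟩
    rintro ⟨s, hs, e⟩
    apply hn
    refine key hu hp hc (mul_mem (mem_of_aeval (c ^ k)) hs) ?_
    rw [← hg, e, map_pow]
    ring
  · rintro π ⟨s, hs, e⟩
    have h1 := key1 hu hp hc (g := C π) hs (by rw [aeval_C]; exact e)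
    have h2 := C_dvd_iff_dvd_coeff _ _ |>.1 h1 0
    rwa [coeff_C_zero] at h2

end OID
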