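import Pool.Agent.OID.Stmts3

/-!
# Module CLO: closing off
-/

namespace OID

open Polynomial

namespace CLO

theorem Om_pos : (0 : ℝ*) < Om := Hyperreal.omega_pos

theorem nat_lt_Om (n : ℕ) : (n : ℝ*) < Om := by
  have := Hyperreal.coe_lt_omega (n : ℝ)
  exact_mod_cast this

theorem one_le_Om : (1 : ℝ*) ≤ Om := by
  have := (nat_lt_Om 1).le
  simpa using this

/-- the polynomials over a countable ring -/
theorem countable_poly (R : Type) [CommRing R] [Countable R] : Countable R[X] := by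
  rw [← Cardinal.mk_le_aleph0_iff]
  refine Polynomial.cardinalMk_le_max.trans (max_le ?_ le_rfl)
  exact Cardinal.mk_le_aleph0_iff.2 inferInstance

theorem rat_lower (r : ℚ) (hr : r ≠ 0) : ∃ n : ℕ, (1 : ℝ*) ≤ n * |(r : ℝ*)| := by
  obtain ⟨n, hn⟩ := exists_nat_ge (1 / |r|)
  refine ⟨n, ?_⟩
  have h1 : (1 : ℚ) ≤ n * |r| := by
    rwa [div_le_iff₀ (abs_pos.2 hr)] at hn
  have h2 : ((1 : ℚ) : ℝ*) ≤ ((n * |r| : ℚ) : ℝ*) := by exact_mod_cast h1
  push_cast at h2
  exact h2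

/-- a nonzero element of a good ring is not infinitely small -/
theorem lower {P : F} {A : Subalgebra ℚ F} (hA : Good P A) {a : F} (ha : a ∈ A) (h0 : a ≠ 0) :
    ∃ n : ℕ, (1 : ℝ*) ≤ n * |a.1| := by
  rcases hA.inf a ha with h | ⟨r, rfl⟩
  · refine ⟨1, ?_⟩
    have := h 1
    simp only [Nat.cast_one, one_mul] at this ⊢
    exact this.le
  · have hr : r ≠ 0 := by
      rintro rfl
      exact h0 (map_zero _)
    obtain ⟨n, hn⟩ := rat_lower r hr
    refine ⟨n, ?_⟩
    have e : (algebraMap ℚ F r).1 = (r : ℝ*) := by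
      change (algebraMap ℚ ℝ* r) = r
      exact eq_ratCast _ r
    rw [e]
    exact hn

theorem fst_ne {P : F} {A : Subalgebra ℚ F} (hA : Good P A) {a : F} (ha : a ∈ A) (h0 : a ≠ 0) :
    a.1 ≠ 0 := by
  intro h
  obtain ⟨n, hn⟩ := lower hA ha h0
  rw [h, abs_zero, mul_zero] at hn
  exact absurd hn (not_le.2 one_pos)

theorem toR_inj {P : F} {A : Subalgebra ℚ F} (hA : Good P A) : Function.Injective (toR A) := by
  rw [injective_iff_map_eq_zero]
  intro a ha
  by_contra h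
  exact fst_ne hA a.2 (fun h' => h (Subtype.ext h')) ha

/-- the bound for the roots of a polynomial -/
theorem root_bound (G : ℝ*[X]) (hG : G ≠ 0) (α : ℝ*) (h : G.eval α = 0) (h1 : 1 ≤ |α|) :
    |G.leadingCoeff| * |α| ≤ ∑ i ∈ Finset.range G.natDegree, |G.coeff i| := by
  have hd : G.natDegree ≠ 0 := by
    intro hd
    rw [Polynomial.eq_C_of_natDegree_eq_zero hd, eval_C] at h
    apply hG
    rw [Polynomial.eq_C_of_natDegree_eq_zero hd, h, C_0]
  obtain ⟨d, hd'⟩ := Nat.exists_eq_succ_of_ne_zero hd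
  have e := Polynomial.eval_eq_sum_range (p := G) α
  rw [h, hd', Finset.sum_range_succ] at e
  have e1 : G.coeff (d + 1) * α ^ (d + 1) = - ∑ i ∈ Finset.range (d + 1), G.coeff i * α ^ i := by
    linear_combination -e
  have e2 : |G.leadingCoeff| * |α| ^ (d + 1) ≤
      (∑ i ∈ Finset.range (d + 1), |G.coeff i|) * |α| ^ d := by
    have e3 : G.leadingCoeff = G.coeff (d + 1) := by rw [Polynomial.leadingCoeff, hd']
    rw [e3, ← abs_pow, ← abs_mul, e1, abs_neg]
    refine (Finset.abs_sum_le_sum_abs _ _).trans ?_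
    rw [Finset.sum_mul]
    refine Finset.sum_le_sum fun i hi => ?_
    rw [abs_mul, abs_pow]
    refine mul_le_mul_of_nonneg_left ?_ (abs_nonneg _)
    exact pow_le_pow_right₀ h1 (by have := Finset.mem_range.1 hi; omega)
  rw [hd']
  have hp : 0 < |α| ^ d := pow_pos (one_pos.trans_le h1) d
  refine le_of_mul_le_mul_right ?_ hp
  calc |G.leadingCoeff| * |α| * |α| ^ d = |G.leadingCoeff| * |α| ^ (d + 1) := by ring
    _ ≤ _ := e2

theorem root_lt {P : F} {A : Subalgebra ℚ F} (hA : Good P A) (g : A[X]) (hg : g ≠ 0) (α : ℝ*)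
    (h : (g.map (toR A)).eval α = 0) : ∃ k : ℕ, |α| < Om ^ k := by
  rcases lt_or_ge |α| 1 with h1 | h1
  · exact ⟨0, by rwa [pow_zero]⟩
  have hG : g.map (toR A) ≠ 0 := (Polynomial.map_ne_zero_iff (toR_inj hA)).2 hg
  have h2 := root_bound _ hG α h h1
  rw [Polynomial.leadingCoeff_map_of_injective (toR_inj hA),
    Polynomial.natDegree_map_eq_of_injective (toR_inj hA)] at h2
  obtain ⟨n, hn⟩ := lower hA g.leadingCoeff.2
    (fun h' => hg (Polynomial.leadingCoeff_eq_zero.1 (Subtype.ext h')))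
  have hb : ∀ i, ∃ k : ℕ, |(g.coeff i : F).1| < Om ^ k := fun i => hA.bd _ (g.coeff i).2
  choose k hk using hb
  refine ⟨(Finset.range g.natDegree).sup k + 2, ?_⟩
  have h3 : ∑ i ∈ Finset.range g.natDegree, |(g.map (toR A)).coeff i| ≤
      g.natDegree * Om ^ ((Finset.range g.natDegree).sup k) := by
    have := Finset.sum_le_card_nsmul (Finset.range g.natDegree)
      (fun i => |(g.map (toR A)).coeff i|) (Om ^ ((Finset.range g.natDegree).sup k)) ?_
    · rwa [Finset.card_range, nsmul_eq_mul] at this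
    · intro i hi
      rw [Polynomial.coeff_map]
      refine (hk i).le.trans ?_
      exact pow_le_pow_right₀ one_le_Om (Finset.le_sup hi)
  have h4 : |α| ≤ n * (g.natDegree * Om ^ ((Finset.range g.natDegree).sup k)) := by
    have h5 : |(toR A) g.leadingCoeff| * |α| ≤
        g.natDegree * Om ^ ((Finset.range g.natDegree).sup k) := h2.trans h3
    have h6 : (1 : ℝ*) ≤ n * |(toR A) g.leadingCoeff| := hn
    calc |α| = 1 * |α| := (one_mul _).symm
      _ ≤ (n * |(toR A) g.leadingCoeff|) * |α| :=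
        mul_le_mul_of_nonneg_right h6 (abs_nonneg _)
      _ = n * (|(toR A) g.leadingCoeff| * |α|) := by ring
      _ ≤ _ := mul_le_mul_of_nonneg_left h5 (Nat.cast_nonneg _)
  refine h4.trans_lt ?_
  have hO : 0 < Om ^ ((Finset.range g.natDegree).sup k) := pow_pos Om_pos _
  have h7 : (n : ℝ*) * g.natDegree < Om * Om :=
    mul_lt_mul'' (nat_lt_Om n) (nat_lt_Om _) (Nat.cast_nonneg _) (Nat.cast_nonneg _)
  calc (n : ℝ*) * (g.natDegree * Om ^ ((Finset.range g.natDegree).sup k))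
      = (n * g.natDegree) * Om ^ ((Finset.range g.natDegree).sup k) := by ring
    _ < (Om * Om) * Om ^ ((Finset.range g.natDegree).sup k) := mul_lt_mul_of_pos_right h7 hO
    _ = Om ^ ((Finset.range g.natDegree).sup k + 2) := by ring

/-- the roots of the nonzero polynomials over `A` -/
def Rt (A : Subalgebra ℚ F) : Set ℝ* :=
  {α | ∃ g : A[X], g ≠ 0 ∧ (g.map (toR A)).eval α = 0}

theorem Rt_countable {P : F} {A : Subalgebra ℚ F} (hA : Good P A) : (Rt A).Countable := by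
  have hc : Countable A := hA.cnt
  have hc' : Countable A[X] := countable_poly A
  have e : Rt A = ⋃ g : A[X], {α | g ≠ 0 ∧ (g.map (toR A)).eval α = 0} := by
    ext α
    simp [Rt]
  rw [e]
  refine Set.countable_iUnion fun g => ?_
  by_cases hg : g = 0
  · simp [hg]
  · have hG : g.map (toR A) ≠ 0 := (Polynomial.map_ne_zero_iff (toR_inj hA)).2 hg
    refine (Set.Finite.subset (Finset.finite_toSet (g.map (toR A)).roots.toFinset) ?_).countable
    rintro α ⟨-, h⟩
    simp only [Finset.mem_coe, Multiset.mem_toFinset]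
    rw [Polynomial.mem_roots hG]
    exact h

/-- the requirements -/
def Rq (A : Subalgebra ℚ F) : A ⊕ ((A × A) ⊕ Rt A) → Subalgebra ℚ F → Prop
  | .inl f, B => ¬ NPr B f ∨ |(f : F).1| ≤ Om
  | .inr (.inl (p, a)), B => ¬ Pr B p ∨ (∃ c ∈ B, (a : F) = p * c) ∨
      ∃ u ∈ B, ∃ v ∈ B, (a : F) * u + p * v = 1
  | .inr (.inr α), B => ∃ a ∈ B, ∃ n : ℕ, |(α : ℝ*) - a.1| ≤ n

theorem Rq_mono (hC : S_CONV) {P : F} {A B B' : Subalgebra ℚ F} (hB : Good P B)
    (hB' : Good P B') (h1 : Ext A B) (h2 : Ext B B') (i : A ⊕ ((A × A) ⊕ Rt A)) (h : Rq A i B) :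
    Rq A i B' := by
  have key : ∀ q : F, q ∈ A → Pr B' q → Pr B q := fun q hq hp =>
    hC.2.2 P B B' hB hB' h2 q (h1.le hq) hp
  rcases i with f | ⟨p, a⟩ | α
  · rcases h with h | h
    · left
      intro hn
      exact h ⟨key _ f.2 hn.1, hn.2⟩
    · exact Or.inr h
  · rcases h with h | ⟨c, hc, h⟩ | ⟨u, hu, v, hv, h⟩
    · exact Or.inl fun hp => h (key _ p.2 hp)
    · exact Or.inr (Or.inl ⟨c, h2.le hc, h⟩)
    · exact Or.inr (Or.inr ⟨u, h2.le hu, v, h2.le hv, h⟩)
  · obtain ⟨a, ha, n, h⟩ := h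
    exact ⟨a, h2.le ha, n, h⟩

theorem Rq_step (hG : S_G) (hI : S_I) (hF : S_F) (hT : S_TR) {P : F} (hP : HP P)
    {A B : Subalgebra ℚ F} (hA : Good P A) (hB : Good P B) (h1 : Ext A B)
    (i : A ⊕ ((A × A) ⊕ Rt A)) : ∃ B', Good P B' ∧ Ext B B' ∧ Rq A i B' := by
  rcases i with f | ⟨p, a⟩ | α
  · by_cases h : ¬ NPr B f ∨ |(f : F).1| ≤ Om
    · exact ⟨B, hB, hT.1 B, h⟩
    · rw [not_or, not_not, not_le] at h
      obtain ⟨B', h2, h3, h4⟩ := hI P B hP hB f h.1 h.2
      exact ⟨B', h2, h3, Or.inl fun hn => h4 hn.1⟩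
  · by_cases h : ¬ Pr B p ∨ ∃ c ∈ B, (a : F) = p * c
    · refine ⟨B, hB, hT.1 B, ?_⟩
      rcases h with h | h
      · exact Or.inl h
      · exact Or.inr (Or.inl h)
    · rw [not_or, not_not] at h
      obtain ⟨B', h2, h3, h4⟩ := hF P B hP hB p a h.1 (h1.le a.2) h.2
      exact ⟨B', h2, h3, Or.inr (Or.inr h4)⟩
  · obtain ⟨g, hg, hα⟩ := α.2
    exact hG P B hP hB α (root_lt hA g hg _ hα)

/-- one round -/
theorem round (hC : S_CONV) (hG : S_G) (hI : S_I) (hF : S_F) (hT : S_TR) (hR : S_REQ) {P : F}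
    (hP : HP P) (A : Subalgebra ℚ F) (hA : Good P A) :
    ∃ A', Good P A' ∧ Ext A A' ∧ ∀ i, Rq A i A' := by
  have hc : Countable A := hA.cnt
  have hc' : Countable (Rt A) := (Rt_countable hA).to_subtype
  have hne : Nonempty (A ⊕ ((A × A) ⊕ Rt A)) := ⟨Sum.inl 0⟩
  obtain ⟨e, he⟩ := exists_surjective_nat (A ⊕ ((A × A) ⊕ Rt A))
  obtain ⟨A', h1, h2, h3⟩ := hR P hP A hA (fun n B => Rq A (e n) B)
    (fun n B B' hB hB' h1 h2 h => Rq_mono hC hB hB' h1 h2 (e n) h)
    (fun n B hB h1 => Rq_step hG hI hF hT hP hA hB h1 (e n))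
  refine ⟨A', h1, h2, fun i => ?_⟩
  obtain ⟨n, rfl⟩ := he i
  exact h3 n

end CLO

open CLO in
theorem t_CLO : M_CLO := by
  intro hC hB hG hI hF hT hU hR
  obtain ⟨P, A₀, hP, hA₀⟩ := hB
  have hr : ∀ A : {A : Subalgebra ℚ F // Good P A}, ∃ A' : {A : Subalgebra ℚ F // Good P A},
      Ext A.1 A'.1 ∧ ∀ i, Rq A.1 i A'.1 := by
    intro A
    obtain ⟨A', h1, h2, h3⟩ := round hC hG hI hF hT hR hP A.1 A.2
    exact ⟨⟨A', h1⟩, h2, h3⟩
  choose nx hnx using hr
  let B : ℕ → {A : Subalgebra ℚ F // Good P A} := fun n => nx^[n] ⟨A₀, hA₀⟩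
  have hBs : ∀ n, B (n + 1) = nx (B n) := fun n => Function.iterate_succ_apply' nx n _
  obtain ⟨A', hA', hE, hm⟩ := hU P hP (fun n => (B n).1) (fun n => (B n).2) (fun n => by
    have := (hnx (B n)).1
    rwa [← hBs n] at this)
  have hRq : ∀ n i, Rq (B n).1 i A' := by
    intro n i
    have h1 := hnx (B n)
    rw [← hBs n] at h1
    exact Rq_mono hC (B (n + 1)).2 hA' h1.1 (hE (n + 1)) i (h1.2 i)
  have hmono : ∀ m n, m ≤ n → (B m).1 ≤ (B n).1 := by
    intro m n h
    induction n, h using Nat.le_induction with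
    | base => exact le_rfl
    | succ n _ ih =>
      have := (hnx (B n)).1.le
      rw [← hBs n] at this
      exact ih.trans this
  refine ⟨P, A', hP, hA', ?_, ?_, ?_⟩
  · intro q hq
    obtain ⟨hqA, -⟩ := hq.1
    obtain ⟨n, hn⟩ := (hm q).1 hqA
    rcases hRq n (Sum.inl ⟨q, hn⟩) with h | h
    · exact absurd hq h
    · exact h
  · intro p a hp ha
    obtain ⟨hpA, -⟩ := id hp
    obtain ⟨n, hn⟩ := (hm p).1 hpA
    obtain ⟨m, hm'⟩ := (hm a).1 ha
    rcases hRq (max n m) (Sum.inr (Sum.inl (⟨p, hmono _ _ (le_max_left _ _) hn⟩,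
      ⟨a, hmono _ _ (le_max_right _ _) hm'⟩))) with h | h
    · exact absurd hp h
    · exact h
  · intro g hg α hα
    have hex : ∀ i, ∃ n, (g.coeff i : F) ∈ (B n).1 := fun i => (hm _).1 (g.coeff i).2
    choose N hN using hex
    set n := g.support.sup N with hn
    have hle : (B n).1 ≤ A' := (hE n).le
    have hmem : ∀ i, (g.coeff i : F) ∈ (B n).1 := by
      intro i
      by_cases hi : i ∈ g.support
      · exact hmono _ _ (Finset.le_sup hi) (hN i)
      · rw [Polynomial.notMem_support_iff.1 hi]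
        exact zero_mem _
    have hl : g ∈ Polynomial.lifts (Subalgebra.inclusion hle).toRingHom := by
      rw [Polynomial.lifts_iff_coeff_lifts]
      intro i
      exact ⟨⟨(g.coeff i : F), hmem i⟩, Subtype.ext rfl⟩
    obtain ⟨g', hg'⟩ := (Polynomial.mem_lifts _).1 hl
    have hg'0 : g' ≠ 0 := by
      rintro rfl
      rw [Polynomial.map_zero] at hg'
      exact hg hg'.symm
    have hα' : (g'.map (toR (B n).1)).eval α = 0 := by
      rw [← hg', Polynomial.map_map] at hα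
      exact hα
    exact hRq n (Sum.inr (Sum.inr ⟨α, g', hg'0, hα'⟩))

end OID
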