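import Pool.Agent.OID.Stmts3

/-!
# Module CONV: good rings and unique factorization
-/

namespace OID

namespace CONV

lemma fst_ne (hR : S_RAT) {A : Subalgebra ℚ F}
    (inf : ∀ a ∈ A, Inf a.1 ∨ ∃ r : ℚ, a = algebraMap ℚ F r) {a : F} (ha : a ∈ A) (h0 : a ≠ 0) :
    a.1 ≠ 0 := by
  rcases inf a ha with h | ⟨r, rfl⟩
  · intro h1
    have h2 := h 0
    rw [h1, abs_zero, Nat.cast_zero] at h2
    exact lt_irrefl _ h2
  · rw [(hR.1 r).1]
    intro h1
    have h2 : r = 0 := Rat.cast_eq_zero.mp h1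
    rw [h2, map_zero] at h0
    exact h0 rfl

lemma unit_of (hR : S_RAT) {A : Subalgebra ℚ F} (hnz : Nz A)
    (inf : ∀ a ∈ A, Inf a.1 ∨ ∃ r : ℚ, a = algebraMap ℚ F r) {a : F} (ha : a ∈ A) (h0 : a ≠ 0) :
    IsUnit a := by
  rw [Prod.isUnit_iff]
  refine ⟨isUnit_iff_ne_zero.mpr (fst_ne hR inf ha h0), ?_⟩
  rw [Pi.isUnit_iff]
  exact fun p => isUnit_iff_ne_zero.mpr ((hnz a ha h0).1 p)

lemma unit_rat (hR : S_RAT) {A : Subalgebra ℚ F}
    (inf : ∀ a ∈ A, Inf a.1 ∨ ∃ r : ℚ, a = algebraMap ℚ F r) {a b : F} (ha : a ∈ A)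
    (hb : b ∈ A) (hab : a * b = 1) : ∃ r : ℚ, r ≠ 0 ∧ a = algebraMap ℚ F r := by
  rcases inf a ha with h | ⟨r, rfl⟩
  · exfalso
    have h1 : a.1 * b.1 = 1 := congrArg Prod.fst hab
    have hmul : |a.1| * |b.1| = 1 := by rw [← abs_mul, h1, abs_one]
    rcases inf b hb with h' | ⟨r', rfl⟩
    · have h2 := h 1
      have h3 := h' 1
      rw [Nat.cast_one] at h2 h3
      have h4 : 1 < |a.1| * |b.1| := one_lt_mul_of_lt_of_le h2 h3.le
      rw [hmul] at h4
      exact lt_irrefl _ h4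
    · rw [(hR.1 r').1] at hmul h1
      have hr' : r' ≠ 0 := by
        rintro rfl
        rw [Rat.cast_zero, mul_zero] at h1
        exact zero_ne_one h1
      have hpos : 0 < |r'| := abs_pos.mpr hr'
      obtain ⟨n, hn⟩ := exists_nat_gt (|r'|⁻¹)
      have h2 : (1 : ℚ) < n * |r'| := by
        have h5 := mul_lt_mul_of_pos_right hn hpos
        rwa [inv_mul_cancel₀ hpos.ne'] at h5
      have h3 : (1 : ℝ*) < (n : ℝ*) * |(r' : ℝ*)| := by
        have h5 : ((1 : ℚ) : ℝ*) < ((n * |r'| : ℚ) : ℝ*) := Rat.cast_lt.mpr h2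
        rw [Rat.cast_one, Rat.cast_mul, Rat.cast_natCast, Rat.cast_abs] at h5
        exact h5
      have hpos' : 0 < |(r' : ℝ*)| := abs_pos.mpr (Rat.cast_ne_zero.mpr hr')
      have h4 := mul_lt_mul_of_pos_right (h n) hpos'
      rw [hmul] at h4
      exact lt_asymm h3 h4
  · refine ⟨r, ?_, rfl⟩
    rintro rfl
    rw [map_zero, zero_mul] at hab
    exact zero_ne_one hab

lemma domain (hR : S_RAT) {A : Subalgebra ℚ F} (hnz : Nz A)
    (inf : ∀ a ∈ A, Inf a.1 ∨ ∃ r : ℚ, a = algebraMap ℚ F r) : IsDomain A := by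
  have hz : NoZeroDivisors A := ⟨by
    intro x y hxy
    by_cases hx : x = 0
    · exact Or.inl hx
    · right
      have hu := unit_of hR hnz inf x.2 (fun h => hx (Subtype.ext h))
      have h1 : (x : F) * y = 0 := congrArg Subtype.val hxy
      exact Subtype.ext (hu.mul_right_eq_zero.mp h1)⟩
  exact NoZeroDivisors.to_isDomain A

lemma unit_alg {A : Subalgebra ℚ F} {r : ℚ} (hr : r ≠ 0) : IsUnit (algebraMap ℚ A r) :=
  (isUnit_iff_ne_zero.mpr hr).map (algebraMap ℚ A)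

lemma prod_pmap {A : Subalgebra ℚ F} (s : Multiset F) (hs : ∀ q ∈ s, q ∈ A) :
    (((s.pmap (fun q (hq : q ∈ A) => (⟨q, hq⟩ : A)) hs).prod : A) : F) = s.prod := by
  have h : A.val ((s.pmap (fun q (hq : q ∈ A) => (⟨q, hq⟩ : A)) hs).prod) = s.prod := by
    rw [map_multiset_prod, Multiset.map_pmap]
    congr 1
    have h2 : s.pmap (fun a (h : a ∈ A) => A.val (⟨a, h⟩ : A)) hs =
        s.pmap (fun a (_ : a ∈ A) => a) hs := rfl
    rw [h2, Multiset.pmap_eq_map, Multiset.map_id']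
  exact h

lemma ufm (hR : S_RAT) {P : F} {A : Subalgebra ℚ F} (hG : Good P A) :
    UniqueFactorizationMonoid A := by
  have hd : IsDomain A := domain hR hG.nz hG.inf
  refine UniqueFactorizationMonoid.of_exists_prime_factors ?_
  intro a ha
  have ha' : (a : F) ≠ 0 := fun h => ha (Subtype.ext h)
  obtain ⟨s, r, hs, h⟩ := hG.fac a a.2 ha'
  have hs' : ∀ q ∈ s, q ∈ A := by
    intro q hq
    obtain ⟨⟨h1, -⟩, -⟩ := hs q hq
    exact h1
  have hr : r ≠ 0 := by
    rintro rfl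
    rw [map_zero, zero_mul] at h
    exact ha' h
  refine ⟨s.pmap (fun q (hq : q ∈ A) => (⟨q, hq⟩ : A)) hs', ?_, ?_⟩
  · intro b hb
    rw [Multiset.mem_pmap] at hb
    obtain ⟨q, hq, rfl⟩ := hb
    obtain ⟨⟨h1, h2⟩, -⟩ := hs q hq
    exact h2
  · have hu := unit_alg (A := A) hr
    refine ⟨hu.unit, ?_⟩
    apply Subtype.ext
    change (((s.pmap (fun q (hq : q ∈ A) => (⟨q, hq⟩ : A)) hs').prod : A) : F) *
      algebraMap ℚ F r = a
    rw [prod_pmap, h, mul_comm]

lemma norm_prime (hR : S_RAT) {A : Subalgebra ℚ F} (hnz : Nz A) (w : A) (hw : Prime w) :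
    ∃ r : ℚ, r ≠ 0 ∧ NPr A (algebraMap ℚ F r * w) := by
  have hne : (w : F) ≠ 0 := fun h => hw.ne_zero (Subtype.ext h)
  obtain ⟨h1, h2⟩ := hnz w w.2 hne
  obtain ⟨r, hr, h3⟩ := hR.2.2.2 w h1 h2
  refine ⟨r, hr.ne', ⟨⟨mul_mem (A.algebraMap_mem r) w.2, ?_⟩, h3⟩⟩
  have hu := unit_alg (A := A) hr.ne'
  have h4 : Associated (algebraMap ℚ A r * w) w := associated_unit_mul_left w _ hu
  exact h4.symm.prime hw

lemma factors (hR : S_RAT) {A : Subalgebra ℚ F} (hnz : Nz A) (f : Multiset A)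
    (hf : ∀ b ∈ f, Prime b) :
    ∃ (s : Multiset F) (r : ℚ), (∀ q ∈ s, NPr A q) ∧
      ((f.prod : A) : F) = algebraMap ℚ F r * s.prod := by
  induction f using Multiset.induction_on with
  | empty =>
    refine ⟨0, 1, fun q hq => absurd hq (Multiset.notMem_zero q), ?_⟩
    rw [Multiset.prod_zero, Multiset.prod_zero, map_one, mul_one]
    rfl
  | cons w f ih =>
    obtain ⟨s, r, hs, h⟩ := ih (fun b hb => hf b (Multiset.mem_cons_of_mem hb))
    obtain ⟨r', hr', hN⟩ := norm_prime hR hnz w (hf w (Multiset.mem_cons_self _ _))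
    refine ⟨(algebraMap ℚ F r' * w) ::ₘ s, r * r'⁻¹, ?_, ?_⟩
    · intro q hq
      rcases Multiset.mem_cons.mp hq with rfl | hq
      · exact hN
      · exact hs q hq
    · rw [Multiset.prod_cons, Multiset.prod_cons]
      change (w : F) * ((f.prod : A) : F) = _
      have h5 : algebraMap ℚ F r'⁻¹ * algebraMap ℚ F r' = 1 := by
        rw [← map_mul, inv_mul_cancel₀ hr', map_one]
      rw [h, map_mul]
      calc (w : F) * (algebraMap ℚ F r * s.prod)
          = algebraMap ℚ F r * 1 * (w * s.prod) := by ring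
        _ = algebraMap ℚ F r * (algebraMap ℚ F r'⁻¹ * algebraMap ℚ F r') * (w * s.prod) := by
            rw [h5]
        _ = algebraMap ℚ F r * algebraMap ℚ F r'⁻¹ * (algebraMap ℚ F r' * w * s.prod) := by
            ring

end CONV

open CONV in
theorem t_CONV : M_CONV := by
  intro hR
  refine ⟨?_, ?_, ?_⟩
  · intro P A hG
    exact ⟨domain hR hG.nz hG.inf, ufm hR hG, fun a ha h0 => unit_of hR hG.nz hG.inf ha h0,
      fun a ha b hb hab => unit_rat hR hG.inf ha hb hab⟩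
  · intro A hnz inf hU a ha h0
    have hd : IsDomain A := domain hR hnz inf
    obtain ⟨f, hf, hass⟩ := UniqueFactorizationMonoid.exists_prime_factors (⟨a, ha⟩ : A)
      (fun h => h0 (congrArg Subtype.val h))
    obtain ⟨s, r, hs, h⟩ := factors hR hnz f hf
    obtain ⟨u, hu⟩ := hass
    have hu1 : ((u : A) : F) * ((u⁻¹ : Aˣ) : A) = 1 := congrArg Subtype.val u.mul_inv
    obtain ⟨r', -, hr'⟩ := unit_rat hR inf (u : A).2 ((u⁻¹ : Aˣ) : A).2 hu1
    have hu2 : ((f.prod : A) : F) * ((u : A) : F) = a := congrArg Subtype.val hu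
    refine ⟨s, r * r', hs, ?_⟩
    rw [← hu2, h, hr', map_mul]
    ring
  · intro P A A' hG hG' hE q hq hp
    obtain ⟨hq', hpr⟩ := hp
    have hd : IsDomain A := domain hR hG.nz hG.inf
    have hd' : IsDomain A' := domain hR hG'.nz hG'.inf
    have hU : UniqueFactorizationMonoid A := ufm hR hG
    refine ⟨hq, ?_⟩
    rw [← UniqueFactorizationMonoid.irreducible_iff_prime]
    have hirr : Irreducible (⟨q, hq'⟩ : A') := hpr.irreducible
    constructor
    · intro hu
      apply hirr.not_isUnit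
      exact hu.map (Subalgebra.inclusion hE.le)
    · intro x y hxy
      have h0 : q = (x : F) * y := congrArg Subtype.val hxy
      have h1 : (⟨q, hq'⟩ : A') = ⟨x, hE.le x.2⟩ * ⟨y, hE.le y.2⟩ := Subtype.ext h0
      have key : ∀ z : A, IsUnit (⟨z, hE.le z.2⟩ : A') → IsUnit z := by
        intro z hz
        obtain ⟨w, hw⟩ := hz.exists_right_inv
        have hw' : (z : F) * (w : F) = 1 := congrArg Subtype.val hw
        obtain ⟨r, hr, hr'⟩ := unit_rat hR hG'.inf (hE.le z.2) w.2 hw'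
        have h2 : z = algebraMap ℚ A r := Subtype.ext hr'
        rw [h2]
        exact unit_alg hr
      rcases hirr.isUnit_or_isUnit h1 with h | h
      · exact Or.inl (key x h)
      · exact Or.inr (key y h)

end OID
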