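import Pool.Agent.OID.Stmts4

/-!
# Density of the sets `Wn n Q` (module DEN)
-/

set_option autoImplicit false

namespace OID

namespace DEN

section basic

variable {M : Type} [CommRing M] [LinearOrder M] [IsStrictOrderedRing M]

theorem lt_of_not_std {x : M} (h : ¬ Std x) (k : ℕ) : (k : M) < |x| := by
  by_contra h1
  exact h ⟨k, not_lt.1 h1⟩

theorem abs_one_le (hA : Alg M) {x : M} (h : x ≠ 0) : 1 ≤ |x| := hA.disc _ (abs_pos.2 h)

theorem nat_of_lt (hA : Alg M) (k : ℕ) : ∀ x : M, 0 ≤ x → x < k → ∃ j : ℕ, j < k ∧ x = j := by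
  induction k with
  | zero =>
    intro x h0 h1
    rw [Nat.cast_zero] at h1
    exact absurd h1 (not_lt.2 h0)
  | succ k ih =>
    intro x h0 h1
    rcases lt_or_ge x (k : M) with h | h
    · obtain ⟨j, hj, rfl⟩ := ih x h0 h
      exact ⟨j, by omega, rfl⟩
    · refine ⟨k, by omega, ?_⟩
      push_cast at h1
      rcases (sub_nonneg.2 h).eq_or_lt with h2 | h2
      · linarith
      · have := hA.disc _ h2
        linarith

theorem nat_of_std (hA : Alg M) {x : M} (h0 : 0 ≤ x) (h : Std x) : ∃ j : ℕ, x = j := by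
  obtain ⟨k, hk⟩ := h
  rw [abs_of_nonneg h0] at hk
  obtain ⟨j, -, hj⟩ := nat_of_lt hA (k + 1) x h0 (by push_cast; linarith)
  exact ⟨j, hj⟩

/-- a nonzero multiple is not smaller -/
theorem abs_le_of_dvd (hA : Alg M) {a b : M} (h : a ∣ b) (hb : b ≠ 0) : |a| ≤ |b| := by
  obtain ⟨c, rfl⟩ := h
  have hc : c ≠ 0 := by
    rintro rfl
    exact hb (mul_zero a)
  rw [abs_mul]
  exact le_mul_of_one_le_right (abs_nonneg a) (abs_one_le hA hc)

variable {N : Set M → M}

theorem N_empty (hN : Cnt N) : N ∅ = 0 := by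
  have h := hN.seg 0 1 0 one_ne_zero le_rfl
  have h2 : Seg (0 : M) 1 0 = ∅ := by
    apply Set.eq_empty_of_forall_notMem
    rintro x ⟨w, h0, h1, -⟩
    exact absurd h1 (not_lt.2 h0)
  rwa [h2] at h

theorem Seg_one (hA : Alg M) (a : M) : Seg a 1 1 = {a} := by
  apply Set.Subset.antisymm
  · rintro x ⟨w, h0, h1, rfl⟩
    have h2 : w = 0 := by
      rcases h0.eq_or_lt with h3 | h3
      · exact h3.symm
      · exact absurd h1 (not_lt.2 (hA.disc w h3))
    rw [h2, mul_zero, add_zero]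
    rfl
  · intro x hx
    rw [Set.mem_singleton_iff] at hx
    exact ⟨0, le_rfl, zero_lt_one, by rw [hx, mul_zero, add_zero]⟩

theorem Bd_finset (s : Finset M) : Bd (s : Set M) :=
  ⟨∑ x ∈ s, |x|, fun x hx => Finset.single_le_sum (f := fun x : M => |x|)
    (fun _ _ => abs_nonneg _) (Finset.mem_coe.1 hx)⟩

theorem N_finset (hA : Alg M) (hB : S_TBOOL) (hN : Cnt N) (s : Finset M) :
    N (s : Set M) = (s.card : M) := by
  classical
  obtain ⟨tc, ti, tu, te, tuniv, tlt, tgt, tfin, tprog, tU, tI, taff⟩ := hB M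
  induction s using Finset.induction_on with
  | empty => rw [Finset.coe_empty, N_empty hN, Finset.card_empty, Nat.cast_zero]
  | insert a s ha ih =>
    have h1 : ((insert a s : Finset M) : Set M) = (({a} : Finset M) : Set M) ∪ (s : Set M) := by
      rw [Finset.coe_insert, Finset.coe_singleton, Set.insert_eq]
    have h2 : N (({a} : Finset M) : Set M) = 1 := by
      rw [Finset.coe_singleton, ← Seg_one hA a]
      exact hN.seg a 1 1 one_ne_zero zero_le_one
    rw [h1, hN.add _ _ (tfin _ (Finset.finite_toSet _)) (tfin _ (Finset.finite_toSet _))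
      (Bd_finset _) (Bd_finset _), h2, ih, Finset.card_insert_of_notMem ha]
    · push_cast
      ring
    · rw [Finset.disjoint_coe, Finset.disjoint_singleton_left]
      exact ha

theorem Wn_empty (n : M) : Wn n ∅ = Seg 0 1 n := by
  apply Set.Subset.antisymm
  · rintro x ⟨h0, h1, -⟩
    exact ⟨x, h0, h1, by ring⟩
  · rintro x ⟨w, h0, h1, rfl⟩
    have h2 : (0 : M) + 1 * w = w := by ring
    rw [h2]
    exact ⟨h0, h1, fun q hq => absurd hq (Finset.notMem_empty q)⟩

theorem base (hN : Cnt N) (n : M) (hn : 0 ≤ n) : N (Wn n ∅) = n := by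
  rw [Wn_empty]
  exact hN.seg 0 1 n one_ne_zero hn

/-- Removing one condition. -/
theorem remove (hA : Alg M) (hB : S_TBOOL) (hS : S_SEG) (hN : Cnt N) (n : M) (hn : 0 ≤ n)
    (q : M × M) (Q Q₁ : Finset (M × M)) (hQ₁ : ∀ p, p ∈ Q₁ ↔ p = q ∨ p ∈ Q) (hN₁ : NZ Q₁) :
    ∃ (m : M) (Q' : Finset (M × M)), 0 ≤ m ∧ NZ Q' ∧ Q'.card ≤ Q.card ∧
      N (Wn n Q) = N (Wn n Q₁) + N (Wn m Q') ∧
      (¬ Std q.2 → ¬ Std n → ∀ K : ℕ, K * m ≤ n) := by
  obtain ⟨tc, ti, tu, te, tuniv, tlt, tgt, tfin, tprog, tU, tI, taff⟩ := hB M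
  obtain ⟨s1, s2, s3, s4, s5, s6, s7⟩ := hS M hA
  have hQ : NZ Q := fun p hp => hN₁ p ((hQ₁ p).2 (Or.inr hp))
  have hq : q.2 ≠ 0 := hN₁ q ((hQ₁ q).2 (Or.inl rfl))
  obtain ⟨c, e, m, he, hm0, hmn, hseg⟩ := s2 0 1 n q.1 q.2 one_ne_zero hq hn
  obtain ⟨Q', hQ', hcard, hcond⟩ := s4 c e Q he hQ
  refine ⟨m, Q', hm0, hQ', hcard, ?_, ?_⟩
  · have hmem : ∀ x : M, (∃ w, 0 ≤ w ∧ w < m ∧ x = c + e * w) ↔
        (0 ≤ x ∧ x < n ∧ q.2 ∣ x - q.1) := by
      intro x
      constructor
      · intro hx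
        have h1 : x ∈ Seg 0 1 n ∩ {x | q.2 ∣ x - q.1} := by
          rw [hseg]
          exact hx
        obtain ⟨⟨w, h2, h3, h4⟩, h5⟩ := h1
        have h6 : x = w := by rw [h4]; ring
        rw [← h6] at h2 h3
        exact ⟨h2, h3, h5⟩
      · rintro ⟨h1, h2, h3⟩
        have h4 : x ∈ Seg 0 1 n ∩ {x | q.2 ∣ x - q.1} := ⟨⟨x, h1, h2, by ring⟩, h3⟩
        rw [hseg] at h4
        exact h4
    set A : Set M := (fun w => c + e * w) '' Wn m Q' with hAd
    have hAmem : ∀ x, x ∈ A ↔ x ∈ Wn n Q ∧ q.2 ∣ x - q.1 := by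
      intro x
      constructor
      · rintro ⟨w, ⟨h1, h2, h3⟩, rfl⟩
        obtain ⟨g1, g2, g3⟩ := (hmem (c + e * w)).1 ⟨w, h1, h2, rfl⟩
        exact ⟨⟨g1, g2, (hcond w).2 h3⟩, g3⟩
      · rintro ⟨⟨h1, h2, h3⟩, h4⟩
        obtain ⟨w, g1, g2, rfl⟩ := (hmem x).2 ⟨h1, h2, h4⟩
        exact ⟨w, ⟨g1, g2, (hcond w).1 h3⟩, rfl⟩
    obtain ⟨w1, w2⟩ := s6 m Q' hQ'
    obtain ⟨a1, a2, a3⟩ := hN.aff (Wn m Q') w1 w2 e 1 c (fun w => c + e * w) he one_ne_zero
      (fun x _ => by ring)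
    obtain ⟨b1, b2⟩ := s6 n Q₁ hN₁
    have hun : Wn n Q = Wn n Q₁ ∪ A := by
      ext x
      rw [Set.mem_union, hAmem]
      constructor
      · intro hx
        by_cases h1 : q.2 ∣ x - q.1
        · exact Or.inr ⟨hx, h1⟩
        · left
          refine ⟨hx.1, hx.2.1, fun p hp => ?_⟩
          rcases (hQ₁ p).1 hp with rfl | hp'
          · exact h1
          · exact hx.2.2 p hp'
      · rintro (h1 | h1)
        · exact ⟨h1.1, h1.2.1, fun p hp => h1.2.2 p ((hQ₁ p).2 (Or.inr hp))⟩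
        · exact h1.1
    have hdis : Disjoint (Wn n Q₁) A := by
      rw [Set.disjoint_left]
      intro x h1 h2
      exact h1.2.2 q ((hQ₁ q).2 (Or.inl rfl)) ((hAmem x).1 h2).2
    rw [hun, hN.add _ _ b1 a1 b2 a2 hdis, a3]
  · intro hsq hsn K
    have hKn : (K : M) < n := by
      have := lt_of_not_std hsn K
      rwa [abs_of_nonneg hn] at this
    have hK0 : (0 : M) ≤ K := Nat.cast_nonneg K
    rcases le_or_gt m 1 with h1 | h1
    · nlinarith
    · have h2 : 1 ≤ m - 1 := hA.disc _ (by linarith)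
      have hin : ∀ w : M, 0 ≤ w → w < m → 0 ≤ c + e * w ∧ c + e * w < n ∧
          q.2 ∣ c + e * w - q.1 := by
        intro w g1 g2
        have h1 : c + e * w ∈ Seg 0 1 n ∩ {x | q.2 ∣ x - q.1} := by
          rw [hseg]
          exact ⟨w, g1, g2, rfl⟩
        obtain ⟨⟨w', h2, h3, h4⟩, h5⟩ := h1
        have h6 : c + e * w = w' := by rw [h4]; ring
        rw [← h6] at h2 h3
        exact ⟨h2, h3, h5⟩
      obtain ⟨a1, a2, a3⟩ := hin 0 le_rfl (by linarith)
      obtain ⟨b1, b2, b3⟩ := hin 1 zero_le_one h1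
      obtain ⟨d1, d2, d3⟩ := hin (m - 1) (by linarith) (by linarith)
      have hdv : q.2 ∣ e := by
        have := dvd_sub b3 a3
        have h3 : c + e * 1 - q.1 - (c + e * 0 - q.1) = e := by ring
        rwa [h3] at this
      have hqe : |q.2| ≤ |e| := abs_le_of_dvd hA hdv he
      have hK2 : ((2 * K : ℕ) : M) < |q.2| := lt_of_not_std hsq (2 * K)
      push_cast at hK2
      rw [mul_zero, add_zero] at a1 a2
      have h4 : |e| * (m - 1) < n := by
        have h5 : |e * (m - 1)| < n := by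
          rw [abs_lt]
          constructor <;> linarith
        rwa [abs_mul, abs_of_nonneg (show 0 ≤ m - 1 by linarith)] at h5
      have h5 : 2 * (K : M) * (m - 1) ≤ |e| * (m - 1) :=
        mul_le_mul_of_nonneg_right (by linarith) (by linarith)
      nlinarith

/-- Sets with standard moduli. -/
theorem std (hA : Alg M) (hB : S_TBOOL) (hD : S_DIV) (hS : S_SEG) (hN : Cnt N) (n : M)
    (hn : 0 ≤ n) (hsn : ¬ Std n) (Q : Finset (M × M)) (hQ : NZ Q) (hst : ∀ q ∈ Q, Std q.2)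
    (hne : (Wn n Q).Nonempty) : ∃ C : ℕ, n ≤ C * N (Wn n Q) := by
  classical
  obtain ⟨tc, ti, tu, te, tuniv, tlt, tgt, tfin, tprog, tU, tI, taff⟩ := hB M
  obtain ⟨s1, s2, s3, s4, s5, s6, s7⟩ := hS M hA
  -- the common modulus
  have hL : ∃ L : ℕ, 0 < L ∧ ∀ q ∈ Q, q.2 ∣ (L : M) := by
    clear hne
    induction Q using Finset.induction_on with
    | empty => exact ⟨1, one_pos, fun q hq => absurd hq (Finset.notMem_empty q)⟩
    | insert q Q _ ih =>
      obtain ⟨L, hL0, hL⟩ := ih (fun p hp => hQ p (Finset.mem_insert_of_mem hp))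
        (fun p hp => hst p (Finset.mem_insert_of_mem hp))
      have h1 : Std |q.2| := by
        obtain ⟨k, hk⟩ := hst q (Finset.mem_insert_self _ _)
        exact ⟨k, by rwa [abs_abs]⟩
      obtain ⟨j, hj⟩ := nat_of_std hA (abs_nonneg q.2) h1
      have hj0 : 0 < j := by
        rcases Nat.eq_zero_or_pos j with h2 | h2
        · rw [h2, Nat.cast_zero, abs_eq_zero] at hj
          exact absurd hj (hQ q (Finset.mem_insert_self _ _))
        · exact h2
      refine ⟨j * L, Nat.mul_pos hj0 hL0, fun p hp => ?_⟩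
      rw [Nat.cast_mul]
      rcases Finset.mem_insert.1 hp with rfl | hp'
      · rw [← hj]
        exact dvd_mul_of_dvd_left ((dvd_abs _ _).2 dvd_rfl) _
      · exact dvd_mul_of_dvd_right (hL p hp') _
  obtain ⟨L, hL0, hL⟩ := hL
  have hLM : (0 : M) < L := Nat.cast_pos.2 hL0
  obtain ⟨t, s, hts, hs0, hsL⟩ := hD M hA n L hLM
  have ht : 1 ≤ t := by
    apply hA.disc
    by_contra h
    have h1 : t ≤ 0 := not_lt.1 h
    apply hsn
    refine ⟨L, ?_⟩
    rw [abs_of_nonneg hn, hts]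
    nlinarith
  -- the residue classes
  have hcls : ∀ r : ℕ, r < L → ∃ m : M, t ≤ m ∧
      {x : M | 0 ≤ x ∧ x < n ∧ (L : M) ∣ x - r} = Seg (r : M) L m := by
    intro r hr
    have hr' : (r : M) < L := Nat.cast_lt.2 hr
    have hr0 : (0 : M) ≤ r := Nat.cast_nonneg r
    have hw0 : ∀ w : M, 0 ≤ (r : M) + L * w ↔ 0 ≤ w := by
      intro w
      constructor
      · intro h
        by_contra h1
        have h2 : 1 ≤ -w := hA.disc _ (by linarith [not_le.1 h1])
        nlinarith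
      · intro h
        positivity
    have key : ∀ m : M, (∀ w : M, (r : M) + L * w < n ↔ w < m) →
        {x : M | 0 ≤ x ∧ x < n ∧ (L : M) ∣ x - r} = Seg (r : M) L m := by
      intro m hm
      apply Set.Subset.antisymm
      · rintro x ⟨h1, h2, w, h3⟩
        have h4 : x = r + L * w := by rw [← h3]; ring
        rw [h4] at h1 h2
        exact ⟨w, (hw0 w).1 h1, (hm w).1 h2, h4⟩
      · rintro x ⟨w, h1, h2, rfl⟩
        exact ⟨(hw0 w).2 h1, (hm w).2 h2, w, by ring⟩
    rcases lt_or_ge (r : M) s with h | h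
    · refine ⟨t + 1, by linarith, key _ fun w => ?_⟩
      rw [hts]
      constructor
      · intro h1
        by_contra h2
        have h3 : t + 1 ≤ w := not_lt.1 h2
        nlinarith
      · intro h1
        have h2 : w ≤ t := by
          by_contra h3
          have h4 : 1 ≤ w - t := hA.disc _ (by linarith [not_le.1 h3])
          linarith
        nlinarith
    · refine ⟨t, le_rfl, key _ fun w => ?_⟩
      rw [hts]
      constructor
      · intro h1
        by_contra h2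
        have h3 : t ≤ w := not_lt.1 h2
        nlinarith
      · intro h1
        have h2 : 1 ≤ t - w := hA.disc _ (by linarith)
        nlinarith
  have hU : ∀ I : Finset ℕ, (∀ r ∈ I, r < L) →
      TSet {x : M | 0 ≤ x ∧ x < n ∧ ∃ r ∈ I, (L : M) ∣ x - (r : ℕ)} ∧
      Bd {x : M | 0 ≤ x ∧ x < n ∧ ∃ r ∈ I, (L : M) ∣ x - (r : ℕ)} ∧
      0 ≤ N {x : M | 0 ≤ x ∧ x < n ∧ ∃ r ∈ I, (L : M) ∣ x - (r : ℕ)} ∧
      (I.Nonempty → t ≤ N {x : M | 0 ≤ x ∧ x < n ∧ ∃ r ∈ I, (L : M) ∣ x - (r : ℕ)}) := by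
    intro I
    induction I using Finset.induction_on with
    | empty =>
      intro _
      have h1 : {x : M | 0 ≤ x ∧ x < n ∧ ∃ r ∈ (∅ : Finset ℕ), (L : M) ∣ x - (r : ℕ)} = ∅ := by
        apply Set.eq_empty_of_forall_notMem
        rintro x ⟨-, -, r, hr, -⟩
        exact absurd hr (Finset.notMem_empty r)
      rw [h1]
      refine ⟨te, ⟨0, fun x hx => absurd hx (Set.notMem_empty x)⟩, by rw [N_empty hN], ?_⟩
      intro h
      exact absurd h Finset.not_nonempty_empty
    | insert r I hr ih =>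
      intro hI
      obtain ⟨i1, i2, i3, -⟩ := ih fun r' hr' => hI r' (Finset.mem_insert_of_mem hr')
      obtain ⟨m, hm1, hm2⟩ := hcls r (hI r (Finset.mem_insert_self _ _))
      have h1 : {x : M | 0 ≤ x ∧ x < n ∧ ∃ r' ∈ insert r I, (L : M) ∣ x - (r' : ℕ)} =
          Seg (r : M) L m ∪ {x : M | 0 ≤ x ∧ x < n ∧ ∃ r ∈ I, (L : M) ∣ x - (r : ℕ)} := by
        rw [← hm2]
        ext x
        constructor
        · rintro ⟨g1, g2, r', hr', g3⟩
          rcases Finset.mem_insert.1 hr' with rfl | hr''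
          · exact Or.inl ⟨g1, g2, g3⟩
          · exact Or.inr ⟨g1, g2, r', hr'', g3⟩
        · rintro (⟨g1, g2, g3⟩ | ⟨g1, g2, r', hr', g3⟩)
          · exact ⟨g1, g2, r, Finset.mem_insert_self _ _, g3⟩
          · exact ⟨g1, g2, r', Finset.mem_insert_of_mem hr', g3⟩
      have hdis : Disjoint (Seg (r : M) L m)
          {x : M | 0 ≤ x ∧ x < n ∧ ∃ r ∈ I, (L : M) ∣ x - (r : ℕ)} := by
        rw [← hm2, Set.disjoint_left]
        rintro x ⟨-, -, g3⟩ ⟨-, -, r', hr', g3'⟩
        have hrL := hI r (Finset.mem_insert_self _ _)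
        have hrL' := hI r' (Finset.mem_insert_of_mem hr')
        have hrM : (r : M) < L := Nat.cast_lt.2 hrL
        have hrM' : (r' : M) < L := Nat.cast_lt.2 hrL'
        have hr0 : (0 : M) ≤ r := Nat.cast_nonneg r
        have hr0' : (0 : M) ≤ r' := Nat.cast_nonneg r'
        have h2 : (L : M) ∣ (r : M) - r' := by
          have h3 := dvd_sub g3' g3
          have h4 : x - (r' : M) - (x - r) = r - r' := by ring
          rwa [h4] at h3
        have h3 : (r : M) - r' = 0 := by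
          by_contra h4
          have h5 := abs_le_of_dvd hA h2 h4
          rw [abs_of_pos hLM] at h5
          have h6 : |(r : M) - r'| < L := by
            rw [abs_lt]
            constructor <;> linarith
          exact absurd h5 (not_le.2 h6)
        have h4 : r = r' := Nat.cast_injective (sub_eq_zero.1 h3)
        rw [h4] at hr
        exact hr hr'
      obtain ⟨b1, b2⟩ := s5 (r : M) L m hLM.ne'
      have hNs : N (Seg (r : M) L m) = m := hN.seg _ _ _ hLM.ne' (by linarith)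
      have hadd := hN.add _ _ b1 i1 b2 i2 hdis
      rw [h1]
      refine ⟨tu _ _ b1 i1, ?_, ?_, ?_⟩
      · obtain ⟨c1, hc1⟩ := b2
        obtain ⟨c2, hc2⟩ := i2
        refine ⟨max c1 c2, ?_⟩
        rintro x (hx | hx)
        · exact le_max_of_le_left (hc1 x hx)
        · exact le_max_of_le_right (hc2 x hx)
      · rw [hadd, hNs]
        linarith
      · intro _
        rw [hadd, hNs]
        linarith
  -- the good residues
  set I : Finset ℕ := (Finset.range L).filter (fun r => ∀ q ∈ Q, ¬ q.2 ∣ (r : M) - q.1) with hI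
  have hWI : Wn n Q = {x : M | 0 ≤ x ∧ x < n ∧ ∃ r ∈ I, (L : M) ∣ x - (r : ℕ)} := by
    apply Set.Subset.antisymm
    · rintro x ⟨h1, h2, h3⟩
      obtain ⟨a, b, hab, hb0, hbL⟩ := hD M hA x L hLM
      obtain ⟨j, hj, rfl⟩ := nat_of_lt hA L b hb0 hbL
      have h4 : (L : M) ∣ x - (j : ℕ) := ⟨a, by rw [hab]; ring⟩
      refine ⟨h1, h2, j, Finset.mem_filter.2 ⟨Finset.mem_range.2 hj, fun q hq h5 => ?_⟩, h4⟩
      apply h3 q hq
      have h6 := dvd_add ((hL q hq).trans h4) h5
      have h7 : x - (j : M) + (j - q.1) = x - q.1 := by ring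
      rwa [h7] at h6
    · rintro x ⟨h1, h2, r, hr, h3⟩
      refine ⟨h1, h2, fun q hq h5 => ?_⟩
      apply (Finset.mem_filter.1 hr).2 q hq
      have h6 := dvd_sub h5 ((hL q hq).trans h3)
      have h7 : x - q.1 - (x - (r : M)) = r - q.1 := by ring
      rwa [h7] at h6
  have hIne : I.Nonempty := by
    obtain ⟨x, hx⟩ := hne
    rw [hWI] at hx
    obtain ⟨-, -, r, hr, -⟩ := hx
    exact ⟨r, hr⟩
  obtain ⟨-, -, -, h4⟩ := hU I fun r hr => Finset.mem_range.1 (Finset.mem_filter.1 hr).1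
  have h5 := h4 hIne
  rw [← hWI] at h5
  refine ⟨2 * L, ?_⟩
  push_cast
  have h7 : (L : M) * t ≤ L * N (Wn n Q) := mul_le_mul_of_nonneg_left h5 hLM.le
  have h8 : (L : M) ≤ L * t := le_mul_of_one_le_right hLM.le ht
  linarith

theorem main (hA : Alg M) (hB : S_TBOOL) (hD : S_DIV) (hS : S_SEG) (hN : Cnt N) (k : ℕ) :
    ∀ Q : Finset (M × M), Q.card ≤ k → NZ Q → ∀ n : M, 0 ≤ n →
      0 ≤ N (Wn n Q) ∧ N (Wn n Q) ≤ n ∧
        (¬ Std n → (Wn n Q).Nonempty → ∃ C : ℕ, n ≤ C * N (Wn n Q)) := by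
  classical
  have hbase : ∀ n : M, 0 ≤ n → 0 ≤ N (Wn n ∅) ∧ N (Wn n ∅) ≤ n ∧
      (¬ Std n → (Wn n ∅).Nonempty → ∃ C : ℕ, n ≤ C * N (Wn n ∅)) := by
    intro n hn
    rw [base hN n hn]
    exact ⟨hn, le_rfl, fun _ _ => ⟨1, by simp⟩⟩
  induction k with
  | zero =>
    intro Q hk hQ n hn
    have h1 : Q = ∅ := Finset.card_eq_zero.1 (by omega)
    subst h1
    exact hbase n hn
  | succ k ih =>
    intro Q hk hQ n hn
    rcases Q.eq_empty_or_nonempty with h1 | ⟨q0, hq0⟩
    · subst h1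
      exact hbase n hn
    -- removing one condition
    have hrem : ∀ q ∈ Q, ∃ (m : M) (Q' : Finset (M × M)), 0 ≤ m ∧
        N (Wn n (Q.erase q)) = N (Wn n Q) + N (Wn m Q') ∧
        (¬ Std q.2 → ¬ Std n → ∀ K : ℕ, K * m ≤ n) ∧ 0 ≤ N (Wn m Q') ∧ N (Wn m Q') ≤ m := by
      intro q hq
      obtain ⟨m, Q', h1, h2, h3, h4, h5⟩ := remove hA hB hS hN n hn q (Q.erase q) Q
        (fun p => by
          rw [Finset.mem_erase]
          constructor
          · intro hp
            by_cases hpq : p = q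
            · exact Or.inl hpq
            · exact Or.inr ⟨hpq, hp⟩
          · rintro (rfl | hp)
            · exact hq
            · exact hp.2) hQ
      have h6 : Q'.card ≤ k := by
        have := Finset.card_erase_of_mem hq
        omega
      obtain ⟨g1, g2, -⟩ := ih Q' h6 h2 m h1
      exact ⟨m, Q', h1, h4, h5, g1, g2⟩
    have hsm : ∀ q ∈ Q, (Q.erase q).card ≤ k := by
      intro q hq
      have := Finset.card_erase_of_mem hq
      omega
    have hnz : ∀ q, NZ (Q.erase q) := fun q p hp => hQ p (Finset.mem_of_mem_erase hp)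
    have hup : N (Wn n Q) ≤ n := by
      obtain ⟨m, Q', h1, h2, -, h4, -⟩ := hrem q0 hq0
      obtain ⟨-, g2, -⟩ := ih (Q.erase q0) (hsm q0 hq0) (hnz q0) n hn
      linarith
    have hden : ¬ Std n → (Wn n Q).Nonempty → ∃ C : ℕ, n ≤ C * N (Wn n Q) := by
      intro hsn hne
      by_cases hall : ∀ q ∈ Q, Std q.2
      · exact std hA hB hD hS hN n hn hsn Q hQ hall hne
      · push Not at hall
        obtain ⟨q, hq, hsq⟩ := hall
        obtain ⟨m, Q', h1, h2, h3, h4, h5⟩ := hrem q hq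
        obtain ⟨-, -, g3⟩ := ih (Q.erase q) (hsm q hq) (hnz q) n hn
        obtain ⟨C, hC⟩ := g3 hsn (by
          obtain ⟨x, hx⟩ := hne
          exact ⟨x, hx.1, hx.2.1, fun p hp => hx.2.2 p (Finset.mem_of_mem_erase hp)⟩)
        refine ⟨2 * C, ?_⟩
        have h6 := h3 hsq hsn (2 * C)
        push_cast at h6 ⊢
        have hC0 : (0 : M) ≤ C := Nat.cast_nonneg C
        have h7 : 2 * (C : M) * N (Wn m Q') ≤ 2 * C * m :=
          mul_le_mul_of_nonneg_left h5 (by linarith)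
        rw [h2] at hC
        nlinarith
    refine ⟨?_, hup, hden⟩
    by_cases hsn : Std n
    · -- a finite set
      obtain ⟨j, hj⟩ := nat_of_std hA hn hsn
      have hfin : (Wn n Q).Finite := by
        refine ((Finset.range j).finite_toSet.image (fun i : ℕ => (i : M))).subset ?_
        rintro x ⟨h1, h2, -⟩
        rw [hj] at h2
        obtain ⟨i, hi, rfl⟩ := nat_of_lt hA j x h1 h2
        exact ⟨i, Finset.mem_coe.2 (Finset.mem_range.2 hi), rfl⟩
      have h1 := N_finset hA hB hN hfin.toFinset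
      rw [Set.Finite.coe_toFinset] at h1
      rw [h1]
      exact Nat.cast_nonneg _
    · rcases (Wn n Q).eq_empty_or_nonempty with h1 | h1
      · rw [h1, N_empty hN]
      · obtain ⟨C, hC⟩ := hden hsn h1
        by_contra h2
        have h3 : N (Wn n Q) < 0 := not_le.1 h2
        have hC0 : (0 : M) ≤ C := Nat.cast_nonneg C
        have h4 := lt_of_not_std hsn 0
        rw [Nat.cast_zero, abs_of_nonneg hn] at h4
        nlinarith

end basic

end DEN

/-- **module DEN** -/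
theorem t_DEN : M_DEN := by
  intro hB hD _ hS M _ _ _ hA N hN n Q hQ hn
  obtain ⟨h1, -, h3⟩ := DEN.main hA hB hD hS hN Q.card Q le_rfl hQ n hn
  exact ⟨h1, h3⟩

end OID
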