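import Mathlib

/-!
# Open induction with divisibility, the pigeonhole principle, and a largest prime: definitions

* `Tm M`: terms in one variable with parameters from `M`, in the language with `+`, `-`, `×`, `gcd`,
  exact quotient, `⌊x / n⌋` for standard `n ≥ 1`, and definition by cases on `s ≤ t` and on `s ∣ t`;
* `Fm M`: quantifier-free formulas in one variable with parameters from `M`, in the language with
  these terms and the relations `=`, `≤`, `∣`;
* `OpenInduction M`: induction on the nonnegative elements for all formulas of `Fm M`;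
* `Pigeonhole M`: no function given by a term of `Tm M` is an injective map of `[0, a)` into `[0, b)`
  if `0 ≤ b < a`;
* `IsPr y`: `y` is prime in the sense of the problem.
-/

namespace OID

/-- Terms in one variable with parameters. `fdiv t n` stands for `⌊t / (n + 1)⌋`, `ifle s t u v` for
`u` if `s ≤ t` and `v` otherwise, `ifdvd s t u v` for `u` if `s ∣ t` and `v` otherwise. -/
inductive Tm (M : Type) : Type
  | var : Tm M
  | par : M → Tm M
  | add : Tm M → Tm M → Tm M
  | sub : Tm M → Tm M → Tm M
  | mul : Tm M → Tm M → Tm M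
  | gcd : Tm M → Tm M → Tm M
  | quo : Tm M → Tm M → Tm M
  | fdiv : Tm M → ℕ → Tm M
  | ifle : Tm M → Tm M → Tm M → Tm M → Tm M
  | ifdvd : Tm M → Tm M → Tm M → Tm M → Tm M

/-- Quantifier-free formulas in one variable with parameters. -/
inductive Fm (M : Type) : Type
  | eq : Tm M → Tm M → Fm M
  | le : Tm M → Tm M → Fm M
  | dvd : Tm M → Tm M → Fm M
  | not : Fm M → Fm M
  | and : Fm M → Fm M → Fm M

section

variable {M : Type} [CommRing M] [LinearOrder M]

open Classical in
/-- The greatest common divisor: the element `g ≥ 0` whose divisors are the common divisors of `a`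
and `b`. -/
noncomputable def gcdM (a b : M) : M :=
  if h : ∃ g : M, 0 ≤ g ∧ ∀ d : M, d ∣ g ↔ d ∣ a ∧ d ∣ b then h.choose else 0

open Classical in
/-- The exact quotient: the `c` with `a = b * c` if `b ≠ 0` and `b ∣ a`, and `0` otherwise. -/
noncomputable def quoM (a b : M) : M :=
  if h : b ≠ 0 ∧ ∃ c : M, a = b * c then h.2.choose else 0

open Classical in
/-- The integer part of `a / n`: the `c` with `n c ≤ a < n c + n`. -/
noncomputable def floM (a : M) (n : ℕ) : M :=
  if h : ∃ c : M, (n : M) * c ≤ a ∧ a < n * c + n then h.choose else 0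

open Classical in
/-- The value of a term at `x`. -/
noncomputable def Tm.val (x : M) : Tm M → M
  | .var => x
  | .par a => a
  | .add s t => s.val x + t.val x
  | .sub s t => s.val x - t.val x
  | .mul s t => s.val x * t.val x
  | .gcd s t => gcdM (s.val x) (t.val x)
  | .quo s t => quoM (s.val x) (t.val x)
  | .fdiv t n => floM (t.val x) (n + 1)
  | .ifle s t u v => if s.val x ≤ t.val x then u.val x else v.val x
  | .ifdvd s t u v => if s.val x ∣ t.val x then u.val x else v.val x

/-- The truth of a formula at `x`. -/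
def Fm.holds (x : M) : Fm M → Prop
  | .eq s t => s.val x = t.val x
  | .le s t => s.val x ≤ t.val x
  | .dvd s t => s.val x ∣ t.val x
  | .not φ => ¬ φ.holds x
  | .and φ ψ => φ.holds x ∧ ψ.holds x

end

section

variable (M : Type) [CommRing M] [LinearOrder M]

/-- Induction on the nonnegative elements for quantifier-free formulas with parameters. -/
def OpenInduction : Prop :=
  ∀ φ : Fm M, φ.holds 0 → (∀ x, 0 ≤ x → φ.holds x → φ.holds (x + 1)) → ∀ x, 0 ≤ x → φ.holds x

/-- The pigeonhole principle for the functions given by terms. -/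
def Pigeonhole : Prop :=
  ∀ (t : Tm M) (a b : M), 0 ≤ b → b < a →
    ¬ ((∀ x, 0 ≤ x → x < a → 0 ≤ t.val x ∧ t.val x < b) ∧
      ∀ x y, 0 ≤ x → x < a → 0 ≤ y → y < a → t.val x = t.val y → x = y)

end

/-- `y` is prime in the sense of the problem: `y > 1` and `y = u v` with `u, v ≥ 0` only if `u = 1`
or `v = 1`. -/
def IsPr {M : Type} [CommRing M] [LinearOrder M] (y : M) : Prop :=
  1 < y ∧ ∀ u v : M, 0 ≤ u → 0 ≤ v → u * v = y → u = 1 ∨ v = 1

/-- Robinson's arithmetic `Q`, with `x ≤ y` if and only if `w + x = y` for some `w`: the axioms in the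
frozen statement of the problem. -/
structure ModelQ (N : Type) (zero : N) (succ : N → N) (add mul : N → N → N) (le : N → N → Prop) :
    Prop where
  succ_ne : ∀ x, succ x ≠ zero
  succ_inj : ∀ x y, succ x = succ y → x = y
  pred : ∀ x, x ≠ zero → ∃ y, x = succ y
  add_zero : ∀ x, add x zero = x
  add_succ : ∀ x y, add x (succ y) = succ (add x y)
  mul_zero : ∀ x, mul x zero = zero
  mul_succ : ∀ x y, mul x (succ y) = add (mul x y) x
  le_iff : ∀ x y, le x y ↔ ∃ w, add w x = y

/-- The main theorem. -/
def MainStatement : Prop :=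
  ∃ (M : Type) (_ : CommRing M) (_ : LinearOrder M) (_ : IsStrictOrderedRing M),
    (∀ x : M, 0 < x → 1 ≤ x) ∧
    ModelQ {x : M // 0 ≤ x} ⟨0, le_rfl⟩ (fun x => ⟨x.1 + 1, add_nonneg x.2 zero_le_one⟩)
      (fun x y => ⟨x.1 + y.1, add_nonneg x.2 y.2⟩) (fun x y => ⟨x.1 * y.1, mul_nonneg x.2 y.2⟩)
      (fun x y => x.1 ≤ y.1) ∧
    OpenInduction M ∧ Pigeonhole M ∧
    IsDomain M ∧ IsPrincipalIdealRing M ∧
    (∀ (p : ℕ) [Fact p.Prime], ∃ f : M →+* ℤ_[p], Function.Injective f) ∧
    ∃ P : M, (∀ n : ℕ, (n : M) < P) ∧ IsPr P ∧ (∀ y, IsPr y → y ≤ P) ∧ ∀ x : M, ∃ k : ℕ, x < P ^ k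

end OID
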