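import Pool.Agent.OID.Stmts3

/-!
# Module F: making a prime and an element comaximal
-/

namespace OID

open Polynomial

namespace F

/-! ### Infinite and bounded hyperreals -/

theorem inf_Om : Inf Om := by
  intro n
  have h1 : ((n : ℝ) : ℝ*) < Om := Hyperreal.coe_lt_omega n
  have h2 : |Om| = Om := Hyperreal.abs_omega
  rw [h2]
  exact_mod_cast h1

theorem one_lt_Om : 1 < Om := by
  have h1 := inf_Om 1
  rw [show |Om| = Om from Hyperreal.abs_omega] at h1
  exact_mod_cast h1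

theorem Om_pos : 0 < Om := Hyperreal.omega_pos

theorem inf_ne {x : ℝ*} (h : Inf x) : x ≠ 0 := by
  rintro rfl
  have h1 := h 0
  simp at h1

theorem inf_one {x : ℝ*} (h : Inf x) : 1 < |x| := by
  have h1 := h 1
  exact_mod_cast h1

/-- `x` is not infinitesimal -/
def NI (x : ℝ*) : Prop := ∃ n : ℕ, 0 < n ∧ 1 ≤ n * |x|

theorem inf_NI {x : ℝ*} (h : Inf x) : NI x := ⟨1, one_pos, by
  have := inf_one h
  simpa using this.le⟩

theorem inf_mul {x y : ℝ*} (hx : Inf x) (hy : NI y) : Inf (x * y) := by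
  intro k
  obtain ⟨n, hn, hn1⟩ := hy
  have h1 := hx (n * k)
  rw [abs_mul]
  push_cast at h1
  have hn0 : (0 : ℝ*) < n := by exact_mod_cast hn
  have h2 : (0 : ℝ*) < |x| := abs_pos.2 (inf_ne hx)
  have h3 : |x| ≤ |x| * (n * |y|) := le_mul_of_one_le_right h2.le hn1
  have h4 : (n : ℝ*) * k < n * (|x| * |y|) := by
    calc (n : ℝ*) * k < |x| := h1
      _ ≤ |x| * (n * |y|) := h3
      _ = n * (|x| * |y|) := by ring
  exact lt_of_mul_lt_mul_left h4 hn0.le

theorem inf_mul' {x y : ℝ*} (hx : NI x) (hy : Inf y) : Inf (x * y) := by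
  rw [mul_comm]
  exact inf_mul hy hx

theorem inf_pow {x : ℝ*} (hx : Inf x) {d : ℕ} (hd : 1 ≤ d) : Inf (x ^ d) := by
  induction d with
  | zero => omega
  | succ d ih =>
    rcases Nat.eq_zero_or_pos d with rfl | hd'
    · simpa using hx
    · rw [pow_succ]
      exact inf_mul (ih hd') (inf_NI hx)

/-- bounded by a power of `ω` -/
def Bd (x : ℝ*) : Prop := ∃ k : ℕ, |x| < Om ^ k

theorem one_le_pow (k : ℕ) : 1 ≤ Om ^ k := one_le_pow₀ one_lt_Om.le

theorem bd_mul {x y : ℝ*} (hx : Bd x) (hy : Bd y) : Bd (x * y) := by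
  obtain ⟨k, hk⟩ := hx
  obtain ⟨l, hl⟩ := hy
  refine ⟨k + l, ?_⟩
  rw [abs_mul, pow_add]
  exact mul_lt_mul'' hk hl (abs_nonneg _) (abs_nonneg _)

theorem bd_add {x y : ℝ*} (hx : Bd x) (hy : Bd y) : Bd (x + y) := by
  obtain ⟨k, hk⟩ := hx
  obtain ⟨l, hl⟩ := hy
  refine ⟨k + l + 1, ?_⟩
  have h2 : (2 : ℝ*) < Om := by
    have h1 := inf_Om 2
    rw [show |Om| = Om from Hyperreal.abs_omega] at h1
    exact_mod_cast h1
  have h3 : Om ^ k ≤ Om ^ (k + l) := pow_le_pow_right₀ one_lt_Om.le (by omega)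
  have h4 : Om ^ l ≤ Om ^ (k + l) := pow_le_pow_right₀ one_lt_Om.le (by omega)
  have h5 : (0 : ℝ*) < Om ^ (k + l) := pow_pos Om_pos _
  calc |x + y| ≤ |x| + |y| := abs_add_le x y
    _ < Om ^ (k + l) + Om ^ (k + l) := add_lt_add (hk.trans_le h3) (hl.trans_le h4)
    _ = 2 * Om ^ (k + l) := by ring
    _ < Om * Om ^ (k + l) := mul_lt_mul_of_pos_right h2 h5
    _ = Om ^ (k + l + 1) := by ring

theorem bd_pow {x : ℝ*} (hx : Bd x) (n : ℕ) : Bd (x ^ n) := by
  induction n with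
  | zero =>
    refine ⟨1, ?_⟩
    rw [pow_zero, pow_one, abs_one]
    exact one_lt_Om
  | succ n ih => rw [pow_succ]; exact bd_mul ih hx

theorem bd_mono {x y : ℝ*} (hx : Bd x) (h : |y| ≤ |x|) : Bd y := by
  obtain ⟨k, hk⟩ := hx
  exact ⟨k, h.trans_lt hk⟩

/-! ### Elements of `F` -/

theorem isUnit_of {x : F} (h1 : x.1 ≠ 0) (h2 : ∀ p, x.2 p ≠ 0) : IsUnit x := by
  rw [Prod.isUnit_iff]
  refine ⟨h1.isUnit, ?_⟩
  rw [Pi.isUnit_iff]
  exact fun p => (h2 p).isUnit

theorem fst_ne {x : F} (h : IsUnit x) : x.1 ≠ 0 := (Prod.isUnit_iff.1 h).1.ne_zero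

theorem snd_ne {x : F} (h : IsUnit x) (p : Nat.Primes) : x.2 p ≠ 0 :=
  (Pi.isUnit_iff.1 (Prod.isUnit_iff.1 h).2 p).ne_zero

theorem fst_aeval (A : Subalgebra ℚ F) (u : F) (g : A[X]) :
    (aeval u g).1 = (g.map (toR A)).eval u.1 := by
  have h1 := Polynomial.hom_eval₂ g (algebraMap A F)
    (RingHom.fst ℝ* (∀ p : Nat.Primes, ℚ_[(p : ℕ)])) u
  rw [eval_map]
  exact h1

theorem aeval_lin (A : Subalgebra ℚ F) (a : A) (u : F) :
    aeval u (1 - C a * X : A[X]) = 1 - (a : F) * u := by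
  have h1 : aeval u (1 - C a * X : A[X]) = aeval u (1 : A[X]) - aeval u (C a * X : A[X]) :=
    map_sub (aeval u : A[X] →ₐ[A] F) 1 (C a * X)
  rw [h1, map_one, map_mul, aeval_C, aeval_X]
  rfl

theorem toR_apply (A : Subalgebra ℚ F) (a : A) : toR A a = (a : F).1 := rfl


/-! ### The good ring -/

section good

variable {P : F} {A : Subalgebra ℚ F}

theorem rat_NI {r : ℚ} (hr : r ≠ 0) : NI (r : ℝ*) := by
  refine ⟨r.den, r.den_pos, ?_⟩
  have h1 : (1 : ℚ) ≤ r.den * |r| := by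
    have h2 : |r| * r.den = |(r.num : ℚ)| := by
      rw [← Rat.mul_den_eq_num r, abs_mul, Nat.abs_cast]
    rw [mul_comm, h2]
    have h3 : (1 : ℤ) ≤ |r.num| := Int.one_le_abs (Rat.num_ne_zero.2 hr)
    exact_mod_cast h3
  have h4 : ((1 : ℚ) : ℝ*) ≤ ((r.den * |r| : ℚ) : ℝ*) := Rat.cast_le.2 h1
  rw [Rat.cast_mul, Rat.cast_abs, Rat.cast_natCast, Rat.cast_one] at h4
  exact h4

theorem ni_of (hRAT : S_RAT) (hA : Good P A) {a : F} (ha : a ∈ A) (h0 : a ≠ 0) : NI a.1 := by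
  rcases hA.inf a ha with h | ⟨r, rfl⟩
  · exact inf_NI h
  · rw [(hRAT.1 r).1]
    apply rat_NI
    rintro rfl
    exact h0 (map_zero _)

theorem ni_ne {x : ℝ*} (h : NI x) : x ≠ 0 := by
  rintro rfl
  obtain ⟨n, _, h1⟩ := h
  rw [abs_zero, mul_zero] at h1
  exact absurd h1 (not_le.2 one_pos)

/-- a nonzero rational element is a unit of `A` -/
theorem rat_unit {r : ℚ} (hr : r ≠ 0) (a : A) (ha : (a : F) = algebraMap ℚ F r) : IsUnit a := by
  have h1 : a = algebraMap ℚ A r := Subtype.ext ha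
  rw [h1]
  exact hr.isUnit.map _

theorem prime_inf (hA : Good P A) (p : A) (hp : Prime p) : Inf (p : F).1 := by
  rcases hA.inf p p.2 with h | ⟨r, hr⟩
  · exact h
  · exfalso
    by_cases h0 : r = 0
    · apply hp.ne_zero
      apply Subtype.ext
      rw [hr, h0, map_zero]
      rfl
    · exact hp.not_isUnit (rat_unit h0 p hr)

end good

/-! ### The polynomials -/

/-- the polynomial `∑ g_k p ^ (k - m) ω ^ k T ^ k` -/
noncomputable def GG (A : Subalgebra ℚ F) (p : A) (g : A[X]) (m : ℕ) : ℝ*[X] :=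
  C ((p : F).1⁻¹ ^ m) * (g.map (toR A)).comp (C ((p : F).1 * Om) * X)

theorem GG_coeff (A : Subalgebra ℚ F) (p : A) (g : A[X]) (m n : ℕ) :
    (GG A p g m).coeff n = (p : F).1⁻¹ ^ m * ((g.coeff n : F).1 * ((p : F).1 * Om) ^ n) := by
  unfold GG
  rw [coeff_C_mul, comp_C_mul_X_coeff, coeff_map, toR_apply]

theorem GG_eval (A : Subalgebra ℚ F) (p : A) (g : A[X]) (m : ℕ) (t : ℝ*)
    (y : ∀ p : Nat.Primes, ℚ_[(p : ℕ)]) :
    (GG A p g m).eval t =
      (p : F).1⁻¹ ^ m * (aeval (((p : F).1 * Om * t, y) : F) g).1 := by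
  unfold GG
  rw [eval_mul, eval_C, eval_comp, eval_mul, eval_C, eval_X, fst_aeval]

/-- the data of the construction -/
structure Dt (A : Subalgebra ℚ F) (p a : A) (u v p' : F) : Prop where
  dom : IsDomain A
  prime : Prime p
  nd : ¬ p ∣ a
  inv : (p : F) * p' = 1
  uv : (a : F) * u + p * v = 1
  unitu : ∀ g : A[X], g ≠ 0 → IsUnit (aeval u g)
  unitv : ∀ g : A[X], g ≠ 0 → IsUnit (aeval v g)
  fin : ∀ g : A[X], g ≠ 0 → {q | ‖(aeval u g).2 q‖ ≠ 1}.Finite
  big : ∀ (g : A[X]) (m : ℕ), (∃ n, Inf ((GG A p g m).coeff n)) → Inf ((p : F).1⁻¹ ^ m * (aeval u g).1)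
  bdu : Bd u.1

theorem exists_dt {P : F} {A : Subalgebra ℚ F} (hRL : S_RL) (hAD : S_AD) (hRAT : S_RAT)
    (hCONV : S_CONV) (hA : Good P A) (p a : A) (hp : Prime p) (hpa : ¬ p ∣ a) :
    ∃ u v p' : F, Dt A p a u v p' := by
  obtain ⟨hdom, -, hunit, -⟩ := hCONV.1 P A hA
  have hinf : Inf (p : F).1 := prime_inf hA p hp
  have hp0 : (p : F).1 ≠ 0 := inf_ne hinf
  have hpF : IsUnit (p : F) := hunit p p.2 (fun h => hp.ne_zero (Subtype.ext h))
  obtain ⟨p', hp'⟩ := hpF.exists_right_inv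
  obtain ⟨y, hy1, hy⟩ := hAD A hA.cnt hA.nz
  have hcA : Countable A := hA.cnt.to_subtype
  obtain ⟨θ, hθ1, hθ2, hθ⟩ := hRL
    {G | ∃ (g : A[X]) (m : ℕ), G = GG A p g m ∧ ∃ n, Inf (G.coeff n)} (by
      have hc : Countable A[X] := by
        rw [← Cardinal.mk_le_aleph0_iff]
        refine Polynomial.cardinalMk_le_max.trans (max_le ?_ le_rfl)
        rw [Cardinal.mk_le_aleph0_iff]
        exact hcA
      refine (Set.countable_range (fun x : A[X] × ℕ => GG A p x.1 x.2)).mono ?_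
      rintro G ⟨g, m, rfl, -⟩
      exact ⟨(g, m), rfl⟩) (by
      rintro G ⟨g, m, rfl, h⟩
      exact h)
  have ha0 : a ≠ 0 := by
    rintro rfl
    exact hpa (dvd_zero p)
  set u : F := ((p : F).1 * Om * (θ : ℝ*), y) with hu
  have huv : (a : F) * u + p * ((1 - a * u) * p') = 1 := by
    linear_combination (1 - (a : F) * u) * hp'
  have hbig : ∀ (g : A[X]) (m : ℕ), (∃ n, Inf ((GG A p g m).coeff n)) →
      Inf ((p : F).1⁻¹ ^ m * (aeval u g).1) := by
    intro g m h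
    rw [hu, ← GG_eval]
    exact hθ _ ⟨g, m, rfl, h⟩
  have hunitu : ∀ g : A[X], g ≠ 0 → IsUnit (aeval u g) := by
    intro g hg
    refine isUnit_of ?_ (hy g hg _).1
    rcases Nat.eq_zero_or_pos g.natDegree with hd | hd
    · rw [eq_C_of_natDegree_eq_zero hd, aeval_C]
      have h1 : g.coeff 0 ≠ 0 := by
        intro h0
        apply hg
        rw [eq_C_of_natDegree_eq_zero hd, h0, map_zero]
      exact ni_ne (ni_of hRAT hA (g.coeff 0).2 (fun h => h1 (Subtype.ext h)))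
    · have h1 : g.leadingCoeff ≠ 0 := leadingCoeff_ne_zero.2 hg
      have h2 := hbig g 0 ⟨g.natDegree, by
        rw [GG_coeff, pow_zero, one_mul]
        refine inf_mul' (ni_of hRAT hA (g.coeff g.natDegree).2 (fun h => h1 (Subtype.ext h))) ?_
        exact inf_pow (inf_mul hinf (inf_NI inf_Om)) hd⟩
      rw [pow_zero, one_mul] at h2
      exact inf_ne h2
  refine ⟨u, (1 - a * u) * p', p', hdom, hp, hpa, hp', huv, hunitu, ?_, ?_, hbig, ?_⟩
  · intro g hg
    have h1 : (scaleRoots g p).comp (1 - C a * X) ≠ 0 := by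
      intro h
      rw [comp_eq_zero_iff] at h
      rcases h with h | h
      · exact scaleRoots_ne_zero hg p h
      · have h3 := congrArg (fun f : A[X] => f.coeff 1) h.2
        simp only [coeff_sub, coeff_one, coeff_C_mul, coeff_X, coeff_C] at h3
        apply ha0
        simpa using h3
    have h2 := hunitu _ h1
    have h3 : aeval u ((scaleRoots g p).comp (1 - C a * X)) =
        (p : F) ^ g.natDegree * aeval ((1 - a * u) * p') g := by
      rw [aeval_comp]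
      have h4 : aeval u (1 - C a * X : A[X]) = algebraMap A F p * ((1 - a * u) * p') := by
        rw [aeval_lin]
        change 1 - (a : F) * u = (p : F) * ((1 - a * u) * p')
        linear_combination (-(1 - (a : F) * u)) * hp'
      rw [h4]
      exact scaleRoots_eval₂_mul (algebraMap A F) _ p
    rw [h3] at h2
    exact isUnit_of_mul_isUnit_right h2
  · intro g hg
    exact (hy g hg _).2
  · refine bd_mul (bd_mul (hA.bd p p.2) ?_) ?_
    · refine ⟨2, ?_⟩
      rw [show |Om| = Om from Hyperreal.abs_omega, pow_two]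
      exact lt_mul_of_one_lt_left Om_pos one_lt_Om
    · refine ⟨1, ?_⟩
      have h1 : |(θ : ℝ*)| < 1 := by
        rw [abs_lt]
        constructor
        · exact_mod_cast (by linarith : (-1 : ℝ) < θ)
        · exact_mod_cast hθ2
      rw [pow_one]
      exact h1.trans one_lt_Om


/-- the new ring -/
noncomputable def RR (A : Subalgebra ℚ F) (p a : A) (u v : F) : Subalgebra ℚ F :=
  chart A u (C p) ⊓ chart A v (C a)

theorem mem_chart (A : Subalgebra ℚ F) (p : A) (u r : F) :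
    r ∈ chart A u (C p) ↔ ∃ (m : ℕ) (g : A[X]), (p : F) ^ m * r = aeval u g := by
  have h1 : r ∈ chart A u (C p) ↔ ∃ (m : ℕ) (g : A[X]), aeval u (C p) ^ m * r = aeval u g :=
    Iff.rfl
  rw [h1, aeval_C]
  exact Iff.rfl

section ring

variable {P : F} {A : Subalgebra ℚ F} {p a : A} {u v p' : F}

theorem Dt.inj (D : Dt A p a u v p') {g : A[X]} (h : aeval u g = 0) : g = 0 := by
  by_contra hg
  have h1 := D.unitu g hg
  rw [h] at h1
  exact not_isUnit_zero h1

theorem Dt.injv (D : Dt A p a u v p') {g : A[X]} (h : aeval v g = 0) : g = 0 := by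
  by_contra hg
  have h1 := D.unitv g hg
  rw [h] at h1
  exact not_isUnit_zero h1

theorem Dt.a0 (D : Dt A p a u v p') : a ≠ 0 := by
  rintro rfl
  exact D.nd (dvd_zero p)

theorem Dt.pu (D : Dt A p a u v p') : IsUnit (p : F) := IsUnit.of_mul_eq_one _ D.inv

theorem Dt.u_mem (D : Dt A p a u v p') : u ∈ chart A v (C a) := by
  rw [mem_chart]
  refine ⟨1, 1 - C p * X, ?_⟩
  rw [aeval_lin, pow_one]
  linear_combination D.uv

theorem Dt.v_mem (D : Dt A p a u v p') : v ∈ RR A p a u v := by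
  refine ⟨?_, ?_⟩
  · change v ∈ chart A u (C p)
    rw [mem_chart]
    refine ⟨1, 1 - C a * X, ?_⟩
    rw [aeval_lin, pow_one]
    linear_combination D.uv
  · change v ∈ chart A v (C a)
    rw [mem_chart]
    refine ⟨0, X, ?_⟩
    rw [aeval_X, pow_zero, one_mul]

/-- what `S_CHART` gives -/
structure Ct (A : Subalgebra ℚ F) (p a : A) (u v : F) : Prop where
  le : A ≤ RR A p a u v
  umem : u ∈ RR A p a u v
  ufm : UniqueFactorizationMonoid (RR A p a u v)
  pr : ∀ π : A, Prime π → Pr (RR A p a u v) π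

theorem Dt.ct (hCONV : S_CONV) (hCHART : S_CHART) (hA : Good P A) (D : Dt A p a u v p') :
    Ct A p a u v := by
  obtain ⟨hdom, hufd, -, -⟩ := hCONV.1 P A hA
  have hc := hCHART A u v (C p) (C a) p D.unitu D.unitv (prime_C_iff.2 D.prime) D.prime
    (fun h => D.nd ((C_dvd_iff_dvd_coeff p (C a)).1 h 0 |> fun h1 => by rwa [coeff_C_zero] at h1))
    D.u_mem ⟨1, one_mem _, by rw [aeval_C, mul_one]; rfl⟩ ⟨1, one_mem _, by rw [aeval_C, mul_one]; rfl⟩
  obtain ⟨h1, h2, h3, h4, h5, h6⟩ := hc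
  rw [aeval_C] at h5
  refine ⟨h1, h2, h4, ?_⟩
  intro π hπ
  by_cases hp : p ∣ π
  · obtain ⟨c, hc⟩ := hp
    obtain ⟨hpm, hpp⟩ := h5
    have h7 := hπ.irreducible.isUnit_or_isUnit hc
    have h8 : IsUnit c := h7.resolve_left D.prime.not_isUnit
    obtain ⟨c', hc'⟩ := h8.exists_right_inv
    refine ⟨h1 π.2, ?_⟩
    have h9 : IsUnit (⟨c, h1 c.2⟩ : RR A p a u v) := by
      refine IsUnit.of_mul_eq_one (⟨c', h1 c'.2⟩ : RR A p a u v) ?_
      apply Subtype.ext
      exact congrArg (fun x : A => (x : F)) hc'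
    have h10 : (⟨π, h1 π.2⟩ : RR A p a u v) = (⟨p, hpm⟩ : RR A p a u v) * ⟨c, h1 c.2⟩ := by
      apply Subtype.ext
      exact congrArg (fun x : A => (x : F)) hc
    rw [h10]
    exact (associated_mul_unit_right _ _ h9).prime hpp
  · exact h6 π hπ hp

theorem Dt.countable (hA : Good P A) (D : Dt A p a u v p') :
    (RR A p a u v : Set F).Countable := by
  have hcA : Countable A := hA.cnt.to_subtype
  have hc : Countable A[X] := by
    rw [← Cardinal.mk_le_aleph0_iff]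
    refine Polynomial.cardinalMk_le_max.trans (max_le ?_ le_rfl)
    rw [Cardinal.mk_le_aleph0_iff]
    exact hcA
  refine (Set.countable_range (fun x : ℕ × A[X] => p' ^ x.1 * aeval u x.2)).mono ?_
  intro r hr
  have hr' : r ∈ chart A u (C p) := hr.1
  obtain ⟨m, g, h⟩ := (mem_chart A p u r).1 hr'
  refine ⟨(m, g), ?_⟩
  change p' ^ m * aeval u g = r
  rw [← h, ← mul_assoc, ← mul_pow, mul_comm p', D.inv, one_pow, one_mul]

theorem Dt.ne (D : Dt A p a u v p') {r : F} (hr : r ≠ 0) {m : ℕ} {g : A[X]}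
    (h : (p : F) ^ m * r = aeval u g) : g ≠ 0 := by
  rintro rfl
  rw [map_zero] at h
  apply hr
  have h1 : IsUnit ((p : F) ^ m) := D.pu.pow m
  exact h1.mul_right_eq_zero.1 h

theorem Dt.nz (hA : Good P A) (D : Dt A p a u v p') : Nz (RR A p a u v : Set F) := by
  intro r hr hr0
  have hr' : r ∈ chart A u (C p) := hr.1
  obtain ⟨m, g, h⟩ := (mem_chart A p u r).1 hr'
  have hg := D.ne hr0 h
  have hcomp : ∀ q, (p : F).2 q ^ m * r.2 q = (aeval u g).2 q := by
    intro q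
    exact congrArg (fun x : F => x.2 q) h
  have hpz := hA.nz p p.2 (fun h => D.prime.ne_zero (Subtype.ext h))
  refine ⟨?_, ?_⟩
  · intro q h0
    have h1 := hcomp q
    rw [h0, mul_zero] at h1
    exact snd_ne (D.unitu g hg) q h1.symm
  · refine (hpz.2.union (D.fin g hg)).subset ?_
    intro q hq
    by_contra hcon
    simp only [Set.mem_union, Set.mem_ofPred_eq, not_or, not_not] at hcon
    apply hq
    have h1 := congrArg norm (hcomp q)
    rw [norm_mul, norm_pow, hcon.1, hcon.2, one_pow, one_mul] at h1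
    exact h1

theorem Dt.fst_eq (D : Dt A p a u v p') {r : F} {m : ℕ} {g : A[X]}
    (h : (p : F) ^ m * r = aeval u g) : r.1 = (p : F).1⁻¹ ^ m * (aeval u g).1 := by
  have h1 : (p : F).1 ^ m * r.1 = (aeval u g).1 := congrArg (fun x : F => x.1) h
  have h2 : (p : F).1 ≠ 0 := fst_ne D.pu
  rw [← h1, ← mul_assoc, ← mul_pow, inv_mul_cancel₀ h2, one_pow, one_mul]

theorem bd_aeval (hA : Good P A) (hu : Bd u.1) (g : A[X]) : Bd (aeval u g).1 := by
  induction g using Polynomial.induction_on' with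
  | add g g' h h' =>
    rw [map_add]
    exact bd_add h h'
  | monomial n c =>
    rw [aeval_monomial]
    change Bd ((c : F).1 * u.1 ^ n)
    exact bd_mul (hA.bd c c.2) (bd_pow hu n)

theorem Dt.bd (hA : Good P A) (D : Dt A p a u v p') : ∀ r ∈ RR A p a u v, Bd r.1 := by
  intro r hr
  have hr' : r ∈ chart A u (C p) := hr.1
  obtain ⟨m, g, h⟩ := (mem_chart A p u r).1 hr'
  rw [D.fst_eq h]
  refine bd_mul (bd_pow ?_ m) (bd_aeval hA D.bdu g)
  refine ⟨1, ?_⟩
  have h1 := inf_one (prime_inf hA p D.prime)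
  rw [abs_inv, pow_one]
  exact (inv_lt_one_of_one_lt₀ h1).trans one_lt_Om

theorem Dt.inf (hRAT : S_RAT) (hF0 : S_F0) (hA : Good P A) (D : Dt A p a u v p') :
    ∀ r ∈ RR A p a u v, Inf r.1 ∨ ∃ t : ℚ, r = algebraMap ℚ F t := by
  intro r hr
  by_cases hr0 : r = 0
  · exact Or.inr ⟨0, by rw [hr0, map_zero]⟩
  have hr1 : r ∈ chart A u (C p) := hr.1
  have hr2 : r ∈ chart A v (C a) := hr.2
  obtain ⟨m, g, h⟩ := (mem_chart A p u r).1 hr1
  obtain ⟨m', g', h'⟩ := (mem_chart A a v r).1 hr2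
  have hg := D.ne hr0 h
  have hdom := D.dom
  obtain ⟨k, hk0, hk⟩ := hF0 A u v p a D.unitu D.prime D.nd D.uv r m m' g g' hg h h'
  rcases Nat.eq_zero_or_pos g.natDegree with hd | hd
  · have h1 : g = C g.leadingCoeff := by
      rw [leadingCoeff, hd]
      exact eq_C_of_natDegree_eq_zero hd
    rw [hd, pow_zero, mul_one] at hk
    have h2 : (p : F) ^ m * r = (p : F) ^ m * k := by
      rw [h, h1, aeval_C, hk]
      rfl
    have h3 : r = k := (D.pu.pow m).mul_left_cancel h2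
    rw [h3]
    exact hA.inf k k.2
  · left
    rw [D.fst_eq h]
    apply D.big g m
    refine ⟨g.natDegree, ?_⟩
    rw [GG_coeff]
    have h2 : (p : F).1 ≠ 0 := fst_ne D.pu
    have h3 : (g.coeff g.natDegree : F).1 * (p : F).1 ^ g.natDegree = (p : F).1 ^ m * (k : F).1 :=
      congrArg (fun x : A => (x : F).1) hk
    have h4 : (p : F).1⁻¹ ^ m * ((g.coeff g.natDegree : F).1 * ((p : F).1 * Om) ^ g.natDegree) =
        (k : F).1 * Om ^ g.natDegree := by
      calc (p : F).1⁻¹ ^ m * ((g.coeff g.natDegree : F).1 * ((p : F).1 * Om) ^ g.natDegree)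
          = (p : F).1⁻¹ ^ m * ((g.coeff g.natDegree : F).1 * (p : F).1 ^ g.natDegree) *
            Om ^ g.natDegree := by rw [mul_pow]; ring
        _ = ((p : F).1⁻¹ * (p : F).1) ^ m * ((k : F).1 * Om ^ g.natDegree) := by
            rw [h3, mul_pow]; ring
        _ = (k : F).1 * Om ^ g.natDegree := by rw [inv_mul_cancel₀ h2, one_pow, one_mul]
    rw [h4]
    refine inf_mul' (ni_of hRAT hA k.2 (fun h => hk0 (Subtype.ext h))) (inf_pow inf_Om hd)

theorem Dt.good (hRAT : S_RAT) (hCONV : S_CONV) (hF0 : S_F0) (hA : Good P A)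
    (D : Dt A p a u v p') (T : Ct A p a u v) : Good P (RR A p a u v) where
  cnt := D.countable hA
  nz := D.nz hA
  inf := D.inf hRAT hF0 hA
  fac := hCONV.2.1 _ (D.nz hA) (D.inf hRAT hF0 hA) T.ufm
  bd := D.bd hA
  pr := by
    obtain ⟨hP, hP'⟩ := hA.pr
    exact T.pr ⟨P, hP⟩ hP'

/-- a constant value of a polynomial -/
theorem Dt.const (D : Dt A p a u v p') {g : A[X]} {b c : A} (hb : b ≠ 0)
    (h : (b : F) * aeval u g = c) : ∃ g₀ : A, aeval u g = g₀ := by
  have hdom := D.dom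
  have h1 : aeval u (C b * g - C c) = 0 := by
    have h2 : aeval u (C b * g - C c) = aeval u (C b * g) - aeval u (C c : A[X]) :=
      map_sub (aeval u : A[X] →ₐ[A] F) _ _
    rw [h2, map_mul, aeval_C, aeval_C, sub_eq_zero]
    exact h
  have h3 : C b * g = C c := sub_eq_zero.1 (D.inj h1)
  have h4 : g.natDegree = 0 := by
    have h5 := congrArg natDegree h3
    rwa [natDegree_C_mul hb, natDegree_C] at h5
  refine ⟨g.coeff 0, ?_⟩
  conv_lhs => rw [eq_C_of_natDegree_eq_zero h4]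
  rw [aeval_C]
  rfl

theorem Dt.constv (D : Dt A p a u v p') {g : A[X]} {b c : A} (hb : b ≠ 0)
    (h : (b : F) * aeval v g = c) : ∃ g₀ : A, aeval v g = g₀ := by
  have hdom := D.dom
  have h1 : aeval v (C b * g - C c) = 0 := by
    have h2 : aeval v (C b * g - C c) = aeval v (C b * g) - aeval v (C c : A[X]) :=
      map_sub (aeval v : A[X] →ₐ[A] F) _ _
    rw [h2, map_mul, aeval_C, aeval_C, sub_eq_zero]
    exact h
  have h3 : C b * g = C c := sub_eq_zero.1 (D.injv h1)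
  have h4 : g.natDegree = 0 := by
    have h5 := congrArg natDegree h3
    rwa [natDegree_C_mul hb, natDegree_C] at h5
  refine ⟨g.coeff 0, ?_⟩
  conv_lhs => rw [eq_C_of_natDegree_eq_zero h4]
  rw [aeval_C]
  rfl

theorem Dt.dvd (D : Dt A p a u v p') : ∀ b ∈ A, ∀ c ∈ A, ∀ r ∈ RR A p a u v, b ≠ 0 →
    b * r = c → r ∈ A := by
  intro b hb c hc r hr hb0 hbr
  have hr1 : r ∈ chart A u (C p) := hr.1
  have hr2 : r ∈ chart A v (C a) := hr.2
  obtain ⟨m, g, h⟩ := (mem_chart A p u r).1 hr1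
  obtain ⟨m', g', h'⟩ := (mem_chart A a v r).1 hr2
  have hdom := D.dom
  have hb0' : (⟨b, hb⟩ : A) ≠ 0 := fun h0 => hb0 (congrArg Subtype.val h0)
  obtain ⟨x, hx⟩ := D.const (g := g) (b := ⟨b, hb⟩) (c := p ^ m * ⟨c, hc⟩) hb0' (by
    rw [← h]
    change b * ((p : F) ^ m * r) = (p : F) ^ m * c
    rw [← hbr]
    ring)
  obtain ⟨x', hx'⟩ := D.constv (g := g') (b := ⟨b, hb⟩) (c := a ^ m' * ⟨c, hc⟩) hb0' (by
    rw [← h']
    change b * ((a : F) ^ m' * r) = (a : F) ^ m' * c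
    rw [← hbr]
    ring)
  rw [hx] at h
  rw [hx'] at h'
  have h1 : a ^ m' * x = p ^ m * x' := by
    apply Subtype.ext
    change (a : F) ^ m' * (x : F) = (p : F) ^ m * (x' : F)
    rw [← h, ← h']
    ring
  have h2 : p ^ m ∣ x := D.prime.pow_dvd_of_dvd_mul_left m (fun h => D.nd (D.prime.dvd_of_dvd_pow h))
    (Dvd.intro x' h1.symm)
  obtain ⟨k, hk⟩ := h2
  have h3 : (p : F) ^ m * r = (p : F) ^ m * k := by
    rw [h, hk]
    rfl
  rw [(D.pu.pow m).mul_left_cancel h3]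
  exact k.2

theorem Dt.ext (D : Dt A p a u v p') (T : Ct A p a u v) : Ext A (RR A p a u v) where
  le := T.le
  dvd := D.dvd
  pr := by
    rintro q ⟨⟨hq, hq'⟩, hn⟩
    exact Or.inl ⟨T.pr ⟨q, hq⟩ hq', hn⟩

end ring

end F

theorem t_F : M_F := by
  intro hRL hAD hRAT hCONV hCHART hF0 P A hP hA p a hp ha hpa
  obtain ⟨hpA, hp⟩ := hp
  have hpa' : ¬ (⟨p, hpA⟩ : A) ∣ ⟨a, ha⟩ := by
    rintro ⟨c, hc⟩
    exact hpa ⟨c, c.2, congrArg Subtype.val hc⟩
  obtain ⟨u, v, p', D⟩ := F.exists_dt hRL hAD hRAT hCONV hA ⟨p, hpA⟩ ⟨a, ha⟩ hp hpa'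
  have T := D.ct hCONV hCHART hA
  exact ⟨F.RR A ⟨p, hpA⟩ ⟨a, ha⟩ u v, D.good hRAT hCONV hF0 hA T, D.ext T, u, T.umem, v,
    D.v_mem, D.uv⟩

end OID
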