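import Pool.Agent.OID.Stmts3

/-!
# Coefficients in step `F`
-/

namespace OID

namespace F0

open Polynomial

/-- The degree and the leading coefficient of `g (1 - a X)`, where the roots of `g` are scaled
by `s`. -/
theorem comp_aux {R : Type*} [CommRing R] [IsDomain R] (g : R[X]) (s a : R) (ha : a ≠ 0) :
    ((scaleRoots g s).comp (1 - C a * X)).natDegree = g.natDegree ∧
    ((scaleRoots g s).comp (1 - C a * X)).leadingCoeff =
      g.leadingCoeff * (-a) ^ g.natDegree := by
  have hq : (1 - C a * X : R[X]) = C (-a) * X + C 1 := by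
    rw [C_neg, C_1]
    ring
  have hna : -a ≠ 0 := neg_ne_zero.mpr ha
  have hdeg : (1 - C a * X : R[X]).natDegree = 1 := by
    rw [hq]
    exact natDegree_linear hna
  have hlc : (1 - C a * X : R[X]).leadingCoeff = -a := by
    rw [hq]
    exact leadingCoeff_linear hna
  refine ⟨?_, ?_⟩
  · rw [natDegree_comp, natDegree_scaleRoots, hdeg, mul_one]
  · rw [leadingCoeff_comp (by rw [hdeg]; exact one_ne_zero), hlc, natDegree_scaleRoots,
      leadingCoeff_scaleRoots]

/-- The statement for a domain `R` and an algebra `K` over it. -/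
theorem gen {R K : Type*} [CommRing R] [IsDomain R] [CommRing K] [Nontrivial K] [Algebra R K]
    (u v : K) (p a : R) (hunit : ∀ g : R[X], g ≠ 0 → IsUnit (aeval u g)) (hp : Prime p)
    (hpa : ¬ p ∣ a) (hcomax : algebraMap R K a * u + algebraMap R K p * v = 1)
    (r : K) (m m' : ℕ) (g g' : R[X]) (hg : g ≠ 0) (h1 : algebraMap R K p ^ m * r = aeval u g)
    (h2 : algebraMap R K a ^ m' * r = aeval v g') :
    ∃ h : R, h ≠ 0 ∧ g.leadingCoeff * p ^ g.natDegree = p ^ m * h := by
  have ha : a ≠ 0 := by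
    rintro rfl
    exact hpa (dvd_zero _)
  -- the polynomial identity
  have hinj : ∀ f₁ f₂ : R[X], aeval u f₁ = aeval u f₂ → f₁ = f₂ := by
    intro f₁ f₂ h
    by_contra hne
    have h3 := hunit (f₁ - f₂) (sub_ne_zero.mpr hne)
    rw [map_sub, h, sub_self] at h3
    exact not_isUnit_zero h3
  set G : R[X] := (scaleRoots g' p).comp (1 - C a * X) with hG
  have hGu : aeval u G = algebraMap R K p ^ g'.natDegree * aeval v g' := by
    have h3 : algebraMap R K p * v = 1 - algebraMap R K a * u := by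
      rw [← hcomax]
      ring
    have h4 : aeval u (1 - C a * X : R[X]) = algebraMap R K p * v := by
      rw [map_sub, map_one, map_mul, aeval_C, aeval_X]
      exact h3.symm
    rw [hG, aeval_comp, h4, aeval_def, scaleRoots_eval₂_mul, aeval_def]
  have hid : C (a ^ m' * p ^ g'.natDegree) * g = C (p ^ m) * G := by
    apply hinj
    rw [map_mul (aeval u) (C _) g, map_mul (aeval u) (C _) G, aeval_C, aeval_C, hGu, ← h1, ← h2,
      map_mul, map_pow, map_pow, map_pow]
    ring
  have hc1 : a ^ m' * p ^ g'.natDegree ≠ 0 :=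
    mul_ne_zero (pow_ne_zero _ ha) (pow_ne_zero _ hp.ne_zero)
  have hc2 : p ^ m ≠ 0 := pow_ne_zero _ hp.ne_zero
  obtain ⟨hd, hl⟩ := comp_aux g' p a ha
  have hdeg : g.natDegree = g'.natDegree := by
    have h3 := congrArg natDegree hid
    rw [natDegree_C_mul hc1, natDegree_C_mul hc2, hG, hd] at h3
    exact h3
  have hlead : a ^ m' * p ^ g'.natDegree * g.leadingCoeff =
      p ^ m * (g'.leadingCoeff * (-a) ^ g'.natDegree) := by
    have h3 := congrArg leadingCoeff hid
    rw [leadingCoeff_mul, leadingCoeff_mul, leadingCoeff_C, leadingCoeff_C, hG, hl] at h3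
    exact h3
  have hdvd : p ^ m ∣ a ^ m' * (g.leadingCoeff * p ^ g.natDegree) := by
    refine ⟨g'.leadingCoeff * (-a) ^ g'.natDegree, ?_⟩
    rw [← hlead, hdeg]
    ring
  have hpm : ¬ p ∣ a ^ m' := fun h => hpa (hp.dvd_of_dvd_pow h)
  obtain ⟨h, hh⟩ := hp.pow_dvd_of_dvd_mul_left m hpm hdvd
  refine ⟨h, ?_, hh⟩
  rintro rfl
  rw [mul_zero] at hh
  exact mul_ne_zero (leadingCoeff_ne_zero.mpr hg) (pow_ne_zero _ hp.ne_zero) hh

end F0

theorem t_F0 : S_F0 := by
  intro A _ u v p a hunit hp hpa hcomax r m m' g g' hg h1 h2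
  exact F0.gen u v p a hunit hp hpa hcomax r m m' g g' hg h1 h2

end OID
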