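import Pool.Agent.OID.Stmts3

/-!
# Adjoining an element near a hyperreal number
-/

namespace OID

open Polynomial

namespace G

/-- bounded by a power of `ω` -/
def Bd (x : ℝ*) : Prop := ∃ k : ℕ, |x| < Om ^ k

theorem two_lt : (2 : ℝ*) < Om := by
  have h := Hyperreal.coe_lt_omega 2
  rwa [Hyperreal.coe_ofNat] at h

theorem bd_add {x y : ℝ*} (hx : Bd x) (hy : Bd y) : Bd (x + y) := by
  obtain ⟨k, hk⟩ := hx
  obtain ⟨l, hl⟩ := hy
  have h2 := two_lt
  have h1 : (1 : ℝ*) ≤ Om := le_trans (by norm_num) h2.le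
  have hkm : Om ^ k ≤ Om ^ (max k l) := pow_le_pow_right₀ h1 (le_max_left _ _)
  have hlm : Om ^ l ≤ Om ^ (max k l) := pow_le_pow_right₀ h1 (le_max_right _ _)
  have h0 : 0 ≤ Om ^ (max k l) := pow_nonneg (by linarith) _
  refine ⟨max k l + 1, ?_⟩
  calc |x + y| ≤ |x| + |y| := abs_add_le _ _
    _ < Om ^ (max k l) + Om ^ (max k l) := by linarith
    _ = 2 * Om ^ (max k l) := by ring
    _ ≤ Om * Om ^ (max k l) := mul_le_mul_of_nonneg_right h2.le h0
    _ = Om ^ (max k l + 1) := (pow_succ' _ _).symm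

theorem bd_mul {x y : ℝ*} (hx : Bd x) (hy : Bd y) : Bd (x * y) := by
  obtain ⟨k, hk⟩ := hx
  obtain ⟨l, hl⟩ := hy
  refine ⟨k + l, ?_⟩
  rw [abs_mul, pow_add]
  exact mul_lt_mul'' hk hl (abs_nonneg _) (abs_nonneg _)

theorem bd_one : Bd 1 := ⟨1, by
  rw [abs_one, pow_one]
  exact lt_trans (by norm_num) two_lt⟩

theorem bd_pow {x : ℝ*} (hx : Bd x) (n : ℕ) : Bd (x ^ n) := by
  induction n with
  | zero => rw [pow_zero]; exact bd_one
  | succ n ih => rw [pow_succ]; exact bd_mul ih hx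

theorem bd_aeval {A : Subalgebra ℚ F} (hA : ∀ a ∈ A, Bd a.1) {y : F} (hy : Bd y.1) (g : A[X]) :
    Bd (aeval y g).1 := by
  induction g using Polynomial.induction_on' with
  | add p q hp hq =>
    rw [map_add]
    exact bd_add hp hq
  | monomial n a =>
    rw [aeval_monomial]
    exact bd_mul (hA a a.2) (bd_pow hy n)

theorem aeval_fst (A : Subalgebra ℚ F) (y : F) (g : A[X]) :
    (aeval y g).1 = (g.map (toR A)).eval y.1 := by
  rw [aeval_def, eval_map]
  exact Polynomial.hom_eval₂ g (algebraMap A F) (RingHom.fst ℝ* (∀ p : Nat.Primes, ℚ_[(p : ℕ)])) y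

theorem mem_chart {A : Subalgebra ℚ F} {y r : F} :
    r ∈ chart A y 1 ↔ ∃ g : A[X], aeval y g = r := by
  constructor
  · rintro ⟨m, g, h⟩
    refine ⟨g, ?_⟩
    rw [← h, map_one, one_pow, one_mul]
  · rintro ⟨g, h⟩
    refine ⟨0, g, ?_⟩
    rw [pow_zero, one_mul, h]

theorem aeval_mem {A : Subalgebra ℚ F} {y : F} (g : A[X]) : aeval y g ∈ chart A y 1 :=
  mem_chart.2 ⟨g, rfl⟩

theorem aeval_C' {A : Subalgebra ℚ F} {y : F} (a : A) : aeval y (C a) = (a : F) := by
  rw [aeval_C]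
  rfl

theorem not_inf {x : ℝ*} (h : ¬ Inf x) : ∃ n : ℕ, |x| ≤ n := by
  unfold Inf at h
  push Not at h
  exact h

/-- the isomorphism of the polynomial ring with the chart -/
noncomputable def iso {A : Subalgebra ℚ F} {y : F} (hy : ∀ g : A[X], aeval y g = 0 → g = 0) :
    A[X] ≃+* chart A y 1 :=
  RingEquiv.ofBijective ((aeval y).toRingHom.codRestrict (chart A y 1).toSubring
    (fun g => aeval_mem g)) ⟨by
      rw [injective_iff_map_eq_zero]
      intro g hg
      exact hy g (congrArg Subtype.val hg), by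
      rintro ⟨r, hr⟩
      obtain ⟨g, hg⟩ := mem_chart.1 hr
      exact ⟨g, Subtype.ext hg⟩⟩

theorem iso_val {A : Subalgebra ℚ F} {y : F} (hy : ∀ g : A[X], aeval y g = 0 → g = 0) (g : A[X]) :
    ((iso hy g : chart A y 1) : F) = aeval y g := rfl

theorem ext_refl (A : Subalgebra ℚ F) : Ext A A :=
  ⟨le_rfl, fun _ _ _ _ _ hc _ _ => hc, fun _ hq => Or.inl hq⟩

theorem le_chart (A : Subalgebra ℚ F) (y : F) : A ≤ chart A y 1 := fun a ha =>
  mem_chart.2 ⟨C ⟨a, ha⟩, aeval_C' _⟩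

theorem pr_chart {A : Subalgebra ℚ F} [IsDomain A] {y : F}
    (hy : ∀ g : A[X], aeval y g = 0 → g = 0) {q : F} (hq : Pr A q) : Pr (chart A y 1) q := by
  obtain ⟨h, hq⟩ := hq
  refine ⟨le_chart A y h, ?_⟩
  have h1 : Prime (C (⟨q, h⟩ : A)) := Polynomial.prime_C_iff.2 hq
  have h2 := (MulEquiv.prime_iff (iso hy)).2 h1
  have h3 : iso hy (C (⟨q, h⟩ : A)) = ⟨q, le_chart A y h⟩ := Subtype.ext (aeval_C' _)
  rwa [h3] at h2

theorem inf_coeff {P : F} {A : Subalgebra ℚ F} (hA : Good P A) {α : ℝ*}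
    (hα : ∀ a ∈ A, Inf (α - a.1)) (g : A[X]) (hg : 1 ≤ g.natDegree) :
    ∃ n, Inf ((taylor α (g.map (toR A))).coeff n) := by
  by_contra hcon
  push Not at hcon
  obtain ⟨d, hd⟩ : ∃ d, g.natDegree = d + 1 := ⟨g.natDegree - 1, by omega⟩
  -- the leading coefficient
  have hinj : Function.Injective (toR A) := by
    rw [injective_iff_map_eq_zero]
    intro a ha
    have ha' : (a : F).1 = 0 := ha
    rcases hA.inf a a.2 with h | ⟨r, hr⟩
    · have := h 0
      rw [ha', abs_zero] at this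
      exact absurd this (by simp)
    · apply Subtype.ext
      have h2 : (algebraMap ℚ F r).1 = (r : ℝ*) := by
        change (algebraMap ℚ ℝ* r) = (r : ℝ*)
        exact eq_ratCast _ r
      rw [hr, h2] at ha'
      have h3 : r = 0 := by exact_mod_cast ha'
      rw [hr, h3, map_zero]
      rfl
  have hdeg : (g.map (toR A)).natDegree = d + 1 := by
    rw [Polynomial.natDegree_map_eq_of_injective hinj, hd]
  have h1 : (taylor α (g.map (toR A))).coeff (d + 1) = ((g.coeff (d + 1) : A) : F).1 := by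
    rw [taylor_coeff, ← hdeg]
    have h := Polynomial.hasseDeriv_natDegree_eq_C (g.map (toR A))
    rw [h, eval_C, leadingCoeff, coeff_map, hdeg]
    rfl
  have h2 : (taylor α (g.map (toR A))).coeff d =
      ((g.coeff d : A) : F).1 + (d + 1) * ((g.coeff (d + 1) : A) : F).1 * α := by
    rw [taylor_coeff, Polynomial.eval_eq_sum_range' (n := 2)]
    · rw [Finset.sum_range_succ, Finset.sum_range_one, hasseDeriv_coeff, hasseDeriv_coeff,
        coeff_map, coeff_map, zero_add, Nat.choose_self, add_comm 1 d, Nat.choose_succ_self_right]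
      push_cast
      rw [pow_zero, pow_one, one_mul, mul_one]
      rfl
    · refine lt_of_le_of_lt (natDegree_hasseDeriv_le _ _) ?_
      rw [hdeg]
      omega
  obtain ⟨n1, hn1⟩ := not_inf (hcon (d + 1))
  obtain ⟨n2, hn2⟩ := not_inf (hcon d)
  rw [h1] at hn1
  rw [h2] at hn2
  have hc0 : g.coeff (d + 1) ≠ 0 := by
    rw [← hd]
    exact leadingCoeff_ne_zero.2 fun h => by rw [h, natDegree_zero] at hg; omega
  rcases hA.inf _ (g.coeff (d + 1)).2 with h | ⟨r, hr⟩
  · exact absurd (h n1) (not_lt.2 hn1)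
  · have hr1 : ((g.coeff (d + 1) : A) : F).1 = (r : ℝ*) := by
      rw [hr]
      change (algebraMap ℚ ℝ* r) = (r : ℝ*)
      exact eq_ratCast _ r
    have hr0 : r ≠ 0 := by
      rintro rfl
      apply hc0
      apply Subtype.ext
      rw [hr, map_zero]
      rfl
    set s : ℚ := (d + 1) * r with hs
    have hs0 : s ≠ 0 := mul_ne_zero (by positivity) hr0
    set a : F := algebraMap ℚ F (-s⁻¹) * (g.coeff d : A) with ha
    have haA : a ∈ A := mul_mem (A.algebraMap_mem _) (g.coeff d).2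
    have ha1 : a.1 = -(s : ℝ*)⁻¹ * ((g.coeff d : A) : F).1 := by
      change (algebraMap ℚ ℝ* (-s⁻¹)) * ((g.coeff d : A) : F).1 = _
      rw [eq_ratCast]
      push_cast
      ring
    have hsR : (s : ℝ*) ≠ 0 := by exact_mod_cast hs0
    rw [hr1] at hn2
    have h3 : α - a.1 = (s : ℝ*)⁻¹ * (((g.coeff d : A) : F).1 + (d + 1) * (r : ℝ*) * α) := by
      rw [ha1]
      have h4 : ((d : ℝ*) + 1) * (r : ℝ*) = (s : ℝ*) := by rw [hs]; push_cast; ring
      rw [h4]
      field_simp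
      ring
    obtain ⟨m, hm⟩ := exists_nat_ge (|s⁻¹|)
    have hm' : |(s : ℝ*)⁻¹| ≤ (m : ℝ*) := by
      have : ((|s⁻¹| : ℚ) : ℝ*) ≤ ((m : ℚ) : ℝ*) := by exact_mod_cast hm
      push_cast at this
      exact this
    have h5 : |α - a.1| ≤ ((m * n2 : ℕ) : ℝ*) := by
      rw [h3, abs_mul]
      push_cast
      exact mul_le_mul hm' hn2 (abs_nonneg _) (Nat.cast_nonneg _)
    exact absurd (hα a haA (m * n2)) (not_lt.2 h5)

end G

open G in
theorem t_G : M_G := by
  intro hRL hAD hRAT hCONV P A hP hA α hαb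
  by_cases hα : ∃ a ∈ A, ∃ n : ℕ, |α - a.1| ≤ n
  · exact ⟨A, hA, ext_refl A, hα⟩
  have hα' : ∀ a ∈ A, Inf (α - a.1) := by
    intro a ha
    by_contra h
    exact hα ⟨a, ha, not_inf h⟩
  obtain ⟨hdom, hufd, -, -⟩ := hCONV.1 P A hA
  obtain ⟨y2, hy2, hy2'⟩ := hAD A hA.cnt hA.nz
  have : Countable A := hA.cnt.to_subtype
  have : Countable A[X] := by
    refine Function.Injective.countable (f := fun g : A[X] =>
      (⟨g.natDegree, fun i : Fin (g.natDegree + 1) => g.coeff i⟩ :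
        Σ n : ℕ, (Fin (n + 1) → A))) ?_
    intro g g' h
    have h1 : g.natDegree = g'.natDegree := congrArg Sigma.fst h
    ext1 i
    rcases Nat.lt_or_ge g.natDegree i with h2 | h2
    · rw [coeff_eq_zero_of_natDegree_lt h2, coeff_eq_zero_of_natDegree_lt (h1 ▸ h2)]
    · have h3 : ∀ x x' : Σ n : ℕ, (Fin (n + 1) → A), x = x' → ∀ i : ℕ, ∀ hi : i < x.1 + 1,
          ∀ hi' : i < x'.1 + 1, x.2 ⟨i, hi⟩ = x'.2 ⟨i, hi'⟩ := by
        rintro x x' rfl i hi hi'
        rfl
      exact h3 _ _ h i (Nat.lt_succ_of_le h2) (Nat.lt_succ_of_le (h2.trans h1.le))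
  obtain ⟨θ, hθ0, hθ1, hθ⟩ := hRL
    ((fun g : A[X] => taylor α (g.map (toR A))) '' {g | 1 ≤ g.natDegree})
    ((Set.to_countable _).image _) (by
      rintro G ⟨g, hg, rfl⟩
      exact inf_coeff hA hα' g hg)
  set y : F := (α + (θ : ℝ*), y2) with hy
  have hy0 : ∀ g : A[X], aeval y g = 0 → g = 0 := by
    intro g hg
    by_contra hg0
    have h1 := (hy2' g hg0 (α + (θ : ℝ*))).1 ⟨2, Nat.prime_two⟩
    apply h1
    rw [← hy, hg]
    rfl
  have hnz : Nz (chart A y 1 : Set F) := by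
    intro a ha ha0
    obtain ⟨g, rfl⟩ := mem_chart.1 ha
    have hg0 : g ≠ 0 := by
      rintro rfl
      exact ha0 (map_zero _)
    exact hy2' g hg0 (α + (θ : ℝ*))
  have hinf : ∀ a ∈ chart A y 1, Inf a.1 ∨ ∃ r : ℚ, a = algebraMap ℚ F r := by
    intro a ha
    obtain ⟨g, rfl⟩ := mem_chart.1 ha
    rcases Nat.lt_or_ge g.natDegree 1 with h | h
    · have h0 : g.natDegree = 0 := by omega
      rw [Polynomial.eq_C_of_natDegree_eq_zero h0, aeval_C']
      exact hA.inf _ (g.coeff 0).2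
    · left
      rw [aeval_fst]
      have h1 := hθ _ ⟨g, h, rfl⟩
      rw [taylor_eval, add_comm] at h1
      exact h1
  have hufd' : UniqueFactorizationMonoid (chart A y 1) :=
    MulEquiv.uniqueFactorizationMonoid (iso hy0).toMulEquiv inferInstance
  have hθabs : |(θ : ℝ*)| ≤ 1 := by
    rw [← Hyperreal.coe_abs, ← Hyperreal.coe_one, Hyperreal.coe_le_coe, abs_le]
    constructor <;> linarith
  refine ⟨chart A y 1, ⟨?_, hnz, hinf, hCONV.2.1 _ hnz hinf hufd', ?_, pr_chart hy0 hA.pr⟩,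
    ⟨le_chart A y, ?_, fun q hq => Or.inl ⟨pr_chart hy0 hq.1, hq.2⟩⟩, y, ?_, 1, ?_⟩
  · have h1 : (chart A y 1 : Set F) = Set.range fun g : A[X] => aeval y g := by
      ext r
      exact mem_chart
    rw [h1]
    exact Set.countable_range _
  · intro a ha
    obtain ⟨g, rfl⟩ := mem_chart.1 ha
    refine bd_aeval hA.bd (bd_add hαb ?_) g
    exact ⟨1, by
      rw [pow_one]
      exact lt_of_le_of_lt hθabs (lt_trans (by norm_num) two_lt)⟩
  · intro a ha b hb c hc ha0 hab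
    obtain ⟨g, rfl⟩ := mem_chart.1 hc
    have h1 : C (⟨a, ha⟩ : A) * g = C (⟨b, hb⟩ : A) := by
      apply (iso hy0).injective
      apply Subtype.ext
      rw [iso_val, iso_val, map_mul, aeval_C', aeval_C']
      exact hab
    have ha1 : (⟨a, ha⟩ : A) ≠ 0 := fun h => ha0 (congrArg Subtype.val h)
    have h3 : g.natDegree = 0 := by
      have h4 := congrArg natDegree h1
      rwa [natDegree_C_mul ha1, natDegree_C] at h4
    rw [Polynomial.eq_C_of_natDegree_eq_zero h3, aeval_C']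
    exact (g.coeff 0).2
  · exact mem_chart.2 ⟨X, aeval_X _⟩
  · rw [hy]
    change |α - (α + (θ : ℝ*))| ≤ ((1 : ℕ) : ℝ*)
    rw [sub_add_cancel_left, abs_neg, Nat.cast_one]
    exact hθabs

end OID
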