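import Pool.Agent.OID.Stmts1

/-!
# Elementary facts on the greatest common divisor, the exact quotient and the integer part
-/

namespace OID

namespace GCD

variable {M : Type} [CommRing M] [LinearOrder M] [IsStrictOrderedRing M]

/-- the units are `1` and `-1` -/
theorem units (hA : Alg M) (u v : M) (h : u * v = 1) : u = 1 ∨ u = -1 := by
  have hu : u ≠ 0 := by
    rintro rfl
    rw [zero_mul] at h
    exact zero_ne_one h
  have hv : v ≠ 0 := by
    rintro rfl
    rw [mul_zero] at h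
    exact zero_ne_one h
  have h1 : 1 ≤ |u| := hA.disc _ (abs_pos.2 hu)
  have h2 : 1 ≤ |v| := hA.disc _ (abs_pos.2 hv)
  have h3 : |u| * |v| = 1 := by rw [← abs_mul, h, abs_one]
  have h4 : |u| ≤ 1 := by
    by_contra hlt
    rw [not_le] at hlt
    have : |u| * 1 ≤ |u| * |v| := mul_le_mul_of_nonneg_left h2 (abs_nonneg u)
    rw [h3, mul_one] at this
    exact absurd this (not_le.2 hlt)
  have h5 : |u| = 1 := le_antisymm h4 h1
  rcases abs_choice u with h6 | h6
  · left; rw [← h6, h5]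
  · right; rw [← h5, h6, neg_neg]

/-- two nonnegative elements which divide each other are equal -/
theorem eq_of_dvd_dvd (hA : Alg M) {a b : M} (ha : 0 ≤ a) (hb : 0 ≤ b) (h1 : a ∣ b)
    (h2 : b ∣ a) : a = b := by
  obtain ⟨u, hu⟩ := h1
  obtain ⟨v, hv⟩ := h2
  rcases eq_or_lt_of_le ha with h0 | h0
  · rw [hu, ← h0, zero_mul]
  · have h3 : a * (u * v) = a * 1 := by
      rw [← mul_assoc, ← hu, ← hv, mul_one]
    have h4 : u * v = 1 := mul_left_cancel₀ h0.ne' h3
    rcases units hA u v h4 with h5 | h5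
    · rw [hu, h5, mul_one]
    · rw [h5, mul_neg_one] at hu
      rw [hu] at hb
      exact absurd hb (not_le.2 (neg_neg_of_pos h0))

/-- existence with a Bezout identity -/
theorem exists_gcd (hA : Alg M) (a b : M) : ∃ g : M, 0 ≤ g ∧
    (∀ d : M, d ∣ g ↔ d ∣ a ∧ d ∣ b) ∧ ∃ u v : M, g = u * a + v * b := by
  have hp := hA.pid
  obtain ⟨g, hg⟩ := (hp.principal (Ideal.span {a, b})).principal
  have hg' : Ideal.span {a, b} = Ideal.span {g} := hg
  have hga : g ∣ a := by
    rw [← Ideal.mem_span_singleton, ← hg']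
    exact Ideal.subset_span (by simp)
  have hgb : g ∣ b := by
    rw [← Ideal.mem_span_singleton, ← hg']
    exact Ideal.subset_span (by simp)
  have hg2 : g ∈ Ideal.span {a, b} := by
    rw [hg']
    exact Ideal.mem_span_singleton_self g
  obtain ⟨u, v, huv⟩ := Ideal.mem_span_pair.1 hg2
  refine ⟨|g|, abs_nonneg g, ?_, ?_⟩
  · intro d
    rw [dvd_abs]
    constructor
    · intro h
      exact ⟨h.trans hga, h.trans hgb⟩
    · rintro ⟨h1, h2⟩
      rw [← huv]
      exact dvd_add (h1.mul_left u) (h2.mul_left v)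
  · rcases abs_choice g with h | h
    · exact ⟨u, v, by rw [h, ← huv]⟩
    · exact ⟨-u, -v, by rw [h, ← huv]; ring⟩

theorem gcd_spec (hA : Alg M) (a b : M) :
    0 ≤ gcdM a b ∧ ∀ d : M, d ∣ gcdM a b ↔ d ∣ a ∧ d ∣ b := by
  obtain ⟨g, h1, h2, _⟩ := exists_gcd hA a b
  have h : ∃ g : M, 0 ≤ g ∧ ∀ d : M, d ∣ g ↔ d ∣ a ∧ d ∣ b := ⟨g, h1, h2⟩
  rw [gcdM, dif_pos h]
  exact h.choose_spec

theorem gcd_unique (hA : Alg M) (a b g : M) (h0 : 0 ≤ g)
    (h : ∀ d : M, d ∣ g ↔ d ∣ a ∧ d ∣ b) : gcdM a b = g := by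
  obtain ⟨h1, h2⟩ := gcd_spec hA a b
  exact eq_of_dvd_dvd hA h1 h0 ((h _).2 ((h2 _).1 dvd_rfl)) ((h2 _).2 ((h _).1 dvd_rfl))

theorem gcd_mul (hA : Alg M) (c a b : M) : gcdM (c * a) (c * b) = |c| * gcdM a b := by
  obtain ⟨g, h1, h2, u, v, h3⟩ := exists_gcd hA a b
  have hg : gcdM a b = g := gcd_unique hA a b g h1 h2
  rw [hg]
  have hga : g ∣ a := ((h2 g).1 dvd_rfl).1
  have hgb : g ∣ b := ((h2 g).1 dvd_rfl).2
  apply gcd_unique hA _ _ _ (mul_nonneg (abs_nonneg c) h1)
  intro d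
  have h4 : d ∣ |c| * g ↔ d ∣ c * g := by
    rcases abs_choice c with h | h
    · rw [h]
    · rw [h, neg_mul, dvd_neg]
  rw [h4]
  constructor
  · intro h
    exact ⟨h.trans (mul_dvd_mul_left c hga), h.trans (mul_dvd_mul_left c hgb)⟩
  · rintro ⟨h5, h6⟩
    have h7 : c * g = u * (c * a) + v * (c * b) := by rw [h3]; ring
    rw [h7]
    exact dvd_add (h5.mul_left u) (h6.mul_left v)

omit [IsStrictOrderedRing M] in
theorem quo_pos {a b : M} (hb : b ≠ 0) (h : b ∣ a) : a = b * quoM a b := by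
  have h' : b ≠ 0 ∧ ∃ c : M, a = b * c := ⟨hb, h⟩
  rw [quoM, dif_pos h']
  exact h'.2.choose_spec

omit [IsStrictOrderedRing M] in
theorem quo_neg {a b : M} (h : b = 0 ∨ ¬ b ∣ a) : quoM a b = 0 := by
  rw [quoM, dif_neg]
  rintro ⟨h1, h2⟩
  rcases h with h | h
  · exact h1 h
  · exact h h2

theorem quo_mul {b c : M} (hb : b ≠ 0) : quoM (b * c) b = c :=
  (mul_left_cancel₀ hb (quo_pos hb (Dvd.intro c rfl))).symm

theorem quo_mul_mul {c : M} (a b : M) (hc : c ≠ 0) : quoM (c * a) (c * b) = quoM a b := by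
  by_cases h : b = 0 ∨ ¬ b ∣ a
  · rw [quo_neg h, quo_neg]
    rcases h with h | h
    · left; rw [h, mul_zero]
    · right
      intro h'
      exact h ((mul_dvd_mul_iff_left hc).1 h')
  · rw [not_or, not_not] at h
    obtain ⟨hb, k, rfl⟩ := h
    rw [quo_mul hb, ← mul_assoc, quo_mul (mul_ne_zero hc hb)]

theorem flo_unique (hA : Alg M) (a c : M) (n : ℕ) (hn : 0 < n) (h1 : (n : M) * c ≤ a)
    (h2 : a < n * c + n) : floM a n = c := by
  have h : ∃ c : M, (n : M) * c ≤ a ∧ a < n * c + n := ⟨c, h1, h2⟩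
  rw [floM, dif_pos h]
  obtain ⟨h3, h4⟩ := h.choose_spec
  set c' := h.choose
  have hn' : (0 : M) < n := by exact_mod_cast hn
  have key : ∀ x y : M, (n : M) * x ≤ a → a < n * y + n → x ≤ y := by
    intro x y hx hy
    by_contra hlt
    rw [not_le] at hlt
    have h5 : 1 ≤ x - y := hA.disc _ (sub_pos.2 hlt)
    have h6 : (n : M) * 1 ≤ n * (x - y) := mul_le_mul_of_nonneg_left h5 hn'.le
    have h7 : (n : M) * (x - y) = n * x - n * y := by ring
    rw [h7, mul_one] at h6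
    linarith
  exact le_antisymm (key _ _ h3 h2) (key _ _ h1 h4)

theorem small (hA : Alg M) : ∀ (n : ℕ) (r : M), 0 ≤ r → r < n → ∃ k : ℕ, k < n ∧ r = k := by
  intro n
  induction n with
  | zero =>
    intro r h1 h2
    rw [Nat.cast_zero] at h2
    exact absurd h1 (not_le.2 h2)
  | succ n ih =>
    intro r h1 h2
    rcases eq_or_lt_of_le h1 with h | h
    · exact ⟨0, Nat.succ_pos n, by rw [← h, Nat.cast_zero]⟩
    · have h3 : 1 ≤ r := hA.disc r h
      rw [Nat.cast_succ] at h2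
      obtain ⟨k, hk, hr⟩ := ih (r - 1) (by linarith) (by linarith)
      exact ⟨k + 1, Nat.succ_lt_succ hk, by rw [Nat.cast_succ, ← hr, sub_add_cancel]⟩

theorem finite_divisors (hA : Alg M) (c : M) (hc : c ≠ 0) : {d : M | d ∣ c}.Finite := by
  have hp := hA.pid
  have hu : Finite Mˣ := by
    have h1 : (Set.univ : Set Mˣ) ⊆ {1, -1} := by
      intro u _
      rcases units hA (u : M) ((u⁻¹ : Mˣ) : M) (Units.mul_inv u) with h | h
      · left
        exact Units.ext h
      · right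
        exact Units.ext (by rw [h, Units.val_neg, Units.val_one])
    exact Set.finite_univ_iff.1 ((Set.toFinite _).subset h1)
  have := Fintype.ofFinite Mˣ
  have h2 : Fintype {x : M // x ∣ c} := UniqueFactorizationMonoid.fintypeSubtypeDvd c hc
  have h3 : Finite {x : M // x ∣ c} := Finite.of_fintype _
  exact h3

end GCD

theorem t_GCD : M_GCD := by
  intro hD M _ _ _ hA
  refine ⟨GCD.units hA, GCD.gcd_spec hA, GCD.gcd_unique hA, GCD.gcd_mul hA,
    fun b c hb => GCD.quo_mul hb, fun a b h => GCD.quo_neg h,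
    fun c a b hc => GCD.quo_mul_mul a b hc, fun a c n hn h1 h2 => GCD.flo_unique hA a c n hn h1 h2,
    ?_, GCD.finite_divisors hA⟩
  intro a n hn
  have hn' : (0 : M) < n := by exact_mod_cast hn
  obtain ⟨q, r, h1, h2, h3⟩ := hD M hA a n hn'
  obtain ⟨k, hk, hr⟩ := GCD.small hA n r h2 h3
  exact ⟨q, k, hk, by rw [h1, hr]⟩

end OID
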