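import Pool.Agent.OID.Stmts4

/-!
# Module GRO: growth
-/

set_option autoImplicit false

namespace OID

open Polynomial

namespace GRO

variable {M : Type} [CommRing M] [LinearOrder M] [IsStrictOrderedRing M]

theorem small (hA : Alg M) (n : ℕ) : ∀ x : M, 0 ≤ x → x ≤ n → ∃ k : ℕ, x = k := by
  induction n with
  | zero =>
    intro x h1 h2
    refine ⟨0, ?_⟩
    rw [Nat.cast_zero] at h2 ⊢
    exact le_antisymm h2 h1
  | succ n ih =>
    intro x h1 h2
    rcases le_or_gt x n with h | h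
    · exact ih x h1 h
    · refine ⟨n + 1, le_antisymm h2 ?_⟩
      have h3 := hA.disc (x - n) (sub_pos.2 h)
      push_cast
      linarith

theorem int_of_std (hA : Alg M) (x : M) (h : Std x) : ∃ z : ℤ, x = z := by
  obtain ⟨k, hk⟩ := h
  obtain ⟨j, hj⟩ := small hA k |x| (abs_nonneg x) hk
  rcases abs_choice x with h | h
  · exact ⟨j, by rw [← h, hj]; simp⟩
  · refine ⟨-j, ?_⟩
    push_cast
    rw [← hj, h, neg_neg]

/-- The alternating sum. -/
def alt (D : ℕ) (u : ℕ → M) : M :=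
  ∑ k ∈ Finset.range (D + 1), ((-1 : ℤ) ^ (D - k) * D.choose k) • u k

theorem alt_mul (D : ℕ) (u : ℕ → M) (d : M) : d * alt D u = alt D (fun k => d * u k) := by
  unfold alt
  rw [Finset.mul_sum]
  refine Finset.sum_congr rfl fun k _ => ?_
  rw [mul_smul_comm]

theorem alt_congr (D : ℕ) (u v : ℕ → M) (h : ∀ k ≤ D, u k = v k) : alt D u = alt D v := by
  unfold alt
  refine Finset.sum_congr rfl fun k hk => ?_
  rw [h k (by have := Finset.mem_range.1 hk; omega)]

theorem alt_le (D : ℕ) (u : ℕ → M) (b : M) (h : ∀ k ≤ D, |u k| ≤ b) : |alt D u| ≤ 2 ^ D * b := by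
  unfold alt
  refine (Finset.abs_sum_le_sum_abs _ _).trans ?_
  have h1 : ∀ k ∈ Finset.range (D + 1),
      |((-1 : ℤ) ^ (D - k) * D.choose k) • u k| ≤ (D.choose k : M) * b := by
    intro k hk
    rw [zsmul_eq_mul, abs_mul]
    have h2 : |(((-1 : ℤ) ^ (D - k) * D.choose k : ℤ) : M)| = (D.choose k : M) := by
      push_cast
      rw [abs_mul, abs_pow, abs_neg, abs_one, one_pow, one_mul, abs_of_nonneg (Nat.cast_nonneg _)]
    rw [h2]
    exact mul_le_mul_of_nonneg_left (h k (by have := Finset.mem_range.1 hk; omega))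
      (Nat.cast_nonneg _)
  refine (Finset.sum_le_sum h1).trans ?_
  rw [← Finset.sum_mul]
  have h3 : ∑ k ∈ Finset.range (D + 1), (D.choose k : M) = 2 ^ D := by
    rw [← Nat.cast_sum, Nat.sum_range_choose]
    push_cast
    rfl
  rw [h3]

theorem alt_eval0 (P : M[X]) :
    alt P.natDegree (fun k => P.eval (k : M)) = P.natDegree.factorial * P.leadingCoeff := by
  have h := congrFun (Polynomial.fwdDiff_iter_degree_eq_factorial P) 0
  rw [fwdDiff_iter_eq_sum_shift] at h
  unfold alt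
  have h2 : ∑ k ∈ Finset.range (P.natDegree + 1),
      ((-1 : ℤ) ^ (P.natDegree - k) * P.natDegree.choose k) • P.eval (0 + k • (1 : M)) =
      ∑ k ∈ Finset.range (P.natDegree + 1),
      ((-1 : ℤ) ^ (P.natDegree - k) * P.natDegree.choose k) • P.eval (k : M) := by
    refine Finset.sum_congr rfl fun k _ => ?_
    rw [zero_add, nsmul_one]
  rw [← h2, h]
  simp [mul_comm]

theorem alt_eval (G : M[X]) (x h : M) (hh : h ≠ 0) :
    alt G.natDegree (fun k => G.eval (x + h * k)) =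
      G.natDegree.factorial * G.leadingCoeff * h ^ G.natDegree := by
  have hq : (C h * X + C x : M[X]).natDegree = 1 := natDegree_linear hh
  have hl : (C h * X + C x : M[X]).leadingCoeff = h := leadingCoeff_linear hh
  have h1 := alt_eval0 (G.comp (C h * X + C x))
  have h2 : (G.comp (C h * X + C x)).natDegree = G.natDegree := by
    rw [natDegree_comp, hq, mul_one]
  have h3 : (G.comp (C h * X + C x)).leadingCoeff = G.leadingCoeff * h ^ G.natDegree := by
    rw [leadingCoeff_comp (by rw [hq]; exact one_ne_zero), hl]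
  rw [h2, h3] at h1
  rw [mul_assoc, ← h1]
  refine alt_congr _ _ _ fun k _ => ?_
  rw [eval_comp]
  simp [add_comm]

theorem exists_L (hA : Alg M) (Q : Finset (M × M)) (hQ : ∀ q ∈ Q, q.2 ≠ 0 ∧ Std q.2) :
    ∃ L : ℕ, 0 < L ∧ ∀ q ∈ Q, q.2 ∣ (L : M) := by
  classical
  induction Q using Finset.induction_on with
  | empty => exact ⟨1, one_pos, by simp⟩
  | insert a s ha ih =>
    obtain ⟨L, hL, h1⟩ := ih fun q hq => hQ q (Finset.mem_insert_of_mem hq)
    obtain ⟨z, hz⟩ := int_of_std hA a.2 (hQ a (Finset.mem_insert_self a s)).2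
    have hz0 : z ≠ 0 := by
      rintro rfl
      exact (hQ a (Finset.mem_insert_self a s)).1 (by rw [hz, Int.cast_zero])
    refine ⟨z.natAbs * L, Nat.mul_pos (Int.natAbs_pos.2 hz0) hL, ?_⟩
    intro q hq
    rcases Finset.mem_insert.1 hq with rfl | hq
    · rw [hz]
      push_cast
      have h2 : ((z.natAbs : ℕ) : M) = ((z.natAbs : ℤ) : M) := by simp
      have h3 : (z : M) ∣ ((z.natAbs : ℤ) : M) := by
        have h4 : z ∣ (z.natAbs : ℤ) := Int.dvd_natAbs.2 (dvd_refl z)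
        exact map_dvd (Int.castRingHom M) h4
      rw [Nat.cast_natAbs]
      have h5 : (z : M) ∣ ((|z| : ℤ) : M) := map_dvd (Int.castRingHom M) (self_dvd_abs z)
      exact dvd_mul_of_dvd_left h5 _
    · push_cast
      exact dvd_mul_of_dvd_right (h1 q hq) _

theorem window (hWIN : S_WIN) (hA : Alg M) (L : ℕ) (Q Qn : Finset (M × M)) (n w : M)
    (hQn : ∀ q ∈ Qn, ¬ Std q.2) (hsp : ∀ q ∈ Q, q ∈ Qn ∨ q.2 ∣ (L : M)) (hw : w ∈ Wn n Q)
    (hL : 0 < L) (y : M) (hy : (L : M) ∣ y - w) (hy0 : 0 ≤ y) (D : ℕ) (h : M)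
    (hLh : (L : M) ∣ h) (hh : 0 ≤ h) (hlt : y + h * D + L * (((D + 1) * Qn.card : ℕ) : M) < n) :
    ∃ x, ∀ j : ℕ, j ≤ D → x + h * j ∈ Wn n Q := by
  have hL' : (0 : M) < L := by exact_mod_cast hL
  obtain ⟨bad, hb, hgood⟩ := hWIN M hA Qn hQn (D + 1) (fun j => y + h * (j : ℕ)) (fun _ => (L : M))
    (fun j => ⟨⟨L, by rw [abs_of_pos hL']⟩, hL'.ne'⟩)
  obtain ⟨i, hi, hib⟩ : ∃ i ∈ Finset.range (bad.card + 1), i ∉ bad := by
    by_contra hcon
    push Not at hcon
    have h1 : Finset.range (bad.card + 1) ⊆ bad := fun i hi => hcon i hi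
    have h2 := Finset.card_le_card h1
    rw [Finset.card_range] at h2
    omega
  have hi' : i ≤ (D + 1) * Qn.card := by
    have := Finset.mem_range.1 hi
    omega
  refine ⟨y + L * i, fun j hj => ⟨?_, ?_, ?_⟩⟩
  · have h1 : (0 : M) ≤ L * i := by positivity
    have h2 : (0 : M) ≤ h * j := by positivity
    linarith
  · have h1 : (i : M) ≤ (((D + 1) * Qn.card : ℕ) : M) := by exact_mod_cast hi'
    have h2 : h * j ≤ h * D := mul_le_mul_of_nonneg_left (by exact_mod_cast hj) hh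
    have h3 := mul_le_mul_of_nonneg_left h1 hL'.le
    linarith
  · intro q hq
    rcases hsp q hq with h0 | h0
    · have h1 := hgood i hib ⟨j, by omega⟩ q h0
      have h2 : y + L * i + h * j - q.1 = y + h * j + L * i - q.1 := by ring
      rw [h2]
      exact h1
    · intro h1
      apply hw.2.2 q hq
      have h2 : (L : M) ∣ (y + L * i + h * j) - w := by
        have h3 : y + L * i + h * j - w = (y - w) + L * i + h * j := by ring
        rw [h3]
        exact dvd_add (dvd_add hy (dvd_mul_right _ _)) (dvd_mul_of_dvd_left hLh _)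
      have h3 := dvd_sub h1 (h0.trans h2)
      have h4 : y + L * i + h * j - q.1 - (y + L * i + h * j - w) = w - q.1 := by ring
      rwa [h4] at h3

end GRO

theorem t_GRO : M_GRO := by
  classical
  intro hDIV hGCD hWIN M _ _ _ hA n n' Q γ G d hQ hn hns hne hd hG hf
  obtain ⟨w, hw⟩ := hne
  have hbig : ∀ k : ℕ, (k : M) < n := by
    intro k
    by_contra hcon
    exact hns ⟨k, by rw [abs_of_nonneg hn]; exact not_lt.1 hcon⟩
  obtain ⟨L, hL, hLd⟩ := GRO.exists_L hA (Q.filter fun q => Std q.2) (fun q hq => by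
    rw [Finset.mem_filter] at hq
    exact ⟨hQ q hq.1, hq.2⟩)
  set Qn := Q.filter fun q => ¬ Std q.2 with hQn
  have hsp : ∀ q ∈ Q, q ∈ Qn ∨ q.2 ∣ (L : M) := by
    intro q hq
    by_cases h : Std q.2
    · exact Or.inr (hLd q (Finset.mem_filter.2 ⟨hq, h⟩))
    · exact Or.inl (Finset.mem_filter.2 ⟨hq, h⟩)
  have hQn' : ∀ q ∈ Qn, ¬ Std q.2 := fun q hq => (Finset.mem_filter.1 hq).2
  have hL' : (0 : M) < L := by exact_mod_cast hL
  have hL1 : (1 : M) ≤ L := by exact_mod_cast hL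
  obtain ⟨y, hy, hy0, hyL⟩ : ∃ y : M, (L : M) ∣ y - w ∧ 0 ≤ y ∧ y < L := by
    obtain ⟨q, ρ, h1, h2, h3⟩ := hDIV M hA w L hL'
    exact ⟨ρ, ⟨-q, by linear_combination -h1⟩, h2, h3⟩
  set D := G.natDegree with hD
  obtain ⟨x₁, hx₁⟩ := GRO.window hWIN hA L Q Qn n w hQn' hsp hw hL y hy hy0 D L (dvd_refl _) hL'.le
    (by
      have h1 := hbig (L + L * D + L * ((D + 1) * Qn.card))
      push_cast at h1 ⊢
      linarith)
  obtain ⟨h, x₂, hh0, hnh, hLh, hx₂⟩ : ∃ h x : M, 0 < h ∧ n ≤ (2 * (D + 2) : ℕ) * h ∧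
      (L : M) ∣ h ∧ ∀ j : ℕ, j ≤ D → x + h * j ∈ Wn n Q := by
    have hLD : (0 : M) < L * (D + 2) := by positivity
    obtain ⟨q, ρ, h1, h2, h3⟩ := hDIV M hA n (L * (D + 2)) hLD
    have hq : ∀ k : ℕ, (k : M) < q := by
      intro k
      by_contra hcon
      have h4 := hbig (L * (D + 2) * (k + 1))
      have h5 := mul_le_mul_of_nonneg_left (not_lt.1 hcon) hLD.le
      push_cast at h4
      linarith
    have hq0 : 0 < q := by simpa using hq 0
    have hLq : 0 < (L : M) * q := mul_pos hL' hq0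
    obtain ⟨x, hx⟩ := GRO.window hWIN hA L Q Qn n w hQn' hsp hw hL y hy hy0 D (L * q)
      (dvd_mul_right _ _) hLq.le (by
        have h7 := mul_le_mul_of_nonneg_left (hq (2 + (D + 1) * Qn.card)).le hL'.le
        push_cast at h7 ⊢
        nlinarith)
    refine ⟨L * q, x, hLq, ?_, dvd_mul_right _ _, hx⟩
    have h7 := mul_le_mul_of_nonneg_left (hA.disc q hq0) hLD.le
    push_cast
    linarith
  -- the alternating sums
  have halt : ∀ (x h : M), h ≠ 0 → (∀ j : ℕ, j ≤ D → x + h * j ∈ Wn n Q) →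
      d * GRO.alt D (fun j => γ (x + h * j)) = D.factorial * G.leadingCoeff * h ^ D := by
    intro x h hh hg
    rw [hD, ← GRO.alt_eval G x h hh, GRO.alt_mul]
    exact GRO.alt_congr _ _ _ fun k hk => (hf _ (hg k hk)).1
  have hg : G.leadingCoeff ≠ 0 := by
    intro h0
    rw [leadingCoeff_eq_zero] at h0
    rw [hD, h0] at hG
    simp at hG
  have e1 := halt x₁ L hL'.ne' hx₁
  have e2 := halt x₂ h hh0.ne' hx₂
  set A := GRO.alt D (fun j => γ (x₁ + L * j)) with hAdef
  set A' := GRO.alt D (fun j => γ (x₂ + h * j)) with hA'def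
  have hfac : (D.factorial : M) ≠ 0 := by
    exact_mod_cast Nat.factorial_ne_zero D
  have hA0 : A ≠ 0 := by
    intro h0
    rw [h0, mul_zero] at e1
    exact (mul_ne_zero (mul_ne_zero hfac hg) (pow_ne_zero _ hL'.ne')) e1.symm
  have hA1 : 1 ≤ |A| := hA.disc _ (abs_pos.2 hA0)
  have hA' : |A'| ≤ 2 ^ D * n' := by
    apply GRO.alt_le
    intro k hk
    have h1 := hf _ (hx₂ k hk)
    rw [abs_of_nonneg h1.2.1]
    exact h1.2.2.le
  have e3 : A * h ^ D = A' * L ^ D := by
    apply mul_left_cancel₀ hd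
    linear_combination h ^ D * e1 - (L : M) ^ D * e2
  have h1 : h ^ D ≤ 2 ^ D * n' * L ^ D := by
    calc h ^ D ≤ |A| * h ^ D := le_mul_of_one_le_left (by positivity) hA1
      _ = |A * h ^ D| := by rw [abs_mul, abs_of_nonneg (by positivity : 0 ≤ h ^ D)]
      _ = |A'| * L ^ D := by rw [e3, abs_mul, abs_of_nonneg (by positivity : (0 : M) ≤ L ^ D)]
      _ ≤ 2 ^ D * n' * L ^ D := mul_le_mul_of_nonneg_right hA' (by positivity)
  have h2 : h * h ≤ h ^ D := by
    have h3 : h ^ 2 ≤ h ^ D := pow_le_pow_right₀ (hA.disc h hh0) hG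
    rwa [pow_two] at h3
  refine ⟨(2 * (D + 2)) * (2 * (D + 2)) * (2 ^ D * L ^ D), ?_⟩
  calc n * n ≤ ((2 * (D + 2) : ℕ) * h) * ((2 * (D + 2) : ℕ) * h) :=
        mul_le_mul hnh hnh hn (by positivity)
    _ = ((2 * (D + 2) : ℕ) : M) * (2 * (D + 2) : ℕ) * (h * h) := by ring
    _ ≤ ((2 * (D + 2) : ℕ) : M) * (2 * (D + 2) : ℕ) * (2 ^ D * n' * L ^ D) :=
        mul_le_mul_of_nonneg_left (h2.trans h1) (by positivity)
    _ = _ := by push_cast; ring

end OID
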