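import Pool.Agent.OID.Stmts3

/-!
# Splitting a normal prime
-/

namespace OID

open Polynomial

namespace I

theorem countable_poly (A : Subalgebra ℚ F) (h : (A : Set F).Countable) : Countable A[X] := by
  have h1 : Countable A := h.to_subtype
  rw [← Cardinal.mk_le_aleph0_iff] at h1 ⊢
  exact Polynomial.cardinalMk_le_max.trans (max_le h1 le_rfl)

theorem fst_aeval (A : Subalgebra ℚ F) (x : F) (g : A[X]) :
    (aeval x g).1 = (g.map (toR A)).eval x.1 := by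
  rw [aeval_def, eval_map, toR]
  exact Polynomial.hom_eval₂ g (algebraMap A F) (RingHom.fst ℝ* (∀ p : Nat.Primes, ℚ_[(p : ℕ)])) x

theorem Inf.ne_zero {x : ℝ*} (h : Inf x) : x ≠ 0 := by
  intro h0
  have := h 0
  rw [h0] at this
  simp at this

theorem Inf.mono {x y : ℝ*} (h : Inf x) (hxy : |x| ≤ |y|) : Inf y := fun n => (h n).trans_le hxy

theorem Inf.neg {x : ℝ*} (h : Inf x) : Inf (-x) := fun n => by rw [abs_neg]; exact h n

/-- an infinite element times an element bounded below by a positive standard rational number -/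
theorem Inf.mul {x y : ℝ*} (h : Inf x) {k : ℕ} (hk : 1 ≤ (k : ℝ*) * |y|) : Inf (x * y) := by
  intro n
  have h1 := h (n * k)
  rw [abs_mul]
  have hk0 : 0 < |y| := by
    by_contra h0
    have h2 : |y| = 0 := le_antisymm (not_lt.1 h0) (abs_nonneg y)
    rw [h2, mul_zero] at hk
    exact absurd hk (by norm_num)
  have h3 : ((n * k : ℕ) : ℝ*) * |y| < |x| * |y| := mul_lt_mul_of_pos_right h1 hk0
  refine lt_of_le_of_lt ?_ h3
  push_cast
  have : (n : ℝ*) * 1 ≤ n * (k * |y|) := mul_le_mul_of_nonneg_left hk (Nat.cast_nonneg n)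
  calc (n : ℝ*) = n * 1 := (mul_one _).symm
    _ ≤ n * (k * |y|) := this
    _ = n * k * |y| := by ring

theorem om_pos : (0 : ℝ*) < Om := Hyperreal.omega_pos

theorem om_nat (n : ℕ) : (n : ℝ*) < Om := Hyperreal.coe_lt_omega (n : ℝ)

/-- nonzero elements of `A` are bounded below -/
theorem lower {P : F} {A : Subalgebra ℚ F} (hA : Good P A) (hR : S_RAT) {a : F} (ha : a ∈ A)
    (h0 : a ≠ 0) : ∃ k : ℕ, 1 ≤ (k : ℝ*) * |a.1| := by
  rcases hA.inf a ha with h | ⟨r, hr⟩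
  · refine ⟨1, ?_⟩
    have := h 1
    push_cast at this ⊢
    rw [one_mul]
    exact this.le
  · have hr0 : r ≠ 0 := by
      rintro rfl
      exact h0 (by rw [hr, map_zero])
    refine ⟨r.den, ?_⟩
    have h1 : (algebraMap ℚ F r).1 = (r : ℝ*) := (hR.1 r).1
    rw [hr, h1]
    have h2 : (1 : ℚ) ≤ r.den * |r| := by
      have h3 : |r| = |(r.num : ℚ)| / r.den := by
        conv_lhs => rw [← Rat.num_div_den r]
        rw [abs_div, Nat.abs_cast]
      rw [h3]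
      have h4 : (r.den : ℚ) ≠ 0 := by exact_mod_cast r.den_ne_zero
      rw [mul_div_cancel₀ _ h4, ← Int.cast_abs]
      have h5 : 1 ≤ |r.num| := Int.one_le_abs (Rat.num_ne_zero.2 hr0)
      exact_mod_cast h5
    have h6 : ((1 : ℚ) : ℝ*) ≤ ((r.den * |r| : ℚ) : ℝ*) := by exact_mod_cast h2
    push_cast at h6
    exact h6

theorem fst_ne_zero {P : F} {A : Subalgebra ℚ F} (hA : Good P A) (hR : S_RAT) {a : F} (ha : a ∈ A)
    (h0 : a ≠ 0) : a.1 ≠ 0 := by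
  obtain ⟨k, hk⟩ := lower hA hR ha h0
  intro h
  rw [h, abs_zero, mul_zero] at hk
  exact absurd hk (by norm_num)

theorem isUnit_F {x : F} (h1 : x.1 ≠ 0) (h2 : ∀ p, x.2 p ≠ 0) : IsUnit x := by
  rw [isUnit_iff_exists_inv]
  refine ⟨(x.1⁻¹, fun p => (x.2 p)⁻¹), ?_⟩
  refine Prod.ext ?_ (funext fun p => ?_)
  · exact mul_inv_cancel₀ h1
  · exact mul_inv_cancel₀ (h2 p)

/-- the bounded elements -/
def Bd (x : F) : Prop := ∃ k : ℕ, |x.1| < Om ^ k

theorem one_le_om : (1 : ℝ*) ≤ Om := by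
  have := om_nat 1
  push_cast at this
  exact this.le

theorem om_pow_mono {k l : ℕ} (h : k ≤ l) : Om ^ k ≤ Om ^ l := pow_le_pow_right₀ one_le_om h

theorem Bd.add {x y : F} (hx : Bd x) (hy : Bd y) : Bd (x + y) := by
  obtain ⟨k, hk⟩ := hx
  obtain ⟨l, hl⟩ := hy
  refine ⟨max k l + 1, ?_⟩
  have h1 : |x.1| < Om ^ (max k l) := hk.trans_le (om_pow_mono (le_max_left _ _))
  have h2 : |y.1| < Om ^ (max k l) := hl.trans_le (om_pow_mono (le_max_right _ _))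
  have h3 : |x.1 + y.1| < Om ^ (max k l) * 2 := by
    refine (abs_add_le _ _).trans_lt ?_
    linarith
  have h4 : Om ^ (max k l) * 2 ≤ Om ^ (max k l + 1) := by
    rw [pow_succ]
    have := om_nat 2
    push_cast at this
    exact mul_le_mul_of_nonneg_left this.le (pow_nonneg om_pos.le _)
  exact h3.trans_le h4

theorem Bd.mul {x y : F} (hx : Bd x) (hy : Bd y) : Bd (x * y) := by
  obtain ⟨k, hk⟩ := hx
  obtain ⟨l, hl⟩ := hy
  refine ⟨k + l, ?_⟩
  have : |x.1 * y.1| < Om ^ (k + l) := by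
    rw [abs_mul, pow_add]
    exact mul_lt_mul'' hk hl (abs_nonneg _) (abs_nonneg _)
  exact this

theorem Bd.pow {x : F} (hx : Bd x) (n : ℕ) : Bd (x ^ n) := by
  induction n with
  | zero =>
    refine ⟨1, ?_⟩
    have h1 := om_nat 1
    push_cast at h1
    have : |((1 : F)).1| < Om ^ 1 := by
      rw [Prod.fst_one, abs_one, pow_one]
      exact h1
    simpa using this
  | succ n ih => rw [pow_succ]; exact ih.mul hx

theorem Bd.aeval (A : Subalgebra ℚ F) (hA : ∀ a ∈ A, Bd a) {y : F} (hy : Bd y) (g : A[X]) :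
    Bd (aeval y g) := by
  induction g using Polynomial.induction_on' with
  | add p q hp hq => rw [map_add]; exact hp.add hq
  | monomial n a =>
    rw [aeval_monomial]
    exact (hA _ a.2).mul (hy.pow n)

theorem chart_X (A : Subalgebra ℚ F) (y r : F) :
    r ∈ chart A y X ↔ ∃ (m : ℕ) (g : A[X]), y ^ m * r = aeval y g := by
  constructor
  · rintro ⟨m, g, h⟩
    exact ⟨m, g, by rwa [aeval_X] at h⟩
  · rintro ⟨m, g, h⟩
    exact ⟨m, g, by rwa [aeval_X]⟩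

theorem inj_of_unit (A : Subalgebra ℚ F) (y : F) (h : ∀ g : A[X], g ≠ 0 → IsUnit (aeval y g)) :
    Function.Injective (aeval y : A[X] → F) := by
  intro a b hab
  by_contra hne
  have h1 := h (a - b) (sub_ne_zero.2 hne)
  have h2 : aeval y (a - b) = aeval y a - aeval y b :=
    (aeval y : A[X] →ₐ[A] F).toRingHom.map_sub a b
  rw [h2, hab, sub_self] at h1
  exact not_isUnit_zero h1

/-- the components of the values of `g` at `y` when the absolute value of `y.2 p` is `1` -/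
theorem nz_chart (A : Subalgebra ℚ F) (y : F) (hyu : IsUnit y) (hy : ∀ p, ‖y.2 p‖ = 1)
    (h : ∀ g : A[X], g ≠ 0 → (∀ p, (aeval y g).2 p ≠ 0) ∧ {p | ‖(aeval y g).2 p‖ ≠ 1}.Finite) :
    Nz (chart A y X : Set F) := by
  intro r hr h0
  obtain ⟨m, g, hg⟩ := (chart_X A y r).1 hr
  have hcomp : ∀ p, y.2 p ^ m * r.2 p = (aeval y g).2 p := fun p => by
    rw [← hg]; rfl
  have hnorm : ∀ p, ‖r.2 p‖ = ‖(aeval y g).2 p‖ := fun p => by
    rw [← hcomp p, norm_mul, norm_pow, hy p, one_pow, one_mul]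
  have hg0 : g ≠ 0 := by
    rintro rfl
    apply h0
    rw [map_zero] at hg
    exact (hyu.pow m).mul_right_eq_zero.1 hg
  obtain ⟨h1, h2⟩ := h g hg0
  refine ⟨fun p hp => h1 p ?_, ?_⟩
  · rw [← hcomp p, hp, mul_zero]
  · simpa only [hnorm] using h2

theorem exists_rho (hIVT : S_IVT) (a : ℝ*) (ha : 0 < a) : ∃ ρ : ℝ*, 0 < ρ ∧ ρ ^ 2 = a := by
  obtain ⟨c, h0, h1, h2⟩ := hIVT (X ^ 2 - C a) 0 (a + 1) (by linarith)
    (by simp; exact ha.le) (by
      simp only [eval_sub, eval_pow, eval_X, eval_C]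
      nlinarith)
  simp only [eval_sub, eval_pow, eval_X, eval_C] at h2
  have h3 : c ^ 2 = a := by linarith
  refine ⟨c, lt_of_le_of_ne h0 ?_, h3⟩
  rintro rfl
  rw [zero_pow two_ne_zero] at h3
  exact ha.ne h3

theorem inf_rho {a ρ : ℝ*} (ha : Om < a) (h0 : 0 < ρ) (h : ρ ^ 2 = a) : Inf ρ := by
  intro n
  rw [abs_of_pos h0]
  by_contra hn
  have h1 : ρ ≤ n := not_lt.1 hn
  have h2 : ρ ^ 2 ≤ (n : ℝ*) ^ 2 := pow_le_pow_left₀ h0.le h1 2
  have h3 : ((n ^ 2 : ℕ) : ℝ*) < Om := om_nat (n ^ 2)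
  push_cast at h3
  rw [h] at h2
  exact absurd (ha.trans_le h2) (not_lt.2 h3.le)

theorem Inf.pow {ρ : ℝ*} (h0 : 0 < ρ) (h : Inf ρ) {j : ℕ} (hj : 1 ≤ j) : Inf (ρ ^ j) := by
  have h1 : (1 : ℝ*) ≤ ρ := by
    have := h 1
    rw [abs_of_pos h0] at this
    push_cast at this
    exact this.le
  apply Inf.mono h
  rw [abs_of_pos h0, abs_of_pos (pow_pos h0 j)]
  calc ρ = ρ ^ 1 := (pow_one ρ).symm
    _ ≤ ρ ^ j := pow_le_pow_right₀ h1 hj

/-- the polynomials for the choice of `θ` -/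
noncomputable def PG (A : Subalgebra ℚ F) (ρ : ℝ*) (g : A[X]) (m : ℕ) : ℝ*[X] :=
  C (ρ ^ m)⁻¹ * (g.map (toR A)).comp (C ρ * X)

theorem PG_coeff (A : Subalgebra ℚ F) (ρ : ℝ*) (g : A[X]) (m k : ℕ) :
    (PG A ρ g m).coeff k = (ρ ^ m)⁻¹ * ((g.coeff k : F).1 * ρ ^ k) := by
  rw [PG, coeff_C_mul, comp_C_mul_X_coeff, coeff_map]
  rfl

theorem PG_eval (A : Subalgebra ℚ F) (ρ x : ℝ*) (g : A[X]) (m : ℕ) (y : F) (hy : y.1 = ρ * x) :
    (PG A ρ g m).eval x = (ρ ^ m)⁻¹ * (aeval y g).1 := by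
  rw [PG, eval_mul, eval_C, eval_comp, fst_aeval, hy]
  simp

theorem exists_theta (hRL : S_RL) (A : Subalgebra ℚ F) (hA : (A : Set F).Countable) (ρ : ℝ*) :
    ∃ θ : ℝ, 1 / 2 < θ ∧ θ < 1 ∧ ∀ (g : A[X]) (m : ℕ), (∃ n, Inf ((PG A ρ g m).coeff n)) →
      Inf ((PG A ρ g m).eval (θ : ℝ*)) := by
  have := countable_poly A hA
  obtain ⟨θ, h1, h2, h3⟩ := hRL
    (Set.range (fun x : A[X] × ℕ => PG A ρ x.1 x.2) ∩ {G | ∃ n, Inf (G.coeff n)})
    ((Set.countable_range _).mono Set.inter_subset_left) (fun G hG => hG.2)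
  exact ⟨θ, h1, h2, fun g m h => h3 _ ⟨⟨(g, m), rfl⟩, h⟩⟩

/-- coefficients above `m` vanish if the coefficients of `PG` are finite -/
theorem coeff_zero {P : F} {A : Subalgebra ℚ F} (hA : Good P A) (hR : S_RAT) {ρ : ℝ*} (h0 : 0 < ρ)
    (hρ : Inf ρ) (g : A[X]) (m : ℕ) (h : ∀ n, ¬ Inf ((PG A ρ g m).coeff n)) (k : ℕ) (hk : m < k) :
    g.coeff k = 0 := by
  by_contra hne
  have hne' : (g.coeff k : F) ≠ 0 := fun h => hne (Subtype.ext h)
  obtain ⟨K, hK⟩ := lower hA hR (g.coeff k).2 hne'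
  apply h k
  rw [PG_coeff]
  obtain ⟨j, hj⟩ : ∃ j, k = m + j := ⟨k - m, by omega⟩
  have h1 : (ρ ^ m)⁻¹ * ((g.coeff k : F).1 * ρ ^ k) = ρ ^ j * (g.coeff k : F).1 := by
    rw [hj, pow_add]
    have : ρ ^ m ≠ 0 := pow_ne_zero _ h0.ne'
    field_simp
  rw [h1]
  exact Inf.mul (Inf.pow h0 hρ (by omega)) hK

theorem eq_C_mul_X_pow {R : Type*} [CommRing R] (g : R[X]) (m : ℕ) (h : ∀ k, k ≠ m → g.coeff k = 0) :
    g = C (g.coeff m) * X ^ m := by
  ext k
  rw [coeff_C_mul, coeff_X_pow]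
  by_cases hk : k = m
  · rw [hk]; simp
  · rw [h k hk, if_neg hk, mul_zero]

theorem unit_y {P : F} {A : Subalgebra ℚ F} (hA : Good P A) (hR : S_RAT) {ρ : ℝ*} (h0 : 0 < ρ)
    (hρ : Inf ρ) (θ : ℝ) (hθ : ∀ (g : A[X]) (m : ℕ), (∃ n, Inf ((PG A ρ g m).coeff n)) →
      Inf ((PG A ρ g m).eval (θ : ℝ*))) (y : F) (hy1 : y.1 = ρ * (θ : ℝ*))
    (hy2 : ∀ g : A[X], g ≠ 0 → ∀ p, (aeval y g).2 p ≠ 0) (g : A[X]) (hg : g ≠ 0) :
    IsUnit (aeval y g) := by
  refine isUnit_F ?_ (hy2 g hg)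
  by_cases h : ∃ n, Inf ((PG A ρ g 0).coeff n)
  · have h1 := hθ g 0 h
    rw [PG_eval A ρ _ g 0 y hy1, pow_zero, inv_one, one_mul] at h1
    exact Inf.ne_zero h1
  · push Not at h
    have h1 : ∀ k, k ≠ 0 → g.coeff k = 0 := fun k hk =>
      coeff_zero hA hR h0 hρ g 0 h k (Nat.pos_of_ne_zero hk)
    have h2 := eq_C_mul_X_pow g 0 h1
    rw [pow_zero, mul_one] at h2
    have h3 : g.coeff 0 ≠ 0 := by
      intro h4
      rw [h4, C_0] at h2
      exact hg h2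
    rw [h2, aeval_C]
    exact fst_ne_zero hA hR (g.coeff 0).2 (fun h => h3 (Subtype.ext h))

theorem unit_z (A : Subalgebra ℚ F) [IsDomain A] (u : Fˣ) (f : A) (hf : f ≠ 0)
    (hu : ∀ g : A[X], g ≠ 0 → IsUnit (aeval (u : F) g)) (g : A[X]) (hg : g ≠ 0) :
    IsUnit (aeval ((f : F) * ((u⁻¹ : Fˣ) : F)) g) := by
  have hh : g.comp (C f * X) ≠ 0 := by
    intro h
    apply hg
    refine Polynomial.ext fun k => ?_
    have h1 := congrArg (fun q => coeff q k) h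
    simp only [comp_C_mul_X_coeff, Polynomial.coeff_zero] at h1
    rw [Polynomial.coeff_zero]
    rcases mul_eq_zero.1 h1 with h2 | h2
    · exact h2
    · exact absurd h2 (pow_ne_zero _ hf)
  have h1 : aeval ((f : F) * ((u⁻¹ : Fˣ) : F)) g = aeval ((u⁻¹ : Fˣ) : F) (g.comp (C f * X)) := by
    rw [aeval_comp, map_mul, aeval_C, aeval_X]
    rfl
  rw [h1]
  let _ : Invertible ((u⁻¹ : Fˣ) : F) := ⟨(u : F), by simp, by simp⟩
  have h2 := eval₂_reverse_mul_pow (algebraMap A F) ((u⁻¹ : Fˣ) : F) (g.comp (C f * X))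
  have h3 : (⅟((u⁻¹ : Fˣ) : F)) = (u : F) := rfl
  rw [h3, ← aeval_def, ← aeval_def] at h2
  rw [← h2]
  exact (hu _ (fun h => hh (reverse_eq_zero.1 h))).mul ((Units.isUnit _).pow _)

/-- the dichotomy for the elements of the intersection of the two charts -/
theorem dich {P : F} {A : Subalgebra ℚ F} [IsDomain A] (hA : Good P A) (hR : S_RAT) (hI0 : S_I0)
    {ρ : ℝ*} (h0 : 0 < ρ) (hρ : Inf ρ) (θ : ℝ) (hθ0 : 0 < θ) (hθ1 : θ < 1)
    (hθ : ∀ (g : A[X]) (m : ℕ), (∃ n, Inf ((PG A ρ g m).coeff n)) →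
      Inf ((PG A ρ g m).eval (θ : ℝ*))) (y z : F) (f : A) (hy1 : y.1 = ρ * (θ : ℝ*))
    (hu : ∀ g : A[X], g ≠ 0 → IsUnit (aeval y g)) (hf : f ≠ 0) (hyz : y * z = f)
    (hfρ : |(f : F).1| = ρ ^ 2) (r : F) (h1 : r ∈ chart A y X) (h2 : r ∈ chart A z X) :
    Inf r.1 ∨ r ∈ A := by
  obtain ⟨m, g, hg⟩ := (chart_X A y r).1 h1
  obtain ⟨m', g', hg'⟩ := (chart_X A z r).1 h2
  have hyu : IsUnit y := by
    have := hu X X_ne_zero
    rwa [aeval_X] at this
  by_cases h : ∃ n, Inf ((PG A ρ g m).coeff n)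
  · left
    have h3 := hθ g m h
    rw [PG_eval A ρ _ g m y hy1, ← hg] at h3
    have h4 : (ρ ^ m)⁻¹ * (y ^ m * r).1 = (θ : ℝ*) ^ m * r.1 := by
      rw [Prod.fst_mul, Prod.pow_fst, hy1, mul_pow]
      have : ρ ^ m ≠ 0 := pow_ne_zero _ h0.ne'
      field_simp
    rw [h4] at h3
    apply Inf.mono h3
    rw [abs_mul]
    have e0 : (0 : ℝ*) < (θ : ℝ*) := by exact_mod_cast hθ0
    have e1 : (θ : ℝ*) < 1 := by exact_mod_cast hθ1
    have h5 : |(θ : ℝ*) ^ m| ≤ 1 := by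
      rw [abs_of_pos (pow_pos e0 m)]
      exact pow_le_one₀ e0.le e1.le
    calc |(θ : ℝ*) ^ m| * |r.1| ≤ 1 * |r.1| := mul_le_mul_of_nonneg_right h5 (abs_nonneg _)
      _ = |r.1| := one_mul _
  · right
    push Not at h
    have h3 : ∀ k, k ≠ m → g.coeff k = 0 := by
      intro k hk
      rcases lt_or_gt_of_ne hk with hk | hk
      · obtain ⟨j, hj, hjm⟩ : ∃ j, 1 ≤ j ∧ k + j = m := ⟨m - k, by omega, by omega⟩
        have h4 := hI0 A y z f hu hf hyz r m m' g g' hg hg' j (by omega)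
        have hkj : m - j = k := by omega
        rw [hkj] at h4
        by_contra hne
        have hg0 : g'.coeff (m' + j) ≠ 0 := by
          intro h5
          rw [h5, zero_mul] at h4
          exact hne h4
        obtain ⟨K, hK⟩ := lower hA hR (g'.coeff (m' + j)).2 (fun h => hg0 (Subtype.ext h))
        apply h k
        have h5 : Inf (ρ ^ j * (g'.coeff (m' + j) : F).1) := Inf.mul (Inf.pow h0 hρ hj) hK
        apply Inf.mono h5
        rw [PG_coeff, h4]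
        have h6 : ((g'.coeff (m' + j) * f ^ j : A) : F).1 =
            (g'.coeff (m' + j) : F).1 * (f : F).1 ^ j := rfl
        rw [h6, abs_mul, abs_mul, abs_mul, abs_mul, abs_pow, abs_pow, abs_pow, hfρ, abs_inv,
          abs_pow, abs_of_pos h0, ← hjm]
        have : ρ ≠ 0 := h0.ne'
        apply le_of_eq
        rw [pow_add]
        field_simp
        ring
      · exact coeff_zero hA hR h0 hρ g m h k hk
    have h4 := eq_C_mul_X_pow g m h3
    rw [h4, map_mul, aeval_C, map_pow, aeval_X] at hg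
    have h5 : y ^ m * r = y ^ m * (g.coeff m : F) := by
      rw [hg]
      exact mul_comm _ _
    have h6 := (hyu.pow m).mul_left_cancel h5
    rw [h6]
    exact (g.coeff m).2

/-- a normal prime divisible by the normal prime `f` is `± f` -/
theorem pm {P : F} {A : Subalgebra ℚ F} (hA : Good P A) (hR : S_RAT) (hC : S_CONV)
    (f q : F) (hf : NPr A f) (hq : NPr A q) (hfA : f ∈ A) (hqA : q ∈ A)
    (h : (⟨f, hfA⟩ : A) ∣ ⟨q, hqA⟩) : ∃ r : ℚ, (r = 1 ∨ r = -1) ∧ q = algebraMap ℚ F r * f := by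
  obtain ⟨hdom, -, -, hrat⟩ := hC.1 P A hA
  obtain ⟨⟨c, hc⟩, hcq⟩ := h
  obtain ⟨_, hqp⟩ := hq.1
  obtain ⟨_, hfp⟩ := hf.1
  have hunit : IsUnit (⟨c, hc⟩ : A) := by
    rcases hqp.irreducible.isUnit_or_isUnit hcq with h1 | h1
    · exact absurd h1 hfp.not_isUnit
    · exact h1
  obtain ⟨⟨d, hd⟩, hcd⟩ := hunit.exists_right_inv
  obtain ⟨r, hr0, hr⟩ := hrat c hc d hd (congrArg Subtype.val hcd)
  have hqf : q = f * c := congrArg Subtype.val hcq
  refine ⟨r, hR.2.2.1 r (fun p => ?_), ?_⟩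
  · have h1 := hq.2 p
    have h2 : q.2 p = f.2 p * c.2 p := by rw [hqf]; rfl
    rw [h2, norm_mul, hf.2 p, one_mul, hr, (hR.1 r).2 p] at h1
    exact h1
  · rw [hqf, hr, mul_comm]

end I

open I in
theorem t_I : M_I := by
  intro hIVT hRL hAD hR hC hCH hI0 P A hP hA f hf hfO
  obtain ⟨hdom, hufd, hunF, hrat⟩ := hC.1 P A hA
  obtain ⟨hfA, hfp⟩ := hf.1
  have hfne : (⟨f, hfA⟩ : A) ≠ 0 := hfp.ne_zero
  have hf0 : f ≠ 0 := fun h => hfne (Subtype.ext h)
  have hf1 : 0 < |f.1| := om_pos.trans hfO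
  obtain ⟨ρ, hρ0, hρf⟩ := exists_rho hIVT |f.1| hf1
  have hρ : Inf ρ := inf_rho hfO hρ0 hρf
  obtain ⟨θ, hθh, hθ1, hθ⟩ := exists_theta hRL A hA.cnt ρ
  have hθ0 : 0 < θ := by linarith
  have hθ0' : (0 : ℝ*) < (θ : ℝ*) := by exact_mod_cast hθ0
  have hθ1' : (θ : ℝ*) < 1 := by exact_mod_cast hθ1
  obtain ⟨y₂, hy₂, hy₂'⟩ := hAD A hA.cnt hA.nz
  obtain ⟨y, hydef⟩ : ∃ y : F, y = (ρ * (θ : ℝ*), y₂) := ⟨_, rfl⟩
  have hy1 : y.1 = ρ * (θ : ℝ*) := by rw [hydef]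
  have hy2 : ∀ p, ‖y.2 p‖ = 1 := fun p => by rw [hydef]; exact hy₂ p
  have hyAD : ∀ g : A[X], g ≠ 0 → (∀ p, (aeval y g).2 p ≠ 0) ∧
      {p | ‖(aeval y g).2 p‖ ≠ 1}.Finite := fun g hg => by
    rw [hydef]; exact hy₂' g hg _
  have huy : ∀ g : A[X], g ≠ 0 → IsUnit (aeval y g) := fun g hg =>
    unit_y hA hR hρ0 hρ θ hθ y hy1 (fun g hg => (hyAD g hg).1) g hg
  have hyu : IsUnit y := by
    have := huy X X_ne_zero
    rwa [aeval_X] at this
  obtain ⟨u, hu⟩ := hyu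
  obtain ⟨z, hzdef⟩ : ∃ z : F, z = f * ((u⁻¹ : Fˣ) : F) := ⟨_, rfl⟩
  have hyz : y * z = f := by
    rw [hzdef, ← hu, mul_comm f, ← mul_assoc, Units.mul_inv, one_mul]
  have huz : ∀ g : A[X], g ≠ 0 → IsUnit (aeval z g) := by
    intro g hg
    rw [hzdef]
    exact unit_z A u ⟨f, hfA⟩ hfne (fun g hg => by rw [hu]; exact huy g hg) g hg
  have hyu : IsUnit y := ⟨u, hu⟩
  have hzu : IsUnit z := by
    have := huz X X_ne_zero
    rwa [aeval_X] at this
  have hyz1 : y.1 * z.1 = f.1 := by rw [← hyz]; rfl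
  have hz2 : ∀ p, ‖z.2 p‖ = 1 := by
    intro p
    have h1 : y.2 p * z.2 p = f.2 p := by rw [← hyz]; rfl
    have h2 := congrArg norm h1
    rw [norm_mul, hy2 p, one_mul, hf.2 p] at h2
    exact h2
  -- the charts
  have hCX : ¬ (C (⟨f, hfA⟩ : A)) ∣ (X : A[X]) := by
    intro h
    rw [C_dvd_iff_dvd_coeff] at h
    have := h 1
    rw [coeff_X_one] at this
    exact hfp.not_isUnit (isUnit_of_dvd_one this)
  have chart_y : ∀ x : A, (x : F) ∈ chart A y X := fun x => (chart A y X).algebraMap_mem' |> fun _ =>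
    (chart_X A y x).2 ⟨0, C x, by rw [pow_zero, one_mul, aeval_C]; rfl⟩
  have chart_z : ∀ x : A, (x : F) ∈ chart A z X := fun x =>
    (chart_X A z x).2 ⟨0, C x, by rw [pow_zero, one_mul, aeval_C]; rfl⟩
  have hzz : z ∈ chart A z X := (chart_X A z z).2 ⟨0, X, by rw [pow_zero, one_mul, aeval_X]⟩
  have hyy : y ∈ chart A y X := (chart_X A y y).2 ⟨0, X, by rw [pow_zero, one_mul, aeval_X]⟩
  have hyz' : y ∈ chart A z X := (chart_X A z y).2 ⟨1, C ⟨f, hfA⟩, by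
    rw [pow_one, aeval_C, mul_comm, hyz]; rfl⟩
  have hzy' : z ∈ chart A y X := (chart_X A y z).2 ⟨1, C ⟨f, hfA⟩, by
    rw [pow_one, aeval_C, hyz]; rfl⟩
  obtain ⟨zi, hzi⟩ := hzu.exists_right_inv
  obtain ⟨yi, hyi⟩ := hyu.exists_right_inv
  have hziz : zi ∈ chart A z X := (chart_X A z zi).2 ⟨1, 1, by rw [pow_one, hzi, map_one]⟩
  have hyiy : yi ∈ chart A y X := (chart_X A y yi).2 ⟨1, 1, by rw [pow_one, hyi, map_one]⟩
  obtain ⟨hle, hyA', hdom', hufd', hpy, hprs⟩ := hCH A y z X X ⟨f, hfA⟩ huy huz prime_X hfp hCX hyz'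
    ⟨zi, hziz, by
      rw [aeval_X]
      change y = f * zi
      rw [← hyz, mul_assoc, hzi, mul_one]⟩
    ⟨z, hzz, by
      rw [aeval_X]
      change f = y * z
      exact hyz.symm⟩
  obtain ⟨-, -, -, -, hpz, -⟩ := hCH A z y X X ⟨f, hfA⟩ huz huy prime_X hfp hCX hzy'
    ⟨yi, hyiy, by
      rw [aeval_X]
      change z = f * yi
      rw [← hyz, mul_comm y z, mul_assoc, hyi, mul_one]⟩
    ⟨y, hyy, by
      rw [aeval_X]
      change f = z * y
      rw [mul_comm]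
      exact hyz.symm⟩
  rw [inf_comm] at hpz
  rw [aeval_X] at hpy hpz
  obtain ⟨A', hA'def⟩ : ∃ A' : Subalgebra ℚ F, A' = chart A y X ⊓ chart A z X := ⟨_, rfl⟩
  rw [← hA'def] at hle hyA' hdom' hufd' hpy hprs hpz
  have hA'y : ∀ r ∈ A', r ∈ chart A y X := fun r hr => by
    rw [hA'def] at hr; exact hr.1
  have hA'z : ∀ r ∈ A', r ∈ chart A z X := fun r hr => by
    rw [hA'def] at hr; exact hr.2
  have hzA' : z ∈ A' := by rw [hA'def]; exact ⟨hzy', hzz⟩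
  have hnyp : NPr A' y := ⟨hpy, hy2⟩
  have hnzp : NPr A' z := ⟨hpz, hz2⟩
  -- the properties of `A'`
  have hnz : Nz (A' : Set F) := by
    intro a ha h0
    exact nz_chart A y hyu hy2 hyAD a (hA'y a ha) h0
  have hinf : ∀ a ∈ A', Inf a.1 ∨ ∃ r : ℚ, a = algebraMap ℚ F r := by
    intro a ha
    rcases dich hA hR hI0 hρ0 hρ θ hθ0 hθ1 hθ y z ⟨f, hfA⟩ hy1 huy hfne hyz hρf.symm a
      (hA'y a ha) (hA'z a ha) with h | h
    · exact Or.inl h
    · exact hA.inf a h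
  have hbdy : Bd y := by
    obtain ⟨k, hk⟩ := hA.bd f hfA
    refine ⟨k, lt_of_le_of_lt ?_ hk⟩
    rw [hy1, abs_mul, abs_of_pos hρ0, abs_of_pos hθ0', ← hρf]
    have h1 : (1 : ℝ*) ≤ ρ := by
      have := hρ 1
      rw [abs_of_pos hρ0] at this
      push_cast at this
      exact this.le
    nlinarith
  have hbdyi : Bd yi := by
    refine ⟨1, ?_⟩
    have h1 : y.1 * yi.1 = 1 := by
      have := congrArg Prod.fst hyi
      exact this
    have h2 : (1 : ℝ*) ≤ y.1 := by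
      rw [hy1]
      have h3 := hρ 2
      rw [abs_of_pos hρ0] at h3
      push_cast at h3
      have h4 : ((1 / 2 : ℝ) : ℝ*) < (θ : ℝ*) := by exact_mod_cast hθh
      have h5 : ((1 / 2 : ℝ) : ℝ*) = 1 / 2 := by push_cast; rfl
      rw [h5] at h4
      nlinarith
    have h3 : |yi.1| ≤ 1 := by
      have h4 : yi.1 = (y.1)⁻¹ := eq_inv_of_mul_eq_one_right h1
      rw [h4, abs_of_nonneg (inv_nonneg.2 (zero_le_one.trans h2))]
      exact inv_le_one_of_one_le₀ h2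
    have h4 := om_nat 1
    push_cast at h4
    rw [pow_one]
    exact h3.trans_lt h4
  have hexp : ∀ a ∈ A', ∃ (m : ℕ) (g : A[X]), a = yi ^ m * aeval y g := by
    intro a ha
    obtain ⟨m, g, hg⟩ := (chart_X A y a).1 (hA'y a ha)
    refine ⟨m, g, ?_⟩
    rw [← hg, ← mul_assoc, ← mul_pow, mul_comm yi y, hyi, one_pow, one_mul]
  have hbd : ∀ a ∈ A', ∃ k : ℕ, |a.1| < Om ^ k := by
    intro a ha
    obtain ⟨m, g, hg⟩ := hexp a ha
    rw [hg]
    exact (hbdyi.pow m).mul (Bd.aeval A hA.bd hbdy g)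
  have hcnt : (A' : Set F).Countable := by
    have := countable_poly A hA.cnt
    refine (Set.countable_range (fun x : ℕ × A[X] => yi ^ x.1 * aeval y x.2)).mono ?_
    intro a ha
    obtain ⟨m, g, hg⟩ := hexp a ha
    exact ⟨(m, g), hg.symm⟩
  have hpr : Pr A' P := by
    obtain ⟨hPA, hPp⟩ := hA.pr
    refine hprs ⟨P, hPA⟩ hPp ?_
    intro h
    obtain ⟨r, hr, hr2⟩ := pm hA hR hC f P hf ⟨⟨hPA, hPp⟩, hP.2⟩ hfA hPA h
    have h1 : |P.1| = |f.1| := by
      rw [hr2, Prod.fst_mul, abs_mul, (hR.1 r).1]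
      rcases hr with rfl | rfl <;> simp
    rw [hP.1, abs_of_pos om_pos] at h1
    exact absurd hfO (by rw [← h1]; exact lt_irrefl _)
  refine ⟨A', ⟨hcnt, hnz, hinf, hC.2.1 A' hnz hinf hufd', hbd, hpr⟩, ⟨hle, ?_, ?_⟩, ?_⟩
  · -- division
    intro a ha b hb c hc ha0 hac
    obtain ⟨m, g, hg⟩ := (chart_X A y c).1 (hA'y c hc)
    have h1 : aeval y (C (⟨a, ha⟩ : A) * g) = aeval y (C (⟨b, hb⟩ : A) * X ^ m) := by
      rw [map_mul, map_mul, aeval_C, aeval_C, map_pow, aeval_X, ← hg]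
      change a * (y ^ m * c) = b * y ^ m
      rw [← hac]
      ring
    have h2 := inj_of_unit A y huy h1
    have ha0' : (⟨a, ha⟩ : A) ≠ 0 := fun h => ha0 (congrArg Subtype.val h)
    have h3 : ∀ k, k ≠ m → g.coeff k = 0 := by
      intro k hk
      have h4 := congrArg (fun q => coeff q k) h2
      simp only [coeff_C_mul, coeff_X_pow, if_neg hk, mul_zero] at h4
      rcases mul_eq_zero.1 h4 with h5 | h5
      · exact absurd h5 ha0'
      · exact h5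
    rw [eq_C_mul_X_pow g m h3, map_mul, aeval_C, map_pow, aeval_X] at hg
    have h5 : y ^ m * c = y ^ m * (g.coeff m : F) := by
      rw [hg]
      exact mul_comm _ _
    rw [(hyu.pow m).mul_left_cancel h5]
    exact (g.coeff m).2
  · -- primes
    intro q hq
    obtain ⟨hqA, hqp⟩ := hq.1
    by_cases h : (⟨f, hfA⟩ : A) ∣ ⟨q, hqA⟩
    · right
      obtain ⟨r, hr, hr2⟩ := pm hA hR hC f q hf hq hfA hqA h
      have h1 : |q.1| = |f.1| := by
        rw [hr2, Prod.fst_mul, abs_mul, (hR.1 r).1]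
        rcases hr with rfl | rfl <;> simp
      refine ⟨by rw [h1]; exact hfO, {y, z}, r, ?_, ?_⟩
      · rw [hr2, ← hyz]
        simp
      · have h4 : ((1 / 2 : ℝ) : ℝ*) < (θ : ℝ*) := by exact_mod_cast hθh
        have h5 : ((1 / 2 : ℝ) : ℝ*) = 1 / 2 := by push_cast; rfl
        rw [h5] at h4
        intro w hw
        have hw' : w = y ∨ w = z := by simpa using hw
        rcases hw' with rfl | rfl
        · refine ⟨hnyp, ?_⟩
          rw [h1, hy1, ← hρf]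
          have : (θ : ℝ*) ^ 2 ≤ 4 := by nlinarith
          nlinarith [sq_nonneg ρ]
        · refine ⟨hnzp, ?_⟩
          rw [h1]
          have h6 : (y.1 * w.1) ^ 2 = |f.1| ^ 2 := by rw [hyz1, sq_abs]
          rw [hy1, ← hρf] at h6
          rw [← hρf]
          have h7 : (θ : ℝ*) ^ 2 * w.1 ^ 2 = ρ ^ 2 := by
            have h8 : ρ ^ 2 * ((θ : ℝ*) ^ 2 * w.1 ^ 2) = ρ ^ 2 * ρ ^ 2 := by
              calc _ = (ρ * (θ : ℝ*) * w.1) ^ 2 := by ring
                _ = (ρ ^ 2) ^ 2 := h6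
                _ = _ := by ring
            exact mul_left_cancel₀ (pow_ne_zero 2 hρ0.ne') h8
          have h9 : (1 / 4 : ℝ*) ≤ (θ : ℝ*) ^ 2 := by nlinarith
          nlinarith [sq_nonneg w.1]
    · left
      exact ⟨hprs ⟨q, hqA⟩ hqp h, hq.2⟩
  · -- `f` is not prime
    rintro ⟨hfA', hfp'⟩
    have h1 : (⟨f, hfA'⟩ : A') = ⟨y, hyA'⟩ * ⟨z, hzA'⟩ := Subtype.ext hyz.symm
    obtain ⟨_, hpy'⟩ := hpy
    obtain ⟨_, hpz'⟩ := hpz
    rcases hfp'.irreducible.isUnit_or_isUnit h1 with h2 | h2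
    · exact hpy'.not_isUnit h2
    · exact hpz'.not_isUnit h2

end OID
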