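import Pool.Agent.OID.Stmts3

/-!
# Module I0: coefficients in step `I`
-/

set_option autoImplicit false

namespace OID

open Polynomial

namespace I0

variable {A R : Type} [CommRing A] [CommRing R] [Algebra A R]

/-- the polynomial `X ^ D * g'(f / X)` -/
noncomputable def GG (f : A) (g' : A[X]) (D : ℕ) : A[X] :=
  ∑ i ∈ Finset.range (D + 1), C (g'.coeff i * f ^ i) * X ^ (D - i)

theorem aeval_GG {y z : R} {f : A} (h : y * z = algebraMap A R f) (g' : A[X]) {D : ℕ}
    (hD : g'.natDegree ≤ D) : aeval y (GG f g' D) = y ^ D * aeval z g' := by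
  rw [GG, map_sum, aeval_eq_sum_range' (Nat.lt_succ_of_le hD), Finset.mul_sum]
  refine Finset.sum_congr rfl fun i hi => ?_
  have hi' : i ≤ D := Nat.lt_succ_iff.1 (Finset.mem_range.1 hi)
  rw [map_mul, aeval_C, map_pow, aeval_X, map_mul, map_pow, ← h, mul_pow, Algebra.smul_def]
  have e : y ^ D = y ^ (D - i) * y ^ i := by
    rw [← pow_add, Nat.sub_add_cancel hi']
  rw [e]
  ring

theorem coeff_GG (f : A) (g' : A[X]) {D i : ℕ} (hi : i ≤ D) :
    (GG f g' D).coeff (D - i) = g'.coeff i * f ^ i := by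
  rw [GG, finsetSum_coeff, Finset.sum_eq_single i]
  · rw [coeff_C_mul_X_pow, if_pos rfl]
  · intro b hb hne
    have hb' : b ≤ D := Nat.lt_succ_iff.1 (Finset.mem_range.1 hb)
    rw [coeff_C_mul_X_pow, if_neg]
    omega
  · intro h
    exact absurd (Finset.mem_range.2 (Nat.lt_succ_of_le hi)) h

theorem inj [Nontrivial R] {y : R} (hu : ∀ g : A[X], g ≠ 0 → IsUnit (aeval y g)) {p q : A[X]}
    (h : aeval y p = aeval y q) : p = q := by
  by_contra hne
  have h1 := hu (p - q) (sub_ne_zero.2 hne)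
  rw [map_sub, h, sub_self] at h1
  exact not_isUnit_zero h1

theorem general [IsDomain A] [Nontrivial R] (y z : R) (f : A)
    (hu : ∀ g : A[X], g ≠ 0 → IsUnit (aeval y g)) (hf : f ≠ 0) (hyz : y * z = algebraMap A R f)
    (r : R) (m m' : ℕ) (g g' : A[X]) (h1 : y ^ m * r = aeval y g) (h2 : z ^ m' * r = aeval z g')
    (j : ℕ) (hj : j ≤ m) : g.coeff (m - j) = g'.coeff (m' + j) * f ^ j := by
  obtain ⟨D, hD⟩ : ∃ D, D = m + m' + g'.natDegree := ⟨_, rfl⟩
  have key : C (f ^ m') * (X ^ (D - m') * g) = X ^ m * GG f g' D := by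
    apply inj hu
    rw [map_mul, aeval_C, map_pow, map_mul, map_pow, aeval_X, map_mul, map_pow, aeval_X,
      aeval_GG hyz g' (by omega), ← h1, ← h2]
    have e : y ^ D = y ^ (D - m') * y ^ m' := by
      rw [← pow_add, Nat.sub_add_cancel (by omega)]
    rw [← hyz, e, mul_pow]
    ring
  have h3 := congrArg (fun p : A[X] => p.coeff (D - m' + (m - j))) key
  rw [coeff_C_mul, coeff_X_pow_mul', coeff_X_pow_mul', if_pos (by omega), if_pos (by omega)] at h3
  have e1 : D - m' + (m - j) - (D - m') = m - j := by omega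
  have e2 : D - m' + (m - j) - m = D - (m' + j) := by omega
  rw [e1, e2, coeff_GG f g' (by omega), pow_add] at h3
  apply mul_left_cancel₀ (pow_ne_zero m' hf)
  rw [h3]
  ring

end I0

/-- Module I0. -/
theorem t_I0 : S_I0 := by
  intro A _ y z f hu hf hyz r m m' g g' h1 h2 j hj
  exact I0.general y z f hu hf hyz r m m' g g' h1 h2 j hj

end OID
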