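import Pool.Agent.OID.Stmts3

/-!
# Intermediate values for polynomials over the hyperreals
-/

namespace OID

open Polynomial

namespace IVT

/-- the ring homomorphism from the sequences to the hyperreals -/
noncomputable def phi : (ℕ → ℝ) →+* ℝ* :=
  Filter.Germ.coeRingHom (Filter.hyperfilter ℕ : Filter ℕ)

theorem phi_apply (f : ℕ → ℝ) : phi f = Hyperreal.ofSeq f := rfl

theorem phi_surj : Function.Surjective phi := fun x => by
  obtain ⟨f, hf⟩ := Hyperreal.ofSeq_surjective x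
  exact ⟨f, hf⟩

theorem phi_le (f g : ℕ → ℝ) :
    phi f ≤ phi g ↔ ∀ᶠ n in (Filter.hyperfilter ℕ : Filter ℕ), f n ≤ g n :=
  Filter.Germ.coe_le

theorem phi_eq (f g : ℕ → ℝ) :
    phi f = phi g ↔ ∀ᶠ n in (Filter.hyperfilter ℕ : Filter ℕ), f n = g n :=
  Filter.Germ.coe_eq

theorem eval_phi (G : (ℕ → ℝ)[X]) (x : ℕ → ℝ) : (G.map phi).eval (phi x) = phi (G.eval x) := by
  rw [eval_map, eval₂_at_apply]

theorem eval_app (G : (ℕ → ℝ)[X]) (x : ℕ → ℝ) (n : ℕ) :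
    G.eval x n = (G.map (Pi.evalRingHom (fun _ : ℕ => ℝ) n)).eval (x n) := by
  have h : (G.map (Pi.evalRingHom (fun _ : ℕ => ℝ) n)).eval (Pi.evalRingHom (fun _ : ℕ => ℝ) n x) =
      Pi.evalRingHom (fun _ : ℕ => ℝ) n (G.eval x) := by
    rw [eval_map, eval₂_at_apply]
  exact h.symm

end IVT

open IVT in
theorem t_IVT : S_IVT := by
  intro g a b hab ha hb
  obtain ⟨G, rfl⟩ := Polynomial.map_surjective phi phi_surj g
  obtain ⟨a', rfl⟩ := phi_surj a
  obtain ⟨b', rfl⟩ := phi_surj b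
  rw [eval_phi, ← map_zero phi] at ha hb
  rw [phi_le] at hab ha hb
  have key : ∀ᶠ n in (Filter.hyperfilter ℕ : Filter ℕ), ∃ c : ℝ, a' n ≤ c ∧ c ≤ b' n ∧
      (G.map (Pi.evalRingHom (fun _ : ℕ => ℝ) n)).eval c = 0 := by
    filter_upwards [hab, ha, hb] with n h1 h2 h3
    have hc : ContinuousOn (fun x : ℝ => (G.map (Pi.evalRingHom (fun _ : ℕ => ℝ) n)).eval x)
        (Set.Icc (a' n) (b' n)) := (Polynomial.continuous _).continuousOn
    have h2' : (G.map (Pi.evalRingHom (fun _ : ℕ => ℝ) n)).eval (a' n) ≤ 0 := by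
      rw [← eval_app]; exact h2
    have h3' : 0 ≤ (G.map (Pi.evalRingHom (fun _ : ℕ => ℝ) n)).eval (b' n) := by
      rw [← eval_app]; exact h3
    obtain ⟨c, hc1, hc2⟩ := intermediate_value_Icc h1 hc ⟨h2', h3'⟩
    exact ⟨c, hc1.1, hc1.2, hc2⟩
  classical
  let c : ℕ → ℝ := fun n => if h : ∃ c : ℝ, a' n ≤ c ∧ c ≤ b' n ∧
      (G.map (Pi.evalRingHom (fun _ : ℕ => ℝ) n)).eval c = 0 then h.choose else 0
  have hc : ∀ᶠ n in (Filter.hyperfilter ℕ : Filter ℕ), a' n ≤ c n ∧ c n ≤ b' n ∧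
      (G.map (Pi.evalRingHom (fun _ : ℕ => ℝ) n)).eval (c n) = 0 := by
    filter_upwards [key] with n hn
    simp only [c, dif_pos hn]
    exact hn.choose_spec
  refine ⟨phi c, ?_, ?_, ?_⟩
  · rw [phi_le]
    exact hc.mono fun n h => h.1
  · rw [phi_le]
    exact hc.mono fun n h => h.2.1
  · rw [eval_phi, ← map_zero phi, phi_eq]
    refine hc.mono fun n h => ?_
    rw [eval_app, h.2.2]
    rfl

end OID
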