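import Pool.Agent.OID.Stmts3

/-!
# MINT: integer parts
-/

namespace OID

open Polynomial

namespace MINT

/-- a multiple of an element of a good ring is integral -/
theorem exists_mul (h1 : S_RAT) {P : F} {A : Subalgebra ℚ F} (hA : Good P A) {a : F}
    (ha : a ∈ A) : ∃ N : ℕ, 0 < N ∧ ∀ p : Nat.Primes, ‖(N : ℚ_[(p : ℕ)]) * a.2 p‖ ≤ 1 := by
  by_cases h0 : a = 0
  · refine ⟨1, one_pos, fun p => ?_⟩
    rw [h0]
    change ‖((1 : ℕ) : ℚ_[(p : ℕ)]) * 0‖ ≤ 1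
    rw [mul_zero, norm_zero]
    exact zero_le_one
  · obtain ⟨h2, h3⟩ := hA.nz a ha h0
    obtain ⟨r, hr, h4⟩ := h1.2.2.2 a h2 h3
    have hn : 0 < r.num := Rat.num_pos.2 hr
    refine ⟨r.num.natAbs, Int.natAbs_pos.2 hn.ne', fun p => ?_⟩
    have h5 : ((r.num.natAbs : ℕ) : ℚ_[(p : ℕ)]) = (r.den : ℚ_[(p : ℕ)]) * (r : ℚ_[(p : ℕ)]) := by
      have h6 : ((r.num.natAbs : ℕ) : ℚ) = (r.den : ℚ) * r := by
        rw [mul_comm, Rat.mul_den_eq_num]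
        have h7 : ((r.num.natAbs : ℕ) : ℤ) = r.num := Int.natAbs_of_nonneg hn.le
        calc ((r.num.natAbs : ℕ) : ℚ) = (((r.num.natAbs : ℕ) : ℤ) : ℚ) := (Int.cast_natCast _).symm
          _ = (r.num : ℚ) := by rw [h7]
      exact_mod_cast congrArg (fun z : ℚ => (z : ℚ_[(p : ℕ)])) h6
    have h8 : ‖(r : ℚ_[(p : ℕ)]) * a.2 p‖ = 1 := by
      have h9 := h4 p
      have h10 : (algebraMap ℚ F r * a).2 p = (r : ℚ_[(p : ℕ)]) * a.2 p := by
        change (algebraMap ℚ F r).2 p * a.2 p = _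
        rw [(h1.1 r).2 p]
      rwa [h10] at h9
    rw [h5, mul_assoc, norm_mul, h8, mul_one]
    have h11 := Padic.norm_int_le_one (p := (p : ℕ)) (r.den : ℤ)
    exact_mod_cast h11

/-- an integral element at finite distance -/
theorem exists_int (h1 : S_RAT) (h3 : S_RES) {P : F} {A : Subalgebra ℚ F} (hA : Good P A) {a : F}
    (ha : a ∈ A) : ∃ b ∈ MM A, ∃ n : ℕ, |a.1 - b.1| ≤ n := by
  obtain ⟨N, hN, h4⟩ := exists_mul h1 hA ha
  obtain ⟨z, hz⟩ := h3 ((N : F) * a) (fun p => h4 p) N hN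
  obtain ⟨s, hs⟩ : ∃ s : ℚ, s = (z : ℚ) / N := ⟨_, rfl⟩
  have hNq : (N : ℚ) ≠ 0 := by exact_mod_cast hN.ne'
  refine ⟨a - algebraMap ℚ F s, ⟨sub_mem ha (A.algebraMap_mem s), fun p => ?_⟩, z.natAbs, ?_⟩
  · have hNp : (N : ℚ_[(p : ℕ)]) ≠ 0 := by exact_mod_cast hN.ne'
    have h5 : (s : ℚ_[(p : ℕ)]) * N = z := by
      have h6 : s * N = z := by
        rw [hs, div_mul_cancel₀ _ hNq]
      exact_mod_cast congrArg (fun z : ℚ => (z : ℚ_[(p : ℕ)])) h6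
    have h7 : (a - algebraMap ℚ F s).2 p = a.2 p - (s : ℚ_[(p : ℕ)]) := by
      change a.2 p - (algebraMap ℚ F s).2 p = _
      rw [(h1.1 s).2 p]
    have h8 : (N : ℚ_[(p : ℕ)]) * (a.2 p - s) = N * a.2 p - z := by
      rw [mul_sub, ← h5, mul_comm (s : ℚ_[(p : ℕ)])]
    have h9 : ‖(N : ℚ_[(p : ℕ)])‖ * ‖a.2 p - (s : ℚ_[(p : ℕ)])‖ ≤ ‖(N : ℚ_[(p : ℕ)])‖ * 1 := by
      rw [← norm_mul, h8, mul_one]
      exact hz p
    rw [h7]
    exact le_of_mul_le_mul_left h9 (norm_pos_iff.2 hNp)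
  · have h5 : (a - algebraMap ℚ F s).1 = a.1 - (s : ℝ*) := by
      change a.1 - (algebraMap ℚ F s).1 = _
      rw [(h1.1 s).1]
    rw [h5, sub_sub_cancel]
    have h6 : |s| ≤ (z.natAbs : ℚ) := by
      rw [hs, abs_div, Nat.abs_cast, Nat.cast_natAbs, Int.cast_abs]
      exact div_le_self (abs_nonneg _) (by exact_mod_cast hN)
    have h7 : ((|s| : ℚ) : ℝ*) ≤ ((z.natAbs : ℚ) : ℝ*) := by exact_mod_cast h6
    push_cast at h7
    exact_mod_cast h7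

/-- integer parts of finite hyperreals -/
theorem exists_floor (β : ℝ*) (n : ℕ) (h : |β| ≤ n) : ∃ k : ℤ, (k : ℝ*) ≤ β ∧ β < k + 1 := by
  obtain ⟨h1, h2⟩ := abs_le.1 h
  obtain ⟨k, hk, hm⟩ := Int.exists_greatest_of_bdd (P := fun k : ℤ => (k : ℝ*) ≤ β)
    ⟨n, fun z hz => by
      have h3 : (z : ℝ*) ≤ ((n : ℤ) : ℝ*) := by
        push_cast
        exact le_trans hz h2
      exact_mod_cast h3⟩ ⟨-n, by push_cast; exact h1⟩
  refine ⟨k, hk, ?_⟩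
  by_contra hc
  have h3 := hm (k + 1) (by
    push_cast
    exact not_lt.1 hc)
  omega

end MINT

open MINT in
theorem t_MINT : M_MINT := by
  intro h1 _ h3 P A hA g hg α hα
  obtain ⟨φ, hφ⟩ : ∃ φ : MM A →+* A, φ = (MM A).subtype.codRestrict A fun x => x.2.1 := ⟨_, rfl⟩
  have hφ1 : ∀ x, ((φ x : A) : F) = x := by
    intro x
    rw [hφ]
    rfl
  have hφi : Function.Injective φ := by
    intro x y hxy
    apply Subtype.ext
    rw [← hφ1 x, ← hφ1 y, hxy]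
  have hφ2 : (toR A).comp φ =
      (RingHom.fst ℝ* (∀ p : Nat.Primes, ℚ_[(p : ℕ)])).comp (MM A).subtype := by
    ext x
    change ((φ x : A) : F).1 = (x : F).1
    rw [hφ1]
  obtain ⟨a, ha, n, hn⟩ := hA.near (g.map φ) ((Polynomial.map_ne_zero_iff hφi).2 hg) α (by
    rw [Polynomial.map_map, hφ2]
    exact hα)
  obtain ⟨b, hb, m, hm⟩ := exists_int h1 h3 hA.good ha
  obtain ⟨k, hk1, hk2⟩ := exists_floor (α - b.1) (n + m) (by
    have h4 : α - b.1 = (α - a.1) + (a.1 - b.1) := by ring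
    rw [h4]
    push_cast
    exact (abs_add_le _ _).trans (add_le_add hn hm))
  refine ⟨b + (k : F), add_mem hb (intCast_mem _ k), ?_, ?_⟩
  · change b.1 + (k : ℝ*) ≤ α
    linarith
  · change α < b.1 + (k : ℝ*) + 1
    linarith

end OID
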