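import Pool.Agent.OID.Stmts3

/-!
# `MM A` is a principal ideal ring
-/

namespace OID

namespace MPID

theorem nat_mul_snd (N : ℕ) (w : F) (p : Nat.Primes) :
    ((N : F) * w).2 p = (N : ℚ_[(p : ℕ)]) * w.2 p := by
  have h : (N : F).2 p = (N : ℚ_[(p : ℕ)]) := by
    rw [Prod.snd_natCast]
    rfl
  rw [← h]
  rfl

theorem int_snd (z : ℤ) (p : Nat.Primes) : (z : F).2 p = (z : ℚ_[(p : ℕ)]) := by
  rw [Prod.snd_intCast]
  rfl

/-- Division by a natural number. -/
theorem div {A : Subalgebra ℚ F} {x : F} (hx : x ∈ A) {N : ℕ} (hN : 0 < N)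
    (h : ∀ p : Nat.Primes, ‖x.2 p‖ ≤ ‖(N : ℚ_[(p : ℕ)])‖) :
    ∃ w : MM A, x = (N : F) * w := by
  have hN' : (N : ℚ) ≠ 0 := by exact_mod_cast hN.ne'
  have h1 : x = (N : F) * (algebraMap ℚ F (N : ℚ)⁻¹ * x) := by
    rw [← mul_assoc]
    have h2 : (N : F) = algebraMap ℚ F (N : ℚ) := (map_natCast _ _).symm
    rw [h2, ← map_mul, mul_inv_cancel₀ hN', map_one, one_mul]
  refine ⟨⟨algebraMap ℚ F (N : ℚ)⁻¹ * x, mul_mem (A.algebraMap_mem _) hx, ?_⟩, h1⟩
  intro p
  have h2 := h p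
  rw [h1, nat_mul_snd, norm_mul] at h2
  have h3 : 0 < ‖(N : ℚ_[(p : ℕ)])‖ := by
    rw [norm_pos_iff]
    exact_mod_cast hN.ne'
  exact le_of_mul_le_mul_left (by rw [mul_one]; exact h2) h3

/-- A multiple with integral components. -/
theorem mult (hRAT : S_RAT) {A : Subalgebra ℚ F} (hnz : Nz A) {u : F} (hu : u ∈ A) :
    ∃ N : ℕ, 0 < N ∧ ∃ w : MM A, (N : F) * u = w := by
  by_cases h0 : u = 0
  · exact ⟨1, one_pos, 0, by rw [h0]; simp⟩
  · obtain ⟨h1, h2⟩ := hnz u hu h0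
    obtain ⟨r, hr, h3⟩ := hRAT.2.2.2 u h1 h2
    have hn : 0 < r.num := Rat.num_pos.2 hr
    obtain ⟨N, hN⟩ := Int.eq_ofNat_of_zero_le hn.le
    have hN0 : 0 < N := by omega
    refine ⟨N, hN0, ⟨(N : F) * u, ?_, ?_⟩, rfl⟩
    · have h4 : (N : F) = algebraMap ℚ F (N : ℚ) := (map_natCast _ _).symm
      rw [h4]
      exact mul_mem (A.algebraMap_mem _) hu
    · intro p
      have h4 : (N : F) * u = (r.den : F) * (algebraMap ℚ F r * u) := by
        have h5 : (N : F) = algebraMap ℚ F (N : ℚ) := (map_natCast _ _).symm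
        have h6 : (r.den : F) = algebraMap ℚ F (r.den : ℚ) := (map_natCast _ _).symm
        have h7 : (N : ℚ) = r.den * r := by
          rw [Rat.den_mul_eq_num, hN]
          rfl
        rw [h5, h6, ← mul_assoc, ← map_mul, ← h7]
      rw [h4, nat_mul_snd, norm_mul, h3 p, mul_one]
      exact_mod_cast Padic.norm_int_le_one (p := (p : ℕ)) (r.den : ℤ)

/-- Prime elements generate maximal ideals. -/
theorem comax (hRAT : S_RAT) (hRES : S_RES) (hMUFD : S_MUFD) {P : F} {A : Subalgebra ℚ F}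
    (h : Fin' P A) (q a : MM A) (hq : Prime q) (hqa : ¬ q ∣ a) : ∃ u v : MM A, a * u + q * v = 1 := by
  obtain ⟨hdom, hufd, h1, h2, h3⟩ := hMUFD P A h.good
  rcases h3 q hq with hn | ⟨l, hl, hql⟩
  · -- normal primes
    obtain ⟨hpr, hnorm⟩ := hn
    rcases h.comax q a hpr a.2.1 with ⟨c, hc, hac⟩ | ⟨u, hu, v, hv, huv⟩
    · exfalso
      apply hqa
      refine ⟨⟨c, hc, fun p => ?_⟩, Subtype.ext hac⟩
      have h4 : ‖(a : F).2 p‖ = ‖(q : F).2 p‖ * ‖c.2 p‖ := by
        rw [← norm_mul]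
        rw [hac]
        rfl
      rw [hnorm p, one_mul] at h4
      rw [← h4]
      exact a.2.2 p
    · obtain ⟨N₁, hN₁, u', hu'⟩ := mult hRAT h.good.nz hu
      obtain ⟨N₂, hN₂, v', hv'⟩ := mult hRAT h.good.nz hv
      obtain ⟨z, hz⟩ := hRES (0, fun p => ((q : F).2 p)⁻¹) (fun p => by
        change ‖((q : F).2 p)⁻¹‖ ≤ 1
        rw [norm_inv, hnorm p, inv_one]) (N₁ * N₂) (Nat.mul_pos hN₁ hN₂)
      have h5 : ∀ p : Nat.Primes, ‖((1 - (q : F) * (z : F) : F)).2 p‖ ≤
          ‖((N₁ * N₂ : ℕ) : ℚ_[(p : ℕ)])‖ := by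
        intro p
        refine le_trans (le_of_eq ?_) (hz p)
        have h6 : (q : F).2 p ≠ 0 := by
          intro h0
          have := hnorm p
          rw [h0, norm_zero] at this
          exact zero_ne_one this
        have h7 : ((1 - (q : F) * (z : F) : F)).2 p =
            (q : F).2 p * (((q : F).2 p)⁻¹ - (z : ℚ_[(p : ℕ)])) := by
          rw [mul_sub, mul_inv_cancel₀ h6, ← int_snd]
          rfl
        rw [h7, norm_mul, hnorm p, one_mul]
      have h8 : (1 - (q : F) * (z : F) : F) ∈ A := by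
        apply sub_mem (one_mem _) (mul_mem q.2.1 _)
        exact intCast_mem A z
      obtain ⟨w, hw⟩ := div h8 (Nat.mul_pos hN₁ hN₂) h5
      refine ⟨N₂ * u' * w, N₁ * v' * w + z, Subtype.ext ?_⟩
      push_cast
      rw [← hu', ← hv']
      push_cast at hw
      linear_combination ((N₁ : F) * N₂ * w) * huv - hw
  · -- prime numbers
    obtain ⟨z, hz⟩ := hRES a a.2.2 l hl.pos
    have h5 : ∀ p : Nat.Primes, ‖((a : F) - (z : F)).2 p‖ ≤ ‖(l : ℚ_[(p : ℕ)])‖ := by
      intro p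
      have h7 : ((a : F) - (z : F)).2 p = (a : F).2 p - (z : ℚ_[(p : ℕ)]) := by
        rw [← int_snd]
        rfl
      rw [h7]
      exact hz p
    have h8 : ((a : F) - (z : F)) ∈ A := sub_mem a.2.1 (intCast_mem A z)
    obtain ⟨w, hw⟩ := div h8 hl.pos h5
    have hw' : a = z + l * w := by
      apply Subtype.ext
      push_cast
      rw [← hw]
      ring
    have hlz : ¬ (l : ℤ) ∣ z := by
      rintro ⟨k, hk⟩
      apply hqa
      have h9 : (l : MM A) ∣ a := by
        refine ⟨k + w, ?_⟩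
        rw [hw', hk]
        push_cast
        ring
      rcases hql with rfl | rfl
      · exact h9
      · exact (neg_dvd).2 h9
    have hcop : IsCoprime (l : ℤ) z := by
      have h10 : Prime (l : ℤ) := Nat.prime_iff_prime_int.1 hl
      exact (h10.coprime_iff_not_dvd).2 hlz
    obtain ⟨s, t, hst⟩ := hcop
    have hst' : (s : MM A) * l + t * z = 1 := by
      exact_mod_cast congrArg (Int.cast : ℤ → MM A) hst
    have h11 : a * t + l * (s - w * t) = 1 := by
      rw [hw']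
      linear_combination hst'
    rcases hql with rfl | rfl
    · exact ⟨t, s - w * t, h11⟩
    · exact ⟨t, -(s - w * t), by rw [neg_mul_neg]; exact h11⟩

end MPID

theorem t_MPID : M_MPID := by
  intro hRAT hCONV hRES hMUFD P A h
  obtain ⟨hdom, hufd, h1, h2, h3⟩ := hMUFD P A h.good
  refine IsPrincipalIdealRing.of_prime_ne_bot fun I hI hI0 => ?_
  obtain ⟨q, hqI, hq⟩ := hI.exists_mem_prime_of_ne_bot hI0
  refine ⟨q, le_antisymm ?_ ?_⟩
  · intro a ha
    rw [Ideal.submodule_span_eq, Ideal.mem_span_singleton]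
    by_contra hqa
    obtain ⟨u, v, huv⟩ := MPID.comax hRAT hRES hMUFD h q a hq hqa
    apply hI.ne_top
    rw [Ideal.eq_top_iff_one, ← huv]
    exact I.add_mem (I.mul_mem_right _ ha) (I.mul_mem_right _ hqI)
  · rw [Ideal.submodule_span_eq, Ideal.span_le]
    intro x hx
    rw [Set.mem_singleton_iff.1 hx]
    exact hqI

end OID
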