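import Pool.Agent.OID.Stmts3

/-!
# Factorization in the ring `MM A`
-/

namespace OID

open Polynomial

namespace MUFD

variable {P : F} {A : Subalgebra ℚ F}

/-- the inclusion of `MM A` in `A` -/
noncomputable def inc (A : Subalgebra ℚ F) : MM A →+* A where
  toFun x := ⟨x.1, x.2.1⟩
  map_one' := rfl
  map_mul' _ _ := rfl
  map_zero' := rfl
  map_add' _ _ := rfl

theorem inc_inj : Function.Injective (inc A) := by
  intro x y h
  exact Subtype.ext (congrArg (fun z : A => (z : F)) h)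

theorem snd_mul (x y : F) (p : Nat.Primes) : (x * y).2 p = x.2 p * y.2 p := rfl

theorem snd_nat (n : ℕ) (p : Nat.Primes) : ((n : F)).2 p = (n : ℚ_[(p : ℕ)]) := rfl

theorem snd_int (n : ℤ) (p : Nat.Primes) : ((n : F)).2 p = (n : ℚ_[(p : ℕ)]) := rfl

/-- normal primes are prime in `MM A` -/
theorem npr (q : MM A) (h : NPr A q) : Prime q := by
  obtain ⟨⟨hA, hp⟩, hn⟩ := h
  refine ⟨?_, ?_, ?_⟩
  · intro h0
    apply hp.ne_zero
    apply Subtype.ext
    change (q : F) = 0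
    rw [h0]
    rfl
  · intro hu
    exact hp.not_isUnit (hu.map (inc A))
  · intro a b hab
    have h1 : (⟨q, hA⟩ : A) ∣ inc A a * inc A b := by
      rw [← map_mul]
      exact map_dvd (inc A) hab
    have key : ∀ c : MM A, (⟨q, hA⟩ : A) ∣ inc A c → q ∣ c := by
      rintro c ⟨w, hw⟩
      have hw' : (c : F) = q * w := congrArg (fun z : A => (z : F)) hw
      refine ⟨⟨w, w.2, fun p => ?_⟩, ?_⟩
      · have h2 : ‖(c : F).2 p‖ ≤ 1 := c.2.2 p
        rw [hw', snd_mul, norm_mul, hn p, one_mul] at h2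
        exact h2
      · apply Subtype.ext
        exact hw'
    rcases hp.dvd_or_dvd h1 with h2 | h2
    · exact Or.inl (key a h2)
    · exact Or.inr (key b h2)

/-- divisibility by a prime number -/
theorem dvd_of_norm {l : ℕ} (hl : l.Prime) (x : MM A) (h : ‖(x : F).2 ⟨l, hl⟩‖ < 1) :
    (l : MM A) ∣ x := by
  have hl0 : ((l : ℚ)) ≠ 0 := by exact_mod_cast hl.ne_zero
  have hmem : algebraMap ℚ F (1 / l) * (x : F) ∈ A := mul_mem (A.algebraMap_mem _) x.2.1
  have hmul : ((l : ℕ) : F) * (algebraMap ℚ F (1 / l) * (x : F)) = x := by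
    rw [← mul_assoc, ← map_natCast (algebraMap ℚ F) l, ← map_mul, mul_one_div_cancel hl0, map_one,
      one_mul]
  refine ⟨⟨algebraMap ℚ F (1 / l) * (x : F), hmem, fun p => ?_⟩, ?_⟩
  · have h1 : ‖(l : ℚ_[(p : ℕ)])‖ * ‖(algebraMap ℚ F (1 / l) * (x : F)).2 p‖ = ‖(x : F).2 p‖ := by
      rw [← norm_mul, ← snd_nat, ← snd_mul, hmul]
    by_cases hp : (p : ℕ) = l
    · have hp' : p = ⟨l, hl⟩ := Subtype.ext hp
      subst hp'
      have hfact : Fact l.Prime := ⟨hl⟩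
      have h2 : ‖(l : ℚ_[l])‖ = (l : ℝ)⁻¹ := Padic.norm_p
      have h3 : ‖(x : F).2 ⟨l, hl⟩‖ ≤ (l : ℝ)⁻¹ := by
        have h4 := (Padic.norm_le_pow_iff_norm_lt_pow_add_one
          ((x : F).2 ⟨l, hl⟩ : ℚ_[l]) (-1)).2 (by
            rw [neg_add_cancel, zpow_zero]
            exact h)
        rw [zpow_neg_one] at h4
        exact h4
      have h5 : (0 : ℝ) < (l : ℝ)⁻¹ := inv_pos.2 (by exact_mod_cast hl.pos)
      rw [← h1] at h3
      have h6 : (l : ℝ)⁻¹ * ‖(algebraMap ℚ F (1 / l) * (x : F)).2 ⟨l, hl⟩‖ ≤ (l : ℝ)⁻¹ * 1 := by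
        rw [mul_one]
        calc _ = _ := by rw [← h2]
          _ ≤ _ := h3
      exact le_of_mul_le_mul_left h6 h5
    · have h2 : ‖(l : ℚ_[(p : ℕ)])‖ = 1 := by
        rw [Padic.norm_natCast_eq_one_iff]
        exact (Nat.coprime_primes p.2 hl).2 hp
      rw [h2, one_mul] at h1
      rw [h1]
      exact x.2.2 p
  · apply Subtype.ext
    exact hmul.symm

/-- prime numbers are prime in `MM A` -/
theorem nat {l : ℕ} (hl : l.Prime) : Prime (l : MM A) := by
  have hfact : Fact l.Prime := ⟨hl⟩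
  have hlt : ‖(((l : MM A) : F)).2 ⟨l, hl⟩‖ < 1 := Padic.norm_p_lt_one
  refine ⟨?_, ?_, ?_⟩
  · intro h0
    have h1 : ((l : MM A) : F).2 ⟨l, hl⟩ = 0 := by rw [h0]; rfl
    have h2 : ((l : ℕ) : ℚ_[l]) = 0 := h1
    exact hl.ne_zero (by exact_mod_cast h2)
  · intro hu
    obtain ⟨c, hc⟩ := hu.exists_right_inv
    have h1 : ‖(((l : MM A) : F) * (c : F)).2 ⟨l, hl⟩‖ = 1 := by
      have h2 : ((l : MM A) : F) * (c : F) = 1 := congrArg (fun z : MM A => (z : F)) hc
      rw [h2]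
      exact norm_one
    rw [snd_mul, norm_mul] at h1
    have h3 := mul_le_mul_of_nonneg_left (c.2.2 ⟨l, hl⟩)
      (norm_nonneg ((((l : MM A) : F)).2 ⟨l, hl⟩))
    rw [h1, mul_one] at h3
    exact absurd hlt (not_lt.2 h3)
  · rintro a b ⟨c, hc⟩
    have h1 : (a : F) * (b : F) = ((l : MM A) : F) * (c : F) :=
      congrArg (fun z : MM A => (z : F)) hc
    have h2 : ‖(a : F).2 ⟨l, hl⟩‖ * ‖(b : F).2 ⟨l, hl⟩‖ < 1 := by
      rw [← norm_mul, ← snd_mul, h1, snd_mul, norm_mul]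
      calc _ ≤ ‖(((l : MM A) : F)).2 ⟨l, hl⟩‖ * 1 :=
            mul_le_mul_of_nonneg_left (c.2.2 ⟨l, hl⟩) (norm_nonneg _)
        _ < 1 := by rw [mul_one]; exact hlt
    by_cases ha : ‖(a : F).2 ⟨l, hl⟩‖ < 1
    · exact Or.inl (dvd_of_norm hl a ha)
    · right
      apply dvd_of_norm hl b
      rw [not_lt] at ha
      calc ‖(b : F).2 ⟨l, hl⟩‖ = 1 * ‖(b : F).2 ⟨l, hl⟩‖ := (one_mul _).symm
        _ ≤ ‖(a : F).2 ⟨l, hl⟩‖ * ‖(b : F).2 ⟨l, hl⟩‖ :=
          mul_le_mul_of_nonneg_right ha (norm_nonneg _)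
        _ < 1 := h2

/-- products of normal primes -/
theorem prodN (s : Multiset F) (hs : ∀ q ∈ s, NPr A q) : ∃ f : Multiset (MM A),
    (∀ b ∈ f, NPr A b) ∧ (f.prod : F) = s.prod ∧ ∀ p, ‖s.prod.2 p‖ = 1 := by
  induction s using Multiset.induction with
  | empty =>
    refine ⟨0, fun b hb => absurd hb (Multiset.notMem_zero b), ?_, fun p => ?_⟩
    · rw [Multiset.prod_zero, Multiset.prod_zero]
      rfl
    · rw [Multiset.prod_zero]
      exact norm_one
  | cons q s ih =>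
    obtain ⟨f, h1, h2, h3⟩ := ih fun w hw => hs w (Multiset.mem_cons_of_mem hw)
    have hq := hs q (Multiset.mem_cons_self q s)
    let q' : MM A := ⟨q, hq.1.1, fun p => (hq.2 p).le⟩
    refine ⟨q' ::ₘ f, ?_, ?_, ?_⟩
    · intro b hb
      rcases Multiset.mem_cons.1 hb with rfl | hb
      · exact hq
      · exact h1 b hb
    · rw [Multiset.prod_cons, Multiset.prod_cons, ← h2]
      rfl
    · intro p
      rw [Multiset.prod_cons, snd_mul, norm_mul, hq.2 p, h3 p, one_mul]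

/-- factorization of integers -/
theorem prodZ (z : ℤ) (hz : z ≠ 0) : ∃ f : Multiset (MM A),
    (∀ b ∈ f, ∃ l : ℕ, l.Prime ∧ b = l) ∧ Associated f.prod (z : MM A) := by
  refine ⟨(z.natAbs.primeFactorsList.map (fun n : ℕ => (n : MM A)) : List (MM A)), ?_, ?_⟩
  · intro b hb
    rw [Multiset.mem_coe, List.mem_map] at hb
    obtain ⟨l, hl, rfl⟩ := hb
    exact ⟨l, Nat.prime_of_mem_primeFactorsList hl, rfl⟩
  · have h1 : (z.natAbs.primeFactorsList.map (fun n : ℕ => (n : MM A))).prod =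
        ((z.natAbs : ℕ) : MM A) := by
      rw [← Nat.cast_list_prod, Nat.prod_primeFactorsList (Int.natAbs_ne_zero.2 hz)]
    rw [Multiset.prod_coe, h1]
    rcases Int.natAbs_eq z with h | h
    · have h2 : (z : MM A) = ((z.natAbs : ℕ) : MM A) := by
        conv_lhs => rw [h]
        rw [Int.cast_natCast]
      rw [h2]
    · have h2 : (z : MM A) = -((z.natAbs : ℕ) : MM A) := by
        conv_lhs => rw [h]
        rw [Int.cast_neg, Int.cast_natCast]
      rw [h2]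
      exact (Associated.refl _).neg_right

/-- factorization in `MM A` -/
theorem fact (hR : S_RAT) (hg : Good P A) (x : MM A) (hx : x ≠ 0) : ∃ f : Multiset (MM A),
    (∀ b ∈ f, Prime b ∧ (NPr A b ∨ ∃ l : ℕ, l.Prime ∧ b = l)) ∧ Associated f.prod x := by
  obtain ⟨hR1, hR2, -, -⟩ := hR
  have hx0 : (x : F) ≠ 0 := fun h => hx (Subtype.ext h)
  obtain ⟨s, r, hs, hxs⟩ := hg.fac x x.2.1 hx0
  obtain ⟨f, h1, h2, h3⟩ := prodN s hs
  have h4 : ∀ p : Nat.Primes, ‖(r : ℚ_[(p : ℕ)])‖ ≤ 1 := by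
    intro p
    have h5 := x.2.2 p
    rw [hxs, snd_mul, norm_mul, h3 p, mul_one, (hR1 r).2 p] at h5
    exact h5
  obtain ⟨z, hz⟩ := hR2 r h4
  have hr0 : r ≠ 0 := by
    rintro rfl
    rw [map_zero, zero_mul] at hxs
    exact hx0 hxs
  have hz0 : z ≠ 0 := by
    rintro rfl
    exact hr0 (by rw [hz, Int.cast_zero])
  obtain ⟨f', h5, h6⟩ := prodZ (A := A) z hz0
  refine ⟨f' + f, ?_, ?_⟩
  · intro b hb
    rcases Multiset.mem_add.1 hb with hb | hb
    · obtain ⟨l, hl, rfl⟩ := h5 b hb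
      exact ⟨nat hl, Or.inr ⟨l, hl, rfl⟩⟩
    · exact ⟨npr b (h1 b hb), Or.inl (h1 b hb)⟩
  · rw [Multiset.prod_add]
    have h7 : x = (z : MM A) * f.prod := by
      apply Subtype.ext
      change (x : F) = ((z : MM A) : F) * (f.prod : F)
      rw [h2, hxs, hz, map_intCast]
      rfl
    rw [h7]
    exact h6.mul_right _

end MUFD

open MUFD

theorem t_MUFD : M_MUFD := by
  intro hR hC P A hg
  obtain ⟨hdom, -, -, hunit⟩ := hC.1 P A hg
  have hdom' : IsDomain (MM A) := inc_inj.isDomain (inc A)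
  have hfac := fact hR hg
  refine ⟨hdom', ?_, npr, fun l hl => nat hl, ?_⟩
  · apply UniqueFactorizationMonoid.of_exists_prime_factors
    intro x hx
    obtain ⟨f, h1, h2⟩ := hfac x hx
    exact ⟨f, fun b hb => (h1 b hb).1, h2⟩
  · intro q hq
    obtain ⟨f, h1, h2⟩ := hfac q hq.ne_zero
    obtain ⟨b, hb, hqb⟩ := hq.exists_mem_multiset_dvd h2.symm.dvd
    obtain ⟨hbp, hb2⟩ := h1 b hb
    obtain ⟨u, hu⟩ := hq.associated_of_dvd hbp hqb
    -- the units are `1` and `-1`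
    have hu1 : (u : MM A) = 1 ∨ (u : MM A) = -1 := by
      have e1 : ((u : MM A) : F) * ((u⁻¹ : (MM A)ˣ) : MM A) = 1 :=
        congrArg (fun z : MM A => (z : F)) u.mul_inv
      obtain ⟨r, -, hr⟩ := hunit _ (u : MM A).2.1 _ ((u⁻¹ : (MM A)ˣ) : MM A).2.1 e1
      have e2 : ∀ p : Nat.Primes, ‖(r : ℚ_[(p : ℕ)])‖ = 1 := by
        intro p
        have e3 : ‖(((u : MM A) : F)).2 p‖ * ‖((((u⁻¹ : (MM A)ˣ) : MM A) : F)).2 p‖ = 1 := by
          rw [← norm_mul, ← snd_mul, e1]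
          exact norm_one
        have e4 : ‖(((u : MM A) : F)).2 p‖ ≤ 1 := (u : MM A).2.2 p
        have e5 : ‖((((u⁻¹ : (MM A)ˣ) : MM A) : F)).2 p‖ ≤ 1 := ((u⁻¹ : (MM A)ˣ) : MM A).2.2 p
        have e6 : ‖(((u : MM A) : F)).2 p‖ = 1 := by
          refine le_antisymm e4 ?_
          calc (1 : ℝ) = ‖(((u : MM A) : F)).2 p‖ * ‖((((u⁻¹ : (MM A)ˣ) : MM A) : F)).2 p‖ := e3.symm
            _ ≤ ‖(((u : MM A) : F)).2 p‖ * 1 := mul_le_mul_of_nonneg_left e5 (norm_nonneg _)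
            _ = _ := mul_one _
        rw [hr, (hR.1 r).2 p] at e6
        exact e6
      rcases hR.2.2.1 r e2 with h | h
      · left
        apply Subtype.ext
        rw [hr, h, map_one]
        rfl
      · right
        apply Subtype.ext
        rw [hr, h, map_neg, map_one]
        rfl
    have hneg : ∀ w : MM A, NPr A w → NPr A ((-w : MM A) : F) := by
      rintro w ⟨⟨hwA, hwp⟩, hwn⟩
      refine ⟨⟨neg_mem hwA, ?_⟩, fun p => ?_⟩
      · exact hwp.neg
      · change ‖-((w : F).2 p)‖ = 1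
        rw [norm_neg]
        exact hwn p
    rcases hu1 with h | h
    · rw [h, mul_one] at hu
      rw [hu]
      rcases hb2 with h3 | ⟨l, hl, h3⟩
      · exact Or.inl h3
      · exact Or.inr ⟨l, hl, Or.inl h3⟩
    · rw [h, mul_neg_one] at hu
      have hu' : q = -b := by rw [← hu, neg_neg]
      rw [hu']
      rcases hb2 with h3 | ⟨l, hl, h3⟩
      · exact Or.inl (hneg b h3)
      · exact Or.inr ⟨l, hl, Or.inr (by rw [h3])⟩

end OID
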