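import Pool.Agent.OID.Stmts3

/-!
# Nagata's criterion
-/

namespace OID

namespace NAG

theorem split {R : Type} [CommRing R] [IsDomain R] (Q r : R) (h : ∃ m : ℕ, ¬ Q ^ m ∣ r) :
    ∃ (e : ℕ) (r' : R), r = Q ^ e * r' ∧ ¬ Q ∣ r' := by
  classical
  have h1 := Nat.find_spec h
  have h0 : Nat.find h ≠ 0 := by
    intro h0
    rw [h0, pow_zero] at h1
    exact h1 (one_dvd _)
  obtain ⟨e, he⟩ := Nat.exists_eq_succ_of_ne_zero h0
  have h2 : Q ^ e ∣ r := by
    by_contra hcon
    exact Nat.find_min h (by omega : e < Nat.find h) hcon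
  obtain ⟨r', hr'⟩ := h2
  refine ⟨e, r', hr', ?_⟩
  rintro ⟨w, hw⟩
  apply h1
  rw [he]
  exact ⟨w, by rw [hr', hw, Nat.succ_eq_add_one, pow_succ, mul_assoc]⟩

theorem cancel {R : Type} [CommRing R] [IsDomain R] {Q : R} (hQ : Prime Q) {p a w : R} {m e : ℕ}
    (hp : ¬ Q ∣ p) (h : Q ^ m * a = Q ^ e * p * w) : p ∣ a := by
  rcases le_total m e with hme | hme
  · obtain ⟨k, rfl⟩ := Nat.exists_eq_add_of_le hme
    have h1 : a = Q ^ k * p * w := by
      apply mul_left_cancel₀ (pow_ne_zero m hQ.ne_zero)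
      rw [h, pow_add]
      ring
    rw [h1]
    exact dvd_mul_of_dvd_left (dvd_mul_left _ _) _
  · obtain ⟨k, rfl⟩ := Nat.exists_eq_add_of_le hme
    have h1 : Q ^ k * a = p * w := by
      apply mul_left_cancel₀ (pow_ne_zero e hQ.ne_zero)
      rw [← mul_assoc, ← pow_add, h]
      ring
    obtain ⟨w', hw'⟩ : Q ^ k ∣ w := hQ.pow_dvd_of_dvd_mul_left k hp ⟨a, h1.symm⟩
    refine ⟨w', ?_⟩
    apply mul_left_cancel₀ (pow_ne_zero k hQ.ne_zero)
    rw [h1, hw']
    ring

variable {B R : Type} [CommRing B] [IsDomain B] [UniqueFactorizationMonoid B] [CommRing R]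
  [IsDomain R]

theorem key (i : B →+* R) (hi : Function.Injective i) (q : B) (hq : Prime q) (hQ : Prime (i q))
    (hr : ∀ r : R, ∃ (m : ℕ) (b : B), i q ^ m * r = i b) (π : B) (hπ : Prime π) (hqπ : ¬ q ∣ π)
    (e : ℕ) (π' : R) (h : i π = i q ^ e * π') (hπ' : ¬ i q ∣ π') : Prime π' := by
  have hπq : ¬ π ∣ q := by
    intro h1
    exact hqπ (hπ.associated_of_dvd hq h1).symm.dvd
  have hi0 : ∀ b : B, b ≠ 0 → i b ≠ 0 := fun b hb => (map_ne_zero_iff i hi).2 hb
  refine ⟨?_, ?_, ?_⟩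
  · rintro rfl
    rw [mul_zero] at h
    exact hi0 π hπ.ne_zero h
  · intro hu
    obtain ⟨w, hw⟩ := hu.exists_right_inv
    obtain ⟨m, b, hb⟩ := hr w
    have h1 : i (q ^ (m + e)) = i (π * b) := by
      rw [map_pow, map_mul, h, ← hb, pow_add]
      linear_combination (-(i q ^ m * i q ^ e)) * hw
    have h2 := hi h1
    exact hπq (hπ.dvd_of_dvd_pow (h2 ▸ dvd_mul_right π b))
  · rintro a b ⟨c, hc⟩
    obtain ⟨m1, α, hα⟩ := hr a
    obtain ⟨m2, β, hβ⟩ := hr b
    obtain ⟨m3, γ, hγ⟩ := hr c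
    have h1 : i (α * β * q ^ (m3 + e)) = i (π * (γ * q ^ (m1 + m2))) := by
      rw [map_mul, map_mul, map_pow, map_mul, map_mul, map_pow, h, ← hα, ← hβ, ← hγ, pow_add,
        pow_add]
      linear_combination (i q ^ m1 * i q ^ m2 * i q ^ m3 * i q ^ e) * hc
    have h2 := hi h1
    have h3 : π ∣ α * β * q ^ (m3 + e) := h2 ▸ dvd_mul_right _ _
    rcases hπ.dvd_or_dvd h3 with h4 | h4
    · rcases hπ.dvd_or_dvd h4 with ⟨δ, h5⟩ | ⟨δ, h5⟩
      · left
        apply cancel hQ hπ' (w := i δ) (m := m1) (e := e)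
        rw [hα, h5, map_mul, h]
      · right
        apply cancel hQ hπ' (w := i δ) (m := m2) (e := e)
        rw [hβ, h5, map_mul, h]
    · exact absurd (hπ.dvd_of_dvd_pow h4) hπq

theorem factor (i : B →+* R) (hi : Function.Injective i) (q : B) (hq : Prime q) (hQ : Prime (i q))
    (hr : ∀ r : R, ∃ (m : ℕ) (b : B), i q ^ m * r = i b)
    (hm : ∀ r : R, r ≠ 0 → ∃ m : ℕ, ¬ i q ^ m ∣ r) (b : B) : b ≠ 0 →
    ∃ (E : ℕ) (F : Multiset R), (∀ p ∈ F, Prime p ∧ ¬ i q ∣ p) ∧
      Associated (i q ^ E * F.prod) (i b) := by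
  induction b using UniqueFactorizationMonoid.induction_on_prime with
  | h₁ => intro h; exact absurd rfl h
  | h₂ u hu =>
    intro _
    refine ⟨0, 0, fun p hp => absurd hp (Multiset.notMem_zero p), ?_⟩
    rw [pow_zero, Multiset.prod_zero, one_mul]
    exact (associated_one_iff_isUnit.2 (hu.map i)).symm
  | h₃ a p ha hp ih =>
    intro _
    obtain ⟨E, F, hF, hass⟩ := ih ha
    by_cases hqp : q ∣ p
    · have h1 : Associated q p := hq.associated_of_dvd hp hqp
      refine ⟨E + 1, F, hF, ?_⟩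
      have h2 : Associated (i q) (i p) := h1.map i
      have h3 := h2.mul_mul hass
      rw [map_mul]
      have h4 : i q ^ (E + 1) * F.prod = i q * (i q ^ E * F.prod) := by ring
      rw [h4]
      exact h3
    · have hip : i p ≠ 0 := (map_ne_zero_iff i hi).2 hp.ne_zero
      obtain ⟨e, p', h1, h2⟩ := split (i q) (i p) (hm _ hip)
      have h3 := key i hi q hq hQ hr p hp hqp e p' h1 h2
      refine ⟨e + E, p' ::ₘ F, ?_, ?_⟩
      · intro x hx
        rcases Multiset.mem_cons.1 hx with rfl | hx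
        · exact ⟨h3, h2⟩
        · exact hF x hx
      · rw [map_mul, h1, Multiset.prod_cons]
        have h4 : i q ^ (e + E) * (p' * F.prod) = i q ^ e * p' * (i q ^ E * F.prod) := by ring
        rw [h4]
        exact Associated.mul_left _ hass

end NAG

theorem t_NAG : S_NAG := by
  intro B R _ _ _ _ _ i hi q hq hQ hr hm
  refine ⟨?_, ?_⟩
  · apply UniqueFactorizationMonoid.of_exists_prime_factors
    intro r hr0
    obtain ⟨m, b, hb⟩ := hr r
    have hib : i b ≠ 0 := by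
      rw [← hb]
      exact mul_ne_zero (pow_ne_zero _ hQ.ne_zero) hr0
    have hb0 : b ≠ 0 := by
      rintro rfl
      exact hib (map_zero i)
    obtain ⟨E, F, hF, hass⟩ := NAG.factor i hi q hq hQ hr hm b hb0
    have h1 : ¬ i q ∣ F.prod := by
      intro h
      obtain ⟨p, hp, h2⟩ := hQ.exists_mem_multiset_dvd h
      exact (hF p hp).2 h2
    have h2 : i q ^ m ∣ i q ^ E * F.prod := by
      refine Dvd.dvd.trans ?_ hass.symm.dvd
      rw [← hb]
      exact dvd_mul_right _ _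
    have h3 : i q ^ m ∣ i q ^ E := hQ.pow_dvd_of_dvd_mul_right m h1 h2
    have h4 : m ≤ E := (pow_dvd_pow_iff hQ.ne_zero hQ.not_unit).1 h3
    obtain ⟨k, rfl⟩ := Nat.exists_eq_add_of_le h4
    refine ⟨F + Multiset.replicate k (i q), ?_, ?_⟩
    · intro p hp
      rcases Multiset.mem_add.1 hp with hp | hp
      · exact (hF p hp).1
      · rw [Multiset.eq_of_mem_replicate hp]
        exact hQ
    · rw [Multiset.prod_add, Multiset.prod_replicate]
      rw [← hb] at hass
      have h5 : i q ^ (m + k) * F.prod = i q ^ m * (F.prod * i q ^ k) := by ring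
      rw [h5] at hass
      exact hass.of_mul_left (Associated.refl _) (pow_ne_zero _ hQ.ne_zero)
  · intro π hπ hn
    refine NAG.key i hi q hq hQ hr π hπ ?_ 0 (i π) (by rw [pow_zero, one_mul]) hn
    intro h
    exact hn (map_dvd i h)

end OID
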