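import Pool.Agent.OID.Stmts4

/-!
# Module PHP: the pigeonhole principle for terms
-/

set_option autoImplicit false

namespace OID

theorem t_PHP : M_PHP := by
  intro hT hX M _ _ _ hA t a b hb hba h
  exact hX M hA (fun x => t.val x) a b ((hT M hA).1 t) hb hba h

end OID
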