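import Pool.Agent.OID.Stmts3

/-!
# Rational numbers in `F`
-/

namespace OID

namespace RAT

theorem int_of_norm (r : ℚ) (h : ∀ p : Nat.Primes, ‖(r : ℚ_[(p : ℕ)])‖ ≤ 1) : ∃ z : ℤ, r = z := by
  have hden : r.den = 1 := by
    by_contra hne
    obtain ⟨p, hp, hpd⟩ := Nat.exists_prime_and_dvd hne
    have : Fact p.Prime := ⟨hp⟩
    have h1 : ‖(r : ℚ_[p])‖ ≤ 1 := h ⟨p, hp⟩
    have h2 : (r : ℚ_[p]) * ((r.den : ℚ) : ℚ_[p]) = ((r.num : ℚ) : ℚ_[p]) := by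
      rw [← Rat.cast_mul, Rat.mul_den_eq_num]
    have h3 : ‖((r.den : ℚ) : ℚ_[p])‖ < 1 := by
      rw [Rat.cast_natCast]
      exact Padic.norm_natCast_lt_one_iff.mpr hpd
    have h4 : ‖((r.num : ℚ) : ℚ_[p])‖ = 1 := by
      rw [Rat.cast_intCast]
      by_contra hne1
      have hlt : ‖((r.num : ℤ) : ℚ_[p])‖ < 1 := lt_of_le_of_ne (Padic.norm_int_le_one _) hne1
      have hdv : (p : ℤ) ∣ r.num := Padic.norm_intCast_lt_one_iff.mp hlt
      have hdv' : p ∣ r.num.natAbs := Int.natCast_dvd.mp hdv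
      have := Nat.dvd_gcd hdv' hpd
      rw [r.reduced.gcd_eq_one] at this
      exact hp.one_lt.ne' (Nat.dvd_one.mp this)
    have h5 := congrArg norm h2
    rw [norm_mul, h4] at h5
    have h6 : ‖(r : ℚ_[p])‖ * ‖((r.den : ℚ) : ℚ_[p])‖ < 1 :=
      mul_lt_one_of_nonneg_of_lt_one_right h1 (norm_nonneg _) h3
    exact absurd h5 h6.ne
  exact ⟨r.num, (Rat.coe_int_num_of_den_eq_one hden).symm⟩

theorem pm_of_norm (r : ℚ) (h : ∀ p : Nat.Primes, ‖(r : ℚ_[(p : ℕ)])‖ = 1) : r = 1 ∨ r = -1 := by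
  obtain ⟨z, rfl⟩ := int_of_norm r fun p => (h p).le
  have hz : z.natAbs = 1 := by
    by_contra hne
    obtain ⟨p, hp, hpd⟩ := Nat.exists_prime_and_dvd hne
    have : Fact p.Prime := ⟨hp⟩
    have h1 : ‖((z : ℚ) : ℚ_[p])‖ = 1 := h ⟨p, hp⟩
    rw [Rat.cast_intCast] at h1
    have h2 : ‖((z : ℤ) : ℚ_[p])‖ < 1 := Padic.norm_intCast_lt_one_iff.mpr (Int.natCast_dvd.mpr hpd)
    exact absurd h1 h2.ne
  rcases Int.natAbs_eq z with h1 | h1
  · left; rw [h1, hz]; simp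
  · right; rw [h1, hz]; simp

theorem comp (r : ℚ) : (algebraMap ℚ F r).1 = (r : ℝ*) ∧
    ∀ p, (algebraMap ℚ F r).2 p = (r : ℚ_[(p : ℕ)]) := by
  constructor
  · exact eq_ratCast (algebraMap ℚ ℝ*) r
  · intro p
    exact eq_ratCast (algebraMap ℚ ℚ_[(p : ℕ)]) r

theorem norm_other (p q : Nat.Primes) (h : p ≠ q) : ‖((p : ℕ) : ℚ_[(q : ℕ)])‖ = 1 := by
  rw [Padic.norm_natCast_eq_one_iff]
  exact (Nat.coprime_primes q.2 p.2).mpr fun e => h (Subtype.ext e.symm)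

theorem scale (a : F) (h0 : ∀ p, a.2 p ≠ 0) (hf : {p | ‖a.2 p‖ ≠ 1}.Finite) :
    ∃ r : ℚ, 0 < r ∧ ∀ p, ‖(algebraMap ℚ F r * a).2 p‖ = 1 := by
  classical
  set r : ℚ := ∏ p ∈ hf.toFinset, ((p : ℕ) : ℚ) ^ (-(a.2 p).valuation) with hr
  refine ⟨r, ?_, fun q => ?_⟩
  · rw [hr]
    exact Finset.prod_pos fun p _ => zpow_pos (by exact_mod_cast p.2.pos) _
  · have h1 : (algebraMap ℚ F r * a).2 q = (r : ℚ_[(q : ℕ)]) * a.2 q := by
      rw [← (comp r).2 q]; rfl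
    rw [h1, norm_mul]
    have h2 : ‖(r : ℚ_[(q : ℕ)])‖ =
        ∏ p ∈ hf.toFinset, ‖((p : ℕ) : ℚ_[(q : ℕ)])‖ ^ (-(a.2 p).valuation) := by
      rw [hr, Rat.cast_prod, norm_prod]
      refine Finset.prod_congr rfl fun p _ => ?_
      rw [Rat.cast_zpow, Rat.cast_natCast, norm_zpow]
    rw [h2]
    by_cases hq : q ∈ hf.toFinset
    · rw [Finset.prod_eq_single_of_mem q hq (fun p _ hpq => by rw [norm_other p q hpq, one_zpow]),
        Padic.norm_p, Padic.norm_eq_zpow_neg_valuation (h0 q), inv_zpow, ← zpow_neg, neg_neg,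
        ← zpow_add₀ (by exact_mod_cast q.2.ne_zero), add_neg_cancel, zpow_zero]
    · have h3 : ‖a.2 q‖ = 1 := by
        by_contra hne
        exact hq (hf.mem_toFinset.mpr hne)
      rw [h3, mul_one]
      refine Finset.prod_eq_one fun p hp => ?_
      have hpq : p ≠ q := fun e => hq (e ▸ hp)
      rw [norm_other p q hpq, one_zpow]

end RAT

theorem t_RAT : S_RAT :=
  ⟨RAT.comp, RAT.int_of_norm, RAT.pm_of_norm, RAT.scale⟩

end OID
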