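import Pool.Agent.OID.Stmts3

/-!
# Countably many requirements
-/

namespace OID

theorem t_REQ : M_REQ := by
  intro htr huni P hP A₀ h0 T hmono hstep
  choose! S hS1 hS2 hS3 using hstep
  let B : ℕ → Subalgebra ℚ F := fun n => Nat.rec A₀ (fun i A => S i A) n
  have hB0 : B 0 = A₀ := rfl
  have hBs : ∀ n, B (n + 1) = S n (B n) := fun n => rfl
  have hB : ∀ n, Good P (B n) ∧ Ext A₀ (B n) := by
    intro n
    induction n with
    | zero => exact ⟨h0, htr.1 A₀⟩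
    | succ n ih =>
      rw [hBs]
      exact ⟨hS1 n (B n) ih.1 ih.2, htr.2 _ _ _ ih.2 (hS2 n (B n) ih.1 ih.2)⟩
  obtain ⟨A', hA', hE, -⟩ := huni P hP B (fun n => (hB n).1) fun n => by
    rw [hBs]
    exact hS2 n (B n) (hB n).1 (hB n).2
  refine ⟨A', hA', hE 0, fun i => ?_⟩
  refine hmono i (B (i + 1)) A' (hB (i + 1)).1 hA' (hB (i + 1)).2 (hE (i + 1)) ?_
  rw [hBs]
  exact hS3 i (B i) (hB i).1 (hB i).2

end OID
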