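import Pool.Agent.OID.Stmts3

/-!
# Module RES: residues of integral elements
-/

namespace OID

namespace RES

theorem norm_N {p : ℕ} [Fact p.Prime] {N : ℕ} (hN : 0 < N) :
    ‖(N : ℚ_[p])‖ = (p : ℝ) ^ (-((padicValNat p N : ℕ) : ℤ)) := by
  have h0 : (N : ℚ_[p]) ≠ 0 := by
    exact_mod_cast hN.ne'
  rw [Padic.norm_eq_zpow_neg_valuation h0, Padic.valuation_natCast]

theorem one {p : ℕ} [Fact p.Prime] (y : ℤ_[p]) (n z : ℕ) (h : z ≡ y.appr n [MOD p ^ n]) :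
    ‖(y : ℚ_[p]) - (z : ℤ)‖ ≤ (p : ℝ) ^ (-(n : ℤ)) := by
  have h1 : y - (z : ℤ_[p]) ∈ (Ideal.span {(p : ℤ_[p]) ^ n} : Ideal ℤ_[p]) := by
    have h2 := PadicInt.appr_spec n y
    have h3 : ((y.appr n : ℕ) : ℤ_[p]) - (z : ℤ_[p]) ∈
        (Ideal.span {(p : ℤ_[p]) ^ n} : Ideal ℤ_[p]) := by
      rw [Ideal.mem_span_singleton]
      have h4 := (Nat.modEq_iff_dvd.1 h)
      have h5 : ((((p ^ n : ℕ) : ℤ)) : ℤ_[p]) ∣ (((y.appr n : ℤ) - (z : ℤ) : ℤ) : ℤ_[p]) :=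
        map_dvd (Int.castRingHom ℤ_[p]) h4
      push_cast at h5
      exact h5
    have h6 := add_mem h2 h3
    rwa [sub_add_sub_cancel] at h6
  have h7 := (PadicInt.norm_le_pow_iff_mem_span_pow _ n).2 h1
  have e : ((y - (z : ℤ_[p]) : ℤ_[p]) : ℚ_[p]) = (y : ℚ_[p]) - (z : ℤ) := by
    push_cast
    rfl
  rw [← e]
  exact h7

/-- the component at `p`, as a `p`-adic integer -/
noncomputable def toZ (x : F) (hx : ∀ p, ‖x.2 p‖ ≤ 1) (p : Nat.Primes) : ℤ_[(p : ℕ)] := ⟨x.2 p, hx p⟩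

/-- the residue at `p` -/
noncomputable def ap (x : F) (hx : ∀ p, ‖x.2 p‖ ≤ 1) (N : ℕ) (p : Nat.Primes) : ℕ :=
  (toZ x hx p).appr (padicValNat p N)

end RES

open RES in
theorem t_RES : S_RES := by
  classical
  intro x hx N hN
  have key : ∃ z : ℕ, ∀ p : Nat.Primes, z ≡ ap x hx N p [MOD (p : ℕ) ^ padicValNat p N] := by
    obtain ⟨z, hz⟩ := Nat.chineseRemainderOfFinset
      (fun p => if hp : p.Prime then ap x hx N ⟨p, hp⟩ else 0)
      (fun p => p ^ padicValNat p N) N.primeFactors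
      (fun p hp => pow_ne_zero _ (Nat.prime_of_mem_primeFactors hp).ne_zero)
      (fun p hp q hq hpq => Nat.Coprime.pow _ _
        ((Nat.coprime_primes (Nat.prime_of_mem_primeFactors hp)
          (Nat.prime_of_mem_primeFactors hq)).2 hpq))
    refine ⟨z, fun p => ?_⟩
    by_cases hp : (p : ℕ) ∈ N.primeFactors
    · have h1 := hz p hp
      simp only [dif_pos p.2] at h1
      exact h1
    · have h1 : padicValNat p N = 0 := by
        apply padicValNat.eq_zero_of_not_dvd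
        intro hd
        exact hp (Nat.mem_primeFactors.2 ⟨p.2, hd, hN.ne'⟩)
      rw [h1, pow_zero]
      exact Nat.modEq_one
  obtain ⟨z, hz⟩ := key
  refine ⟨(z : ℤ), fun p => ?_⟩
  rw [RES.norm_N hN]
  exact RES.one (toZ x hx p) _ z (hz p)

end OID
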