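import Pool.Agent.OID.Stmts3

set_option autoImplicit false

/-!
# Module RL: generic real numbers
-/

namespace OID

open Polynomial

namespace RL

/-- the ring of the finite hyperreals -/
noncomputable def Fn : Subring ℝ* where
  carrier := {x | ∃ n : ℕ, |x| ≤ (n : ℝ*)}
  mul_mem' := by
    rintro x y ⟨n, hn⟩ ⟨m, hm⟩
    refine ⟨n * m, ?_⟩
    rw [abs_mul, Nat.cast_mul]
    exact mul_le_mul hn hm (abs_nonneg y) (Nat.cast_nonneg n)
  one_mem' := ⟨1, by simp⟩
  add_mem' := by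
    rintro x y ⟨n, hn⟩ ⟨m, hm⟩
    refine ⟨n + m, ?_⟩
    rw [Nat.cast_add]
    exact (abs_add_le x y).trans (add_le_add hn hm)
  zero_mem' := ⟨0, by simp⟩
  neg_mem' := by
    rintro x ⟨n, hn⟩
    exact ⟨n, by rwa [abs_neg]⟩

theorem mem_Fn (x : ℝ*) : x ∈ Fn ↔ ∃ n : ℕ, |x| ≤ (n : ℝ*) := Iff.rfl

theorem mem_Fn_iff (x : ℝ*) : x ∈ Fn ↔ ¬ Inf x := by
  rw [mem_Fn]
  constructor
  · rintro ⟨n, hn⟩ h
    exact absurd (h n) (not_lt.2 hn)
  · intro h
    by_contra hc
    apply h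
    intro n
    by_contra h2
    exact hc ⟨n, not_lt.1 h2⟩

theorem real_mem (r : ℝ) : (r : ℝ*) ∈ Fn := by
  obtain ⟨n, hn⟩ := exists_nat_ge |r|
  refine ⟨n, ?_⟩
  rw [← Hyperreal.coe_abs]
  have h1 : ((n : ℝ) : ℝ*) = (n : ℝ*) := by norm_cast
  rw [← h1]
  exact Hyperreal.coe_le_coe.2 hn

theorem coeff_mem (s : Finset ℝ) : ∀ G : ℝ*[X], G.natDegree < s.card →
    (∀ θ ∈ s, G.eval (θ : ℝ*) ∈ Fn) → ∀ n, G.coeff n ∈ Fn := by
  classical
  induction s using Finset.induction_on with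
  | empty =>
    intro G h
    simp at h
  | insert a s ha ih =>
    intro G hG hs n
    have h1 : G.eval (a : ℝ*) ∈ Fn := hs a (Finset.mem_insert_self a s)
    have h2 : (X - C (a : ℝ*)) * (G /ₘ (X - C (a : ℝ*))) + C (G.eval (a : ℝ*)) = G := by
      have h3 := modByMonic_add_div G (X - C (a : ℝ*))
      rw [modByMonic_X_sub_C_eq_C_eval, add_comm] at h3
      exact h3
    by_cases hd : G.natDegree = 0
    · rw [eq_C_of_natDegree_eq_zero hd] at h1 ⊢
      rw [eval_C] at h1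
      rw [coeff_C]
      split_ifs
      · exact h1
      · exact Fn.zero_mem
    · have h4 : (G /ₘ (X - C (a : ℝ*))).natDegree < s.card := by
        rw [natDegree_divByMonic _ (monic_X_sub_C _), natDegree_X_sub_C]
        rw [Finset.card_insert_of_notMem ha] at hG
        omega
      have h5 := ih (G /ₘ (X - C (a : ℝ*))) h4 (by
        intro θ hθ
        have hne : θ ≠ a := fun h => ha (h ▸ hθ)
        have h6 : θ - a ≠ 0 := sub_ne_zero.2 hne
        have h7 : ((θ : ℝ*) - (a : ℝ*)) * (((θ - a)⁻¹ : ℝ) : ℝ*) = 1 := by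
          rw [← Hyperreal.coe_sub, ← Hyperreal.coe_mul, mul_inv_cancel₀ h6]
          exact Hyperreal.coe_one
        have h8 : (G /ₘ (X - C (a : ℝ*))).eval (θ : ℝ*) =
            (G.eval (θ : ℝ*) - G.eval (a : ℝ*)) * (((θ - a)⁻¹ : ℝ) : ℝ*) := by
          have h9 := congrArg (eval (θ : ℝ*)) h2
          rw [eval_add, eval_mul, eval_sub, eval_X, eval_C, eval_C] at h9
          rw [← h9]
          linear_combination (-(eval (θ : ℝ*) (G /ₘ (X - C (a : ℝ*))))) * h7
        rw [h8]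
        exact Fn.mul_mem (Fn.sub_mem (hs θ (Finset.mem_insert_of_mem hθ)) h1) (real_mem _))
      rw [← h2, coeff_add, coeff_mul]
      refine Fn.add_mem (Fn.sum_mem ?_) ?_
      · rintro ⟨i, j⟩ _
        refine Fn.mul_mem ?_ (h5 j)
        rw [coeff_sub, coeff_X, coeff_C]
        refine Fn.sub_mem ?_ ?_
        · split_ifs
          · exact Fn.one_mem
          · exact Fn.zero_mem
        · split_ifs
          · exact real_mem a
          · exact Fn.zero_mem
      · rw [coeff_C]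
        split_ifs
        · exact h1
        · exact Fn.zero_mem

theorem bad_finite (G : ℝ*[X]) (hG : ∃ n, Inf (G.coeff n)) :
    {θ : ℝ | ¬ Inf (G.eval (θ : ℝ*))}.Finite := by
  by_contra hinf
  obtain ⟨s, hs, hcard⟩ := Set.Infinite.exists_subset_card_eq hinf (G.natDegree + 1)
  obtain ⟨n, hn⟩ := hG
  have h1 := coeff_mem s G (by omega) (by
    intro θ hθ
    rw [mem_Fn_iff]
    exact hs hθ) n
  rw [mem_Fn_iff] at h1
  exact h1 hn

end RL

open RL

theorem t_RL : S_RL := by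
  intro 𝒢 hc hG
  have h1 : (⋃ G ∈ 𝒢, {θ : ℝ | ¬ Inf (G.eval (θ : ℝ*))}).Countable :=
    Set.Countable.biUnion hc fun G hg => (bad_finite G (hG G hg)).countable
  have h2 : Dense (⋃ G ∈ 𝒢, {θ : ℝ | ¬ Inf (G.eval (θ : ℝ*))})ᶜ := h1.dense_compl ℝ
  obtain ⟨θ, hθ, hθ2⟩ := h2.exists_between (show (1 / 2 : ℝ) < 1 by norm_num)
  refine ⟨θ, hθ2.1, hθ2.2, ?_⟩
  intro G hg
  by_contra h3
  exact hθ (Set.mem_biUnion hg h3)

end OID
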