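import Pool.Agent.OID.Stmts4

/-!
# Module SEG: elementary facts on segments
-/

namespace OID

namespace SEG

variable {M : Type} [CommRing M] [LinearOrder M] [IsStrictOrderedRing M]

lemma lt_iff (disc : ∀ x : M, 0 < x → 1 ≤ x) (a b : M) : a < b ↔ a + 1 ≤ b := by
  constructor
  · intro h
    have h1 := disc (b - a) (sub_pos.2 h)
    linarith
  · intro h
    linarith

/-- reversal -/
lemma rev (disc : ∀ x : M, 0 < x → 1 ≤ x) (c e n : M) :
    Seg c e n = Seg (c + e * (n - 1)) (-e) n := by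
  have key : ∀ c e : M, Seg c e n ⊆ Seg (c + e * (n - 1)) (-e) n := by
    rintro c e x ⟨w, hw0, hwn, rfl⟩
    refine ⟨n - 1 - w, ?_, ?_, by ring⟩
    · have h1 := (lt_iff disc w n).1 hwn
      linarith
    · linarith
  apply Set.Subset.antisymm (key c e)
  have h1 := key (c + e * (n - 1)) (-e)
  have h2 : c + e * (n - 1) + -e * (n - 1) = c := by ring
  rw [h2, neg_neg] at h1
  exact h1

/-- the condition on the parameter -/
lemma par (hA : Alg M) (c e c' e' : M) (he : e ≠ 0) (he' : e' ≠ 0) :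
    (∀ w : M, ¬ e' ∣ c + e * w - c') ∨
      ∃ w₀ a : M, 0 < a ∧ ∀ w : M, e' ∣ c + e * w - c' ↔ a ∣ w - w₀ := by
  by_cases h : ∃ w₀ : M, e' ∣ c + e * w₀ - c'
  · right
    obtain ⟨w₀, hw₀⟩ := h
    let I : Ideal M := Submodule.comap (LinearMap.mulLeft M e) (Ideal.span {e'} : Submodule M M)
    have hI : ∀ u : M, u ∈ I ↔ e' ∣ e * u := by
      intro u
      rw [Submodule.mem_comap, LinearMap.mulLeft_apply]
      exact Ideal.mem_span_singleton
    obtain ⟨a, ha⟩ := hA.pid.principal I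
    have ha' : ∀ u : M, a ∣ u ↔ e' ∣ e * u := by
      intro u
      rw [← hI u, ha]
      exact (Ideal.mem_span_singleton (x := u) (y := a)).symm
    have ha0 : a ≠ 0 := by
      rintro rfl
      have h1 : (0 : M) ∣ e' := (ha' e').2 (Dvd.intro_left e rfl)
      exact he' (zero_dvd_iff.1 h1)
    refine ⟨w₀, |a|, abs_pos.2 ha0, fun w => ?_⟩
    rw [abs_dvd, ha' (w - w₀)]
    have h2 : c + e * w - c' = e * (w - w₀) + (c + e * w₀ - c') := by ring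
    rw [h2]
    exact (dvd_add_left hw₀)
  · left
    push Not at h
    exact h

/-- `a v < m` for `v < n₁` -/
lemma bound (hD : ∀ x e : M, 0 < e → ∃ q r : M, x = e * q + r ∧ 0 ≤ r ∧ r < e)
    (disc : ∀ x : M, 0 < x → 1 ≤ x) (a m : M) (ha : 0 < a) :
    ∃ k : M, ∀ v : M, a * v < m ↔ v < k := by
  obtain ⟨q, r, h1, h2, h3⟩ := hD (m + (a - 1)) a ha
  refine ⟨q, fun v => ?_⟩
  constructor
  · intro hv
    by_contra hcon
    push Not at hcon
    -- `q ≤ v`, so `a q ≤ a v ≤ m - 1`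
    have h4 := (lt_iff disc (a * v) m).1 hv
    have h5 : a * q ≤ a * v := mul_le_mul_of_nonneg_left hcon ha.le
    linarith
  · intro hv
    have h4 := (lt_iff disc v q).1 hv
    have h5 : a * (v + 1) ≤ a * q := mul_le_mul_of_nonneg_left h4 ha.le
    rw [mul_add, mul_one] at h5
    have h6 := (lt_iff disc r a).1 h3
    linarith

lemma prog (hD : ∀ x e : M, 0 < e → ∃ q r : M, x = e * q + r ∧ 0 ≤ r ∧ r < e)
    (disc : ∀ x : M, 0 < x → 1 ≤ x) (n w₀ a : M) (ha : 0 < a) (hn : 0 ≤ n) :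
    ∃ r n₁ : M, 0 ≤ n₁ ∧ n₁ ≤ n ∧ ∀ w : M, (0 ≤ w ∧ w < n ∧ a ∣ w - w₀) ↔
      ∃ v, 0 ≤ v ∧ v < n₁ ∧ w = r + a * v := by
  obtain ⟨q, r, h1, h2, h3⟩ := hD w₀ a ha
  obtain ⟨k, hk⟩ := bound hD disc a (n - r) ha
  have ha1 := disc a ha
  have hkn : k ≤ n := by
    by_contra hcon
    push Not at hcon
    have h4 := (hk n).2 hcon
    have h5 : 1 * n ≤ a * n := mul_le_mul_of_nonneg_right ha1 hn
    linarith
  refine ⟨r, max k 0, le_max_right _ _, max_le hkn hn, fun w => ?_⟩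
  constructor
  · rintro ⟨hw0, hwn, ⟨u, hu⟩⟩
    have h6 : w = r + a * (q + u) := by
      have : w = w₀ + a * u := by linarith
      rw [this, h1]
      ring
    refine ⟨q + u, ?_, ?_, h6⟩
    · by_contra hcon
      push Not at hcon
      have h7 := (lt_iff disc (q + u) 0).1 hcon
      have h8 : a * (q + u + 1) ≤ a * 0 := mul_le_mul_of_nonneg_left h7 ha.le
      rw [mul_add, mul_one, mul_zero] at h8
      linarith
    · refine lt_of_lt_of_le ((hk (q + u)).1 ?_) (le_max_left _ _)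
      linarith
  · rintro ⟨v, hv0, hvn, rfl⟩
    have h7 : v < k := by
      rcases lt_max_iff.1 hvn with h | h
      · exact h
      · exact absurd hv0 (not_le.2 h)
    refine ⟨add_nonneg h2 (mul_nonneg ha.le hv0), ?_, ?_⟩
    · have := (hk v).2 h7
      linarith
    · rw [h1]
      exact ⟨v - q, by ring⟩

lemma empty (c e n : M) (hn : n ≤ 0) : Seg c e n = ∅ := by
  ext x
  simp only [Set.mem_empty_iff_false, iff_false]
  rintro ⟨w, h1, h2, -⟩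
  linarith

lemma part2 (hA : Alg M) (hD : ∀ x e : M, 0 < e → ∃ q r : M, x = e * q + r ∧ 0 ≤ r ∧ r < e)
    (c e n c' e' : M) (he : e ≠ 0) (he' : e' ≠ 0) (hn : 0 ≤ n) :
    ∃ c₁ e₁ n₁ : M, e₁ ≠ 0 ∧ 0 ≤ n₁ ∧ n₁ ≤ n ∧ Seg c e n ∩ {x | e' ∣ x - c'} = Seg c₁ e₁ n₁ := by
  rcases par hA c e c' e' he he' with h | ⟨w₀, a, ha, h⟩
  · refine ⟨0, 1, 0, one_ne_zero, le_rfl, hn, ?_⟩
    rw [empty _ _ _ le_rfl]
    ext x
    simp only [Set.mem_inter_iff, Set.mem_ofPred_eq, Set.mem_empty_iff_false, iff_false]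
    rintro ⟨⟨w, -, -, rfl⟩, h2⟩
    exact h w h2
  · obtain ⟨r, n₁, h1, h2, h3⟩ := prog hD hA.disc n w₀ a ha hn
    refine ⟨c + e * r, e * a, n₁, mul_ne_zero he ha.ne', h1, h2, ?_⟩
    ext x
    simp only [Set.mem_inter_iff, Set.mem_ofPred_eq]
    constructor
    · rintro ⟨⟨w, hw0, hwn, rfl⟩, h5⟩
      obtain ⟨v, hv0, hvn, hv⟩ := (h3 w).1 ⟨hw0, hwn, (h w).1 h5⟩
      exact ⟨v, hv0, hvn, by rw [hv]; ring⟩
    · rintro ⟨v, hv0, hvn, rfl⟩
      obtain ⟨h6, h7, h8⟩ := (h3 (r + a * v)).2 ⟨v, hv0, hvn, rfl⟩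
      have h9 : c + e * r + e * a * v = c + e * (r + a * v) := by ring
      rw [h9]
      exact ⟨⟨_, h6, h7, rfl⟩, (h _).2 h8⟩

lemma cut (c e n : M) (P : M → Prop) (k : M) (hn : 0 ≤ n)
    (hk : ∀ w : M, P (c + e * w) ↔ w < k) :
    ∃ n₁ : M, 0 ≤ n₁ ∧ n₁ ≤ n ∧ Seg c e n ∩ {x | P x} = Seg c e n₁ := by
  refine ⟨max (min k n) 0, le_max_right _ _, max_le (min_le_right _ _) hn, ?_⟩
  ext x
  simp only [Set.mem_inter_iff, Set.mem_ofPred_eq]
  constructor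
  · rintro ⟨⟨w, hw0, hwn, rfl⟩, h5⟩
    exact ⟨w, hw0, lt_of_lt_of_le (lt_min ((hk w).1 h5) hwn) (le_max_left _ _), rfl⟩
  · rintro ⟨v, hv0, hvn, rfl⟩
    rcases lt_max_iff.1 hvn with h | h
    · rw [lt_min_iff] at h
      exact ⟨⟨v, hv0, h.2, rfl⟩, (hk v).2 h.1⟩
    · exact absurd hv0 (not_le.2 h)

lemma part3 (disc : ∀ x : M, 0 < x → 1 ≤ x)
    (hD : ∀ x e : M, 0 < e → ∃ q r : M, x = e * q + r ∧ 0 ≤ r ∧ r < e)
    (c e n b : M) (he : e ≠ 0) (hn : 0 ≤ n) :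
    (∃ c₁ n₁ : M, 0 ≤ n₁ ∧ n₁ ≤ n ∧ Seg c e n ∩ {x | x < b} = Seg c₁ e n₁) ∧
      ∃ c₁ n₁ : M, 0 ≤ n₁ ∧ n₁ ≤ n ∧ Seg c e n ∩ {x | b < x} = Seg c₁ e n₁ := by
  have up : ∀ c e : M, 0 < e → ∃ n₁ : M, 0 ≤ n₁ ∧ n₁ ≤ n ∧
      Seg c e n ∩ {x | x < b} = Seg c e n₁ := by
    intro c e he
    obtain ⟨k, hk⟩ := bound hD disc e (b - c) he
    refine cut c e n (fun x => x < b) k hn fun w => ?_
    rw [← hk w]
    constructor
    · intro h
      linarith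
    · intro h
      linarith
  have dn : ∀ c e : M, e < 0 → ∃ n₁ : M, 0 ≤ n₁ ∧ n₁ ≤ n ∧
      Seg c e n ∩ {x | b < x} = Seg c e n₁ := by
    intro c e he
    obtain ⟨k, hk⟩ := bound hD disc (-e) (c - b) (neg_pos.2 he)
    refine cut c e n (fun x => b < x) k hn fun w => ?_
    rw [← hk w]
    constructor
    · intro h
      linarith
    · intro h
      linarith
  rcases lt_or_gt_of_ne he with h | h
  · constructor
    · obtain ⟨n₁, h1, h2, h3⟩ := up (c + e * (n - 1)) (-e) (neg_pos.2 h)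
      rw [← rev disc c e n] at h3
      refine ⟨c + e * (n - 1) + -e * (n₁ - 1), n₁, h1, h2, ?_⟩
      rw [h3, rev disc _ (-e) n₁, neg_neg]
    · obtain ⟨n₁, h1, h2, h3⟩ := dn c e h
      exact ⟨c, n₁, h1, h2, h3⟩
  · constructor
    · obtain ⟨n₁, h1, h2, h3⟩ := up c e h
      exact ⟨c, n₁, h1, h2, h3⟩
    · obtain ⟨n₁, h1, h2, h3⟩ := dn (c + e * (n - 1)) (-e) (neg_neg_iff_pos.2 h)
      rw [← rev disc c e n] at h3
      refine ⟨c + e * (n - 1) + -e * (n₁ - 1), n₁, h1, h2, ?_⟩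
      rw [h3, rev disc _ (-e) n₁, neg_neg]

lemma part4 (hA : Alg M) (c e : M) (Q : Finset (M × M)) (he : e ≠ 0) (hQ : NZ Q) :
    ∃ Q' : Finset (M × M), NZ Q' ∧ Q'.card ≤ Q.card ∧
      ∀ w : M, (∀ q ∈ Q, ¬ q.2 ∣ c + e * w - q.1) ↔ ∀ q ∈ Q', ¬ q.2 ∣ w - q.1 := by
  classical
  have h1 : ∀ q : M × M, q.2 ≠ 0 → ∃ p : M × M, p.2 ≠ 0 ∧
      ((∃ w : M, q.2 ∣ c + e * w - q.1) → ∀ w : M, q.2 ∣ c + e * w - q.1 ↔ p.2 ∣ w - p.1) := by
    intro q hq
    rcases par hA c e q.1 q.2 he hq with h | ⟨w₀, a, ha, h⟩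
    · exact ⟨(0, 1), one_ne_zero, fun ⟨w, hw⟩ => absurd hw (h w)⟩
    · exact ⟨(w₀, a), ha.ne', fun _ => h⟩
  have h2 : ∀ q : M × M, ∃ p : M × M, q.2 ≠ 0 → (p.2 ≠ 0 ∧
      ((∃ w : M, q.2 ∣ c + e * w - q.1) →
        ∀ w : M, q.2 ∣ c + e * w - q.1 ↔ p.2 ∣ w - p.1)) := by
    intro q
    by_cases hq : q.2 = 0
    · exact ⟨0, fun h => absurd hq h⟩
    · obtain ⟨p, hp⟩ := h1 q hq
      exact ⟨p, fun _ => hp⟩
  choose g hg using h2
  refine ⟨(Q.filter fun q => ∃ w : M, q.2 ∣ c + e * w - q.1).image g, ?_, ?_, ?_⟩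
  · intro p hp
    obtain ⟨q, hq, rfl⟩ := Finset.mem_image.1 hp
    exact (hg q (hQ q (Finset.mem_filter.1 hq).1)).1
  · exact Finset.card_image_le.trans (Finset.card_filter_le _ _)
  · intro w
    constructor
    · intro h p hp
      obtain ⟨q, hq, rfl⟩ := Finset.mem_image.1 hp
      obtain ⟨hq1, hq2⟩ := Finset.mem_filter.1 hq
      rw [← (hg q (hQ q hq1)).2 hq2 w]
      exact h q hq1
    · intro h q hq hdiv
      have hq2 : ∃ w : M, q.2 ∣ c + e * w - q.1 := ⟨w, hdiv⟩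
      exact h (g q) (Finset.mem_image.2 ⟨q, Finset.mem_filter.2 ⟨hq, hq2⟩, rfl⟩)
        (((hg q (hQ q hq)).2 hq2 w).1 hdiv)

lemma part7 (disc : ∀ x : M, 0 < x → 1 ≤ x) (c e n p q r : M) (φ : M → M) (he : e ≠ 0)
    (hp : p ≠ 0) (hq : q ≠ 0) (hn : 0 ≤ n) (h : ∀ x ∈ Seg c e n, q * φ x = p * x + r) :
    ∃ c₁ e₁ : M, e₁ ≠ 0 ∧ φ '' Seg c e n = Seg c₁ e₁ n := by
  rcases hn.eq_or_lt with h0 | h0
  · refine ⟨0, 1, one_ne_zero, ?_⟩
    rw [empty c e n h0.ge, empty 0 1 n h0.ge, Set.image_empty]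
  have hc : c ∈ Seg c e n := ⟨0, le_rfl, h0, by ring⟩
  have hn1 := disc n h0
  rcases hn1.eq_or_lt with h1 | h1
  · refine ⟨φ c, 1, one_ne_zero, ?_⟩
    have hz : ∀ w : M, 0 ≤ w → w < n → w = 0 := by
      intro w hw0 hwn
      by_contra hcon
      have := disc w (lt_of_le_of_ne hw0 (Ne.symm hcon))
      linarith
    ext x
    constructor
    · rintro ⟨_, ⟨w, hw0, hwn, rfl⟩, rfl⟩
      rw [hz w hw0 hwn]
      exact ⟨0, le_rfl, h0, by ring_nf⟩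
    · rintro ⟨w, hw0, hwn, rfl⟩
      rw [hz w hw0 hwn, mul_zero, add_zero]
      exact ⟨c, hc, rfl⟩
  · have hce : c + e ∈ Seg c e n := ⟨1, zero_le_one, h1, by ring⟩
    have h2 : q * (φ (c + e) - φ c) = p * e := by
      rw [mul_sub, h _ hce, h _ hc]
      ring
    have h3 : φ (c + e) - φ c ≠ 0 := by
      intro h4
      rw [h4, mul_zero] at h2
      exact mul_ne_zero hp he h2.symm
    have h5 : ∀ w : M, 0 ≤ w → w < n → φ (c + e * w) = φ c + (φ (c + e) - φ c) * w := by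
      intro w hw0 hwn
      apply mul_left_cancel₀ hq
      linear_combination (h _ ⟨w, hw0, hwn, rfl⟩) - (h _ hc) - w * h2
    refine ⟨φ c, φ (c + e) - φ c, h3, ?_⟩
    ext x
    constructor
    · rintro ⟨_, ⟨w, hw0, hwn, rfl⟩, rfl⟩
      exact ⟨w, hw0, hwn, h5 w hw0 hwn⟩
    · rintro ⟨w, hw0, hwn, rfl⟩
      exact ⟨c + e * w, ⟨w, hw0, hwn, rfl⟩, h5 w hw0 hwn⟩

end SEG

theorem t_SEG : M_SEG := by
  classical
  intro hB hDIV _ M _ _ _ hA
  obtain ⟨hcompl, hinter, -, -, -, hlt, hgt, -, hprog, -, hInter, haff⟩ := hB M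
  have hD := hDIV M hA
  have hint : ∀ n : M, TSet {x : M | 0 ≤ x ∧ x < n} := by
    intro n
    have h1 : {x : M | 0 ≤ x ∧ x < n} = {x | (-1 : M) < x} ∩ {x | x < n} := by
      ext x
      simp only [Set.mem_inter_iff, Set.mem_ofPred_eq]
      rw [SEG.lt_iff hA.disc (-1) x]
      norm_num
    rw [h1]
    exact hinter _ _ (hgt _) (hlt _)
  have habs : ∀ n w : M, 0 ≤ w → w < n → |w| ≤ |n| := by
    intro n w h1 h2
    rw [abs_of_nonneg h1, abs_of_nonneg (h1.trans h2.le)]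
    exact h2.le
  refine ⟨SEG.rev hA.disc, fun c e n c' e' he he' hn => SEG.part2 hA hD c e n c' e' he he' hn,
    fun c e n b he hn => SEG.part3 hA.disc hD c e n b he hn,
    fun c e Q he hQ => SEG.part4 hA c e Q he hQ, ?_, ?_,
    fun c e n p q r φ he hp hq hn h => SEG.part7 hA.disc c e n p q r φ he hp hq hn h⟩
  · intro c e n he
    constructor
    · have h1 := haff {x : M | 0 ≤ x ∧ x < n} c e he (hint n)
      have h2 : {x | ∃ w ∈ {x : M | 0 ≤ x ∧ x < n}, x = c + e * w} = Seg c e n := by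
        ext x
        constructor
        · rintro ⟨w, ⟨h3, h4⟩, h5⟩
          exact ⟨w, h3, h4, h5⟩
        · rintro ⟨w, h3, h4, h5⟩
          exact ⟨w, ⟨h3, h4⟩, h5⟩
      rwa [h2] at h1
    · refine ⟨|c| + |e| * |n|, ?_⟩
      rintro _ ⟨w, h3, h4, rfl⟩
      calc |c + e * w| ≤ |c| + |e * w| := abs_add_le _ _
        _ = |c| + |e| * |w| := by rw [abs_mul]
        _ ≤ |c| + |e| * |n| := by
          have := mul_le_mul_of_nonneg_left (habs n w h3 h4) (abs_nonneg e)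
          linarith
  · intro n Q hQ
    constructor
    · have h1 : Wn n Q = {x : M | 0 ≤ x ∧ x < n} ∩ ⋂ q ∈ Q, {x : M | q.2 ∣ x - q.1}ᶜ := by
        ext x
        simp only [Wn, Set.mem_inter_iff, Set.mem_ofPred_eq, Set.mem_iInter, Set.mem_compl_iff]
        tauto
      rw [h1]
      exact hinter _ _ (hint n) (hInter _ Q _ fun q hq => hcompl _ (hprog _ _ (hQ q hq)))
    · refine ⟨|n|, ?_⟩
      rintro w ⟨h3, h4, -⟩
      exact habs n w h3 h4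

end OID
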