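import Pool.Agent.OID.Defs

/-!
# Statements of the modules, part 1: tame sets and tame functions

`S_X` is the statement of module `X` (file `Pool/Agent/OID/X.lean`); the module proves
`theorem t_X : S_X` or, if `M_X` is defined, `theorem t_X : M_X` (an implication `S_Y → … → S_X`).
-/

namespace OID

open Polynomial

/-- The hypotheses on the ring `M`. -/
structure Alg (M : Type) [CommRing M] [LinearOrder M] [IsStrictOrderedRing M] : Prop where
  disc : ∀ x : M, 0 < x → 1 ≤ x
  pid : IsPrincipalIdealRing M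
  roots : ∀ g : M[X], ∃ B : Finset M, ∀ x y : M,
    (∀ b ∈ B, (x < b ↔ y < b) ∧ (b < x ↔ b < y)) → (0 ≤ g.eval x ↔ 0 ≤ g.eval y)

section

variable {M : Type} [CommRing M] [LinearOrder M]

/-- `x` and `y` are in the same position relative to the elements of `B` and they satisfy the same
conditions `e ∣ x - c`, `(c, e) ∈ Q`. -/
def Same (B : Finset M) (Q : Finset (M × M)) (x y : M) : Prop :=
  (∀ b ∈ B, (x < b ↔ y < b) ∧ (b < x ↔ b < y)) ∧ ∀ q ∈ Q, (q.2 ∣ x - q.1 ↔ q.2 ∣ y - q.1)

/-- The moduli are not zero. -/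
def NZ (Q : Finset (M × M)) : Prop := ∀ q ∈ Q, q.2 ≠ 0

/-- Tame sets. -/
def TSet (S : Set M) : Prop :=
  ∃ (B : Finset M) (Q : Finset (M × M)), NZ Q ∧ ∀ x y, Same B Q x y → (x ∈ S ↔ y ∈ S)

/-- Tame functions: on every class of `Same B Q` they are polynomials with coefficients in the
fraction field. -/
def TFun (f : M → M) : Prop :=
  ∃ (B : Finset M) (Q : Finset (M × M)), NZ Q ∧
    ∀ x₀, ∃ (G : M[X]) (d : M), d ≠ 0 ∧ ∀ x, Same B Q x₀ x → d * f x = G.eval x

end

/-- The local principle. `Same B Q` has finitely many classes: `x ↦ (b ↦ (x < b, b < x), q ↦ q.2 ∣ x - q.1)` has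
values in a finite type. Choose one point `x₀` in each class and the `B'`, `Q'` for it; take the union of
all of them (with `B`, `Q`). -/
def S_TLOC : Prop :=
  ∀ (M : Type) [CommRing M] [LinearOrder M] (B : Finset M) (Q : Finset (M × M)), NZ Q →
    (∀ S : Set M, (∀ x₀, ∃ S', TSet S' ∧ ∀ x, Same B Q x₀ x → (x ∈ S ↔ x ∈ S')) → TSet S) ∧
    (∀ f : M → M, (∀ x₀, ∃ f', TFun f' ∧ ∀ x, Same B Q x₀ x → f x = f' x) → TFun f)

/-- Closure properties. For the last one: `B' = {c + p b}`, `Q' = {(c, p)} ∪ {(c + p c', p e')}`,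
where `p ≠ 0` may be negative. -/
def S_TBOOL : Prop :=
  ∀ (M : Type) [CommRing M] [LinearOrder M] [IsStrictOrderedRing M],
    (∀ S : Set M, TSet S → TSet Sᶜ) ∧ (∀ S T : Set M, TSet S → TSet T → TSet (S ∩ T)) ∧
    (∀ S T : Set M, TSet S → TSet T → TSet (S ∪ T)) ∧ TSet (∅ : Set M) ∧ TSet (Set.univ : Set M) ∧
    (∀ b : M, TSet {x | x < b}) ∧ (∀ b : M, TSet {x | b < x}) ∧ (∀ S : Set M, S.Finite → TSet S) ∧
    (∀ c e : M, e ≠ 0 → TSet {x | e ∣ x - c}) ∧
    (∀ (ι : Type) (s : Finset ι) (S : ι → Set M), (∀ i ∈ s, TSet (S i)) → TSet (⋃ i ∈ s, S i)) ∧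
    (∀ (ι : Type) (s : Finset ι) (S : ι → Set M), (∀ i ∈ s, TSet (S i)) → TSet (⋂ i ∈ s, S i)) ∧
    ∀ (S : Set M) (c p : M), p ≠ 0 → TSet S → TSet {x | ∃ w ∈ S, x = c + p * w}

/-- Division with remainder. For `g = C x - C e * X` take `B` from `Alg.roots`. Call `q` low if `e q ≤ x`
(that is `0 ≤ g.eval q`); `-|x|` is low and `|x| + 1` is not. If `q₀ < q₁`, `q₀` is low and `q₁` is not, then
there is a low `q` such that `q + 1` is not low, by induction on the number of the `b ∈ B` with
`q₀ ≤ b ≤ q₁`: if there is none, `q₀` and `q₁` have the same position, a contradiction; if `b` is one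
of them and `b` is low then (`b + 1` is not low, or continue with `b + 1` and `q₁`); if `b` is not low then (`b - 1` is
low, or continue with `q₀` and `b - 1`). Then `r = x - e q`. -/
def S_DIV : Prop :=
  ∀ (M : Type) [CommRing M] [LinearOrder M] [IsStrictOrderedRing M], Alg M →
    ∀ x e : M, 0 < e → ∃ q r : M, x = e * q + r ∧ 0 ≤ r ∧ r < e

/-- Least elements. Let `S` be given by `B`, `Q`; we may assume `0 ∈ B`. There are finitely many classes of `Same B Q`, so it
is enough to find the least element of the class of a given `x* ≥ 0` with `x* ∈ S` (the class is contained in `S` and in the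
nonnegative elements). Let `Q₊` be the set of the `q ∈ Q` with `q.2 ∣ x* - q.1`, `Q₋` the others, `E > 0` a generator of
the intersection of the ideals `(q.2)`, `q ∈ Q₊` (`E ≠ 0`, since the product of the `q.2` is in it; `E = 1` if `Q₊ = ∅`).
Then `y` is in the class of `x*` if and only if `E ∣ y - x*`, `y` has the position of `x*` and `y` satisfies no
condition of `Q₋`. Let `D` be the product of the `|q.2|`, `q ∈ Q₋`, that are standard (`|q.2| ≤ k` for some `k : ℕ`; they are
integers by `disc`). Let `y = x* + E w`. For `q ∈ Q₋` with standard `q.2` and `D ∣ w`, `q.2 ∤ y - q.1`. For nonstandard `q.2`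
let `e' = q.2 / gcd(q.2, E)`: if the condition holds for `w` and `w'` then `e' ∣ w - w'`. If
`e'` is nonstandard then it holds for at most one of `w₀, w₀ + D, …, w₀ + k D` (`k` standard). If `e'` is standard, it is not a unit if the condition holds for some `w`
(otherwise it would hold for `w = 0`); so replace `D` by the product of all the `q.2` and `e'` that are standard: if `D ∣ w` the condition does not hold.
Hence: if `w₀` is such that `D ∣ w₀` then one of `w₀, w₀ + D, …, w₀ + k D`, `k = #Q`, satisfies no condition of `Q₋`. The lower bound given by the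
position of `x*` is `b ≤ y` or `b < y` for some `b ∈ B` (or the class is `{b}`); by S_DIV there is a smallest
`w₁` with `x* + E w₁` above the lower bound, and the class contains one of the `x* + E w` with `w₁ ≤ w ≤ w₁ + (k + 1) D`, or is bounded by a smaller upper bound
(`x*` is in the class, so if the found element is not below the upper bound, `x*` is before it: `0` is one of the standardly many
`w` in `[w₁, w₁ + (k + 1) D]`). In both cases the least element of the class is one of finitely many elements. -/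
def S_TLNP : Prop :=
  ∀ (M : Type) [CommRing M] [LinearOrder M] [IsStrictOrderedRing M], Alg M →
    ∀ S : Set M, TSet S → (∃ x ∈ S, 0 ≤ x) → ∃ m ∈ S, 0 ≤ m ∧ ∀ x ∈ S, 0 ≤ x → m ≤ x

def M_TLNP : Prop := S_DIV → S_TLNP

/-- The set of the `x` with `d ∣ g(x)` is tame. `M` is a unique factorization domain (`Alg.pid`). Induction on `d` for all `g`
(`UniqueFactorizationMonoid.induction_on_prime`). Units: all `x`. `d = p d'`, `p` prime: if `p` divides
all coefficients of `g`, `g = p g'` and the set is that of `d'`, `g'`. Otherwise the image of `g` in the polynomials over the domain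
`M ⧸ (p)` is not zero and has finitely many roots, the classes of `c₁, …, c_r`; the set is the union over `i` of the sets
of the `x = c_i + p w` with `d' ∣ g_i(w)`, where `g(c_i + p X) = p g_i(X)` (the polynomial `g.comp (C c + C p * X)` is
`g(c)` modulo `p`). Use the last part of S_TBOOL. -/
def S_TDVD : Prop :=
  ∀ (M : Type) [CommRing M] [LinearOrder M] [IsStrictOrderedRing M], Alg M →
    ∀ (d : M) (g : M[X]), d ≠ 0 → TSet {x | d ∣ g.eval x}

def M_TDVD : Prop := S_TBOOL → S_TDVD

/-- Elementary facts on `gcdM`, `quoM`, `floM`. The ring is a PID and its units are `1` and `-1` (by `disc`: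
`u v = 1` implies `|u| = |v| = 1`). -/
def S_GCD : Prop :=
  ∀ (M : Type) [CommRing M] [LinearOrder M] [IsStrictOrderedRing M], Alg M →
    (∀ u v : M, u * v = 1 → u = 1 ∨ u = -1) ∧
    (∀ a b : M, 0 ≤ gcdM a b ∧ ∀ d : M, d ∣ gcdM a b ↔ d ∣ a ∧ d ∣ b) ∧
    (∀ a b g : M, 0 ≤ g → (∀ d : M, d ∣ g ↔ d ∣ a ∧ d ∣ b) → gcdM a b = g) ∧
    (∀ c a b : M, gcdM (c * a) (c * b) = |c| * gcdM a b) ∧
    (∀ b c : M, b ≠ 0 → quoM (b * c) b = c) ∧ (∀ a b : M, b = 0 ∨ ¬ b ∣ a → quoM a b = 0) ∧
    (∀ c a b : M, c ≠ 0 → quoM (c * a) (c * b) = quoM a b) ∧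
    (∀ (a c : M) (n : ℕ), 0 < n → (n : M) * c ≤ a → a < n * c + n → floM a n = c) ∧
    (∀ (a : M) (n : ℕ), 0 < n → ∃ (c : M) (r : ℕ), r < n ∧ a = n * c + r) ∧
    (∀ c : M, c ≠ 0 → {d : M | d ∣ c}.Finite)

def M_GCD : Prop := S_DIV → S_GCD

/-- Divisibility, gcd and quotient of the values of two polynomials. The case `S = 0` or `T = 0` first.
Otherwise let `K` be the fraction field; in `K[X]` `S = g s`, `T = g t`, `u s + v t = 1`; clearing denominators there are
`G, S₁, T₁, U, V : M[X]` and nonzero `d, c : M` with `d S = G S₁`, `d T = G T₁`, `U S₁ + V T₁ = c`. So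
`gcd(S₁(x), T₁(x)) ∣ c` for all `x`, and `c` has finitely many divisors; for `e ∣ c` the set of the `x` with
`gcd(S₁(x), T₁(x)) = e` is tame by S_TDVD, and on it `|d| gcd(S(x), T(x)) = |G(x)| e` (the sign of `G(x)` is tame by `Alg.roots`).
`S(x) ∣ T(x)`: if `S(x) = 0` this is `T(x) = 0`; otherwise it is `S₁(x) ∣ T₁(x)` (cancel `G(x) ≠ 0`), and this implies `S₁(x) ∣ c`; if
`S₁` is not constant there are finitely many such `x` (finitely many values `e ∣ c`, and `S₁(x) = e` has finitely many solutions); if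
`S₁ = s ≠ 0` use S_TDVD. The quotient `quoM (T x) (S x)` (exchange the roles of `S` and `T` for the statement) is in the
first case `0` except for finitely many `x`; in the second case `s * quo = T₁(x)` on the tame set of the `x` with
`S(x) ≠ 0` and `s ∣ T₁(x)`, and `0` elsewhere. Use S_TLOC to glue functions (a tame set `S'` given by `B`, `Q` is a union of classes). -/
def S_TPOL : Prop :=
  ∀ (M : Type) [CommRing M] [LinearOrder M] [IsStrictOrderedRing M], Alg M → ∀ S T : M[X],
    TSet {x : M | S.eval x ∣ T.eval x} ∧ TFun (fun x : M => gcdM (S.eval x) (T.eval x)) ∧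
    TFun (fun x : M => quoM (S.eval x) (T.eval x))

def M_TPOL : Prop := S_TLOC → S_TBOOL → S_TDVD → S_GCD → S_TPOL

/-- Closure of the tame functions. Take a common refinement `B`, `Q` for `f` and `g`; on a class `d f = F(x)`, `d' g = G(x)`. On the
class `f ≤ g` if and only if `0 ≤ (d d')² (g - f) = d² d' G(x) - d'² d F(x)` (`{x | 0 ≤ H.eval x}` is tame by `Alg.roots`).
`f ∣ g ↔ d' F(x) ∣ d G(x)`; `|d d'| gcd(f, g) = gcd(d' F(x), d G(x))`; `quo(f, g) = quo(d' F(x), d G(x))` (S_TPOL, S_GCD).
`⌊f / n⌋ = (f - r) / n` on the set of the `x` with `d n ∣ F(x) - d r`. Use S_TLOC. -/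
def S_TOPS : Prop :=
  ∀ (M : Type) [CommRing M] [LinearOrder M] [IsStrictOrderedRing M], Alg M →
    TFun (fun x : M => x) ∧ (∀ a : M, TFun (fun _ : M => a)) ∧ ∀ f g : M → M, TFun f → TFun g →
      TFun (fun x => f x + g x) ∧ TFun (fun x => f x - g x) ∧ TFun (fun x => f x * g x) ∧
      TSet {x | f x ≤ g x} ∧ TSet {x | f x = g x} ∧ TSet {x | f x ∣ g x} ∧
      TFun (fun x => gcdM (f x) (g x)) ∧ TFun (fun x => quoM (f x) (g x)) ∧
      (∀ n : ℕ, 0 < n → TFun (fun x => floM (f x) n)) ∧
      ∀ (S : Set M), TSet S → ∀ h : M → M, (∀ x ∈ S, h x = f x) → (∀ x, x ∉ S → h x = g x) → TFun h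

def M_TOPS : Prop := S_TLOC → S_TBOOL → S_TDVD → S_GCD → S_TPOL → S_TOPS

/-- Terms are tame functions, formulas are tame sets (structural induction), and induction follows from
least elements for the complement. -/
def S_TTERM : Prop :=
  ∀ (M : Type) [CommRing M] [LinearOrder M] [IsStrictOrderedRing M], Alg M →
    (∀ t : Tm M, TFun (fun x => t.val x)) ∧ OpenInduction M

def M_TTERM : Prop := S_TBOOL → S_TLNP → S_TOPS → S_TTERM

end OID
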