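import Pool.Agent.OID.Stmts1

/-!
# Statements of the modules, part 2: standard elements and windows
-/

namespace OID

open Polynomial

section

variable {M : Type} [CommRing M] [LinearOrder M]

/-- Standard elements. -/
def Std (x : M) : Prop := ∃ k : ℕ, |x| ≤ k

end

/-- Windows. If `q.2` divides `x + D i - q.1` and `x + D i' - q.1` then it divides `D (i - i')`, which is standard, so
`i = i'` (if `e * c ≠ 0` then `|e| ≤ |e c|` by `disc`). So there is at most one bad `i` for each line
`j` and each `q ∈ Q`. -/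
def S_WIN : Prop :=
  ∀ (M : Type) [CommRing M] [LinearOrder M] [IsStrictOrderedRing M], Alg M →
    ∀ (Q : Finset (M × M)), (∀ q ∈ Q, ¬ Std q.2) → ∀ (k : ℕ) (x D : Fin k → M),
      (∀ j, Std (D j) ∧ D j ≠ 0) →
      ∃ bad : Finset ℕ, bad.card ≤ k * Q.card ∧
        ∀ i : ℕ, i ∉ bad → ∀ j, ∀ q ∈ Q, ¬ q.2 ∣ x j + D j * i - q.1

end OID
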