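import Pool.Agent.OID.Stmts1

/-!
# Statements of the modules, part 3: the construction of the ring

The ambient ring is `F = ℝ* × ∏ ℚ_p`; `x.1` is the component in the hyperreals, `x.2 p` the
`p`-adic component.
-/

namespace OID

open Polynomial

instance fp (p : Nat.Primes) : Fact (p : ℕ).Prime := ⟨p.2⟩

/-- The ring `ℝ* × ∏ ℚ_p`. -/
abbrev F : Type := ℝ* × (∀ p : Nat.Primes, ℚ_[(p : ℕ)])

/-- The infinite hyperreal `ω`. -/
noncomputable abbrev Om : ℝ* := Hyperreal.omega

/-- Infinite hyperreals. -/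
def Inf (x : ℝ*) : Prop := ∀ n : ℕ, (n : ℝ*) < |x|

/-- Every nonzero element of `A` has nonzero `p`-adic components, and almost all of them are units. -/
def Nz (A : Set F) : Prop := ∀ a ∈ A, a ≠ 0 → (∀ p, a.2 p ≠ 0) ∧ {p | ‖a.2 p‖ ≠ 1}.Finite

/-- The primes of `A`. -/
def Pr (A : Subalgebra ℚ F) (q : F) : Prop := ∃ h : q ∈ A, Prime (⟨q, h⟩ : A)

/-- The normal primes of `A`: all `p`-adic components are units. -/
def NPr (A : Subalgebra ℚ F) (q : F) : Prop := Pr A q ∧ ∀ p, ‖q.2 p‖ = 1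

/-- The hypothesis on `P`. -/
def HP (P : F) : Prop := P.1 = Om ∧ ∀ p, ‖P.2 p‖ = 1

/-- Good rings. -/
structure Good (P : F) (A : Subalgebra ℚ F) : Prop where
  cnt : (A : Set F).Countable
  nz : Nz A
  inf : ∀ a ∈ A, Inf a.1 ∨ ∃ r : ℚ, a = algebraMap ℚ F r
  fac : ∀ a ∈ A, a ≠ 0 →
    ∃ (s : Multiset F) (r : ℚ), (∀ q ∈ s, NPr A q) ∧ a = algebraMap ℚ F r * s.prod
  bd : ∀ a ∈ A, ∃ k : ℕ, |a.1| < Om ^ k
  pr : Pr A P

/-- Extensions of good rings. -/
structure Ext (A A' : Subalgebra ℚ F) : Prop where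
  le : A ≤ A'
  dvd : ∀ a ∈ A, ∀ b ∈ A, ∀ c ∈ A', a ≠ 0 → a * c = b → c ∈ A
  pr : ∀ q, NPr A q → NPr A' q ∨ (Om < |q.1| ∧
    ∃ (s : Multiset F) (r : ℚ), q = algebraMap ℚ F r * s.prod ∧ ∀ w ∈ s, NPr A' w ∧ w.1 ^ 2 ≤ 4 * |q.1|)

/-- The component in the hyperreals, as a ring homomorphism. -/
noncomputable def toR (A : Subalgebra ℚ F) : A →+* ℝ* :=
  (RingHom.fst ℝ* (∀ p : Nat.Primes, ℚ_[(p : ℕ)])).comp (algebraMap A F)

/-- The ring `A[y][1 / q(y)]` as a subring of `F`. -/
noncomputable def chart (A : Subalgebra ℚ F) (y : F) (q : A[X]) : Subalgebra ℚ F where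
  carrier := {r | ∃ (m : ℕ) (g : A[X]), aeval y q ^ m * r = aeval y g}
  mul_mem' := by
    rintro r r' ⟨m, g, h⟩ ⟨m', g', h'⟩
    exact ⟨m + m', g * g', by rw [map_mul, ← h, ← h']; ring⟩
  add_mem' := by
    rintro r r' ⟨m, g, h⟩ ⟨m', g', h'⟩
    exact ⟨m + m', q ^ m' * g + q ^ m * g', by
      rw [map_add, map_mul, map_mul, map_pow, map_pow, ← h, ← h']; ring⟩
  algebraMap_mem' := by
    intro r
    refine ⟨0, C (algebraMap ℚ A r), ?_⟩
    rw [pow_zero, one_mul, aeval_C]
    rfl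

/-! ### Tools -/

/-- Intermediate values for polynomials over the hyperreals. Choose sequences representing `a`, `b` and
the coefficients of `g` (finitely many, up to the degree); for almost all indices the real polynomial satisfies the
hypotheses; choose the real zeros. -/
def S_IVT : Prop :=
  ∀ (g : ℝ*[X]) (a b : ℝ*), a ≤ b → g.eval a ≤ 0 → 0 ≤ g.eval b →
    ∃ c, a ≤ c ∧ c ≤ b ∧ g.eval c = 0

/-- Generic real numbers. If `G` has an infinite coefficient then `G(θ)` is infinite for all but at most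
`deg G` real numbers `θ`: if `G(θ i)` is finite (`|·| ≤ n`) for `i = 0, …, deg G`, by Lagrange interpolation
(`Lagrange.eq_interpolate`) with the nodes `θ i` the coefficients of `G` are sums of products of real numbers and
finite numbers, so they are finite. The exceptions for all `G` together are countable. -/
def S_RL : Prop :=
  ∀ 𝒢 : Set ℝ*[X], 𝒢.Countable → (∀ G ∈ 𝒢, ∃ n, Inf (G.coeff n)) →
    ∃ θ : ℝ, 1 / 2 < θ ∧ θ < 1 ∧ ∀ G ∈ 𝒢, Inf (G.eval (θ : ℝ*))

/-- Generic `p`-adic units. The `p`-component of `aeval (x, y) g` is the value at `y p` of the image `g_p` of `g` in the polynomials over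
`ℚ_[p]`. Enumerate the nonzero polynomials over `A` as `g 0, g 1, …`. For every `p` let `m` be the largest number `≤ p` such that the
sum of the degrees of `g 0, …, g (m - 1)` is `< p - 1`; for fixed `i`, `i < m` for almost all `p`. Choose the residue class of `y p`
(not `0`) outside the roots of the reductions modulo `p` of those `g i`, `i < m`, all of whose coefficients are integral at `p` with at least one
of them a unit; inside the residue class (an open ball) choose `y p` outside of the countable set of the zeros of all the `g_p`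
(`Set.Countable.dense_compl`). For fixed `g i` almost all `p` are such that all nonzero coefficients are units and `i < m`. -/
def S_AD : Prop :=
  ∀ A : Subalgebra ℚ F, (A : Set F).Countable → Nz A →
    ∃ y : ∀ p : Nat.Primes, ℚ_[(p : ℕ)], (∀ p, ‖y p‖ = 1) ∧ ∀ g : A[X], g ≠ 0 → ∀ x : ℝ*,
      (∀ p, (aeval ((x, y) : F) g).2 p ≠ 0) ∧ {p | ‖(aeval ((x, y) : F) g).2 p‖ ≠ 1}.Finite

/-- Nagata's criterion. Use `UniqueFactorizationMonoid.of_exists_prime_factors`. For a prime `π` of `B` that is not associated to `q` let `π'` be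
`i π` divided by the largest power `(i q) ^ e` that divides it in `R` (it exists by the last hypothesis). Then `π'` is prime in `R`: if `π' c = a b` in `R`, multiply
by powers of `i q` to get elements of `B`; `π` divides their product and not `q`, so it divides (say) `q ^ m a` in `B`; so `(i q) ^ m a = (i q) ^ e π' w`
in `R`, and as `i q` is prime in `R` and does not divide `π'`, `(i q) ^ m` divides `(i q) ^ e w`, hence `π' ∣ a`. It is not a unit: otherwise `(i q) ^ e = unit * i π`,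
multiply by a power of `i q` to get that `π` divides a power of `q` in `B`. A nonzero `r ∈ R`: `(i q) ^ m r = i b`, factor `b` in `B`:
`(i q) ^ m r = unit * (i q) ^ E * ∏ π'`, and `m ≤ E` as `i q` does not divide `∏ π'`. The last claim is the case `e = 0`. -/
def S_NAG : Prop :=
  ∀ (B R : Type) [CommRing B] [IsDomain B] [UniqueFactorizationMonoid B] [CommRing R] [IsDomain R]
    (i : B →+* R), Function.Injective i → ∀ q : B, Prime q → Prime (i q) →
    (∀ r : R, ∃ (m : ℕ) (b : B), i q ^ m * r = i b) → (∀ r : R, r ≠ 0 → ∃ m : ℕ, ¬ i q ^ m ∣ r) →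
    UniqueFactorizationMonoid R ∧ ∀ π : B, Prime π → ¬ i q ∣ i π → Prime (i π)

/-- Facts on rational numbers in `F` (`algebraMap ℚ F r` has the components `r`). For the last one take for `r` the
product of `p ^ (- v_p)` over the finitely many `p` with `‖a.2 p‖ ≠ 1`, where `‖a.2 p‖ = p ^ (- v_p)`. -/
def S_RAT : Prop :=
  (∀ r : ℚ, (algebraMap ℚ F r).1 = (r : ℝ*) ∧ ∀ p, (algebraMap ℚ F r).2 p = (r : ℚ_[(p : ℕ)])) ∧
  (∀ r : ℚ, (∀ p : Nat.Primes, ‖(r : ℚ_[(p : ℕ)])‖ ≤ 1) → ∃ z : ℤ, r = z) ∧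
  (∀ r : ℚ, (∀ p : Nat.Primes, ‖(r : ℚ_[(p : ℕ)])‖ = 1) → r = 1 ∨ r = -1) ∧
  ∀ a : F, (∀ p, a.2 p ≠ 0) → {p | ‖a.2 p‖ ≠ 1}.Finite →
    ∃ r : ℚ, 0 < r ∧ ∀ p, ‖(algebraMap ℚ F r * a).2 p‖ = 1

/-- Good rings and Mathlib. (1) `A` is a domain (`a.1 ≠ 0` for `a ≠ 0` by `inf`), a UFD
(`UniqueFactorizationMonoid.of_exists_prime_factors`), its nonzero elements are units of `F` and its units are rational
(if `a b = 1` and `a` is not rational then `|b.1|` is smaller than all `1 / n`, so `b` is rational by `inf`, a contradiction).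
(2) conversely, in a UFD `A` every nonzero element is a unit times a product of primes; the units are rational as before and
every prime is a rational multiple of a normal prime (S_RAT). (3) primes of an extension that are in `A` are primes of `A`: they are
irreducible in `A`, since units of the extension are rational. -/
def S_CONV : Prop :=
  (∀ (P : F) (A : Subalgebra ℚ F), Good P A → IsDomain A ∧ UniqueFactorizationMonoid A ∧
    (∀ a ∈ A, a ≠ 0 → IsUnit a) ∧ ∀ a ∈ A, ∀ b ∈ A, a * b = 1 → ∃ r : ℚ, r ≠ 0 ∧ a = algebraMap ℚ F r) ∧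
  (∀ A : Subalgebra ℚ F, Nz A → (∀ a ∈ A, Inf a.1 ∨ ∃ r : ℚ, a = algebraMap ℚ F r) →
    UniqueFactorizationMonoid A → ∀ a ∈ A, a ≠ 0 →
    ∃ (s : Multiset F) (r : ℚ), (∀ q ∈ s, NPr A q) ∧ a = algebraMap ℚ F r * s.prod) ∧
  ∀ (P : F) (A A' : Subalgebra ℚ F), Good P A → Good P A' → Ext A A' → ∀ q ∈ A, Pr A' q → Pr A q

def M_CONV : Prop := S_RAT → S_CONV

/-- Prime elements of `A` in a chart. `aeval z` is injective (`F` is nontrivial and values of nonzero polynomials are units). `C p₀` is prime in `A[X]`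
(`Polynomial.prime_C_iff`). If `p₀ s = r r'` in the chart, clear denominators: `C p₀` divides `c ^ k * g * g'`, so it divides `g` (say),
`g = C p₀ * g₁`, and `s' = p₀⁻¹ r` satisfies `c(z) ^ m s' = g₁(z)`. Nonunit: `C p₀` would divide a power of `c`. The second claim: otherwise
`C p₀ ^ n` divides `c ^ k * g`, hence `g ≠ 0`, for all `n` (finite multiplicity of primes in the UFD `A[X]`). -/
def S_CHP : Prop :=
  ∀ (A : Subalgebra ℚ F) [IsDomain A] [UniqueFactorizationMonoid A] (z : F) (c : A[X]) (p₀ : A),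
    (∀ g : A[X], g ≠ 0 → IsUnit (aeval z g)) → Prime p₀ → ¬ C p₀ ∣ c →
    Pr (chart A z c) p₀ ∧ (∀ r ∈ chart A z c, r ≠ 0 → ∃ m : ℕ, ¬ ∃ s ∈ chart A z c, r = (p₀ : F) ^ m * s) ∧
    ∀ π : A, (∃ s ∈ chart A z c, (π : F) = p₀ * s) → p₀ ∣ π

/-- Two charts. Let `R` be the intersection. It is a domain (nonzero elements of charts are units of `F`). For `r ∈ R` and
`s ∈ chart A z c` with `r = q(y) s`, `s ∈ R` (`s = q(y)⁻¹ r` is in the other chart as well). `q(y)` and `p₀` divide each other in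
`chart A z c`, so by S_CHP `q(y)` is prime in `chart A z c`, hence in `R`. Apply S_NAG with `B = A[X]`, `i = aeval y` (its values are in
`R` as `A ≤ R`, `y ∈ R`); finite multiplicity by S_CHP (2). For a prime `π` of `A`, `C π` is prime in
`A[X]`, and `q(y)` does not divide it in `R` by S_CHP (3). -/
def S_CHART : Prop :=
  ∀ (A : Subalgebra ℚ F) [IsDomain A] [UniqueFactorizationMonoid A] (y z : F) (q c : A[X]) (p₀ : A),
    (∀ g : A[X], g ≠ 0 → IsUnit (aeval y g)) → (∀ g : A[X], g ≠ 0 → IsUnit (aeval z g)) →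
    Prime q → Prime p₀ → ¬ C p₀ ∣ c → y ∈ chart A z c →
    (∃ s ∈ chart A z c, aeval y q = p₀ * s) → (∃ s ∈ chart A z c, (p₀ : F) = aeval y q * s) →
    A ≤ chart A y q ⊓ chart A z c ∧ y ∈ chart A y q ⊓ chart A z c ∧
    IsDomain ↥(chart A y q ⊓ chart A z c) ∧ UniqueFactorizationMonoid ↥(chart A y q ⊓ chart A z c) ∧
    Pr (chart A y q ⊓ chart A z c) (aeval y q) ∧
    ∀ π : A, Prime π → ¬ p₀ ∣ π → Pr (chart A y q ⊓ chart A z c) π

def M_CHART : Prop := S_NAG → S_CHP → S_CHART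

/-! ### The steps -/

/-- The first ring. Let `y` be given by S_AD for `⊥`, `P = (ω, y)`, `A = chart ⊥ P 1` (that is `ℚ[P]`, isomorphic to the polynomial
ring `(⊥ : Subalgebra ℚ F)[X]` by S_AD; `⊥` is isomorphic to the field `ℚ`). A nonconstant rational polynomial has an infinite value at `ω`. -/
def S_BASE : Prop := ∃ (P : F) (A : Subalgebra ℚ F), HP P ∧ Good P A

def M_BASE : Prop := S_AD → S_RAT → S_CONV → S_BASE

/-- Adjoining an element near `α`. If there is `a ∈ A` at finite distance from `α` take `A' = A`. Otherwise let `y.1 = α + θ`, `y.2` given by S_AD,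
`θ` by S_RL for the polynomials `taylor α (g.map (toR A))`, `g : A[X]` of degree `d ≥ 1`: the coefficients of index `d` and `d - 1` are
`c_d` and `c_(d - 1) + d c_d α`; if both are finite then `c_d` is rational by `inf` and `- c_(d - 1) / (d c_d) ∈ A` is at finite distance from `α`,
a contradiction. Let `A' = chart A y 1`, isomorphic to `A[X]`. All primes of `A` stay prime. Use S_CONV for `fac`. -/
def S_G : Prop :=
  ∀ (P : F) (A : Subalgebra ℚ F), HP P → Good P A → ∀ α : ℝ*, (∃ k : ℕ, |α| < Om ^ k) →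
    ∃ A', Good P A' ∧ Ext A A' ∧ ∃ a ∈ A', ∃ n : ℕ, |α - a.1| ≤ n

def M_G : Prop := S_RL → S_AD → S_RAT → S_CONV → S_G

/-- Coefficients in step `I`. With `D ≥ m', deg g'`: `y ^ D * g'(z) = ∑ g'_i f ^ i y ^ (D - i)`, so
`f ^ m' X ^ (D - m') g = ∑_(i ≤ D) g'_i f ^ i X ^ (m + D - i)` in `A[X]`; compare the coefficients of index `D - m' + m - j`. -/
def S_I0 : Prop :=
  ∀ (A : Subalgebra ℚ F) [IsDomain A] (y z : F) (f : A), (∀ g : A[X], g ≠ 0 → IsUnit (aeval y g)) →
    f ≠ 0 → y * z = f → ∀ (r : F) (m m' : ℕ) (g g' : A[X]), y ^ m * r = aeval y g →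
    z ^ m' * r = aeval z g' → ∀ j ≤ m, g.coeff (m - j) = g'.coeff (m' + j) * f ^ j

/-- Splitting a normal prime `f` with `|f| > ω`. Let `ρ > 0`, `ρ ^ 2 = |f.1|` (S_IVT), `y.1 = θ ρ`, `y.2` given by S_AD, `z = f / y`, where `θ` is given by S_RL for the polynomials
`∑_k g_k ρ ^ (k - m) T ^ k` (`g : A[X]`, `m : ℕ`; exponents in `ℤ`) that have an infinite coefficient. Values of nonzero polynomials at `y` and at
`z` are units of `F`. Let `A'` be the intersection of `chart A y X` and `chart A z X`. Apply S_CHART with `p₀ = f`, `q = c = X`, and again with `y` and `z`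
exchanged: `y`, `z` are primes of `A'`. `inf`: for `r ∈ A'`, `y ^ m r = g(y)`, `z ^ m' r = g'(z)`; if all `g_k ρ ^ (k - m)` are finite then `g_k = 0` for `k > m` and,
by S_I0, `g_(m - j) ρ ^ (-j) = ± g'_(m' + j) ρ ^ j` is finite, so `g_(m - j) = 0` for `j > 0`; hence `r = g_m ∈ A`. `Ext.dvd`: `a r = b` gives
`C a * g = C b * X ^ m`, so `r = g_m`. `Ext.pr`: a normal prime `q` of `A` divisible by `f` is `± f = ± y z`, `y.1 ^ 2 ≤ |f.1|`, `z.1 ^ 2 ≤ 4 |f.1|`; the others stay prime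
by S_CHART. `f = y z` is not prime in `A'`. -/
def S_I : Prop :=
  ∀ (P : F) (A : Subalgebra ℚ F), HP P → Good P A → ∀ f, NPr A f → Om < |f.1| →
    ∃ A', Good P A' ∧ Ext A A' ∧ ¬ Pr A' f

def M_I : Prop := S_IVT → S_RL → S_AD → S_RAT → S_CONV → S_CHART → S_I0 → S_I

/-- Coefficients in step `F`. Let `e = deg g'`; `p ^ e g'(v) = ∑ g'_i p ^ (e - i) (1 - a u) ^ i`, so
`a ^ m' p ^ e g = p ^ m ∑ g'_i p ^ (e - i) (1 - a X) ^ i` in `A[X]`; the degree of the sum is `e`, so `e = deg g = d`, and the leading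
coefficients give `a ^ m' p ^ d g_d = p ^ m g'_d (-a) ^ d`; as `p` is prime and does not divide `a`, `p ^ m` divides `p ^ d g_d`. -/
def S_F0 : Prop :=
  ∀ (A : Subalgebra ℚ F) [IsDomain A] (u v : F) (p a : A),
    (∀ g : A[X], g ≠ 0 → IsUnit (aeval u g)) → Prime p → ¬ p ∣ a → (a : F) * u + p * v = 1 →
    ∀ (r : F) (m m' : ℕ) (g g' : A[X]), g ≠ 0 → (p : F) ^ m * r = aeval u g →
    (a : F) ^ m' * r = aeval v g' → ∃ h : A, h ≠ 0 ∧ g.leadingCoeff * p ^ g.natDegree = p ^ m * h

/-- Making `p` and `a` comaximal. Let `u.1 = θ p.1 ω`, `u.2` given by S_AD, `v = (1 - a u) / p`, where `θ` is given by S_RL for the polynomials `∑_k g_k p ^ (k - m) ω ^ k T ^ k`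
(`g : A[X]`, `m : ℕ`) that have an infinite coefficient (`p.1` is infinite). Values of nonzero polynomials at `u` and at `v` are units of `F`. Let `A'` be the
intersection of `chart A u (C p)` and `chart A v (C a)`. Apply S_CHART with `q = C p`, `p₀ = p`, `c = C a`. `inf`: for `r ∈ A'`, `r ≠ 0`, `p ^ m r = g(u)`, `d = deg g`: by S_F0 `g_d p ^ (d - m) = h ∈ A`, `h ≠ 0`,
so for `d ≥ 1` the coefficient `h ω ^ d` is infinite, and `r.1 = ∑ g_k p ^ (k - m) ω ^ k θ ^ k` is infinite; for `d = 0` `r = h ∈ A`. `Ext.dvd`: `a₀ r = b` with `a₀, b ∈ A` gives that `p ^ m r` and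
`a ^ m' r` are in `A`, so `p ^ m` divides `p ^ m r` in `A`. All primes of `A` stay prime. -/
def S_F : Prop :=
  ∀ (P : F) (A : Subalgebra ℚ F), HP P → Good P A → ∀ p a, Pr A p → a ∈ A → (¬ ∃ c ∈ A, a = p * c) →
    ∃ A', Good P A' ∧ Ext A A' ∧ ∃ u ∈ A', ∃ v ∈ A', a * u + p * v = 1

def M_F : Prop := S_RL → S_AD → S_RAT → S_CONV → S_CHART → S_F0 → S_F

/-! ### Closing off -/

/-- `Ext` is reflexive and transitive. For `pr`: if `w ^ 2 ≤ 4 |q|` and `v ^ 2 ≤ 4 |w|` then `v ^ 2 ≤ 4 |q|`, as `|w| ≤ |q|` for `|q| > ω`. -/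
def S_TR : Prop :=
  (∀ A, Ext A A) ∧ ∀ A A' A'', Ext A A' → Ext A' A'' → Ext A A''

/-- Unions of chains. `q` in `A n` is a normal prime of the union if it is a normal prime of all `A m`, `m ≥ n`. Claim: if
`q` is a normal prime of `A n` and `q.1 ^ 2 < ω ^ k` then `q` is a normal prime of the union, or `|q.1| > ω` and `q` is a rational number times a product of normal primes `w` of the
union with `w.1 ^ 2 ≤ 4 |q.1|`. Induction on `k`: otherwise `q` is not a normal prime of some `A m`; by `Ext.pr` (S_TR) `|q.1| > ω` (so `k ≥ 3`) and `q` is a rational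
number times a product of normal primes `w` of `A m` with `w.1 ^ 2 ≤ 4 |q.1|`, so `(w.1 ^ 2) ^ 2 ≤ 16 q.1 ^ 2 < 16 ω ^ k` and `w.1 ^ 2 < ω ^ (k - 1)`. -/
def S_UNI : Prop :=
  ∀ P : F, HP P → ∀ A : ℕ → Subalgebra ℚ F, (∀ n, Good P (A n)) → (∀ n, Ext (A n) (A (n + 1))) →
    ∃ A', Good P A' ∧ (∀ n, Ext (A n) A') ∧ ∀ x, x ∈ A' ↔ ∃ n, x ∈ A n

def M_UNI : Prop := S_TR → S_UNI

/-- Countably many requirements. Treat them one after the other and take the union. -/
def S_REQ : Prop :=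
  ∀ P : F, HP P → ∀ A₀, Good P A₀ → ∀ T : ℕ → Subalgebra ℚ F → Prop,
    (∀ i A A', Good P A → Good P A' → Ext A₀ A → Ext A A' → T i A → T i A') →
    (∀ i A, Good P A → Ext A₀ A → ∃ A', Good P A' ∧ Ext A A' ∧ T i A') →
    ∃ A', Good P A' ∧ Ext A₀ A' ∧ ∀ i, T i A'

def M_REQ : Prop := S_TR → S_UNI → S_REQ

/-- The properties of the final ring. -/
structure Fin' (P : F) (A : Subalgebra ℚ F) : Prop where
  good : Good P A
  small : ∀ q, NPr A q → |q.1| ≤ Om
  comax : ∀ p a, Pr A p → a ∈ A → (∃ c ∈ A, a = p * c) ∨ ∃ u ∈ A, ∃ v ∈ A, a * u + p * v = 1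
  near : ∀ g : A[X], g ≠ 0 → ∀ α : ℝ*, (g.map (toR A)).eval α = 0 → ∃ a ∈ A, ∃ n : ℕ, |α - a.1| ≤ n

/-- Closing off. For a good ring `A` consider the requirements: for `f ∈ A`: not `NPr A' f`, or `|f.1| ≤ ω`; for `p, a ∈ A`: not `Pr A' p`, or `p` divides `a` in `A'`, or
`a u + p v = 1` is solvable in `A'`; for a root `α` of a nonzero polynomial over `A`: there is an element of `A'` at finite distance. There are countably many, they are
preserved by extensions (S_CONV, part 3) and can be satisfied by S_I, S_F, S_G (a root `α` satisfies `|α| ≤ 1 + ∑ |c_i / c_d|`, and `|c_d| ≥ 1 / n` for some `n`, so `|α| < ω ^ k` for some `k`). By S_REQ there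
is an extension of `A` satisfying all of them. Iterate (start with S_BASE) and take the union (S_UNI): every requirement of the union is one of
some member of the chain. -/
def S_CLO : Prop := ∃ (P : F) (A : Subalgebra ℚ F), HP P ∧ Fin' P A

def M_CLO : Prop := S_CONV → S_BASE → S_G → S_I → S_F → S_TR → S_UNI → S_REQ → S_CLO

/-! ### The ring `M` -/

/-- The elements of `A` whose `p`-adic components are integral. -/
noncomputable def MM (A : Subalgebra ℚ F) : Subring F where
  carrier := {x | x ∈ A ∧ ∀ p, ‖x.2 p‖ ≤ 1}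
  mul_mem' := by
    rintro x y ⟨hx, hx'⟩ ⟨hy, hy'⟩
    refine ⟨mul_mem hx hy, fun p => ?_⟩
    change ‖x.2 p * y.2 p‖ ≤ 1
    rw [norm_mul]
    exact mul_le_one₀ (hx' p) (norm_nonneg _) (hy' p)
  one_mem' := ⟨one_mem _, fun p => by
    change ‖(1 : ℚ_[(p : ℕ)])‖ ≤ 1
    rw [norm_one]⟩
  add_mem' := by
    rintro x y ⟨hx, hx'⟩ ⟨hy, hy'⟩
    refine ⟨add_mem hx hy, fun p => ?_⟩
    exact (Padic.nonarchimedean _ _).trans (max_le (hx' p) (hy' p))
  zero_mem' := ⟨zero_mem _, fun p => by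
    change ‖(0 : ℚ_[(p : ℕ)])‖ ≤ 1
    rw [norm_zero]
    exact zero_le_one⟩
  neg_mem' := by
    rintro x ⟨hx, hx'⟩
    refine ⟨neg_mem hx, fun p => ?_⟩
    change ‖-(x.2 p)‖ ≤ 1
    rw [norm_neg]
    exact hx' p

/-- Residues. For every prime `p` dividing `N` the element `x.2 p` is congruent to an integer modulo `p ^ (v_p N)`; use the Chinese remainder
theorem. -/
def S_RES : Prop :=
  ∀ x : F, (∀ p, ‖x.2 p‖ ≤ 1) → ∀ N : ℕ, 0 < N →
    ∃ z : ℤ, ∀ p : Nat.Primes, ‖x.2 p - z‖ ≤ ‖(N : ℚ_[(p : ℕ)])‖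

/-- Factorization in `M`. Normal primes `q` of `A` are prime in `MM A` (if `q c = a b` with `a, b ∈ MM A`, `q` divides `a` (say) in `A`, and the
quotient is integral, as the components of `q` are units). Prime numbers `ℓ` are prime in `MM A` (`ℓ ∣ x ↔ ‖x.2 ℓ‖ < 1`). A nonzero `x ∈ MM A` is `r ∏ q` by `fac`, and
`r` is an integer by S_RAT, so `x` is `± 1` times a product of prime numbers and normal primes. A prime of `MM A` is associated to one of these, and
the units of `MM A` are `± 1`. -/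
def S_MUFD : Prop :=
  ∀ (P : F) (A : Subalgebra ℚ F), Good P A →
    IsDomain (MM A) ∧ UniqueFactorizationMonoid (MM A) ∧
    (∀ q : MM A, NPr A q → Prime q) ∧ (∀ l : ℕ, l.Prime → Prime (l : MM A)) ∧
    ∀ q : MM A, Prime q → NPr A q ∨ ∃ l : ℕ, l.Prime ∧ (q = l ∨ q = -l)

def M_MUFD : Prop := S_RAT → S_CONV → S_MUFD

/-- `M` is a PID: `IsPrincipalIdealRing.of_prime_ne_bot`. A nonzero prime ideal contains a prime `q` (`Ideal.IsPrime.exists_mem_prime_of_ne_bot`).
Claim: if `a ∈ MM A` and `q` does not divide `a` in `MM A` then `a u + q v = 1` is solvable in `MM A`. `q = ± ℓ`: `a - z ∈ ℓ MM A` for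
an integer `z` (S_RES), prime to `ℓ`. `q` normal: `q` does not divide `a` in `A`, so `a u + q v = 1` in `A` (`comax`); multiply with a natural number `N > 0` such that `N u, N v ∈ MM A` (by
`Nz` only finitely many components are not integral): `a u' + q v' = N`. By S_RES applied to `1 / q` there is an integer `x` such that `q x - 1 ∈ N MM A`. -/
def S_MPID : Prop :=
  ∀ (P : F) (A : Subalgebra ℚ F), Fin' P A → IsPrincipalIdealRing (MM A)

def M_MPID : Prop := S_RAT → S_CONV → S_RES → S_MUFD → S_MPID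

/-- Integer parts. Let `a ∈ A` be at finite distance from `α` (`near`; consider `g` as a polynomial over `A`). There is `N > 0` with `N a ∈ MM A`, and by S_RES
an integer `z` with `(N a - z) / N ∈ MM A`; this is at finite distance from `α`; add an integer. -/
def S_MINT : Prop :=
  ∀ (P : F) (A : Subalgebra ℚ F), Fin' P A → ∀ g : (MM A)[X], g ≠ 0 → ∀ α : ℝ*,
    (g.map ((RingHom.fst ℝ* (∀ p : Nat.Primes, ℚ_[(p : ℕ)])).comp (MM A).subtype)).eval α = 0 →
    ∃ x ∈ MM A, x.1 ≤ α ∧ α < x.1 + 1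

def M_MINT : Prop := S_RAT → S_CONV → S_RES → S_MINT

/-- The ring, with its embedding into the hyperreals. `M = MM A`, `e x = x.1`, `f x = x.2 p`. (`0 < x.1 < 1`: `x` is
rational by `inf`, an integer by S_RAT.) -/
def S_RING : Prop :=
  ∃ (M : Type) (_ : CommRing M) (e : M →+* ℝ*) (P : M), Function.Injective e ∧
    (∀ x, 0 < e x → 1 ≤ e x) ∧ IsDomain M ∧ IsPrincipalIdealRing M ∧
    (∀ g : M[X], g ≠ 0 → ∀ α, (g.map e).eval α = 0 → ∃ x, e x ≤ α ∧ α < e x + 1) ∧
    (∀ q : M, Prime q → |e q| ≤ Om) ∧ Prime P ∧ e P = Om ∧ (∀ x, ∃ k : ℕ, |e x| < Om ^ k) ∧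
    ∀ (p : ℕ) [Fact p.Prime], ∃ f : M →+* ℤ_[p], Function.Injective f

def M_RING : Prop := S_RAT → S_CONV → S_CLO → S_MUFD → S_MPID → S_MINT → S_RING

/-- The order. Order `M` by `x ≤ y ↔ e x ≤ e y` (`LinearOrder.lift'`). `Alg.roots`: for `g ≠ 0` let `B` be the set of the `x`, `x + 1`, where `x` is the integer
part of a root of `g.map e`; if `x < y` have the same position relative to `B` then no root is in `[e x, e y]`, so by
S_IVT the sign does not change. `IsPr y` implies that `y` is irreducible, hence prime; units are `± 1`. -/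
def S_ALG : Prop :=
  ∃ (M : Type) (_ : CommRing M) (_ : LinearOrder M) (_ : IsStrictOrderedRing M), Alg M ∧
    (∃ e : M →+* ℝ*, StrictMono e) ∧
    (∀ (p : ℕ) [Fact p.Prime], ∃ f : M →+* ℤ_[p], Function.Injective f) ∧
    ∃ P : M, (∀ n : ℕ, (n : M) < P) ∧ IsPr P ∧ (∀ y, IsPr y → y ≤ P) ∧ ∀ x : M, ∃ k : ℕ, x < P ^ k

def M_ALG : Prop := S_IVT → S_RING → S_ALG

/-- The theorem (`Alg` gives the rest; `ModelQ` is elementary, `disc` gives predecessors). -/
def M_MAIN : Prop := S_TTERM →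
  (∀ (M : Type) [CommRing M] [LinearOrder M] [IsStrictOrderedRing M], Alg M → Pigeonhole M) →
    S_ALG → MainStatement

end OID
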