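import Pool.Agent.OID.Stmts1

/-!
# TDVD: the set of the `x` with `d ∣ g(x)` is tame
-/

namespace OID

open Polynomial

namespace TDVD

variable {M : Type} [CommRing M]

theorem map_eq_zero_iff' (p : M) (g : M[X]) :
    g.map (Ideal.Quotient.mk (Ideal.span {p})) = 0 ↔ C p ∣ g := by
  rw [Polynomial.C_dvd_iff_dvd_coeff, Polynomial.ext_iff]
  refine forall_congr' fun n => ?_
  rw [coeff_map, coeff_zero, Ideal.Quotient.eq_zero_iff_dvd]

theorem comp_dvd (p c : M) (g : M[X])
    (h : (g.map (Ideal.Quotient.mk (Ideal.span {p}))).eval (Ideal.Quotient.mk (Ideal.span {p}) c) = 0) :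
    C p ∣ g.comp (C c + C p * X) := by
  rw [← map_eq_zero_iff', Polynomial.map_comp]
  have h0 : Ideal.Quotient.mk (Ideal.span {p}) p = 0 := by
    rw [Ideal.Quotient.eq_zero_iff_dvd]
  rw [Polynomial.map_add, Polynomial.map_mul, map_C, map_C, map_X, h0, C_0, zero_mul, add_zero,
    comp_C, h, C_0]

end TDVD

theorem t_TDVD : M_TDVD := by
  intro hB M _ _ _ hM d
  have := hM.pid
  induction d using UniqueFactorizationMonoid.induction_on_prime with
  | h₁ => intro g h; exact absurd rfl h
  | h₂ x hx =>
    intro g _
    have h1 : {y : M | x ∣ g.eval y} = Set.univ := Set.eq_univ_of_forall fun y => hx.dvd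
    rw [h1]
    exact (hB M).2.2.2.2.1
  | h₃ a p ha hp ih =>
    intro g _
    by_cases hg : C p ∣ g
    · obtain ⟨g', rfl⟩ := hg
      have h1 : {x : M | p * a ∣ (C p * g').eval x} = {x : M | a ∣ g'.eval x} := by
        ext x
        change p * a ∣ (C p * g').eval x ↔ a ∣ g'.eval x
        rw [eval_mul, eval_C]
        exact mul_dvd_mul_iff_left hp.ne_zero
      rw [h1]
      exact ih g' ha
    · have hI : (Ideal.span {p} : Ideal M).IsPrime := (Ideal.span_singleton_prime hp.ne_zero).2 hp
      have hne : g.map (Ideal.Quotient.mk (Ideal.span {p})) ≠ 0 :=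
        fun h => hg ((TDVD.map_eq_zero_iff' p g).1 h)
      classical
      set R := (g.map (Ideal.Quotient.mk (Ideal.span {p}))).roots.toFinset with hR
      have hc : ∀ r : M ⧸ (Ideal.span {p} : Ideal M), ∃ c : M, Ideal.Quotient.mk _ c = r :=
        fun r => Ideal.Quotient.mk_surjective r
      choose c hc using hc
      have hq : ∀ r : M ⧸ (Ideal.span {p} : Ideal M), ∃ q : M[X], r ∈ R →
          g.comp (C (c r) + C p * X) = C p * q := by
        intro r
        by_cases hr : r ∈ R
        · rw [hR, Multiset.mem_toFinset, mem_roots hne, IsRoot.def] at hr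
          obtain ⟨q, hq⟩ := TDVD.comp_dvd p (c r) g (by rw [hc]; exact hr)
          exact ⟨q, fun _ => hq⟩
        · exact ⟨0, fun h => absurd h hr⟩
      choose q hq using hq
      have h1 : {x : M | p * a ∣ g.eval x} =
          ⋃ r ∈ R, {x : M | ∃ w ∈ {w : M | a ∣ (q r).eval w}, x = c r + p * w} := by
        ext x
        simp only [Set.mem_iUnion, Set.mem_setOf_eq, exists_prop]
        have hev : ∀ r ∈ R, ∀ w : M, g.eval (c r + p * w) = p * (q r).eval w := by
          intro r hr w
          have h2 := congrArg (Polynomial.eval w) (hq r hr)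
          rw [eval_comp] at h2
          simpa using h2
        constructor
        · intro h
          have h2 : p ∣ g.eval x := dvd_trans (dvd_mul_right p a) h
          have h3 : Ideal.Quotient.mk (Ideal.span {p}) x ∈ R := by
            rw [hR, Multiset.mem_toFinset, mem_roots hne, IsRoot.def, eval_map, eval₂_hom,
              Ideal.Quotient.eq_zero_iff_dvd]
            exact h2
          refine ⟨_, h3, ?_⟩
          have h4 : p ∣ x - c (Ideal.Quotient.mk (Ideal.span {p}) x) := by
            rw [← Ideal.Quotient.eq_zero_iff_dvd, map_sub, hc, sub_self]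
          obtain ⟨w, hw⟩ := h4
          refine ⟨w, ?_, by rw [← hw]; ring⟩
          have h5 : x = c (Ideal.Quotient.mk (Ideal.span {p}) x) + p * w := by rw [← hw]; ring
          have h6 := hev _ h3 w
          rw [← h5] at h6
          rw [h6] at h
          exact (mul_dvd_mul_iff_left hp.ne_zero).1 h
        · rintro ⟨r, hr, w, hw, rfl⟩
          rw [hev r hr w]
          exact mul_dvd_mul_left p hw
      rw [h1]
      refine (hB M).2.2.2.2.2.2.2.2.2.1 _ R _ fun r hr => ?_
      exact (hB M).2.2.2.2.2.2.2.2.2.2.2 _ _ _ hp.ne_zero (ih (q r) ha)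

end OID
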