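import Pool.Agent.OID.Stmts1

/-!
# OID, module TLNP: nonempty tame sets of nonnegative elements have least elements
-/

set_option autoImplicit false

namespace OID

namespace TLNP

section

variable {M : Type} [CommRing M] [LinearOrder M] [IsStrictOrderedRing M]

/-- Elements between `0` and a natural number are natural numbers. -/
theorem nat_of_lt (disc : ∀ x : M, 0 < x → 1 ≤ x) :
    ∀ (D : ℕ) (r : M), 0 ≤ r → r < (D : M) → ∃ j : ℕ, j < D ∧ r = j := by
  intro D
  induction D with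
  | zero =>
    intro r h0 h1
    rw [Nat.cast_zero] at h1
    exact absurd h0 (not_le.2 h1)
  | succ D ih =>
    intro r h0 h1
    rcases h0.eq_or_lt with h | h
    · exact ⟨0, Nat.succ_pos D, by rw [← h, Nat.cast_zero]⟩
    · have h2 := disc r h
      obtain ⟨j, hj, hr⟩ := ih (r - 1) (sub_nonneg.2 h2) (by push_cast at h1; linarith)
      exact ⟨j + 1, Nat.succ_lt_succ hj, by push_cast; rw [← hr]; ring⟩

/-- The least element of a residue class above `L` outside finitely many residue classes. -/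
theorem core (disc : ∀ x : M, 0 < x → 1 ≤ x)
    (div : ∀ x e : M, 0 < e → ∃ q r : M, x = e * q + r ∧ 0 ≤ r ∧ r < e)
    (E L x₀ : M) (hE : 0 < E) (Q : Finset (M × M))
    (hQ : ∀ q ∈ Q, ¬ q.2 ∣ x₀ - q.1) :
    ∃ y : M, L ≤ y ∧ E ∣ y - x₀ ∧ (∀ q ∈ Q, ¬ q.2 ∣ y - q.1) ∧
      ∀ z : M, L ≤ z → E ∣ z - x₀ → (∀ q ∈ Q, ¬ q.2 ∣ z - q.1) → y ≤ z := by
  classical
  obtain ⟨w, r, hwr, hr0, hr1⟩ := div (x₀ - L) E hE
  have hy : ∀ z : M, L ≤ z → E ∣ z - x₀ → ∃ u : M, 0 ≤ u ∧ z = L + r + E * u := by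
    intro z hz hd
    obtain ⟨c, hc⟩ := hd
    refine ⟨w + c, ?_, ?_⟩
    · by_contra hn
      have h1 : w + c < 0 := not_le.1 hn
      have h2 := disc (-(w + c)) (by linarith)
      have h3 : E * (w + c) ≤ E * (-1) := mul_le_mul_of_nonneg_left (by linarith) hE.le
      have h4 : z = L + r + E * (w + c) := by
        have : z = x₀ + E * c := by rw [← hc]; ring
        rw [this]
        have h5 : x₀ = L + E * w + r := by linarith
        rw [h5]
        ring
      linarith
    · have h5 : x₀ = L + E * w + r := by linarith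
      have : z = x₀ + E * c := by rw [← hc]; ring
      rw [this, h5]
      ring
  have hx0 : x₀ = L + r + E * w := by linarith
  -- some element at a standard distance is good
  have hex : ∃ j : ℕ, ∀ q ∈ Q, ¬ q.2 ∣ (L + r + E * j) - q.1 := by
    let dq : M × M → ℕ := fun q =>
      if h : ∃ k : ℕ, 0 < k ∧ q.2 ∣ E * k then h.choose else 1
    have hdq : ∀ q, 0 < dq q := by
      intro q
      by_cases h : ∃ k : ℕ, 0 < k ∧ q.2 ∣ E * k
      · have : dq q = h.choose := dif_pos h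
        rw [this]
        exact h.choose_spec.1
      · have : dq q = 1 := dif_neg h
        rw [this]
        exact Nat.one_pos
    have hdq2 : ∀ q, (∃ k : ℕ, 0 < k ∧ q.2 ∣ E * k) → q.2 ∣ E * (dq q : M) := by
      intro q h
      have : dq q = h.choose := dif_pos h
      rw [this]
      exact h.choose_spec.2
    let D : ℕ := ∏ q ∈ Q, dq q
    have hD : 0 < D := Finset.prod_pos fun q _ => hdq q
    obtain ⟨t, s, hts, hs0, hs1⟩ := div w (D : M) (by exact_mod_cast hD)
    obtain ⟨j₀, -, hj₀⟩ := nat_of_lt disc D s hs0 hs1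
    by_contra hno
    push Not at hno
    have hch : ∀ i : ℕ, ∃ q ∈ Q, q.2 ∣ (L + r + E * ((j₀ + D * i : ℕ) : M)) - q.1 :=
      fun i => hno (j₀ + D * i)
    choose f hfQ hfd using hch
    obtain ⟨i, i', hne, hii⟩ := Finite.exists_ne_map_eq_of_infinite
      (fun i : ℕ => (⟨f i, hfQ i⟩ : {q // q ∈ Q}))
    have hff : f i = f i' := congrArg Subtype.val hii
    -- the step
    have key : ∀ i i' : ℕ, i < i' → f i = f i' → False := by
      intro i i' hlt hf
      have h1 := hfd i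
      have h2 := hfd i'
      rw [← hf] at h2
      have h3 := dvd_sub h2 h1
      have h4 : (L + r + E * ((j₀ + D * i' : ℕ) : M)) - (f i).1 -
          ((L + r + E * ((j₀ + D * i : ℕ) : M)) - (f i).1) = E * ((D * (i' - i) : ℕ) : M) := by
        have : (i' : ℕ) = i + (i' - i) := by omega
        obtain ⟨e, he⟩ : ∃ e, e = i' - i := ⟨_, rfl⟩
        rw [← he] at this ⊢
        rw [this]
        push_cast
        ring
      rw [h4] at h3
      have h5 : ∃ k : ℕ, 0 < k ∧ (f i).2 ∣ E * k :=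
        ⟨D * (i' - i), Nat.mul_pos hD (by omega), h3⟩
      have h6 : (f i).2 ∣ E * (D : M) := by
        have hdvd : dq (f i) ∣ D := Finset.dvd_prod_of_mem dq (hfQ i)
        obtain ⟨g, hg⟩ := hdvd
        have : E * (D : M) = E * (dq (f i) : M) * g := by
          rw [hg]
          push_cast
          ring
        rw [this]
        exact (hdq2 _ h5).mul_right g
      apply hQ (f i) (hfQ i)
      have h7 : x₀ - (f i).1 = ((L + r + E * ((j₀ + D * i : ℕ) : M)) - (f i).1) +
          E * (D : M) * (t - i) := by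
        rw [hx0, hts, hj₀]
        push_cast
        ring
      rw [h7]
      exact dvd_add h1 (h6.mul_right _)
    rcases lt_or_gt_of_ne hne with h | h
    · exact key i i' h hff
    · exact key i' i h hff.symm
  refine ⟨L + r + E * (Nat.find hex : ℕ), ?_, ?_, Nat.find_spec hex, ?_⟩
  · have : 0 ≤ E * ((Nat.find hex : ℕ) : M) := mul_nonneg hE.le (Nat.cast_nonneg _)
    linarith
  · refine ⟨(Nat.find hex : ℕ) - w, ?_⟩
    rw [hx0]
    ring
  · intro z hz hd hq
    obtain ⟨u, hu0, hu⟩ := hy z hz hd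
    by_contra hlt
    rw [not_le] at hlt
    have h1 : u < ((Nat.find hex : ℕ) : M) := by
      rw [hu] at hlt
      have h2 : E * u < E * ((Nat.find hex : ℕ) : M) := by linarith
      exact lt_of_mul_lt_mul_left h2 hE.le
    obtain ⟨j, hj, huj⟩ := nat_of_lt disc _ u hu0 h1
    apply Nat.find_min hex hj
    rw [← huj, ← hu]
    exact hq

theorem same_refl (B : Finset M) (Q : Finset (M × M)) (x : M) : Same B Q x x :=
  ⟨fun _ _ => ⟨Iff.rfl, Iff.rfl⟩, fun _ _ => Iff.rfl⟩

theorem same_symm {B : Finset M} {Q : Finset (M × M)} {x y : M} (h : Same B Q x y) :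
    Same B Q y x :=
  ⟨fun b hb => ⟨(h.1 b hb).1.symm, (h.1 b hb).2.symm⟩, fun q hq => (h.2 q hq).symm⟩

theorem same_trans {B : Finset M} {Q : Finset (M × M)} {x y z : M} (h : Same B Q x y)
    (h' : Same B Q y z) : Same B Q x z :=
  ⟨fun b hb => ⟨(h.1 b hb).1.trans (h'.1 b hb).1, (h.1 b hb).2.trans (h'.1 b hb).2⟩,
    fun q hq => (h.2 q hq).trans (h'.2 q hq)⟩

/-- Every class of nonnegative elements has a least element. -/
theorem least_class (hA : Alg M)
    (div : ∀ x e : M, 0 < e → ∃ q r : M, x = e * q + r ∧ 0 ≤ r ∧ r < e)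
    (B : Finset M) (Q : Finset (M × M)) (hNZ : NZ Q) (h0 : (0 : M) ∈ B) (x₀ : M) (hx : 0 ≤ x₀) :
    ∃ y, Same B Q x₀ y ∧ ∀ z, Same B Q x₀ z → y ≤ z := by
  classical
  by_cases hB : x₀ ∈ B
  · refine ⟨x₀, same_refl B Q x₀, fun z hz => ?_⟩
    by_contra h
    exact lt_irrefl x₀ ((hz.1 x₀ hB).1.2 (not_le.1 h))
  · have hx1 : 0 < x₀ := lt_of_le_of_ne hx fun h => hB (h ▸ h0)
    -- the lower bound
    obtain ⟨b₀, hb₀, hmax⟩ := (B.filter fun b => b < x₀).exists_max_image id
      ⟨0, Finset.mem_filter.2 ⟨h0, hx1⟩⟩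
    rw [Finset.mem_filter] at hb₀
    -- the generator of the intersection
    have hprin := hA.pid
    let Qp := Q.filter fun q => q.2 ∣ x₀ - q.1
    let Qm := Q.filter fun q => ¬ q.2 ∣ x₀ - q.1
    let I : Ideal M := ⨅ q ∈ Qp, Ideal.span {q.2}
    have hI : ∀ h : M, h ∈ I ↔ ∀ q ∈ Qp, q.2 ∣ h := by
      intro h
      simp only [I, Submodule.mem_iInf, Ideal.mem_span_singleton]
    obtain ⟨a, ha⟩ := (hprin.principal I).principal
    have hIa : ∀ h : M, h ∈ I ↔ a ∣ h := by
      intro h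
      rw [ha]
      exact Ideal.mem_span_singleton
    have ha0 : a ≠ 0 := by
      intro h
      have h1 : (∏ q ∈ Qp, q.2) ∈ I := by
        rw [hI]
        intro q hq
        exact Finset.dvd_prod_of_mem _ hq
      rw [hIa, h, zero_dvd_iff] at h1
      obtain ⟨q, hq, hq0⟩ := Finset.prod_eq_zero_iff.1 h1
      exact hNZ q (Finset.mem_filter.1 hq).1 hq0
    obtain ⟨y, hy1, hy2, hy3, hy4⟩ := core hA.disc div |a| (b₀ + 1) x₀ (abs_pos.2 ha0) Qm (fun q hq => (Finset.mem_filter.1 hq).2)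
    have habs : ∀ h : M, |a| ∣ h ↔ ∀ q ∈ Qp, q.2 ∣ h := by
      intro h
      rw [abs_dvd, ← hIa, hI]
    have hyx : y ≤ x₀ := hy4 x₀ (by
        have := hA.disc (x₀ - b₀) (sub_pos.2 hb₀.2)
        linarith) (by rw [sub_self]; exact dvd_zero _) fun q hq => (Finset.mem_filter.1 hq).2
    refine ⟨y, ⟨?_, ?_⟩, ?_⟩
    · intro b hb
      refine ⟨⟨fun h => lt_of_le_of_lt hyx h, fun h => ?_⟩, ⟨fun h => ?_, fun h =>
        lt_of_lt_of_le h hyx⟩⟩
      · rcases lt_trichotomy b x₀ with h1 | h1 | h1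
        · have h2 : b ≤ b₀ := hmax b (Finset.mem_filter.2 ⟨hb, h1⟩)
          linarith
        · exact absurd (h1 ▸ hb) hB
        · exact h1
      · have h2 : b ≤ b₀ := hmax b (Finset.mem_filter.2 ⟨hb, h⟩)
        linarith
    · intro q hq
      by_cases hd : q.2 ∣ x₀ - q.1
      · have h1 := (habs _).1 hy2 q (Finset.mem_filter.2 ⟨hq, hd⟩)
        refine ⟨fun _ => ?_, fun _ => hd⟩
        have : y - q.1 = (y - x₀) + (x₀ - q.1) := by ring
        rw [this]
        exact dvd_add h1 hd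
      · exact ⟨fun h => absurd h hd, fun h => absurd h (hy3 q (Finset.mem_filter.2 ⟨hq, hd⟩))⟩
    · intro z hz
      refine hy4 z ?_ ?_ ?_
      · have h1 : b₀ < z := (hz.1 b₀ hb₀.1).2.1 hb₀.2
        have := hA.disc (z - b₀) (sub_pos.2 h1)
        linarith
      · rw [habs]
        intro q hq
        rw [Finset.mem_filter] at hq
        have h1 := (hz.2 q hq.1).1 hq.2
        have : z - x₀ = (z - q.1) - (x₀ - q.1) := by ring
        rw [this]
        exact dvd_sub h1 hq.2
      · intro q hq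
        rw [Finset.mem_filter] at hq
        exact fun h => hq.2 ((hz.2 q hq.1).2 h)

/-- The class of an element. -/
def sg (B : Finset M) (Q : Finset (M × M)) (x : M) :
    ({b // b ∈ B} → Prop × Prop) × ({q // q ∈ Q} → Prop) :=
  (fun b => (x < b.1, b.1 < x), fun q => q.1.2 ∣ x - q.1.1)

theorem sg_eq {B : Finset M} {Q : Finset (M × M)} {x y : M} (h : sg B Q x = sg B Q y) :
    Same B Q x y := by
  have h1 := congrArg Prod.fst h
  have h2 := congrArg Prod.snd h
  refine ⟨fun b hb => ?_, fun q hq => ?_⟩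
  · have h3 := congrFun h1 ⟨b, hb⟩
    exact ⟨Eq.to_iff (congrArg Prod.fst h3), Eq.to_iff (congrArg Prod.snd h3)⟩
  · exact Eq.to_iff (congrFun h2 ⟨q, hq⟩)

end

end TLNP

open TLNP in
/-- TLNP: least elements of tame sets. -/
theorem t_TLNP : M_TLNP := by
  classical
  intro hdiv M _ _ _ hA S hS hne
  obtain ⟨B₁, Q, hNZ, hB₁⟩ := hS
  let B : Finset M := insert 0 B₁
  have hBS : ∀ x y, Same B Q x y → (x ∈ S ↔ y ∈ S) := fun x y h =>
    hB₁ x y ⟨fun b hb => h.1 b (Finset.mem_insert_of_mem hb), h.2⟩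
  have h0B : (0 : M) ∈ B := Finset.mem_insert_self 0 B₁
  have hpos : ∀ x y, Same B Q x y → 0 ≤ x → 0 ≤ y := by
    intro x y h hx
    by_contra hy
    exact absurd hx (not_le.2 ((h.1 0 h0B).1.2 (not_le.1 hy)))
  have hl : ∀ x : M, 0 ≤ x → ∃ y, Same B Q x y ∧ ∀ z, Same B Q x z → y ≤ z := fun x hx =>
    least_class hA (hdiv M hA) B Q hNZ h0B x hx
  let X : Set M := {m | ∃ x ∈ S, 0 ≤ x ∧ Same B Q x m ∧ ∀ z, Same B Q x z → m ≤ z}
  have hfin : X.Finite := by
    refine Set.Finite.of_finite_image (f := sg B Q) (Set.toFinite _) ?_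
    rintro m ⟨x, -, -, h1, h2⟩ m' ⟨x', -, -, h1', h2'⟩ hs
    have hmm := sg_eq hs
    exact le_antisymm (h2 m' (same_trans h1 hmm)) (h2' m (same_trans h1' (same_symm hmm)))
  have hXne : X.Nonempty := by
    obtain ⟨x, hx, hx0⟩ := hne
    obtain ⟨y, h1, h2⟩ := hl x hx0
    exact ⟨y, x, hx, hx0, h1, h2⟩
  obtain ⟨m, hm, hmin⟩ := Set.exists_min_image X id hfin hXne
  have hm' := hm
  obtain ⟨x, hxS, hx0, h1, h2⟩ := hm'
  refine ⟨m, (hBS x m h1).1 hxS, hpos x m h1 hx0, ?_⟩
  intro z hz hz0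
  obtain ⟨y, h3, h4⟩ := hl z hz0
  have h5 : m ≤ y := hmin y ⟨z, hz, hz0, h3, h4⟩
  exact h5.trans (h4 z (same_refl B Q z))

end OID
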