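import Pool.Agent.OID.Stmts1

/-!
# Divisibility, gcd and quotient of the values of two polynomials
-/

namespace OID

open Polynomial

namespace TPOL

variable {M : Type} [CommRing M] [LinearOrder M]

section same

theorem same_mono {B B' : Finset M} {Q Q' : Finset (M × M)} (hB : B ⊆ B') (hQ : Q ⊆ Q') {x y : M}
    (h : Same B' Q' x y) : Same B Q x y :=
  ⟨fun b hb => h.1 b (hB hb), fun q hq => h.2 q (hQ hq)⟩

theorem same_refl (B : Finset M) (Q : Finset (M × M)) (x : M) : Same B Q x x :=
  ⟨fun _ _ => ⟨Iff.rfl, Iff.rfl⟩, fun _ _ => Iff.rfl⟩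

/-- common refinement of finitely many tame sets -/
theorem refine_sets (D : Finset M) (A : M → Set M) (hA : ∀ e ∈ D, TSet (A e)) :
    ∃ (B : Finset M) (Q : Finset (M × M)), NZ Q ∧ ∀ e ∈ D, ∀ x y, Same B Q x y →
      (x ∈ A e ↔ y ∈ A e) := by
  classical
  have h : ∀ e : M, ∃ (B : Finset M) (Q : Finset (M × M)), e ∈ D → NZ Q ∧
      ∀ x y, Same B Q x y → (x ∈ A e ↔ y ∈ A e) := by
    intro e
    by_cases he : e ∈ D
    · obtain ⟨B, Q, h1, h2⟩ := hA e he
      exact ⟨B, Q, fun _ => ⟨h1, h2⟩⟩
    · exact ⟨∅, ∅, fun h => absurd h he⟩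
  choose B Q hBQ using h
  refine ⟨D.biUnion B, D.biUnion Q, ?_, ?_⟩
  · intro q hq
    obtain ⟨e, he, hq'⟩ := Finset.mem_biUnion.1 hq
    exact (hBQ e he).1 q hq'
  · intro e he x y hxy
    exact (hBQ e he).2 x y (same_mono (Finset.subset_biUnion_of_mem B he)
      (Finset.subset_biUnion_of_mem Q he) hxy)

/-- gluing two polynomial pieces along a tame set -/
theorem glue {f : M → M} {A : Set M} (hA : TSet A) (G₁ G₂ : M[X]) {d₁ d₂ : M} (h₁ : d₁ ≠ 0)
    (h₂ : d₂ ≠ 0) (hf : ∀ x ∈ A, d₁ * f x = G₁.eval x) (hf' : ∀ x, x ∉ A → d₂ * f x = G₂.eval x) :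
    TFun f := by
  obtain ⟨B, Q, hQ, hBQ⟩ := hA
  refine ⟨B, Q, hQ, fun x₀ => ?_⟩
  by_cases h0 : x₀ ∈ A
  · exact ⟨G₁, d₁, h₁, fun x hx => hf x ((hBQ x₀ x hx).1 h0)⟩
  · exact ⟨G₂, d₂, h₂, fun x hx => hf' x fun h => h0 ((hBQ x₀ x hx).2 h)⟩

end same

section decomp

variable {R : Type} [CommRing R] [IsDomain R]

theorem clr (p : (FractionRing R)[X]) : ∃ b : R, b ≠ 0 ∧ ∃ P : R[X],
    P.map (algebraMap R (FractionRing R)) = C (algebraMap R (FractionRing R) b) * p := by
  obtain ⟨b, hb, h⟩ := IsLocalization.integerNormalization_spec (nonZeroDivisors R)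
    (S := FractionRing R) p
  refine ⟨b, nonZeroDivisors.ne_zero hb, _, h.trans ?_⟩
  rw [Algebra.smul_def]
  rfl

theorem decomp (S T : R[X]) (hS : S ≠ 0) : ∃ (G S₁ T₁ U V : R[X]) (d c : R), d ≠ 0 ∧ c ≠ 0 ∧
    C d * S = G * S₁ ∧ C d * T = G * T₁ ∧ U * S₁ + V * T₁ = C c := by
  classical
  have hinj : Function.Injective (algebraMap R (FractionRing R)) :=
    IsFractionRing.injective R (FractionRing R)
  have hmi := map_injective (algebraMap R (FractionRing R)) hinj
  have hs : S.map (algebraMap R (FractionRing R)) ≠ 0 := fun h =>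
    hS (hmi (h.trans (Polynomial.map_zero _).symm))
  have hg := EuclideanDomain.gcd_eq_gcd_ab (S.map (algebraMap R (FractionRing R)))
    (T.map (algebraMap R (FractionRing R)))
  obtain ⟨s', hs'⟩ := EuclideanDomain.gcd_dvd_left (S.map (algebraMap R (FractionRing R)))
    (T.map (algebraMap R (FractionRing R)))
  obtain ⟨t', ht'⟩ := EuclideanDomain.gcd_dvd_right (S.map (algebraMap R (FractionRing R)))
    (T.map (algebraMap R (FractionRing R)))
  generalize EuclideanDomain.gcd (S.map (algebraMap R (FractionRing R)))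
    (T.map (algebraMap R (FractionRing R))) = g at hg hs' ht'
  generalize EuclideanDomain.gcdA (S.map (algebraMap R (FractionRing R)))
    (T.map (algebraMap R (FractionRing R))) = u at hg
  generalize EuclideanDomain.gcdB (S.map (algebraMap R (FractionRing R)))
    (T.map (algebraMap R (FractionRing R))) = v at hg
  have hg0 : g ≠ 0 := by
    rintro rfl
    rw [zero_mul] at hs'
    exact hs hs'
  have huv : u * s' + v * t' = 1 := by
    apply mul_left_cancel₀ hg0
    calc g * (u * s' + v * t') = (g * s') * u + (g * t') * v := by ring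
      _ = g := by rw [← hs', ← ht', ← hg]
      _ = g * 1 := (mul_one g).symm
  obtain ⟨bg, hbg, G, hG⟩ := clr g
  obtain ⟨bs, hbs, S₁, hS₁⟩ := clr s'
  obtain ⟨bt, hbt, T₁, hT₁⟩ := clr t'
  obtain ⟨bu, hbu, U, hU⟩ := clr u
  obtain ⟨bv, hbv, V, hV⟩ := clr v
  refine ⟨G, C bt * S₁, C bs * T₁, C bv * U, C bu * V, bg * bs * bt, bu * bv * bs * bt,
    mul_ne_zero (mul_ne_zero hbg hbs) hbt,
    mul_ne_zero (mul_ne_zero (mul_ne_zero hbu hbv) hbs) hbt, ?_, ?_, ?_⟩
  · apply hmi
    simp only [Polynomial.map_mul, Polynomial.map_C, map_mul, hG, hS₁]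
    rw [hs']
    ring
  · apply hmi
    simp only [Polynomial.map_mul, Polynomial.map_C, map_mul, hG, hT₁]
    rw [ht']
    ring
  · apply hmi
    simp only [Polynomial.map_mul, Polynomial.map_add, Polynomial.map_C, map_mul, hU, hV, hS₁,
      hT₁]
    linear_combination (C (algebraMap R (FractionRing R) bu) * C (algebraMap R (FractionRing R) bv) *
      C (algebraMap R (FractionRing R) bs) * C (algebraMap R (FractionRing R) bt)) * huv

theorem fin_roots {P : R[X]} (h : P ≠ 0) : {x : R | P.eval x = 0}.Finite :=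
  Polynomial.finite_setOfPred_isRoot h

/-- a polynomial which is not constant takes finitely many values at finitely many points -/
theorem fin_pre {P : R[X]} (h : P.natDegree ≠ 0) {F : Set R} (hF : F.Finite) :
    {x : R | P.eval x ∈ F}.Finite := by
  have h1 : {x : R | P.eval x ∈ F} = ⋃ e ∈ F, {x : R | (P - C e).eval x = 0} := by
    ext x
    simp only [Set.mem_ofPred_eq, Set.mem_iUnion, eval_sub, eval_C, sub_eq_zero, exists_prop]
    constructor
    · intro hx
      exact ⟨_, hx, rfl⟩
    · rintro ⟨e, he, hx⟩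
      rwa [hx]
  rw [h1]
  apply hF.biUnion
  intro e _
  apply fin_roots
  intro h0
  apply h
  rw [sub_eq_zero.1 h0, natDegree_C]

end decomp

end TPOL

open TPOL

theorem t_TPOL : M_TPOL := by
  classical
  intro _ hTB hTD hTG M _ _ _ hM S T
  obtain ⟨hcompl, hinter, hunion, hempty, huniv, _, _, hfin, _, _, _, _⟩ := hTB M
  obtain ⟨_, hgcd, hgcdu, hgcdm, hquo, hquo0, _, _, _, hdiv⟩ := hTG M hM
  have hTD' := hTD M hM
  -- the reduction of divisibility of the values
  have hred : ∀ {S T G S₁ T₁ : M[X]} {d : M}, d ≠ 0 → C d * S = G * S₁ → C d * T = G * T₁ →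
      ∀ x, S.eval x ≠ 0 → (S.eval x ∣ T.eval x ↔ S₁.eval x ∣ T₁.eval x) := by
    intro S T G S₁ T₁ d hd h1 h2 x hx
    have e1 : d * S.eval x = G.eval x * S₁.eval x := by
      have := congrArg (eval x) h1
      simpa using this
    have e2 : d * T.eval x = G.eval x * T₁.eval x := by
      have := congrArg (eval x) h2
      simpa using this
    have hG : G.eval x ≠ 0 := by
      intro h0
      rw [h0, zero_mul] at e1
      exact (mul_ne_zero hd hx) e1
    rw [← mul_dvd_mul_iff_left hd, e1, e2, mul_dvd_mul_iff_left hG]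
  -- values dividing `c`
  have hdc : ∀ {S₁ T₁ U V : M[X]} {c : M}, U * S₁ + V * T₁ = C c → ∀ x e : M,
      e ∣ S₁.eval x → e ∣ T₁.eval x → e ∣ c := by
    intro S₁ T₁ U V c h x e h1 h2
    have e1 : U.eval x * S₁.eval x + V.eval x * T₁.eval x = c := by
      have := congrArg (eval x) h
      simpa using this
    rw [← e1]
    exact dvd_add (dvd_mul_of_dvd_right h1 _) (dvd_mul_of_dvd_right h2 _)
  -- the set where `S₁ ∣ T₁` is finite if `S₁` is not constant
  have hfinA : ∀ {S₁ T₁ U V : M[X]} {c : M}, c ≠ 0 → U * S₁ + V * T₁ = C c →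
      S₁.natDegree ≠ 0 → {x : M | S₁.eval x ∣ T₁.eval x}.Finite := by
    intro S₁ T₁ U V c hc h hn
    refine (fin_pre hn (hdiv c hc)).subset ?_
    intro x hx
    exact hdc h x _ dvd_rfl hx
  refine ⟨?_, ?_, ?_⟩
  · -- divisibility
    by_cases hS : S = 0
    · by_cases hT : T = 0
      · have : {x : M | S.eval x ∣ T.eval x} = Set.univ := by
          ext x
          simp [hS, hT]
        rw [this]
        exact huniv
      · apply hfin
        refine (fin_roots hT).subset ?_
        intro x hx
        have hx' : S.eval x ∣ T.eval x := hx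
        rw [hS, eval_zero, zero_dvd_iff] at hx'
        exact hx'
    · obtain ⟨G, S₁, T₁, U, V, d, c, hd, hc, h1, h2, h3⟩ := decomp S T hS
      have hset : {x : M | S.eval x ∣ T.eval x} =
          ({x : M | S₁.eval x ∣ T₁.eval x} ∩ {x : M | S.eval x = 0}ᶜ) ∪
            ({x : M | S.eval x = 0} ∩ {x : M | S.eval x ∣ T.eval x}) := by
        ext x
        simp only [Set.mem_ofPred_eq, Set.mem_union, Set.mem_inter_iff, Set.mem_compl_iff]
        by_cases hx : S.eval x = 0
        · simp [hx]
        · rw [hred hd h1 h2 x hx]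
          simp [hx]
      rw [hset]
      apply hunion
      · apply hinter
        · by_cases hn : S₁.natDegree = 0
          · rw [eq_C_of_natDegree_eq_zero hn] at h1 ⊢
            simp only [eval_C]
            apply hTD'
            intro h0
            rw [h0, map_zero, mul_zero] at h1
            rcases mul_eq_zero.1 h1 with h | h
            · exact hd (C_eq_zero.1 h)
            · exact hS h
          · exact hfin _ (hfinA hc h3 hn)
        · exact hcompl _ (hfin _ (fin_roots hS))
      · exact hfin _ ((fin_roots hS).subset Set.inter_subset_left)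
  · -- gcd
    -- sign of a polynomial on a class
    have hsign : ∀ (f : M → M) (H : M[X]) (d : M), d ≠ 0 → (∀ x, d * f x = |H.eval x|) →
        TFun f := by
      intro f H d hd hf
      obtain ⟨B, hB⟩ := hM.roots H
      have hA : TSet {x : M | 0 ≤ H.eval x} :=
        ⟨B, ∅, fun q hq => absurd hq (Finset.notMem_empty q), fun x y hxy => hB x y hxy.1⟩
      refine glue hA H (-H) hd hd (fun x hx => ?_) (fun x hx => ?_)
      · rw [hf, abs_of_nonneg hx]
      · rw [hf, eval_neg, abs_of_neg (not_le.1 hx)]
    by_cases hS : S = 0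
    · apply hsign _ T 1 one_ne_zero
      intro x
      rw [one_mul, hS, eval_zero]
      apply hgcdu _ _ _ (abs_nonneg _)
      intro d
      rw [dvd_abs]
      exact ⟨fun h => ⟨dvd_zero d, h⟩, fun h => h.2⟩
    by_cases hT : T = 0
    · apply hsign _ S 1 one_ne_zero
      intro x
      rw [one_mul, hT, eval_zero]
      apply hgcdu _ _ _ (abs_nonneg _)
      intro d
      rw [dvd_abs]
      exact ⟨fun h => ⟨h, dvd_zero d⟩, fun h => h.1⟩
    obtain ⟨G, S₁, T₁, U, V, d, c, hd, hc, h1, h2, h3⟩ := decomp S T hS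
    obtain ⟨B, Q, hQ, hBQ⟩ := refine_sets (hdiv c hc).toFinset
      (fun e => {x : M | e ∣ S₁.eval x} ∩ {x : M | e ∣ T₁.eval x}) (by
        intro e he
        have he' : e ∣ c := by simpa using he
        have he0 : e ≠ 0 := fun h => hc (zero_dvd_iff.1 (h ▸ he'))
        exact hinter _ _ (hTD' e S₁ he0) (hTD' e T₁ he0))
    obtain ⟨B', hB'⟩ := hM.roots G
    refine ⟨B ∪ B', Q, hQ, fun x₀ => ?_⟩
    have hkey : ∀ x, |d| * gcdM (S.eval x) (T.eval x) =
        |G.eval x| * gcdM (S₁.eval x) (T₁.eval x) := by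
      intro x
      have e1 : d * S.eval x = G.eval x * S₁.eval x := by
        have := congrArg (eval x) h1
        simpa using this
      have e2 : d * T.eval x = G.eval x * T₁.eval x := by
        have := congrArg (eval x) h2
        simpa using this
      rw [← hgcdm, ← hgcdm, e1, e2]
    have hconst : ∀ x, Same (B ∪ B') Q x₀ x →
        gcdM (S₁.eval x) (T₁.eval x) = gcdM (S₁.eval x₀) (T₁.eval x₀) := by
      intro x hx
      apply hgcdu _ _ _ (hgcd _ _).1
      intro e
      rw [(hgcd _ _).2]
      have hs := same_mono (Finset.subset_union_left (s₁ := B) (s₂ := B')) (Finset.Subset.refl Q) hx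
      constructor
      · intro he
        have hec : e ∈ (hdiv c hc).toFinset := by
          simpa using hdc h3 x₀ e he.1 he.2
        exact (hBQ e hec x₀ x hs).1 he
      · intro he
        have hec : e ∈ (hdiv c hc).toFinset := by
          simpa using hdc h3 x e he.1 he.2
        exact (hBQ e hec x₀ x hs).2 he
    have hsg : ∀ x, Same (B ∪ B') Q x₀ x → (0 ≤ G.eval x₀ ↔ 0 ≤ G.eval x) := by
      intro x hx
      exact hB' x₀ x fun b hb => hx.1 b (Finset.mem_union_right B hb)
    by_cases h0 : 0 ≤ G.eval x₀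
    · refine ⟨C (gcdM (S₁.eval x₀) (T₁.eval x₀)) * G, |d|, abs_ne_zero.2 hd, fun x hx => ?_⟩
      rw [hkey, hconst x hx, abs_of_nonneg ((hsg x hx).1 h0), eval_mul, eval_C, mul_comm]
    · refine ⟨-(C (gcdM (S₁.eval x₀) (T₁.eval x₀)) * G), |d|, abs_ne_zero.2 hd, fun x hx => ?_⟩
      have hneg : G.eval x < 0 := not_le.1 fun h => h0 ((hsg x hx).2 h)
      rw [hkey, hconst x hx, abs_of_neg hneg, eval_neg, eval_mul, eval_C]
      ring
  · -- quotient
    have hzero : ∀ f : M → M, (∀ x, f x = 0) → TFun f := by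
      intro f hf
      refine glue huniv 0 0 one_ne_zero one_ne_zero (fun x _ => ?_) (fun x _ => ?_)
      · simp [hf]
      · simp [hf]
    by_cases hT : T = 0
    · apply hzero
      intro x
      apply hquo0
      left
      rw [hT, eval_zero]
    by_cases hS : S = 0
    · apply hzero
      intro x
      by_cases hx : T.eval x = 0
      · exact hquo0 _ _ (Or.inl hx)
      · have := hquo (T.eval x) 0 hx
        rw [mul_zero] at this
        rw [hS, eval_zero]
        exact this
    obtain ⟨G, T₁, S₁, U, V, d, c, hd, hc, h1, h2, h3⟩ := decomp T S hT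
    by_cases hn : T₁.natDegree = 0
    · -- `T₁` is constant
      have ht : T₁ = C (T₁.coeff 0) := eq_C_of_natDegree_eq_zero hn
      generalize T₁.coeff 0 = t at ht
      subst ht
      have ht0 : t ≠ 0 := by
        intro h0
        rw [h0, map_zero, mul_zero] at h1
        rcases mul_eq_zero.1 h1 with h | h
        · exact hd (C_eq_zero.1 h)
        · exact hT h
      have hA : TSet ({x : M | T.eval x = 0}ᶜ ∩ {x : M | t ∣ S₁.eval x}) :=
        hinter _ _ (hcompl _ (hfin _ (fin_roots hT))) (hTD' t S₁ ht0)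
      refine glue hA S₁ 0 ht0 one_ne_zero (fun x hx => ?_) (fun x hx => ?_)
      · obtain ⟨hx1, q, hq⟩ := hx
        have hx1' : T.eval x ≠ 0 := hx1
        have e1 : d * T.eval x = G.eval x * t := by
          have := congrArg (eval x) h1
          simpa using this
        have e2 : d * S.eval x = G.eval x * S₁.eval x := by
          have := congrArg (eval x) h2
          simpa using this
        have e3 : S.eval x = T.eval x * q := by
          apply mul_left_cancel₀ hd
          rw [e2, hq, ← mul_assoc, ← e1]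
          ring
        rw [e3, hquo _ _ hx1', hq]
      · rw [one_mul, eval_zero]
        apply hquo0
        by_contra hcon
        push Not at hcon
        apply hx
        refine ⟨hcon.1, ?_⟩
        have := (hred hd h1 h2 x hcon.1).1 hcon.2
        rwa [eval_C] at this
    · -- finitely many nonzero values
      have hF : {x : M | quoM (S.eval x) (T.eval x) ≠ 0}.Finite := by
        refine (hfinA hc h3 hn).subset ?_
        intro x hx
        by_contra hcon
        apply hx
        apply hquo0
        by_contra hcon2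
        push Not at hcon2
        exact hcon ((hred hd h1 h2 x hcon2.1).1 hcon2.2)
      refine ⟨hF.toFinset, ∅, fun q hq => absurd hq (Finset.notMem_empty q), fun x₀ => ?_⟩
      by_cases h0 : x₀ ∈ hF.toFinset
      · refine ⟨C (quoM (S.eval x₀) (T.eval x₀)), 1, one_ne_zero, fun x hx => ?_⟩
        have hxx : x = x₀ := by
          have := hx.1 x₀ h0
          have h4 : ¬ x < x₀ := fun h => lt_irrefl x₀ (this.1.2 h)
          have h5 : ¬ x₀ < x := fun h => lt_irrefl x₀ (this.2.2 h)
          exact le_antisymm (not_lt.1 h5) (not_lt.1 h4)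
        rw [hxx, one_mul, eval_C]
      · refine ⟨0, 1, one_ne_zero, fun x hx => ?_⟩
        have hxF : x ∉ hF.toFinset := by
          intro h
          have := hx.1 x h
          have h4 : ¬ x₀ < x := fun h' => lt_irrefl x (this.1.1 h')
          have h5 : ¬ x < x₀ := fun h' => lt_irrefl x (this.2.1 h')
          have : x = x₀ := le_antisymm (not_lt.1 h4) (not_lt.1 h5)
          exact h0 (this ▸ h)
        have : quoM (S.eval x) (T.eval x) = 0 := by
          by_contra h
          exact hxF (by simpa using h)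
        simp [this]

end OID
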