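import Pool.Agent.OID.Stmts3

/-!
# OID, module TR: `Ext` is reflexive and transitive
-/

namespace OID

open Polynomial

namespace TR

/-- replace the factors of a product by products -/
theorem refine_prod (Q : F → Prop) (s : Multiset F)
    (h : ∀ w ∈ s, ∃ (t : Multiset F) (r : ℚ), w = algebraMap ℚ F r * t.prod ∧ ∀ v ∈ t, Q v) :
    ∃ (t : Multiset F) (r : ℚ), s.prod = algebraMap ℚ F r * t.prod ∧ ∀ v ∈ t, Q v := by
  induction s using Multiset.induction_on with
  | empty => exact ⟨0, 1, by rw [map_one, one_mul], fun v hv => absurd hv (Multiset.notMem_zero v)⟩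
  | cons a s ih =>
    obtain ⟨t, r, h1, h2⟩ := ih fun w hw => h w (Multiset.mem_cons_of_mem hw)
    obtain ⟨t', r', h1', h2'⟩ := h a (Multiset.mem_cons_self a s)
    refine ⟨t' + t, r' * r, ?_, ?_⟩
    · rw [Multiset.prod_cons, h1, Multiset.prod_add, map_mul]
      nth_rewrite 1 [h1']
      ring
    · intro v hv
      rcases Multiset.mem_add.1 hv with hv | hv
      · exact h2' v hv
      · exact h2 v hv

theorem four_lt : (4 : ℝ*) < Om := by
  have := Hyperreal.coe_lt_omega 4
  exact_mod_cast this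

theorem abs_le_of_sq {x y : ℝ*} (hx : Om < y) (h : x ^ 2 ≤ 4 * y) : |x| ≤ y := by
  have h4 := four_lt
  by_contra hlt
  rw [not_le] at hlt
  have h1 : y * y < |x| * |x| := mul_self_lt_mul_self (by linarith) hlt
  rw [abs_mul_abs_self] at h1
  have h2 : 4 * y ≤ y * y := mul_le_mul_of_nonneg_right (by linarith) (by linarith)
  nlinarith

end TR

theorem t_TR : S_TR := by
  refine ⟨fun A => ⟨le_rfl, fun a _ b _ c hc _ _ => hc, fun q hq => Or.inl hq⟩, ?_⟩
  intro A A' A'' h h'
  refine ⟨h.le.trans h'.le, ?_, ?_⟩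
  · intro a ha b hb c hc ha0 hab
    exact h.dvd a ha b hb c (h'.dvd a (h.le ha) b (h.le hb) c hc ha0 hab) ha0 hab
  · intro q hq
    rcases h.pr q hq with h1 | ⟨h1, s, r, h2, h3⟩
    · exact h'.pr q h1
    · refine Or.inr ⟨h1, ?_⟩
      obtain ⟨t, r', h4, h5⟩ := TR.refine_prod (fun w => NPr A'' w ∧ w.1 ^ 2 ≤ 4 * |q.1|) s (by
        intro w hw
        obtain ⟨g1, g2⟩ := h3 w hw
        rcases h'.pr w g1 with g3 | ⟨g3, t, r', g4, g5⟩
        · refine ⟨{w}, 1, by rw [map_one, one_mul, Multiset.prod_singleton], ?_⟩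
          intro v hv
          rw [Multiset.mem_singleton] at hv
          rw [hv]
          exact ⟨g3, g2⟩
        · refine ⟨t, r', g4, fun v hv => ⟨(g5 v hv).1, (g5 v hv).2.trans ?_⟩⟩
          have := TR.abs_le_of_sq h1 g2
          linarith)
      refine ⟨t, r * r', ?_, h5⟩
      rw [map_mul, mul_assoc, ← h4]
      exact h2

end OID
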