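import Pool.Agent.OID.Stmts1

/-!
# TTERM: terms are tame functions, formulas are tame sets, induction
-/

namespace OID

open Polynomial

namespace TTERM

variable {M : Type} [CommRing M] [LinearOrder M] [IsStrictOrderedRing M]

theorem term (hO : S_TOPS) (hM : Alg M) (t : Tm M) : TFun (fun x : M => t.val x) := by
  obtain ⟨h1, h2, h3⟩ := hO M hM
  induction t with
  | var => exact h1
  | par a => exact h2 a
  | add s t hs ht => exact (h3 _ _ hs ht).1
  | sub s t hs ht => exact (h3 _ _ hs ht).2.1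
  | mul s t hs ht => exact (h3 _ _ hs ht).2.2.1
  | gcd s t hs ht => exact (h3 _ _ hs ht).2.2.2.2.2.2.1
  | quo s t hs ht => exact (h3 _ _ hs ht).2.2.2.2.2.2.2.1
  | fdiv t n ht => exact (h3 _ _ ht ht).2.2.2.2.2.2.2.2.1 (n + 1) (Nat.succ_pos n)
  | ifle s t u v hs ht hu hv =>
    refine (h3 _ _ hu hv).2.2.2.2.2.2.2.2.2 {x : M | s.val x ≤ t.val x} (h3 _ _ hs ht).2.2.2.1 _ ?_ ?_
    · intro x hx
      exact if_pos hx
    · intro x hx
      exact if_neg hx
  | ifdvd s t u v hs ht hu hv =>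
    refine (h3 _ _ hu hv).2.2.2.2.2.2.2.2.2 {x : M | s.val x ∣ t.val x}
      (h3 _ _ hs ht).2.2.2.2.2.1 _ ?_ ?_
    · intro x hx
      exact if_pos hx
    · intro x hx
      exact if_neg hx

theorem form (hB : S_TBOOL) (hO : S_TOPS) (hM : Alg M) (φ : Fm M) : TSet {x : M | φ.holds x} := by
  induction φ with
  | eq s t => exact ((hO M hM).2.2 _ _ (term hO hM s) (term hO hM t)).2.2.2.2.1
  | le s t => exact ((hO M hM).2.2 _ _ (term hO hM s) (term hO hM t)).2.2.2.1
  | dvd s t => exact ((hO M hM).2.2 _ _ (term hO hM s) (term hO hM t)).2.2.2.2.2.1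
  | not φ h => exact (hB M).1 _ h
  | and φ ψ h1 h2 => exact (hB M).2.1 _ _ h1 h2

end TTERM

theorem t_TTERM : M_TTERM := by
  intro hB hL hO M _ _ _ hM
  refine ⟨TTERM.term hO hM, ?_⟩
  intro φ h0 hs x hx
  by_contra hc
  obtain ⟨m, hm, hm0, hmin⟩ := hL M hM _ ((hB M).1 _ (TTERM.form hB hO hM φ)) ⟨x, hc, hx⟩
  rcases eq_or_lt_of_le hm0 with h | h
  · exact hm (h ▸ h0)
  · have h1 : 1 ≤ m := hM.disc m h
    have h2 : φ.holds (m - 1) := by
      by_contra h3
      have h4 := hmin (m - 1) h3 (sub_nonneg.2 h1)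
      linarith
    have h5 := hs (m - 1) (sub_nonneg.2 h1) h2
    rw [sub_add_cancel] at h5
    exact hm h5

end OID
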