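import Pool.Agent.OID.Stmts3

/-!
# Unions of chains of good rings
-/

namespace OID

namespace UNI

lemma Om_gt (r : ℝ) : (r : ℝ*) < Om := Hyperreal.coe_lt_omega r

lemma Om16 : (16 : ℝ*) < Om := by
  have h := Om_gt 16
  exact_mod_cast h

/-- The union of a chain. -/
def U (A : ℕ → Subalgebra ℚ F) (hA : Monotone A) : Subalgebra ℚ F where
  carrier := {x | ∃ n, x ∈ A n}
  mul_mem' := by
    rintro x y ⟨n, hx⟩ ⟨m, hy⟩
    exact ⟨max n m, mul_mem (hA (le_max_left _ _) hx) (hA (le_max_right _ _) hy)⟩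
  add_mem' := by
    rintro x y ⟨n, hx⟩ ⟨m, hy⟩
    exact ⟨max n m, add_mem (hA (le_max_left _ _) hx) (hA (le_max_right _ _) hy)⟩
  algebraMap_mem' := fun r => ⟨0, (A 0).algebraMap_mem r⟩

lemma mem_U {A : ℕ → Subalgebra ℚ F} {hA : Monotone A} {x : F} : x ∈ U A hA ↔ ∃ n, x ∈ A n :=
  Iff.rfl

lemma prime_union {A : ℕ → Subalgebra ℚ F} (hA : Monotone A) {q : F} {n : ℕ}
    (h : ∀ m, n ≤ m → Pr (A m) q) : Pr (U A hA) q := by
  obtain ⟨hq, hp0⟩ := h n le_rfl
  refine ⟨⟨n, hq⟩, ?_, ?_, ?_⟩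
  · intro h0
    have h1 : q = 0 := congrArg Subtype.val h0
    exact hp0.ne_zero (Subtype.ext h1)
  · intro hu
    obtain ⟨u, hu⟩ := isUnit_iff_exists_inv.mp hu
    obtain ⟨k, hk⟩ := mem_U.mp u.2
    obtain ⟨hq', hp⟩ := h (max n k) (le_max_left _ _)
    apply hp.not_isUnit
    have e0 : q * (u : F) = 1 := congrArg Subtype.val hu
    exact isUnit_iff_exists_inv.mpr ⟨⟨u, hA (le_max_right _ _) hk⟩, Subtype.ext e0⟩
  · rintro ⟨a, ha⟩ ⟨b, hb⟩ ⟨⟨c, hc⟩, e⟩
    have e' : a * b = q * c := congrArg Subtype.val e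
    obtain ⟨ka, ha'⟩ := mem_U.mp ha
    obtain ⟨kb, hb'⟩ := mem_U.mp hb
    obtain ⟨kc, hc'⟩ := mem_U.mp hc
    obtain ⟨hq', hp⟩ := h (max n (max ka (max kb kc))) (le_max_left _ _)
    have ma : a ∈ A (max n (max ka (max kb kc))) := hA (by omega) ha'
    have mb : b ∈ A (max n (max ka (max kb kc))) := hA (by omega) hb'
    have mc : c ∈ A (max n (max ka (max kb kc))) := hA (by omega) hc'
    have h1 : (⟨q, hq'⟩ : A (max n (max ka (max kb kc)))) ∣ ⟨a, ma⟩ * ⟨b, mb⟩ :=
      ⟨⟨c, mc⟩, Subtype.ext e'⟩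
    rcases hp.dvd_or_dvd h1 with ⟨⟨d, hd⟩, e2⟩ | ⟨⟨d, hd⟩, e2⟩
    · left
      have e0 : a = q * d := congrArg Subtype.val e2
      exact ⟨⟨d, ⟨_, hd⟩⟩, Subtype.ext e0⟩
    · right
      have e0 : b = q * d := congrArg Subtype.val e2
      exact ⟨⟨d, ⟨_, hd⟩⟩, Subtype.ext e0⟩

lemma subst {p : F → Prop} (s : Multiset F)
    (h : ∀ w ∈ s, ∃ (t : Multiset F) (r : ℚ), w = algebraMap ℚ F r * t.prod ∧ ∀ v ∈ t, p v) :
    ∃ (t : Multiset F) (r : ℚ), s.prod = algebraMap ℚ F r * t.prod ∧ ∀ v ∈ t, p v := by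
  induction s using Multiset.induction with
  | empty =>
    refine ⟨0, 1, ?_, ?_⟩
    · rw [Multiset.prod_zero, map_one, one_mul]
    · intro v hv
      exact absurd hv (Multiset.notMem_zero v)
  | cons a s ih =>
    obtain ⟨t1, r1, e1, h1⟩ := h a (Multiset.mem_cons_self a s)
    obtain ⟨t2, r2, e2, h2⟩ := ih (fun w hw => h w (Multiset.mem_cons_of_mem hw))
    refine ⟨t1 + t2, r1 * r2, ?_, ?_⟩
    · have e3 : algebraMap ℚ F (r1 * r2) * (t1 + t2).prod =
          (algebraMap ℚ F r1 * t1.prod) * (algebraMap ℚ F r2 * t2.prod) := by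
        rw [Multiset.prod_add, map_mul]
        ring
      rw [e3, ← e1, ← e2, Multiset.prod_cons]
    · intro v hv
      rcases Multiset.mem_add.mp hv with h | h
      · exact h1 v h
      · exact h2 v h

lemma sq_small {x w : ℝ*} {k : ℕ} (h1 : Om < x) (h2 : x ^ 2 < Om ^ (k + 1))
    (h3 : w ^ 2 ≤ 4 * x) : w ^ 2 < Om ^ k := by
  have h16 := Om16
  have hO : (0 : ℝ*) < Om := by linarith
  have hO1 : (1 : ℝ*) < Om := by linarith
  have h4 : Om ^ 2 < Om ^ (k + 1) := by
    have : Om ^ 2 < x ^ 2 := pow_lt_pow_left₀ h1 hO.le two_ne_zero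
    exact this.trans h2
  have h5 : 2 < k + 1 := (pow_lt_pow_iff_right₀ hO1).mp h4
  have h6 : (w ^ 2) ^ 2 < (Om ^ k) ^ 2 := by
    calc (w ^ 2) ^ 2 ≤ (4 * x) ^ 2 := pow_le_pow_left₀ (sq_nonneg w) h3 2
      _ = 16 * x ^ 2 := by ring
      _ < 16 * Om ^ (k + 1) := by linarith
      _ ≤ Om * Om ^ (k + 1) := by
          apply mul_le_mul_of_nonneg_right h16.le
          positivity
      _ = Om ^ (k + 2) := by ring
      _ ≤ Om ^ (k * 2) := pow_le_pow_right₀ hO1.le (by omega)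
      _ = (Om ^ k) ^ 2 := by rw [pow_mul]
  exact lt_of_pow_lt_pow_left₀ 2 (by positivity) h6

lemma abs_small {x w : ℝ*} (h1 : Om < x) (h3 : w ^ 2 ≤ 4 * x) : |w| ≤ x := by
  have h16 := Om16
  have hx : (16 : ℝ*) < x := h16.trans h1
  have h4 : |w| ^ 2 ≤ x ^ 2 := by
    rw [sq_abs]
    nlinarith
  exact (pow_le_pow_iff_left₀ (abs_nonneg w) (by linarith) two_ne_zero).mp h4

lemma claim (A : ℕ → Subalgebra ℚ F) (hA : Monotone A)
    (hE : ∀ n m, n ≤ m → Ext (A n) (A m)) : ∀ (k n : ℕ) (q : F), NPr (A n) q →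
    q.1 ^ 2 < Om ^ k → NPr (U A hA) q ∨ (Om < |q.1| ∧
      ∃ (s : Multiset F) (r : ℚ), q = algebraMap ℚ F r * s.prod ∧
        ∀ w ∈ s, NPr (U A hA) w ∧ w.1 ^ 2 ≤ 4 * |q.1|) := by
  intro k
  induction k with
  | zero =>
    intro n q hq hk
    by_cases hall : ∀ m, n ≤ m → NPr (A m) q
    · left
      exact ⟨prime_union hA fun m hm => (hall m hm).1, hq.2⟩
    · push Not at hall
      obtain ⟨m, hm, hnm⟩ := hall
      rcases (hE n m hm).pr q hq with h | ⟨h, -⟩
      · exact absurd h hnm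
      · exfalso
        rw [pow_zero, ← sq_abs] at hk
        have h16 := Om16
        nlinarith
  | succ k ih =>
    intro n q hq hk
    by_cases hall : ∀ m, n ≤ m → NPr (A m) q
    · left
      exact ⟨prime_union hA fun m hm => (hall m hm).1, hq.2⟩
    · push Not at hall
      obtain ⟨m, hm, hnm⟩ := hall
      rcases (hE n m hm).pr q hq with h | ⟨h, s, r, e, hs⟩
      · exact absurd h hnm
      · right
        refine ⟨h, ?_⟩
        have hk' : |q.1| ^ 2 < Om ^ (k + 1) := by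
          rw [sq_abs]
          exact hk
        obtain ⟨t, r', e2, ht⟩ := subst
          (p := fun v => NPr (U A hA) v ∧ v.1 ^ 2 ≤ 4 * |q.1|) s (by
            intro w hw
            obtain ⟨hw1, hw2⟩ := hs w hw
            rcases ih m w hw1 (sq_small h hk' hw2) with h2 | ⟨-, s2, r2, e2, hs2⟩
            · refine ⟨{w}, 1, ?_, ?_⟩
              · rw [Multiset.prod_singleton, map_one, one_mul]
              · intro v hv
                rw [Multiset.mem_singleton.mp hv]
                exact ⟨h2, hw2⟩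
            · refine ⟨s2, r2, e2, ?_⟩
              intro v hv
              have h3 := hs2 v hv
              have h4 := abs_small h hw2
              refine ⟨h3.1, h3.2.trans ?_⟩
              linarith)
        refine ⟨t, r * r', ?_, ht⟩
        rw [map_mul, mul_assoc, ← e2]
        exact e

end UNI

open UNI in
theorem t_UNI : M_UNI := by
  intro hTR P hP A hG hE1
  have hA : Monotone A := monotone_nat_of_le_succ fun n => (hE1 n).le
  have hE : ∀ n m, n ≤ m → Ext (A n) (A m) := by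
    intro n m hnm
    induction m, hnm using Nat.le_induction with
    | base => exact hTR.1 _
    | succ m _ ih => exact hTR.2 _ _ _ ih (hE1 m)
  have hclaim : ∀ (n : ℕ) (q : F), NPr (A n) q → NPr (U A hA) q ∨ (Om < |q.1| ∧
      ∃ (s : Multiset F) (r : ℚ), q = algebraMap ℚ F r * s.prod ∧
        ∀ w ∈ s, NPr (U A hA) w ∧ w.1 ^ 2 ≤ 4 * |q.1|) := by
    intro n q hq
    obtain ⟨hqA, -⟩ := hq.1
    obtain ⟨k, hk⟩ := (hG n).bd q hqA
    apply claim A hA hE (k * 2) n q hq
    rw [← sq_abs, pow_mul]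
    exact pow_lt_pow_left₀ hk (abs_nonneg _) two_ne_zero
  refine ⟨U A hA, ?_, ?_, fun x => mem_U⟩
  · refine ⟨?_, ?_, ?_, ?_, ?_, ?_⟩
    · have h : (U A hA : Set F) = ⋃ n, (A n : Set F) := by
        ext x
        rw [Set.mem_iUnion]
        exact mem_U
      rw [h]
      exact Set.countable_iUnion fun n => (hG n).cnt
    · intro a ha ha0
      obtain ⟨n, hn⟩ := mem_U.mp ha
      exact (hG n).nz a hn ha0
    · intro a ha
      obtain ⟨n, hn⟩ := mem_U.mp ha
      exact (hG n).inf a hn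
    · intro a ha ha0
      obtain ⟨n, hn⟩ := mem_U.mp ha
      obtain ⟨s, r, hs, e⟩ := (hG n).fac a hn ha0
      obtain ⟨t, r', e2, ht⟩ := subst (p := fun v => NPr (U A hA) v) s (by
        intro w hw
        rcases hclaim n w (hs w hw) with h2 | ⟨-, s2, r2, e2, hs2⟩
        · refine ⟨{w}, 1, ?_, ?_⟩
          · rw [Multiset.prod_singleton, map_one, one_mul]
          · intro v hv
            rw [Multiset.mem_singleton.mp hv]
            exact h2
        · exact ⟨s2, r2, e2, fun v hv => (hs2 v hv).1⟩)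
      refine ⟨t, r * r', ht, ?_⟩
      rw [map_mul, mul_assoc, ← e2]
      exact e
    · intro a ha
      obtain ⟨n, hn⟩ := mem_U.mp ha
      exact (hG n).bd a hn
    · exact prime_union hA (n := 0) fun m _ => (hG m).pr
  · intro n
    refine ⟨?_, ?_, ?_⟩
    · intro x hx
      exact ⟨n, hx⟩
    · intro a ha b hb c hc ha0 e
      obtain ⟨m, hm⟩ := mem_U.mp hc
      exact (hE n (max n m) (le_max_left _ _)).dvd a ha b hb c (hA (le_max_right _ _) hm) ha0 e
    · intro q hq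
      exact hclaim n q hq

end OID
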