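import Pool.Agent.OID.Stmts4

/-!
# Module XPHP: the exact pigeonhole principle for tame functions
-/

set_option autoImplicit false

namespace OID

open Polynomial

namespace XPHP

variable {M : Type} [CommRing M] [LinearOrder M]

/-- The class of an element. -/
def key (B : Finset M) (Q : Finset (M × M)) (x : M) : (B → Prop × Prop) × (Q → Prop) :=
  (fun b => (x < b.1, b.1 < x), fun q => q.1.2 ∣ x - q.1.1)

theorem same_of_key {B : Finset M} {Q : Finset (M × M)} {x y : M} (h : key B Q x = key B Q y) :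
    Same B Q x y := by
  have h1 := congrArg Prod.fst h
  have h2 := congrArg Prod.snd h
  refine ⟨fun b hb => ?_, fun q hq => ?_⟩
  · have h3 := congrFun h1 ⟨b, hb⟩
    exact ⟨iff_of_eq (congrArg Prod.fst h3), iff_of_eq (congrArg Prod.snd h3)⟩
  · exact iff_of_eq (congrFun h2 ⟨q, hq⟩)

theorem key_of_same {B : Finset M} {Q : Finset (M × M)} {x y : M} (h : Same B Q x y) :
    key B Q x = key B Q y :=
  Prod.ext (funext fun b => Prod.ext (propext (h.1 b.1 b.2).1) (propext (h.1 b.1 b.2).2))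
    (funext fun q => propext (h.2 q.1 q.2))

variable [IsStrictOrderedRing M]

/-- The part of `[0, a)` in one class. -/
def prt (B : Finset M) (Q : Finset (M × M)) (a : M) (κ : (B → Prop × Prop) × (Q → Prop)) : Set M :=
  {x | 0 ≤ x ∧ x < a ∧ key B Q x = κ}

theorem prt_tset (B : Finset M) (Q : Finset (M × M)) (hQ : NZ Q) (a : M)
    (κ : (B → Prop × Prop) × (Q → Prop)) : TSet (prt B Q a κ) := by
  classical
  refine ⟨insert 0 (insert a B), Q, hQ, ?_⟩
  intro x y h
  have h0 := h.1 0 (Finset.mem_insert_self _ _)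
  have ha := h.1 a (Finset.mem_insert_of_mem (Finset.mem_insert_self _ _))
  have hk : key B Q x = key B Q y :=
    key_of_same ⟨fun b hb => h.1 b (Finset.mem_insert_of_mem (Finset.mem_insert_of_mem hb)), h.2⟩
  change (0 ≤ x ∧ x < a ∧ key B Q x = κ) ↔ (0 ≤ y ∧ y < a ∧ key B Q y = κ)
  rw [hk, ha.1, ← not_lt, ← not_lt, h0.1]

theorem bd_of {S : Set M} {a : M} (h : ∀ x ∈ S, 0 ≤ x ∧ x < a) : Bd S :=
  ⟨a, fun x hx => by rw [abs_of_nonneg (h x hx).1]; exact (h x hx).2.le⟩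

theorem seg_eq (a : M) : Seg 0 1 a = {x : M | 0 ≤ x ∧ x < a} := by
  ext x
  constructor
  · rintro ⟨w, h1, h2, h3⟩
    have h4 : x = w := by rw [h3]; ring
    rw [h4]
    exact ⟨h1, h2⟩
  · rintro ⟨h1, h2⟩
    exact ⟨x, h1, h2, by ring⟩

end XPHP

open XPHP in
theorem t_XPHP : M_XPHP := by
  classical
  intro _ hBOOL hCNT hSEG hPOS hBIG M _ _ _ hA f a b hf hb hab
  rintro ⟨h1, h2⟩
  obtain ⟨N, hN⟩ := hCNT M hA
  obtain ⟨bc, bi, -, be, -, -, -, bfin, -, bun, -, -⟩ := hBOOL M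
  obtain ⟨p0, -, -, pc, pf, ps⟩ := hPOS M hA N hN
  obtain ⟨-, -, -, -, sT, -, -⟩ := hSEG M hA
  obtain ⟨B, Q, hQ, hloc⟩ := hf
  let ι := (B → Prop × Prop) × (Q → Prop)
  let S : ι → Set M := fun κ => prt B Q a κ
  have tS : ∀ κ, TSet (S κ) := fun κ => prt_tset B Q hQ a κ
  have bS : ∀ κ, Bd (S κ) := fun κ => bd_of (a := a) fun x hx => ⟨hx.1, hx.2.1⟩
  have hex : ∀ κ : ι, ∃ (G : M[X]) (d : M), d ≠ 0 ∧ ∀ x ∈ S κ, d * f x = G.eval x := by
    intro κ
    rcases (S κ).eq_empty_or_nonempty with h | ⟨x₀, hx₀⟩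
    · refine ⟨0, 1, one_ne_zero, fun x hx => ?_⟩
      rw [h] at hx
      exact absurd hx (Set.notMem_empty x)
    · obtain ⟨G, d, hd, hG⟩ := hloc x₀
      exact ⟨G, d, hd, fun x hx => hG x (same_of_key (hx₀.2.2.trans hx.2.2.symm))⟩
  choose G d hd hG using hex
  have hinj : ∀ x y, (0 ≤ x ∧ x < a) → (0 ≤ y ∧ y < a) → f x = f y → x = y :=
    fun x y hx hy h => h2 x y hx.1 hx.2 hy.1 hy.2 h
  have hsum : ∑ κ : ι, N (S κ) = a := by
    have e1 := ps ι Finset.univ S (fun κ _ => ⟨tS κ, bS κ⟩) (by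
      intro κ _ κ' _ hne
      rw [Set.disjoint_left]
      intro x hx hx'
      exact hne (hx.2.2.symm.trans hx'.2.2))
    rw [← e1]
    have e2 : (⋃ κ ∈ (Finset.univ : Finset ι), S κ) = Seg 0 1 a := by
      rw [seg_eq]
      ext x
      simp only [Set.mem_iUnion, Finset.mem_univ, exists_prop, true_and, Set.mem_ofPred_eq]
      constructor
      · rintro ⟨κ, hx⟩
        exact ⟨hx.1, hx.2.1⟩
      · intro hx
        exact ⟨key B Q x, hx.1, hx.2, rfl⟩
    rw [e2]
    exact hN.seg 0 1 a one_ne_zero (hb.trans hab.le)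
  -- the good classes
  let bad : ι → Prop := fun κ => (S κ).Infinite ∧ 2 ≤ (G κ).natDegree
  have hgood : ∀ κ, ¬ bad κ → TSet (f '' S κ) ∧ N (f '' S κ) = N (S κ) := by
    intro κ hκ
    by_cases hfin : (S κ).Finite
    · refine ⟨bfin _ (hfin.image f), ?_⟩
      have e1 := pc hfin.toFinset
      have e2 := pc (hfin.toFinset.image f)
      rw [Set.Finite.coe_toFinset] at e1
      rw [Finset.coe_image, Set.Finite.coe_toFinset, Finset.card_image_of_injOn] at e2
      · rw [e1, e2]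
      · intro x hx y hy hxy
        rw [Set.Finite.coe_toFinset] at hx hy
        exact hinj x y ⟨hx.1, hx.2.1⟩ ⟨hy.1, hy.2.1⟩ hxy
    · have hdeg : (G κ).natDegree ≤ 1 := by
        by_contra h
        exact hκ ⟨hfin, by omega⟩
      obtain ⟨p, r, hpr⟩ := exists_eq_X_add_C_of_natDegree_le_one hdeg
      have hev : ∀ x ∈ S κ, d κ * f x = p * x + r := by
        intro x hx
        rw [hG κ x hx, hpr]
        simp
      have hp : p ≠ 0 := by
        intro hp
        apply hfin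
        apply Set.Subsingleton.finite
        intro x hx y hy
        apply hinj x y ⟨hx.1, hx.2.1⟩ ⟨hy.1, hy.2.1⟩
        apply mul_left_cancel₀ (hd κ)
        rw [hev x hx, hev y hy, hp]
        ring
      obtain ⟨c1, -, c3⟩ := hN.aff (S κ) (tS κ) (bS κ) p (d κ) r f hp (hd κ) hev
      exact ⟨c1, c3⟩
  have hbound : ∀ κ, ∀ y ∈ f '' S κ, 0 ≤ y ∧ y < b := by
    rintro κ _ ⟨x, hx, rfl⟩
    exact h1 x hx.1 hx.2.1
  let I : Finset ι := Finset.univ.filter fun κ => ¬ bad κ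
  let J : Finset ι := Finset.univ.filter fun κ => bad κ
  have hIJ : ∑ κ ∈ J, N (S κ) + ∑ κ ∈ I, N (S κ) = a := by
    rw [← hsum]
    exact Finset.sum_filter_add_sum_filter_not Finset.univ bad fun κ => N (S κ)
  set U : Set M := ⋃ κ ∈ I, f '' S κ with hU
  have tU : TSet U := bun ι I (fun κ => f '' S κ) fun κ hκ =>
    (hgood κ (Finset.mem_filter.1 hκ).2).1
  have hUb : ∀ y ∈ U, 0 ≤ y ∧ y < b := by
    intro y hy
    simp only [hU, Set.mem_iUnion, exists_prop] at hy
    obtain ⟨κ, -, hy⟩ := hy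
    exact hbound κ y hy
  have nU : N U = ∑ κ ∈ I, N (S κ) := by
    rw [hU, ps ι I (fun κ => f '' S κ)]
    · exact Finset.sum_congr rfl fun κ hκ => (hgood κ (Finset.mem_filter.1 hκ).2).2
    · intro κ hκ
      exact ⟨(hgood κ (Finset.mem_filter.1 hκ).2).1, bd_of (hbound κ)⟩
    · intro κ _ κ' _ hne
      rw [Set.disjoint_left]
      rintro _ ⟨x, hx, rfl⟩ ⟨y, hy, hxy⟩
      have h3 := hinj y x ⟨hy.1, hy.2.1⟩ ⟨hx.1, hx.2.1⟩ hxy
      rw [h3] at hy
      exact hne (hx.2.2.symm.trans hy.2.2)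
  have tb : TSet (Seg 0 1 b) := (sT 0 1 b one_ne_zero).1
  set T : Set M := Seg 0 1 b ∩ Uᶜ with hT
  have tT : TSet T := bi _ _ tb (bc _ tU)
  have bT : Bd T := bd_of (a := b) fun x hx => by
    have h3 := hx.1
    rw [seg_eq] at h3
    exact h3
  have nT : N U + N T = b := by
    rw [← hN.add U T tU tT (bd_of hUb) bT (by
      rw [Set.disjoint_left]
      intro x hx hx'
      exact hx'.2 hx)]
    have e1 : U ∪ T = Seg 0 1 b := by
      rw [hT, seg_eq]
      ext x
      simp only [Set.mem_union, Set.mem_inter_iff, Set.mem_compl_iff, Set.mem_ofPred_eq]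
      constructor
      · rintro (h | h)
        · exact hUb x h
        · exact h.1
      · intro h
        by_cases hx : x ∈ U
        · exact Or.inl hx
        · exact Or.inr ⟨h, hx⟩
    rw [e1]
    exact hN.seg 0 1 b one_ne_zero hb
  have hT0 := p0 T tT bT
  rcases J.eq_empty_or_nonempty with hJ | hJ
  · rw [hJ, Finset.sum_empty, zero_add] at hIJ
    rw [nU, hIJ] at nT
    linarith
  · obtain ⟨κ₀, hκ₀, hmax⟩ := Finset.exists_max_image J (fun κ => N (S κ)) hJ
    have hbad : bad κ₀ := (Finset.mem_filter.1 hκ₀).2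
    have hns : ¬ Std (N (S κ₀)) := fun h => hbad.1 (pf _ (tS κ₀) (bS κ₀) h)
    have h3 : ∑ κ ∈ J, N (S κ) ≤ J.card * N (S κ₀) := by
      rw [← nsmul_eq_mul]
      exact Finset.sum_le_card_nsmul J _ _ hmax
    have h4 := hBIG M hA N hN (S κ₀) T f (G κ₀) (d κ₀) (tS κ₀) (bS κ₀) tT bT hns (hd κ₀) hbad.2
      (fun x hx => ⟨hG κ₀ x hx, by
        refine ⟨?_, ?_⟩
        · rw [seg_eq]
          exact h1 x hx.1 hx.2.1
        · intro hxU
          simp only [hU, Set.mem_iUnion, exists_prop] at hxU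
          obtain ⟨κ, hκ, y, hy, hyx⟩ := hxU
          have h5 := hinj y x ⟨hy.1, hy.2.1⟩ ⟨hx.1, hx.2.1⟩ hyx
          rw [h5] at hy
          have h6 : κ = κ₀ := hy.2.2.symm.trans hx.2.2
          rw [h6] at hκ
          exact (Finset.mem_filter.1 hκ).2 hbad⟩) J.card
    linarith

end OID
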